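import Pool.Agent.QCF.Defs

/-!
# QCF: elementary facts on `LSq`, `LNm`
-/

set_option autoImplicit false

namespace Pool.Agent.QCF

open HP7 IsDedekindDomain NumberField
open scoped WithZero

section

variable {K : Type} [Field K] [NumberField K]

theorem at_mono {P Q : LocProp K} (h : ∀ (F : Type) [Field F] (i : K →+* F), P F i → Q F i)
    (w : Pl K) (hP : At P w) : At Q w := by
  cases w with
  | inl v => exact h _ _ hP
  | inr v => exact h _ _ hP

theorem at_mono2 {P Q R : LocProp K}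
    (h : ∀ (F : Type) [Field F] (i : K →+* F), P F i → Q F i → R F i)
    (w : Pl K) (hP : At P w) (hQ : At Q w) : At R w := by
  cases w with
  | inl v => exact h _ _ hP hQ
  | inr v => exact h _ _ hP hQ

theorem at_all {P : LocProp K} (h : ∀ (F : Type) [Field F] (i : K →+* F), P F i)
    (w : Pl K) : At P w := by
  cases w with
  | inl v => exact h _ _
  | inr v => exact h _ _

theorem lsq_of_isSquare (w : Pl K) {a : K} (h : IsSquare a) : LSq w a := by
  obtain ⟨c, rfl⟩ := h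
  exact at_all (P := SqOf (c * c)) (fun F _ i => ⟨i c, by rw [map_mul, sq]⟩) w

theorem lsq_mul (w : Pl K) {a b : K} (ha : LSq w a) (hb : LSq w b) : LSq w (a * b) := by
  refine at_mono2 (P := SqOf a) (Q := SqOf b) (R := SqOf (a * b)) ?_ w ha hb
  rintro F _ i ⟨x, hx⟩ ⟨y, hy⟩
  exact ⟨x * y, by rw [mul_pow, hx, hy, map_mul]⟩

theorem lsq_inv (w : Pl K) {a : K} (ha : LSq w a) : LSq w a⁻¹ := by
  refine at_mono (P := SqOf a) (Q := SqOf a⁻¹) ?_ w ha
  rintro F _ i ⟨x, hx⟩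
  exact ⟨x⁻¹, by rw [inv_pow, hx, map_inv₀]⟩

theorem lsq_one (w : Pl K) : LSq w (1 : K) := lsq_of_isSquare w ⟨1, by simp⟩

/-- the group of local squares -/
def SqG (w : Pl K) : Subgroup Kˣ where
  carrier := {a | LSq w (a : K)}
  mul_mem' := by
    intro a b ha hb
    exact lsq_mul w ha hb
  one_mem' := lsq_one w
  inv_mem' := by
    intro a ha
    have := lsq_inv w (a := (a : K)) ha
    rwa [← Units.val_inv_eq_inv_val] at this

theorem mem_SqG {w : Pl K} {a : Kˣ} : a ∈ SqG w ↔ LSq w (a : K) := Iff.rfl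

theorem mem_SU {S : Finset (Pl K)} {a : Kˣ} : a ∈ SU S ↔
    ∀ v : HeightOneSpectrum (𝓞 K), Sum.inl v ∉ S → v.valuation K (a : K) = 1 := Iff.rfl

theorem SU_mono {S S' : Finset (Pl K)} (h : S ⊆ S') : SU S ≤ SU S' :=
  fun _ ha v hv => ha v fun hv' => hv (h hv')

theorem adm_mono {S S' : Finset (Pl K)} (h : S ⊆ S') (hS : Adm S) : Adm S' := by
  obtain ⟨h1, h2, h3⟩ := hS
  refine ⟨fun w => h (h1 w), fun v hv => h2 v fun hv' => hv (h hv'), fun v hv => ?_⟩
  obtain ⟨π, hπ, hu⟩ := h3 v fun hv' => hv (h hv')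
  exact ⟨π, hπ, fun u hu1 hu2 => hu u (fun hu' => hu1 (h hu')) hu2⟩

theorem mem_sqs {G : Type*} [CommGroup G] {a : G} : a ∈ sqs G ↔ ∃ c : G, c ^ 2 = a := Iff.rfl

theorem isSquare_iff_mem_sqs {a : Kˣ} : a ∈ sqs Kˣ ↔ IsSquare (a : K) := by
  constructor
  · rintro ⟨c, rfl⟩
    exact ⟨(c : K), by simp [sq]⟩
  · rintro ⟨c, hc⟩
    have hc0 : c ≠ 0 := by
      rintro rfl
      rw [mul_zero] at hc
      exact a.ne_zero hc
    refine ⟨Units.mk0 c hc0, ?_⟩
    ext
    simp [sq, hc]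

theorem mem_addPl {S : Finset (Pl K)} {T : Finset (HeightOneSpectrum (𝓞 K))} {w : Pl K} :
    w ∈ addPl S T ↔ w ∈ S ∨ ∃ v ∈ T, w = Sum.inl v := by
  classical
  unfold addPl finPl
  rw [Finset.mem_union, Finset.mem_map]
  constructor
  · rintro (h | ⟨v, hv, rfl⟩)
    · exact Or.inl h
    · exact Or.inr ⟨v, hv, rfl⟩
  · rintro (h | ⟨v, hv, rfl⟩)
    · exact Or.inl h
    · exact Or.inr ⟨v, hv, rfl⟩

theorem subset_addPl (S : Finset (Pl K)) (T : Finset (HeightOneSpectrum (𝓞 K))) :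
    S ⊆ addPl S T := fun _ hw => mem_addPl.2 (Or.inl hw)

/-! ### norm forms -/

theorem lnm_of_lsq (w : Pl K) {a : K} (ha : a ≠ 0) (b : K) (h : LSq w a) : LNm w a b := by
  refine at_mono (P := SqOf a) (Q := NormOf a b) ?_ w h
  rintro F _ i ⟨x, hx⟩
  have : CharZero F := charZero_of_injective_ringHom i.injective
  have hx0 : x ≠ 0 := by
    rintro rfl
    rw [zero_pow two_ne_zero] at hx
    exact ha ((map_eq_zero i).1 hx.symm)
  refine ⟨(i b + 1) / 2, (i b - 1) / (2 * x), ?_⟩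
  rw [← hx]
  field_simp
  ring

theorem lnm_symm (w : Pl K) {a b : K} (ha : a ≠ 0) (hb : b ≠ 0) (h : LNm w a b) : LNm w b a := by
  refine at_mono (P := NormOf a b) (Q := NormOf b a) ?_ w h
  rintro F _ i ⟨x, y, hxy⟩
  have : CharZero F := charZero_of_injective_ringHom i.injective
  have ha' : i a ≠ 0 := (map_ne_zero i).2 ha
  have hb' : i b ≠ 0 := (map_ne_zero i).2 hb
  by_cases hy : y = 0
  · -- `b = x ^ 2` is a square
    subst hy
    have hx0 : x ≠ 0 := by
      rintro rfl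
      apply hb'
      rw [← hxy]
      ring
    have hbx : i b = x ^ 2 := by rw [← hxy]; ring
    refine ⟨(i a + 1) / 2, (i a - 1) / (2 * x), ?_⟩
    rw [hbx]
    field_simp
    ring
  · refine ⟨x / y, 1 / y, ?_⟩
    field_simp
    linear_combination hxy

theorem lnm_mul (w : Pl K) {a b c : K} (hb : LNm w a b) (hc : LNm w a c) :
    LNm w a (b * c) := by
  refine at_mono2 (P := NormOf a b) (Q := NormOf a c) (R := NormOf a (b * c)) ?_ w hb hc
  rintro F _ i ⟨x, y, hxy⟩ ⟨z, t, hzt⟩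
  refine ⟨x * z + i a * y * t, x * t + y * z, ?_⟩
  rw [map_mul, ← hxy, ← hzt]
  ring

theorem lnm_mul_sq (w : Pl K) {a b c : K} (hb : LNm w a b) : LNm w a (b * c ^ 2) := by
  refine at_mono (P := NormOf a b) (Q := NormOf a (b * c ^ 2)) ?_ w hb
  rintro F _ i ⟨x, y, hxy⟩
  refine ⟨x * i c, y * i c, ?_⟩
  rw [map_mul, map_pow, ← hxy]
  ring

theorem lnm_mul_iff (w : Pl K) {a b c : K} (hb0 : b ≠ 0) (hb : LNm w a b) :
    LNm w a (b * c) ↔ LNm w a c := by
  constructor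
  · intro h
    have h1 := lnm_mul_sq w (c := b⁻¹) (lnm_mul w hb h)
    have e : b * (b * c) * b⁻¹ ^ 2 = c := by field_simp
    rwa [e] at h1
  · exact lnm_mul w hb

end

end Pool.Agent.QCF
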