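import Pool.Agent.HP7.Defs

/-!
# QCF: quadratic class field theory of number fields (definitions)

Block CFT of HP7 (MP_d4938b_nt). Everything is expressed on the level of the number field `K`:
`LSq w a` (`a` is a square in the completion at `w`), `LNm w a b` (`b = x ^ 2 - a y ^ 2` is solvable
in the completion at `w`), the Hilbert symbol `sgn w a b`, and `S`-units `SU S`.
-/

set_option autoImplicit false

namespace Pool.Agent.QCF

open HP7 IsDedekindDomain NumberField
open scoped WithZero

section Places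

variable {K : Type} [Field K] [NumberField K]

/-- `a` is a square in the completion at `w` -/
def LSq (w : Pl K) (a : K) : Prop := At (SqOf a) w

/-- `b = x ^ 2 - a y ^ 2` is solvable in the completion at `w` -/
def LNm (w : Pl K) (a b : K) : Prop := At (NormOf a b) w

open Classical in
/-- the Hilbert symbol at `w` -/
noncomputable def sgn (w : Pl K) (a b : Kˣ) : ℤˣ := if LNm w (a : K) (b : K) then 1 else -1

open Classical in
/-- the quadratic character: `1` if `a` is a square at `w`, else `-1` -/
noncomputable def chi (w : Pl K) (a : Kˣ) : ℤˣ := if LSq w (a : K) then 1 else -1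

/-- the valuation of `b` at `v` is even -/
def EvenAt (v : HeightOneSpectrum (𝓞 K)) (b : K) : Prop :=
  ∃ k : ℤ, v.valuation K b = WithZero.exp (2 * k)

/-- `S`-units -/
noncomputable def SU (S : Finset (Pl K)) : Subgroup Kˣ where
  carrier := {x | ∀ v : HeightOneSpectrum (𝓞 K), Sum.inl v ∉ S → v.valuation K (x : K) = 1}
  mul_mem' := by
    intro x y hx hy v hv
    rw [Units.val_mul, map_mul, hx v hv, hy v hv, one_mul]
  one_mem' := by
    intro v _
    simp
  inv_mem' := by
    intro x hx v hv
    rw [Units.val_inv_eq_inv_val, map_inv₀, hx v hv, inv_one]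

/-- admissible sets of places: they contain all infinite and all dyadic places, and every prime
outside `S` has a generator up to `S` -/
def Adm (S : Finset (Pl K)) : Prop :=
  (∀ w : InfinitePlace K, Sum.inr w ∈ S) ∧
  (∀ v : HeightOneSpectrum (𝓞 K), Sum.inl v ∉ S → v.valuation K (2 : K) = 1) ∧
  (∀ v : HeightOneSpectrum (𝓞 K), Sum.inl v ∉ S → ∃ π : Kˣ,
    v.valuation K (π : K) = WithZero.exp (-1 : ℤ) ∧
    ∀ u : HeightOneSpectrum (𝓞 K), Sum.inl u ∉ S → u ≠ v → u.valuation K (π : K) = 1)

open Classical in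
/-- the number of places of `S` where `a` is not a square -/
noncomputable def ns (S : Finset (Pl K)) (a : K) : ℕ := (S.filter fun w => ¬ LSq w a).card

/-- the image of a set of primes in the set of places -/
noncomputable def finPl (T : Finset (HeightOneSpectrum (𝓞 K))) : Finset (Pl K) :=
  T.map ⟨Sum.inl, Sum.inl_injective⟩

open Classical in
/-- `S` together with the primes in `T` -/
noncomputable def addPl (S : Finset (Pl K)) (T : Finset (HeightOneSpectrum (𝓞 K))) :
    Finset (Pl K) := S ∪ finPl T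

/-- `T` is a set of primes outside `S` such that the quadratic characters `chi v`, `v ∈ T`, are
coordinates on the group of `S`-units modulo squares -/
structure Aux (S : Finset (Pl K)) (T : Finset (HeightOneSpectrum (𝓞 K))) : Prop where
  out : ∀ v ∈ T, (Sum.inl v : Pl K) ∉ S
  card : T.card = S.card
  inj : ∀ a ∈ SU S, (∀ v ∈ T, LSq (Sum.inl v) (a : K)) → IsSquare (a : K)
  dual : ∀ v ∈ T, ∃ a ∈ SU S, ¬ LSq (Sum.inl v) (a : K) ∧ ∀ u ∈ T, u ≠ v → LSq (Sum.inl u) (a : K)

end Places

/-- the group of squares -/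
def sqs (G : Type*) [CommGroup G] : Subgroup G := (powMonoidHom 2 : G →* G).range

section Below

variable {K L : Type} [Field K] [NumberField K] [Field L] [NumberField L] [Algebra K L]

/-- the place of `K` below a place of `L` -/
noncomputable def below (K : Type) {L : Type} [Field K] [NumberField K] [Field L] [NumberField L]
    [Algebra K L] : Pl L → Pl K
  | Sum.inl w => Sum.inl (w.under (𝓞 K))
  | Sum.inr w => Sum.inr (w.comap (algebraMap K L))

/-- the places of `L` above a set of places of `K` (a finite set, see `St_Fib`) -/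
def abovePl (L : Type) [Field L] [NumberField L] [Algebra K L] (S : Finset (Pl K)) : Set (Pl L) :=
  {w | below K w ∈ S}

/-- data of a quadratic extension `L = K(ω)`, `ω ^ 2 = a`, `a` not a square in `K` -/
structure QE (K L : Type) [Field K] [Field L] [Algebra K L] (a : K) where
  ω : L
  sq : ω ^ 2 = algebraMap K L a
  nsq : ¬ IsSquare a
  repr : ∀ z : L, ∃ x y : K, z = algebraMap K L x + algebraMap K L y * ω
  σ : L ≃ₐ[K] L
  hσ : σ ω = -ω

end Below

/-! ### Squaring quotients of abelian groups -/

/-- `|G / G ^ 2| = n |G[2]|`, all finite, `n ≥ 1` -/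
def HasQ (G : Type*) [CommGroup G] (n : ℕ) : Prop :=
  n ≠ 0 ∧ Finite (powMonoidHom 2 : G →* G).ker ∧
    (sqs G).index = n * Nat.card (powMonoidHom 2 : G →* G).ker

/-! ### Local fields -/

/-- discretely valued field with residue field of `N` elements in which `1 + 4 μ` is a square
for `v μ < 1` (consequence of completeness) -/
structure IsLF (F : Type) [Field F] (v : Valuation F ℤᵐ⁰) (N : ℕ) : Prop where
  surj : ∀ n : ℤ, ∃ x : F, v x = WithZero.exp n
  two : (2 : F) ≠ 0
  hensel : ∀ μ : F, v μ < 1 → ∃ x : F, x ^ 2 = 1 + 4 * μ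
  res : ∃ R : Finset F, R.card = N ∧ (∀ r ∈ R, v r ≤ 1) ∧
    ∀ x, v x ≤ 1 → ∃! r, r ∈ R ∧ v (x - r) < 1

section LF

variable {F : Type} [Field F]

/-- the group of `m`-units; `UU v 0` is the group of all units -/
def UU (v : Valuation F ℤᵐ⁰) (m : ℕ) : Subgroup Fˣ where
  carrier := {x | v (x : F) = 1 ∧ v ((x : F) - 1) ≤ WithZero.exp (-(m : ℤ))}
  mul_mem' := by
    rintro x y ⟨hx, hx'⟩ ⟨hy, hy'⟩
    refine ⟨by rw [Units.val_mul, map_mul, hx, hy, one_mul], ?_⟩
    have : ((x * y : Fˣ) : F) - 1 = (x : F) * ((y : F) - 1) + ((x : F) - 1) := by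
      rw [Units.val_mul]; ring
    rw [this]
    refine (Valuation.map_add _ _ _).trans (max_le ?_ hx')
    rw [map_mul, hx, one_mul]
    exact hy'
  one_mem' := ⟨by simp, by simp⟩
  inv_mem' := by
    rintro x ⟨hx, hx'⟩
    have hx0 : (x : F) ≠ 0 := x.ne_zero
    refine ⟨by rw [Units.val_inv_eq_inv_val, map_inv₀, hx, inv_one], ?_⟩
    have : ((x⁻¹ : Fˣ) : F) - 1 = -((x : F)⁻¹ * ((x : F) - 1)) := by
      rw [Units.val_inv_eq_inv_val]; field_simp; ring
    rw [this, Valuation.map_neg, map_mul, map_inv₀, hx, inv_one, one_mul]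
    exact hx'

/-- quadratic algebra `F[ω]`, `ω ^ 2 = b` -/
abbrev QA (F : Type) [Field F] (b : F) : Type := QuadraticAlgebra F b 0

/-- `z = x + y ω` is congruent to `1` modulo the `m`-th power of the maximal ideal -/
def InA (v : Valuation F ℤᵐ⁰) {b : F} (m : ℕ) (z : QA F b) : Prop :=
  v (z.re - 1) ≤ WithZero.exp (-(m : ℤ)) ∧ v z.im ≤ WithZero.exp (-(m : ℤ))

lemma v_norm_of_InA (v : Valuation F ℤᵐ⁰) {b : F} (hb : v b ≤ 1) {m : ℕ} {z : QA F b}
    (hz : InA v (m + 1) z) : v (QuadraticAlgebra.norm z) = 1 ∧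
      v z.re = 1 ∧ v (QuadraticAlgebra.norm z - 1) ≤ WithZero.exp (-((m + 1 : ℕ) : ℤ)) := by
  obtain ⟨h1, h2⟩ := hz
  have hexp : (WithZero.exp (-((m + 1 : ℕ) : ℤ)) : ℤᵐ⁰) < 1 := by
    rw [← WithZero.exp_zero, WithZero.exp_lt_exp]
    push_cast
    omega
  have hre : v z.re = 1 := by
    have : z.re = 1 + (z.re - 1) := by ring
    rw [this, Valuation.map_add_eq_of_lt_left]
    · exact map_one v
    · rw [map_one]
      exact h1.trans_lt hexp
  have hn : QuadraticAlgebra.norm z - 1 =
      (z.re + 1) * (z.re - 1) + (-(b * z.im) * z.im) := by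
    rw [QuadraticAlgebra.norm_def]; ring
  have hre1 : v (z.re + 1) ≤ 1 := by
    refine (Valuation.map_add _ _ _).trans (max_le hre.le (by rw [map_one]))
  have him1 : v z.im ≤ 1 := h2.trans hexp.le
  have hN : v (QuadraticAlgebra.norm z - 1) ≤ WithZero.exp (-((m + 1 : ℕ) : ℤ)) := by
    rw [hn]
    refine (Valuation.map_add _ _ _).trans (max_le ?_ ?_)
    · rw [map_mul]
      calc v (z.re + 1) * v (z.re - 1) ≤ 1 * v (z.re - 1) := by gcongr
        _ ≤ _ := by rw [one_mul]; exact h1
    · rw [map_mul, Valuation.map_neg, map_mul]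
      calc v b * v z.im * v z.im ≤ 1 * 1 * v z.im := by gcongr
        _ ≤ _ := by rw [one_mul, one_mul]; exact h2
  refine ⟨?_, hre, hN⟩
  have : QuadraticAlgebra.norm z = 1 + (QuadraticAlgebra.norm z - 1) := by ring
  rw [this, Valuation.map_add_eq_of_lt_left]
  · exact map_one v
  · rw [map_one]
    exact hN.trans_lt hexp

/-- the elements of `F[ω]` congruent to `1` modulo the `(m+1)`-st power of the maximal ideal -/
def AG (v : Valuation F ℤᵐ⁰) {b : F} (hb : v b ≤ 1) (m : ℕ) : Subgroup (QA F b)ˣ where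
  carrier := {z | InA v (m + 1) (z : QA F b)}
  mul_mem' := by
    rintro x y hx hy
    obtain ⟨-, hx1, -⟩ := v_norm_of_InA v hb hx
    obtain ⟨-, hy1, -⟩ := v_norm_of_InA v hb hy
    obtain ⟨hx2, hx3⟩ := hx
    obtain ⟨hy2, hy3⟩ := hy
    have hexp : (WithZero.exp (-((m + 1 : ℕ) : ℤ)) : ℤᵐ⁰) ≤ 1 := by
      rw [← WithZero.exp_zero, WithZero.exp_le_exp]
      push_cast
      omega
    constructor
    · have : ((x * y : (QA F b)ˣ) : QA F b).re - 1 = (x : QA F b).re * ((y : QA F b).re - 1) +
          ((x : QA F b).re - 1) + b * (x : QA F b).im * (y : QA F b).im := by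
        rw [Units.val_mul, QuadraticAlgebra.re_mul]; ring
      rw [this]
      refine (Valuation.map_add _ _ _).trans (max_le ((Valuation.map_add _ _ _).trans
        (max_le ?_ hx2)) ?_)
      · rw [map_mul, hx1, one_mul]; exact hy2
      · rw [map_mul, map_mul]
        calc v b * v (x : QA F b).im * v (y : QA F b).im ≤ 1 * 1 * v (y : QA F b).im := by
              gcongr
              exact hx3.trans hexp
          _ ≤ _ := by rw [one_mul, one_mul]; exact hy3
    · have : ((x * y : (QA F b)ˣ) : QA F b).im = (x : QA F b).re * (y : QA F b).im +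
          (x : QA F b).im * (y : QA F b).re := by
        rw [Units.val_mul, QuadraticAlgebra.im_mul]; ring
      rw [this]
      refine (Valuation.map_add _ _ _).trans (max_le ?_ ?_)
      · rw [map_mul, hx1, one_mul]; exact hy3
      · rw [map_mul, hy1, mul_one]; exact hx3
  one_mem' := by
    constructor
    · rw [Units.val_one, QuadraticAlgebra.re_one, sub_self, map_zero]
      exact zero_le'
    · rw [Units.val_one, QuadraticAlgebra.im_one, map_zero]
      exact zero_le'
  inv_mem' := by
    rintro x hx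
    obtain ⟨hN, hre, hN1⟩ := v_norm_of_InA v hb hx
    obtain ⟨hx2, hx3⟩ := hx
    have hN0 : QuadraticAlgebra.norm (x : QA F b) ≠ 0 := by
      intro h
      rw [h, map_zero] at hN
      exact zero_ne_one hN
    have hinv : ((x⁻¹ : (QA F b)ˣ) : QA F b) =
        (QuadraticAlgebra.norm (x : QA F b))⁻¹ • star (x : QA F b) := by
      have h1 : (x : QA F b) * ((QuadraticAlgebra.norm (x : QA F b))⁻¹ • star (x : QA F b)) = 1 := by
        rw [mul_smul_comm, ← QuadraticAlgebra.algebraMap_norm_eq_mul_star,
          Algebra.algebraMap_eq_smul_one, smul_smul, inv_mul_cancel₀ hN0, one_smul]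
      calc ((x⁻¹ : (QA F b)ˣ) : QA F b) = ((x⁻¹ : (QA F b)ˣ) : QA F b) *
            ((x : QA F b) * ((QuadraticAlgebra.norm (x : QA F b))⁻¹ • star (x : QA F b))) := by
              rw [h1, mul_one]
        _ = _ := by rw [← mul_assoc, Units.inv_mul, one_mul]
    constructor
    · have : ((x⁻¹ : (QA F b)ˣ) : QA F b).re - 1 = (QuadraticAlgebra.norm (x : QA F b))⁻¹ *
          (((x : QA F b).re - 1) - (QuadraticAlgebra.norm (x : QA F b) - 1)) := by
        rw [hinv, QuadraticAlgebra.re_smul, QuadraticAlgebra.re_star, smul_eq_mul, zero_mul,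
          add_zero, mul_sub, mul_sub, mul_sub, inv_mul_cancel₀ hN0, mul_one]
        ring
      rw [this, map_mul, map_inv₀, hN, inv_one, one_mul]
      exact (Valuation.map_sub _ _ _).trans (max_le hx2 hN1)
    · have : ((x⁻¹ : (QA F b)ˣ) : QA F b).im = (QuadraticAlgebra.norm (x : QA F b))⁻¹ *
          (-(x : QA F b).im) := by
        rw [hinv, QuadraticAlgebra.im_smul, QuadraticAlgebra.im_star]
        simp
      rw [this, map_mul, map_inv₀, hN, inv_one, one_mul, Valuation.map_neg]
      exact hx3

end LF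

end Pool.Agent.QCF
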