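import Pool.Agent.QCF.Basic

/-!
# QCF: frozen statements
-/

set_option autoImplicit false

namespace Pool.Agent.QCF

open HP7 IsDedekindDomain NumberField
open scoped WithZero

/-! ## G. groups -/

/-- [G1] multiplicativity of the squaring quotient -/
def St_G1 : Prop := ∀ (G : Type) [CommGroup G] (H : Subgroup G) (m n : ℕ),
  HasQ H m → HasQ (G ⧸ H) n → HasQ G (m * n)

/-- [G2] finite groups, isomorphic groups, free groups, groups with bijective-like squaring -/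
def St_G2 : Prop :=
  (∀ (G : Type) [CommGroup G], Finite G → HasQ G 1) ∧
  (∀ (G H : Type) [CommGroup G] [CommGroup H] (n : ℕ), Nonempty (G ≃* H) → HasQ G n → HasQ H n) ∧
  (∀ (G : Type) [CommGroup G] (r : ℕ), Nonempty (Additive G ≃+ (Fin r → ℤ)) → HasQ G (2 ^ r)) ∧
  (∀ (G : Type) [CommGroup G] (n : ℕ), n ≠ 0 → (∀ x : G, x ^ 2 = 1 → x = 1) → (sqs G).index = n →
    HasQ G n)

/-- [G3] exact sequence `A/2 → B/2 → A/2` -/
def St_G3 : Prop := ∀ (A B : Type) [CommGroup A] [CommGroup B] (i : A →* B) (N : B →* A) (β : A),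
  (∀ a, N (i a) = a ^ 2) → i β ∈ sqs B → β ∉ sqs A →
  (∀ a, i a ∈ sqs B → a ∈ sqs A ∨ a * β ∈ sqs A) →
  (∀ z, N z ∈ sqs A → ∃ a t, z = i a * t ^ 2) →
  (sqs A).index ≠ 0 → (sqs B).index ≠ 0 →
  (sqs A).index ^ 2 = 2 * N.range.index * (sqs B).index

/-- [G4] a sign vector outside a subgroup is separated by a product of coordinates -/
def St_G4 : Prop := ∀ (ι : Type) [Finite ι] (I : Subgroup (ι → ℤˣ)) (s : ι → ℤˣ), s ∉ I →
  ∃ C : Finset ι, (∀ t ∈ I, ∏ i ∈ C, t i = 1) ∧ ∏ i ∈ C, s i = -1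

/-- [G5] a family of characters which separates `G` modulo squares contains coordinates -/
def St_G5 : Prop := ∀ (G P : Type) [CommGroup G] (χ : P → G →* ℤˣ) (n : ℕ),
  (sqs G).index = 2 ^ n → (∀ g, (∀ v, χ v g = 1) → g ∈ sqs G) →
  ∃ T : Finset P, T.card = n ∧ (∀ g, (∀ v ∈ T, χ v g = 1) → g ∈ sqs G) ∧
    ∀ v ∈ T, ∃ g, χ v g = -1 ∧ ∀ u ∈ T, u ≠ v → χ u g = 1

/-! ## L. local fields -/

/-- [L1] completions -/
def St_L1 : Prop := ∀ (K : Type) [Field K] [NumberField K] (v : HeightOneSpectrum (𝓞 K)),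
  IsLF (v.adicCompletion K) (Valued.v : Valuation (v.adicCompletion K) ℤᵐ⁰)
    (Ideal.absNorm v.asIdeal)

/-- [L2] filtration of the units -/
def St_L2 : Prop := ∀ (F : Type) [Field F] (v : Valuation F ℤᵐ⁰) (N : ℕ), IsLF F v N →
  2 ≤ N ∧ (∀ m : ℕ, 1 ≤ m → (UU v (m + 1)).relIndex (UU v m) = N) ∧
    ∀ m : ℕ, (UU v m).relIndex (UU v 0) ≠ 0

/-- [L3] squaring on the filtration -/
def St_L3 : Prop := ∀ (F : Type) [Field F] (v : Valuation F ℤᵐ⁰) (N e m : ℕ), IsLF F v N →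
  v 2 = WithZero.exp (-(e : ℤ)) → e + 1 ≤ m →
  (∀ x ∈ UU v m, x ^ 2 ∈ UU v (m + e)) ∧ (∀ z ∈ UU v (m + e), ∃ x ∈ UU v m, x ^ 2 = z) ∧
    ∀ x ∈ UU v m, x ^ 2 = 1 → x = 1

/-- [L4] the squaring quotient of the multiplicative group -/
def St_L4 : Prop := ∀ (F : Type) [Field F] (v : Valuation F ℤᵐ⁰) (N e : ℕ), IsLF F v N →
  v 2 = WithZero.exp (-(e : ℤ)) → HasQ Fˣ (2 * N ^ e) ∧ (sqs Fˣ).index = 4 * N ^ e

/-- [L5] filtration of the units of `F[ω]` -/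
def St_L5 : Prop := ∀ (F : Type) [Field F] (v : Valuation F ℤᵐ⁰) (N : ℕ) (b : F) (hb : v b ≤ 1),
  IsLF F v N → ∀ m : ℕ, (AG v hb (m + 1)).relIndex (AG v hb m) = N ^ 2

/-- [L6] squaring on this filtration -/
def St_L6 : Prop := ∀ (F : Type) [Field F] (v : Valuation F ℤᵐ⁰) (N e m : ℕ) (b : F)
  (hb : v b ≤ 1), IsLF F v N → ¬ IsSquare b →
  v 2 = WithZero.exp (-(e : ℤ)) → 3 * e + 1 ≤ m →
  (∀ x ∈ AG v hb m, x ^ 2 ∈ AG v hb (m + e)) ∧
  (∀ z ∈ AG v hb (m + e), ∃ x ∈ AG v hb m, x ^ 2 = z) ∧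
    ∀ x ∈ AG v hb m, x ^ 2 = 1 → x = 1

/-- [L7] anisotropy: elements with unit norm are bounded -/
def St_L7 : Prop := ∀ (F : Type) [Field F] (v : Valuation F ℤᵐ⁰) (N : ℕ) (b : F),
  IsLF F v N → b ≠ 0 → ¬ IsSquare b → v b ≤ 1 →
  ∃ M : ℕ, ∀ x y : F, v (x ^ 2 - b * y ^ 2) = 1 →
    v x ≤ WithZero.exp (M : ℤ) ∧ v y ≤ WithZero.exp (M : ℤ)

/-- [L8] the units of norm with valuation `1` modulo the filtration are a finite group -/
def St_L8 : Prop := ∀ (F : Type) [Field F] (v : Valuation F ℤᵐ⁰) (N : ℕ) (b : F)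
  (hb : v b ≤ 1), IsLF F v N → b ≠ 0 → ¬ IsSquare b →
  ∃ H : Subgroup (QA F b)ˣ, (∀ z : (QA F b)ˣ, z ∈ H ↔ v (QuadraticAlgebra.norm (z : QA F b)) = 1) ∧
    ∀ m : ℕ, AG v hb m ≤ H ∧ (AG v hb m).relIndex H ≠ 0

/-- [L9] the squaring quotient of the multiplicative group of the quadratic extension -/
def St_L9 : Prop := ∀ (F : Type) [Field F] (v : Valuation F ℤᵐ⁰) (N e : ℕ) (b : F),
  IsLF F v N → b ≠ 0 → ¬ IsSquare b → v b ≤ 1 → v 2 = WithZero.exp (-(e : ℤ)) →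
  (sqs (QA F b)ˣ).index = 4 * N ^ (2 * e)

/-- [L10] the norm index of a quadratic extension is `2` -/
def St_L10 : Prop := ∀ (F : Type) [Field F] (v : Valuation F ℤᵐ⁰) (N : ℕ), IsLF F v N →
  ∀ a : F, a ≠ 0 → ¬ IsSquare a →
    (∃ b : F, b ≠ 0 ∧ ¬ ∃ x y : F, x ^ 2 - a * y ^ 2 = b) ∧
    ∀ b c : F, b ≠ 0 → c ≠ 0 → (¬ ∃ x y : F, x ^ 2 - a * y ^ 2 = b) →
      (¬ ∃ x y : F, x ^ 2 - a * y ^ 2 = c) → ∃ x y : F, x ^ 2 - a * y ^ 2 = b * c

/-- [L11] `K` is dense in the completions, modulo squares -/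
def St_L11 : Prop := ∀ (K : Type) [Field K] [NumberField K] (v : HeightOneSpectrum (𝓞 K))
  (x : v.adicCompletion K), x ≠ 0 → ∃ (a : Kˣ) (y : v.adicCompletion K), y ≠ 0 ∧
    x = algebraMap K (v.adicCompletion K) (a : K) * y ^ 2

/-- [L12] local squares and norms in terms of `K`, finite places -/
def St_L12 : Prop := ∀ (K : Type) [Field K] [NumberField K] (v : HeightOneSpectrum (𝓞 K))
  (a : Kˣ), (LSq (Sum.inl v) (a : K) ↔ ∃ x : K, v.valuation K ((a : K) - x ^ 2) <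
      v.valuation K (4 * (a : K))) ∧
    ∀ b : Kˣ, (LNm (Sum.inl v) (a : K) (b : K) ↔ ∃ x y : K,
      v.valuation K ((b : K) - (x ^ 2 - (a : K) * y ^ 2)) < v.valuation K (4 * (b : K)))

/-- [L13] local squares and norms in terms of `K`, infinite places -/
def St_L13 : Prop := ∀ (K : Type) [Field K] [NumberField K] (w : InfinitePlace K) (a : Kˣ),
  (w.IsComplex → LSq (Sum.inr w) (a : K)) ∧
  (w.IsReal → (LSq (Sum.inr w) (a : K) ↔ 0 < (w.embedding (a : K)).re)) ∧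
  (w.IsReal → ∀ b : Kˣ, (LNm (Sum.inr w) (a : K) (b : K) ↔
    (0 < (w.embedding (a : K)).re ∨ 0 < (w.embedding (b : K)).re)))

/-- [L14] index of the local squares -/
def St_L14 : Prop := ∀ (K : Type) [Field K] [NumberField K],
  (∀ (v : HeightOneSpectrum (𝓞 K)) (e : ℕ), v.valuation K (2 : K) = WithZero.exp (-(e : ℤ)) →
    (SqG (Sum.inl v : Pl K)).index = 4 * (Ideal.absNorm v.asIdeal) ^ e) ∧
  (∀ w : InfinitePlace K, w.IsReal → (SqG (Sum.inr w : Pl K)).index = 2) ∧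
  (∀ w : InfinitePlace K, w.IsComplex → (SqG (Sum.inr w : Pl K)).index = 1)

/-- [L15] product formula for the indices of the local squares -/
def St_L15 : Prop := ∀ (K : Type) [Field K] [NumberField K] (S : Finset (Pl K)),
  (∀ w : InfinitePlace K, Sum.inr w ∈ S) →
  (∀ v : HeightOneSpectrum (𝓞 K), Sum.inl v ∉ S → v.valuation K (2 : K) = 1) →
  ∏ w ∈ S, (SqG w).index = 4 ^ S.card

/-- [L16] norm index `2`, on the level of `K`, all places -/
def St_L16 : Prop := ∀ (K : Type) [Field K] [NumberField K] (w : Pl K) (a : Kˣ),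
  (¬ LSq w (a : K) → ∃ b : Kˣ, ¬ LNm w (a : K) (b : K)) ∧
  ∀ b c : Kˣ, ¬ LNm w (a : K) (b : K) → ¬ LNm w (a : K) (c : K) → LNm w (a : K) ((b * c : Kˣ) : K)

/-- [L17] the Hilbert symbol -/
def St_L17 : Prop := ∀ (K : Type) [Field K] [NumberField K] (w : Pl K),
  (∀ a b c : Kˣ, sgn w a (b * c) = sgn w a b * sgn w a c) ∧
  (∀ a b : Kˣ, sgn w a b = sgn w b a) ∧
  (∀ a b : Kˣ, LSq w (a : K) → sgn w a b = 1) ∧
  (∀ a : Kˣ, ¬ LSq w (a : K) → ∃ b, sgn w a b = -1)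

/-- [L18] unramified extensions at nondyadic places -/
def St_L18 : Prop := ∀ (K : Type) [Field K] [NumberField K] (v : HeightOneSpectrum (𝓞 K))
  (a b : Kˣ), v.valuation K (2 : K) = 1 → EvenAt v (a : K) → ¬ LSq (Sum.inl v) (a : K) →
  (LNm (Sum.inl v) (a : K) (b : K) ↔ EvenAt v (b : K))

/-- [L19] symbols at nondyadic places: consequences of [L17], [L18] -/
def St_L19 : Prop := ∀ (K : Type) [Field K] [NumberField K] (v : HeightOneSpectrum (𝓞 K)),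
  v.valuation K (2 : K) = 1 →
  (∀ a b : Kˣ, EvenAt v (a : K) → EvenAt v (b : K) → sgn (Sum.inl v) a b = 1) ∧
  (∀ a b : Kˣ, EvenAt v (a : K) → ¬ LSq (Sum.inl v) (a : K) → ¬ EvenAt v (b : K) →
    sgn (Sum.inl v) a b = -1) ∧
  (∀ a b : Kˣ, EvenAt v (a : K) → ¬ EvenAt v (b : K) →
    sgn (Sum.inl v) a b = chi (Sum.inl v) a ∧ sgn (Sum.inl v) b a = chi (Sum.inl v) a) ∧
  (∀ a b : Kˣ, EvenAt v (a : K) → EvenAt v (b : K) →
    chi (Sum.inl v) (a * b) = chi (Sum.inl v) a * chi (Sum.inl v) b)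

/-- [L20] weak approximation modulo squares -/
def St_L20 : Prop := ∀ (K : Type) [Field K] [NumberField K] (S : Finset (Pl K)) (x : Pl K → Kˣ),
  ∃ a : Kˣ, ∀ w ∈ S, LSq w ((a * x w : Kˣ) : K)

/-- [L21] local squares go up -/
def St_L21 : Prop := ∀ (K L : Type) [Field K] [NumberField K] [Field L] [NumberField L]
  [Algebra K L] (w : Pl L) (a : Kˣ), LSq (below K w) (a : K) → LSq w (algebraMap K L (a : K))

/-! ## N. number fields -/

/-- [N1] existence of admissible sets -/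
def St_N1 : Prop := ∀ (K : Type) [Field K] [NumberField K],
  (∀ T : Finset (Pl K), ∃ S, T ⊆ S ∧ Adm S) ∧ (∀ a : Kˣ, ∃ S : Finset (Pl K), a ∈ SU S)

/-- [N2] Dirichlet's theorem: units modulo squares -/
def St_N2 : Prop := ∀ (K : Type) [Field K] [NumberField K],
  HasQ (𝓞 K)ˣ (2 ^ (Fintype.card (InfinitePlace K) - 1))

/-- [N3] `S`-units modulo units -/
def St_N3 : Prop := ∀ (K : Type) [Field K] [NumberField K] (S : Finset (Pl K)),
  (∀ w : InfinitePlace K, Sum.inr w ∈ S) →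
  ∃ U : Subgroup (SU S), Nonempty (U ≃* (𝓞 K)ˣ) ∧
    HasQ (SU S ⧸ U) (2 ^ (S.card - Fintype.card (InfinitePlace K)))

/-- [N4] `S`-units modulo squares -/
def St_N4 : Prop := ∀ (K : Type) [Field K] [NumberField K] (S : Finset (Pl K)),
  (∀ w : InfinitePlace K, Sum.inr w ∈ S) →
  (sqs Kˣ).relIndex (SU S) = 2 ^ S.card ∧ (sqs (SU S)).index = 2 ^ S.card

/-- [N5] quadratic extensions exist -/
def St_N5 : Prop := ∀ (K : Type) [Field K] [NumberField K] (a : Kˣ), ¬ IsSquare (a : K) →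
  ∃ (L : Type) (_ : Field L) (_ : NumberField L) (_ : Algebra K L), Nonempty (QE K L (a : K))

/-- [N6] places of the quadratic extension: finite places -/
def St_N6 : Prop := ∀ (K L : Type) [Field K] [NumberField K] [Field L] [NumberField L]
  [Algebra K L] (a : Kˣ) (_ : QE K L (a : K)) (v : HeightOneSpectrum (𝓞 K)),
  (LSq (Sum.inl v) (a : K) → {w : HeightOneSpectrum (𝓞 L) | w.under (𝓞 K) = v}.ncard = 2) ∧
  (¬ LSq (Sum.inl v) (a : K) → {w : HeightOneSpectrum (𝓞 L) | w.under (𝓞 K) = v}.ncard = 1)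

/-- [N7] places of the quadratic extension: infinite places -/
def St_N7 : Prop := ∀ (K L : Type) [Field K] [NumberField K] [Field L] [NumberField L]
  [Algebra K L] (a : Kˣ) (_ : QE K L (a : K)) (v : InfinitePlace K),
  (LSq (Sum.inr v) (a : K) →
    {w : InfinitePlace L | w.comap (algebraMap K L) = v}.ncard = 2) ∧
  (¬ LSq (Sum.inr v) (a : K) →
    {w : InfinitePlace L | w.comap (algebraMap K L) = v}.ncard = 1)

/-- [N8] the set of places above `S`: existence and cardinality -/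
def St_N8 : Prop := ∀ (K L : Type) [Field K] [NumberField K] [Field L] [NumberField L]
  [Algebra K L] (a : Kˣ) (_ : QE K L (a : K)) (S : Finset (Pl K)),
  ∃ S' : Finset (Pl L), (∀ w, w ∈ S' ↔ below K w ∈ S) ∧ S'.card + ns S (a : K) = 2 * S.card

/-- [N9] `S`-units of the quadratic extension -/
def St_N9 : Prop := ∀ (K L : Type) [Field K] [NumberField K] [Field L] [NumberField L]
  [Algebra K L] (a : Kˣ) (q : QE K L (a : K)) (S : Finset (Pl K)) (S' : Finset (Pl L)),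
  Adm S → a ∈ SU S → (∀ w, w ∈ S' ↔ below K w ∈ S) → ∀ z : Lˣ, z ∈ SU S' ↔
    ∃ x y : K, (z : L) = algebraMap K L x + algebraMap K L y * q.ω ∧
      ∀ v : HeightOneSpectrum (𝓞 K), Sum.inl v ∉ S →
        v.valuation K x ≤ 1 ∧ v.valuation K y ≤ 1 ∧ v.valuation K (x ^ 2 - (a : K) * y ^ 2) = 1

/-- [N10] an element with even valuations outside `S` is an `S`-unit times a square -/
def St_N10 : Prop := ∀ (K : Type) [Field K] [NumberField K] (S : Finset (Pl K)) (b : Kˣ),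
  Adm S → (∀ v : HeightOneSpectrum (𝓞 K), Sum.inl v ∉ S → EvenAt v (b : K)) →
  ∃ u ∈ SU S, ∃ c : Kˣ, b = u * c ^ 2

/-- [N11] exactness in the middle -/
def St_N11 : Prop := ∀ (K L : Type) [Field K] [NumberField K] [Field L] [NumberField L]
  [Algebra K L] (a : Kˣ) (q : QE K L (a : K)) (S : Finset (Pl K)) (S' : Finset (Pl L)),
  Adm S → a ∈ SU S → (∀ w, w ∈ S' ↔ below K w ∈ S) → ∀ (z : Lˣ) (c : Kˣ) (x y : K), z ∈ SU S' →
    c ∈ SU S → (z : L) = algebraMap K L x + algebraMap K L y * q.ω →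
    x ^ 2 - (a : K) * y ^ 2 = (c : K) ^ 2 →
    ∃ u ∈ SU S, ∃ t ∈ SU S', (z : L) = algebraMap K L (u : K) * (t : L) ^ 2

/-- [N12] first inequality -/
def St_N12 : Prop := ∀ (K : Type) [Field K] [NumberField K] (S : Finset (Pl K)) (a : Kˣ),
  Adm S → a ∈ SU S → ¬ IsSquare (a : K) →
  ∃ N : Subgroup Kˣ, N ≤ SU S ∧ (∀ b ∈ N, ∃ x y : K, x ^ 2 - (a : K) * y ^ 2 = (b : K)) ∧
    2 * N.relIndex (SU S) = 2 ^ ns S (a : K)

/-! ## D. the global theorems -/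

/-- [D1] relation -/
def St_D1 : Prop := ∀ (K : Type) [Field K] [NumberField K] (S : Finset (Pl K)) (a : Kˣ),
  Adm S → a ∈ SU S → ¬ IsSquare (a : K) →
  ∃ C : Finset (Pl K), C ⊆ S ∧ C.Nonempty ∧ (∀ w ∈ C, ¬ LSq w (a : K)) ∧
    ∀ b ∈ SU S, ∏ w ∈ C, sgn w a b = 1

/-- [D2] an `S`-unit which is a square at all places of `S` is a square -/
def St_D2 : Prop := ∀ (K : Type) [Field K] [NumberField K] (S : Finset (Pl K)) (a : Kˣ),
  Adm S → a ∈ SU S → (∀ w ∈ S, LSq w (a : K)) → IsSquare (a : K)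

/-- [D3] a nonsquare is a nonsquare unit at infinitely many primes -/
def St_D3 : Prop := ∀ (K : Type) [Field K] [NumberField K] (T : Finset (Pl K)) (a : Kˣ),
  ¬ IsSquare (a : K) → ∃ v : HeightOneSpectrum (𝓞 K), (Sum.inl v : Pl K) ∉ T ∧
    v.valuation K (2 : K) = 1 ∧ v.valuation K (a : K) = 1 ∧ ¬ LSq (Sum.inl v) (a : K)

/-- [D4] auxiliary primes -/
def St_D4 : Prop := ∀ (K : Type) [Field K] [NumberField K] (S : Finset (Pl K)), Adm S →
  ∃ T : Finset (HeightOneSpectrum (𝓞 K)), Aux S T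

/-- [D5] injectivity of the localisation map -/
def St_D5 : Prop := ∀ (K : Type) [Field K] [NumberField K] (S : Finset (Pl K))
  (T : Finset (HeightOneSpectrum (𝓞 K))), Adm S → Aux S T →
  ∀ b ∈ SU (addPl S T), (∀ w ∈ S, LSq w (b : K)) → IsSquare (b : K)

/-- [D6] surjectivity of the localisation map -/
def St_D6 : Prop := ∀ (K : Type) [Field K] [NumberField K] (S : Finset (Pl K))
  (T : Finset (HeightOneSpectrum (𝓞 K))), Adm S → Aux S T →
  ∀ x : Pl K → Kˣ, ∃ b ∈ SU (addPl S T), ∀ w ∈ S, LSq w ((b * x w : Kˣ) : K)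

/-- [D7] symbols with elements concentrated at one place -/
def St_D7 : Prop := ∀ (K : Type) [Field K] [NumberField K] (S : Finset (Pl K))
  (T : Finset (HeightOneSpectrum (𝓞 K))), Adm S → Aux S T →
  ∀ (w₀ : Pl K) (b : Kˣ), w₀ ∈ S → b ∈ SU (addPl S T) → (∀ w ∈ S, w ≠ w₀ → LSq w (b : K)) →
  ∃ D ⊆ T, (∀ v ∈ D, ¬ EvenAt v (b : K)) ∧
    ∀ a ∈ SU S, sgn w₀ a b = ∏ v ∈ D, chi (Sum.inl v) a

/-- [D8] duality: symbols with dual elements -/
def St_D8 : Prop := ∀ (K : Type) [Field K] [NumberField K] (S : Finset (Pl K))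
  (T : Finset (HeightOneSpectrum (𝓞 K))), Adm S → Aux S T →
  ∀ (v : HeightOneSpectrum (𝓞 K)) (a : Kˣ), v ∈ T → a ∈ SU S → ¬ LSq (Sum.inl v) (a : K) →
  (∀ u ∈ T, u ≠ v → LSq (Sum.inl u) (a : K)) →
  ∃ C ⊆ S, ∀ y ∈ SU (addPl S T), (EvenAt v (y : K) → ∏ w ∈ C, sgn w a y = 1) ∧
    (¬ EvenAt v (y : K) → ∏ w ∈ C, sgn w a y = -1)

/-- [D9] reciprocity for elements concentrated at one place -/
def St_D9 : Prop := ∀ (K : Type) [Field K] [NumberField K] (S : Finset (Pl K))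
  (T : Finset (HeightOneSpectrum (𝓞 K))), Adm S → Aux S T →
  ∀ (w₀ : Pl K) (a b : Kˣ), w₀ ∈ S → a ∈ SU S → b ∈ SU (addPl S T) →
    (∀ w ∈ S, w ≠ w₀ → LSq w (b : K)) → sgn w₀ a b = ∏ v ∈ T, sgn (Sum.inl v) a b

/-- [D10] reciprocity between `S`-units and `S ∪ T`-units -/
def St_D10 : Prop := ∀ (K : Type) [Field K] [NumberField K] (S : Finset (Pl K))
  (T : Finset (HeightOneSpectrum (𝓞 K))), Adm S → Aux S T →
  ∀ a ∈ SU S, ∀ b ∈ SU (addPl S T), ∏ w ∈ S, sgn w a b = ∏ v ∈ T, sgn (Sum.inl v) a b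

/-- [D11] reciprocity for `S`-units -/
def St_D11 : Prop := ∀ (K : Type) [Field K] [NumberField K] (S : Finset (Pl K)), Adm S →
  ∀ a ∈ SU S, ∀ b ∈ SU S, ∏ w ∈ S, sgn w a b = 1

/-- [D12] an `S`-unit which is a square in `K(√e)` -/
def St_D12 : Prop := ∀ (K L : Type) [Field K] [NumberField K] [Field L] [NumberField L]
  [Algebra K L] (e : Kˣ) (_ : QE K L (e : K)) (S : Finset (Pl K)) (S' : Finset (Pl L)),
  Adm S → e ∈ SU S → (∀ w, w ∈ S' ↔ below K w ∈ S) → Adm S' → ∀ a ∈ SU S,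
  (∀ w ∈ S, LSq w (a : K) ∨ LSq w ((a * e : Kˣ) : K)) → IsSquare (a : K) ∨
    IsSquare ((a * e : Kˣ) : K)

/-- [D13] all relations, for large `S` -/
def St_D13 : Prop := ∀ (K L : Type) [Field K] [NumberField K] [Field L] [NumberField L]
  [Algebra K L] (e : Kˣ) (_ : QE K L (e : K)) (S : Finset (Pl K)) (S' : Finset (Pl L)),
  Adm S → e ∈ SU S → (∀ w, w ∈ S' ↔ below K w ∈ S) → Adm S' →
  ∀ C ⊆ S, (∀ w ∈ C, ¬ LSq w (e : K)) → (∀ y ∈ SU S, ∏ w ∈ C, sgn w e y = 1) →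
    C = ∅ ∨ ∀ w ∈ S, ¬ LSq w (e : K) → w ∈ C

/-- [D14] large sets for `e` -/
def St_D14 : Prop := ∀ (K L : Type) [Field K] [NumberField K] [Field L] [NumberField L]
  [Algebra K L] (e : Kˣ) (_ : QE K L (e : K)), ∃ S₁ : Finset (Pl K), ∀ S : Finset (Pl K), S₁ ⊆ S →
  Adm S ∧ e ∈ SU S ∧ ∃ S' : Finset (Pl L), (∀ w, w ∈ S' ↔ below K w ∈ S) ∧ Adm S'

/-- [D15] existence of `S`-units with prescribed symbols -/
def St_D15 : Prop := ∀ (K : Type) [Field K] [NumberField K] (e : Kˣ), ¬ IsSquare (e : K) →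
  ∃ S₁ : Finset (Pl K), ∀ S : Finset (Pl K), S₁ ⊆ S → Adm S ∧ e ∈ SU S ∧
    ∀ s : Pl K → ℤˣ, (∀ w ∈ S, LSq w (e : K) → s w = 1) → ∏ w ∈ S, s w = 1 →
      ∃ r ∈ SU S, ∀ w ∈ S, sgn w e r = s w

/-- [D16] norm theorem for `S`-units -/
def St_D16 : Prop := ∀ (K : Type) [Field K] [NumberField K] (e : Kˣ), ¬ IsSquare (e : K) →
  ∃ S₁ : Finset (Pl K), ∀ S : Finset (Pl K), S₁ ⊆ S →
    ∀ b ∈ SU S, (∀ w ∈ S, LNm w (e : K) (b : K)) → ∃ x y : K, x ^ 2 - (e : K) * y ^ 2 = (b : K)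

end Pool.Agent.QCF
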