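import Pool.Agent.QCF.St

/-!
# QCF [D1]
-/

set_option autoImplicit false

namespace Pool.Agent.QCF

open HP7 IsDedekindDomain NumberField
open scoped WithZero

section

variable {K : Type} [Field K] [NumberField K]

/-- the places of `S` where `a` is not a square -/
abbrev d1_I (S : Finset (Pl K)) (a : Kˣ) : Type := {w : Pl K // w ∈ S ∧ ¬ LSq w (a : K)}

theorem d1_fin (S : Finset (Pl K)) (a : Kˣ) : Finite (d1_I S a) :=
  Finite.of_injective (fun w : d1_I S a => (⟨w.1, w.2.1⟩ : {w // w ∈ S}))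
    (fun _ _ h => Subtype.ext (congrArg (fun z : {w // w ∈ S} => (z : Pl K)) h))

theorem d1_card (S : Finset (Pl K)) (a : Kˣ) :
    Nat.card (d1_I S a → ℤˣ) = 2 ^ ns S (a : K) := by
  classical
  have := d1_fin S a
  rw [Nat.card_fun]
  have h2 : Nat.card ℤˣ = 2 := by
    rw [Nat.card_eq_fintype_card]
    decide
  rw [h2]
  congr 1
  unfold ns
  apply Nat.subtype_card
  intro x
  rw [Finset.mem_filter]

/-- the sign map -/
noncomputable def d1_phi (hL17 : St_L17) (S : Finset (Pl K)) (a : Kˣ) :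
    SU S →* (d1_I S a → ℤˣ) where
  toFun b := fun w => sgn w.1 a b
  map_one' := by
    funext w
    have h := (hL17 K w.1).1 a 1 1
    rw [one_mul] at h
    have h2 : sgn w.1 a (1 : Kˣ) = 1 := left_eq_mul.1 h
    exact h2
  map_mul' := by
    intro b c
    funext w
    exact (hL17 K w.1).1 a b c

theorem d1_phi_apply (hL17 : St_L17) (S : Finset (Pl K)) (a : Kˣ) (b : SU S) (w : d1_I S a) :
    d1_phi hL17 S a b w = sgn w.1 a (b : Kˣ) := rfl

theorem d1_ker (hL17 : St_L17) (S : Finset (Pl K)) (a : Kˣ) (N : Subgroup Kˣ)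
    (hN : ∀ b ∈ N, ∃ x y : K, x ^ 2 - (a : K) * y ^ 2 = (b : K)) :
    N.subgroupOf (SU S) ≤ (d1_phi hL17 S a).ker := by
  intro b hb
  rw [MonoidHom.mem_ker]
  funext w
  rw [d1_phi_apply]
  obtain ⟨x, y, hxy⟩ := hN _ (Subgroup.mem_subgroupOf.1 hb)
  have hl : LNm w.1 (a : K) ((b : Kˣ) : K) := by
    refine at_all (P := NormOf (a : K) ((b : Kˣ) : K)) (fun F _ i => ⟨i x, i y, ?_⟩) w.1
    rw [← hxy, map_sub, map_mul, map_pow, map_pow]
  unfold sgn
  rw [if_pos hl]
  rfl

end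

theorem thm_D1 (hG4 : St_G4) (hL17 : St_L17) (hN12 : St_N12) : St_D1 := by
  intro K _ _ S a hS ha hsq
  classical
  obtain ⟨N, hNS, hN, hidx⟩ := hN12 K S a hS ha hsq
  have hfin := d1_fin S a
  have hdvd : (d1_phi hL17 S a).ker.index ∣ N.relIndex (SU S) :=
    Subgroup.index_dvd_of_le (d1_ker hL17 S a N hN)
  rw [Subgroup.index_ker] at hdvd
  have hpos : 0 < N.relIndex (SU S) := by
    have h2 : 0 < 2 ^ ns S (a : K) := pow_pos two_pos _
    omega
  have hle := Nat.le_of_dvd hpos hdvd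
  have hex : ∃ s : d1_I S a → ℤˣ, s ∉ (d1_phi hL17 S a).range := by
    by_contra hcon
    push Not at hcon
    have htop : (d1_phi hL17 S a).range = ⊤ := by
      rw [eq_top_iff]
      intro s _
      exact hcon s
    rw [htop, Subgroup.card_top, d1_card] at hle
    omega
  obtain ⟨s, hs⟩ := hex
  obtain ⟨C, hC1, hC2⟩ := hG4 (d1_I S a) (d1_phi hL17 S a).range s hs
  refine ⟨C.map ⟨Subtype.val, Subtype.val_injective⟩, ?_, ?_, ?_, ?_⟩
  · intro w hw
    rw [Finset.mem_map] at hw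
    obtain ⟨i, _, rfl⟩ := hw
    exact i.2.1
  · rw [Finset.map_nonempty]
    rw [Finset.nonempty_iff_ne_empty]
    rintro rfl
    rw [Finset.prod_empty] at hC2
    exact absurd hC2 (by decide)
  · intro w hw
    rw [Finset.mem_map] at hw
    obtain ⟨i, _, rfl⟩ := hw
    exact i.2.2
  · intro b hb
    rw [Finset.prod_map]
    exact hC1 (d1_phi hL17 S a ⟨b, hb⟩) ⟨_, rfl⟩

end Pool.Agent.QCF
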