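import Pool.Agent.QCF.St

/-!
# QCF [D10]: reciprocity between `S`-units and `S ∪ T`-units
-/

set_option autoImplicit false

namespace Pool.Agent.QCF

open HP7 IsDedekindDomain NumberField
open scoped WithZero

theorem d10_prod {K : Type} [Field K] [NumberField K] (hL17 : St_L17) (w : Pl K) (a : Kˣ)
    {ι : Type} [DecidableEq ι] (s : Finset ι) (f : ι → Kˣ) :
    sgn w a (∏ i ∈ s, f i) = ∏ i ∈ s, sgn w a (f i) := by
  induction s using Finset.induction_on with
  | empty =>
    rw [Finset.prod_empty, Finset.prod_empty, (hL17 K w).2.1]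
    exact (hL17 K w).2.2.1 _ _ (by rw [Units.val_one]; exact lsq_one w)
  | insert i s hi ih =>
    rw [Finset.prod_insert hi, Finset.prod_insert hi, (hL17 K w).1, ih]

theorem thm_D10 (hD5 : St_D5) (hD6 : St_D6) (hD9 : St_D9) (hL17 : St_L17) : St_D10 := by
  classical
  intro K _ _ S T hS hT a ha b hb
  -- components of `b`
  have hc : ∀ w₀ : Pl K, ∃ c ∈ SU (addPl S T), (w₀ ∈ S → LSq w₀ ((c * b : Kˣ) : K)) ∧
      ∀ w ∈ S, w ≠ w₀ → LSq w (c : K) := by
    intro w₀
    obtain ⟨c, hc, hcw⟩ := hD6 K S T hS hT (fun w => if w = w₀ then b else 1)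
    refine ⟨c, hc, fun hw₀ => ?_, fun w hw hww => ?_⟩
    · have := hcw w₀ hw₀
      simpa using this
    · have := hcw w hw
      rw [if_neg hww, mul_one] at this
      exact this
  choose c hcS hcb hcsq using hc
  -- `b ∏ c_w` is a square
  have hprod : IsSquare ((b * ∏ w ∈ S, c w : Kˣ) : K) := by
    refine hD5 K S T hS hT _ (mul_mem hb (prod_mem fun w _ => hcS w)) fun w hw => ?_
    rw [← Finset.mul_prod_erase S c hw, ← mul_assoc, mul_comm b, Units.val_mul]
    refine lsq_mul w (hcb w hw) ?_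
    have : ∀ s : Finset (Pl K), (∀ u ∈ s, w ∈ S ∧ w ≠ u) → LSq w ((∏ u ∈ s, c u : Kˣ) : K) := by
      intro s
      induction s using Finset.induction_on with
      | empty => intro _; rw [Finset.prod_empty, Units.val_one]; exact lsq_one w
      | insert i s hi ih =>
        intro h
        rw [Finset.prod_insert hi, Units.val_mul]
        refine lsq_mul w (hcsq i w hw (h i (Finset.mem_insert_self i s)).2) (ih fun u hu => ?_)
        exact h u (Finset.mem_insert_of_mem hu)
    exact this _ fun u hu => ⟨hw, fun h => (Finset.mem_erase.1 hu).1 h.symm⟩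
  -- symbols with `b` are those with the product of the `c`
  have hsym : ∀ w : Pl K, sgn w a b = ∏ u ∈ S, sgn w a (c u) := by
    intro w
    have h1 : sgn w a (b * ∏ u ∈ S, c u) = 1 := by
      rw [(hL17 K w).2.1]
      exact (hL17 K w).2.2.1 _ _ (lsq_of_isSquare w hprod)
    rw [(hL17 K w).1, d10_prod hL17] at h1
    rcases Int.units_eq_one_or (sgn w a b) with h | h <;> rw [h] at h1 ⊢
    · rw [one_mul] at h1; exact h1.symm
    · rcases Int.units_eq_one_or (∏ u ∈ S, sgn w a (c u)) with h2 | h2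
      · rw [h2] at h1
        exact absurd h1 (by decide)
      · exact h2.symm
  calc ∏ w ∈ S, sgn w a b = ∏ w ∈ S, ∏ u ∈ S, sgn w a (c u) :=
        Finset.prod_congr rfl fun w _ => hsym w
    _ = ∏ u ∈ S, ∏ w ∈ S, sgn w a (c u) := Finset.prod_comm
    _ = ∏ u ∈ S, sgn u a (c u) := by
        refine Finset.prod_congr rfl fun u hu => ?_
        rw [← Finset.mul_prod_erase S (fun w => sgn w a (c u)) hu]
        have : ∏ w ∈ S.erase u, sgn w a (c u) = 1 := by
          refine Finset.prod_eq_one fun w hw => ?_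
          obtain ⟨h1, h2⟩ := Finset.mem_erase.1 hw
          rw [(hL17 K w).2.1]
          exact (hL17 K w).2.2.1 _ _ (hcsq u w h2 h1)
        rw [this, mul_one]
    _ = ∏ u ∈ S, ∏ v ∈ T, sgn (Sum.inl v) a (c u) := by
        refine Finset.prod_congr rfl fun u hu => ?_
        exact hD9 K S T hS hT u a (c u) hu ha (hcS u) (hcsq u)
    _ = ∏ v ∈ T, ∏ u ∈ S, sgn (Sum.inl v) a (c u) := Finset.prod_comm
    _ = ∏ v ∈ T, sgn (Sum.inl v) a b :=
        Finset.prod_congr rfl fun v _ => (hsym (Sum.inl v)).symm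

end Pool.Agent.QCF
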