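import Pool.Agent.QCF.St

/-!
# QCF [D11]: reciprocity for `S`-units
-/

set_option autoImplicit false

namespace Pool.Agent.QCF

open HP7 IsDedekindDomain NumberField
open scoped WithZero

theorem thm_D11 (hD4 : St_D4) (hD10 : St_D10) (hL19 : St_L19) : St_D11 := by
  intro K _ _ S hS a ha b hb
  obtain ⟨T, hT⟩ := hD4 K S hS
  rw [hD10 K S T hS hT a ha b (SU_mono (subset_addPl S T) hb)]
  refine Finset.prod_eq_one fun v hv => ?_
  have hvS := hT.out v hv
  exact (hL19 K v (hS.2.1 v hvS)).1 a b ⟨0, by rw [ha v hvS]; simp⟩ ⟨0, by rw [hb v hvS]; simp⟩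

end Pool.Agent.QCF
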