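import Pool.Agent.QCF.St

/-!
# QCF [D12]
-/

set_option autoImplicit false

namespace Pool.Agent.QCF

open HP7 IsDedekindDomain NumberField
open scoped WithZero

section

variable {K L : Type} [Field K] [Field L] [Algebra K L]

private theorem d12_indep {a : K} (q : QE K L a) (x y : K)
    (h : algebraMap K L x + algebraMap K L y * q.ω = 0) : y = 0 := by
  by_contra hy
  apply q.nsq
  refine ⟨x / y, ?_⟩
  apply (algebraMap K L).injective
  have hy' : algebraMap K L y ≠ 0 := by
    intro h0
    exact hy ((map_eq_zero (algebraMap K L)).1 h0)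
  have h1 : q.ω = -(algebraMap K L x / algebraMap K L y) := by
    field_simp
    linear_combination h
  rw [← q.sq, h1, map_mul, map_div₀]
  ring

end

private theorem d12_val {K L : Type} [Field K] [NumberField K] [Field L] [NumberField L]
    [Algebra K L] (w : HeightOneSpectrum (𝓞 L)) (x : K)
    (hx : (w.under (𝓞 K)).valuation K x = 1) : w.valuation L (algebraMap K L x) = 1 := by
  have : w.asIdeal.LiesOver (w.under (𝓞 K)).asIdeal := ⟨rfl⟩
  rw [← HeightOneSpectrum.valuation_liesOver L (w.under (𝓞 K)) w x, hx, one_pow]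

theorem thm_D12 (hD2 : St_D2) (hL21 : St_L21) : St_D12 := by
  intro K L _ _ _ _ _ e q S S' hS he hS' hSad a ha hloc
  have ha0 : (a : K) ≠ 0 := a.ne_zero
  have he0 : (e : K) ≠ 0 := e.ne_zero
  have hω0 : q.ω ≠ 0 := by
    intro h
    have h1 := q.sq
    rw [h, zero_pow two_ne_zero] at h1
    exact he0 ((map_eq_zero (algebraMap K L)).1 h1.symm)
  set a' : Lˣ := Units.map ((algebraMap K L : K →+* L) : K →* L) a with ha'
  have ha'v : (a' : L) = algebraMap K L (a : K) := rfl
  have hmem : a' ∈ SU S' := by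
    intro w hw
    rw [ha'v]
    apply d12_val
    apply ha
    intro h
    exact hw ((hS' (Sum.inl w)).2 h)
  have hsq : IsSquare (a' : L) := by
    apply hD2 L S' a' hSad hmem
    intro w hw
    rw [ha'v]
    rcases hloc _ ((hS' w).1 hw) with h | h
    · exact hL21 K L w a h
    · have h1 := hL21 K L w (a * e) h
      have h2 : LSq w ((q.ω⁻¹) ^ 2) := lsq_of_isSquare w ⟨q.ω⁻¹, by rw [sq]⟩
      have h3 := lsq_mul w h1 h2
      have h4 : algebraMap K L ((a * e : Kˣ) : K) * (q.ω⁻¹) ^ 2 = algebraMap K L (a : K) := by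
        rw [Units.val_mul, map_mul, ← q.sq]
        field_simp
      rwa [h4] at h3
  obtain ⟨r, hr⟩ := hsq
  rw [ha'v] at hr
  obtain ⟨s, t, rfl⟩ := q.repr r
  have h4 : algebraMap K L (s ^ 2 + (e : K) * t ^ 2 - (a : K))
      + algebraMap K L (2 * (s * t)) * q.ω = 0 := by
    simp only [map_sub, map_add, map_mul, map_pow, map_ofNat]
    rw [← q.sq]
    linear_combination -hr
  have h5 := d12_indep q _ _ h4
  have h6 : s ^ 2 + (e : K) * t ^ 2 - (a : K) = 0 := by
    rw [h5, map_zero, zero_mul, add_zero] at h4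
    exact (map_eq_zero (algebraMap K L)).1 h4
  have h7 : s * t = 0 := by
    rcases mul_eq_zero.1 h5 with h | h
    · exact absurd h two_ne_zero
    · exact h
  rcases mul_eq_zero.1 h7 with h | h
  · right
    rw [h] at h6
    refine ⟨(e : K) * t, ?_⟩
    rw [Units.val_mul]
    linear_combination -(e : K) * h6
  · left
    rw [h] at h6
    exact ⟨s, by linear_combination -h6⟩

end Pool.Agent.QCF
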