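import Pool.Agent.QCF.St

/-!
# QCF [D13]
-/

set_option autoImplicit false

namespace Pool.Agent.QCF

open HP7 IsDedekindDomain NumberField
open scoped WithZero

private theorem d13_sq {K : Type} [Field K] [NumberField K] (w : Pl K) (c : Kˣ) :
    c ^ 2 ∈ SqG w := by
  rw [mem_SqG]
  exact lsq_of_isSquare w ⟨(c : K), by rw [Units.val_pow_eq_pow_val, sq]⟩

private theorem d13_even_of_one {K : Type} [Field K] [NumberField K]
    (v : HeightOneSpectrum (𝓞 K)) {b : K} (h : v.valuation K b = 1) : EvenAt v b :=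
  ⟨0, by rw [h, mul_zero, WithZero.exp_zero]⟩

theorem thm_D13 (hD4 : St_D4) (hD6 : St_D6) (hD10 : St_D10) (hD12 : St_D12) (hL17 : St_L17) (hL19 : St_L19) (hN10 : St_N10) : St_D13 := by
  classical
  intro K L _ _ _ _ _ e qe S S' hS he hS' hadm' C hCS hC hrel
  obtain ⟨T, hT⟩ := hD4 K S hS
  obtain ⟨a', ha', hloc⟩ := hD6 K S T hS hT (fun w => if w ∈ C then e else 1)
  have hinC : ∀ w ∈ C, a' * e ∈ SqG w := by
    intro w hw
    have h1 := hloc w (hCS hw)
    rw [if_pos hw] at h1
    exact h1
  have houtC : ∀ w ∈ S, w ∉ C → a' ∈ SqG w := by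
    intro w hw hwC
    have h1 := hloc w hw
    rw [if_neg hwC, mul_one] at h1
    exact h1
  -- the product over `S`
  have hprod : ∀ y ∈ SU S, ∏ w ∈ S, sgn w y a' = 1 := by
    intro y hy
    rw [← Finset.prod_subset hCS]
    · rw [← hrel y hy]
      refine Finset.prod_congr rfl fun w hw => ?_
      obtain ⟨hm, hsy, hsq, -⟩ := hL17 K w
      have h1 : sgn w y (a' * e) = 1 := by
        rw [hsy]
        exact hsq _ _ (hinC w hw)
      rw [hm] at h1
      rw [hsy e y]
      have h2 := eq_inv_of_mul_eq_one_left h1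
      rw [h2]
      exact Int.units_inv_eq_self _
    · intro w hw hwC
      obtain ⟨hm, hsy, hsq, -⟩ := hL17 K w
      rw [hsy]
      exact hsq _ _ (houtC w hw hwC)
  have hprodT : ∀ y ∈ SU S, ∏ v ∈ T, sgn (Sum.inl v) y a' = 1 := by
    intro y hy
    rw [← hD10 K S T hS hT y hy a' ha', hprod y hy]
  -- the valuations of `a'` are even
  have heven : ∀ v : HeightOneSpectrum (𝓞 K), Sum.inl v ∉ S → EvenAt v (a' : K) := by
    intro v hv
    by_cases hvT : v ∈ T
    · by_contra hodd
      obtain ⟨y, hy, hy1, hy2⟩ := hT.dual v hvT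
      have h1 := hprodT y hy
      rw [Finset.prod_eq_single_of_mem v hvT] at h1
      · obtain ⟨-, h19, -, -⟩ := hL19 K v (hS.2.1 v hv)
        rw [h19 y a' (d13_even_of_one v (hy v hv)) hy1 hodd] at h1
        exact absurd h1 (by decide)
      · intro u hu huv
        obtain ⟨-, -, hsq, -⟩ := hL17 K (Sum.inl u)
        exact hsq _ _ (hy2 u hu huv)
    · apply d13_even_of_one
      refine ha' v ?_
      rw [mem_addPl]
      rintro (h | ⟨u, hu, hvu⟩)
      · exact hv h
      · have : v = u := Sum.inl_injective hvu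
        exact hvT (this ▸ hu)
  obtain ⟨u, hu, c, hc⟩ := hN10 K S a' hS heven
  have hua : ∀ w, u ∈ SqG w ↔ a' ∈ SqG w := by
    intro w
    rw [hc]
    exact ((SqG w).mul_mem_cancel_right (d13_sq w c)).symm
  have huae : ∀ w, u * e ∈ SqG w ↔ a' * e ∈ SqG w := by
    intro w
    have e1 : a' * e = u * e * c ^ 2 := by
      rw [hc]
      exact mul_right_comm _ _ _
    rw [e1]
    exact ((SqG w).mul_mem_cancel_right (d13_sq w c)).symm
  have hcase := hD12 K L e qe S S' hS he hS' hadm' u hu (by
    intro w hw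
    by_cases hwC : w ∈ C
    · right
      exact (huae w).mpr (hinC w hwC)
    · left
      exact (hua w).mpr (houtC w hw hwC))
  rcases hcase with h | h
  · left
    rw [Finset.eq_empty_iff_forall_notMem]
    intro w hw
    have h1 : u ∈ SqG w := lsq_of_isSquare w h
    have h2 := (huae w).mpr (hinC w hw)
    rw [(SqG w).mul_mem_cancel_left h1] at h2
    exact hC w hw h2
  · right
    intro w hw hne
    by_contra hwC
    have h1 : u * e ∈ SqG w := lsq_of_isSquare w h
    have h2 := (hua w).mpr (houtC w hw hwC)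
    rw [(SqG w).mul_mem_cancel_left h2] at h1
    exact hne h1

end Pool.Agent.QCF
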