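import Pool.Agent.QCF.St

/-!
# QCF [D14]
-/

set_option autoImplicit false

namespace Pool.Agent.QCF

open HP7 IsDedekindDomain NumberField
open scoped WithZero

theorem thm_D14 (hN1 : St_N1) (hN8 : St_N8) : St_D14 := by
  classical
  intro K L _ _ _ _ _ e q
  obtain ⟨SK, -, hSK⟩ := (hN1 K).1 ∅
  obtain ⟨Se, hSe⟩ := (hN1 K).2 e
  obtain ⟨TL, -, hTL⟩ := (hN1 L).1 ∅
  refine ⟨SK ∪ Se ∪ TL.image (below K), fun S hS => ⟨?_, ?_, ?_⟩⟩
  · exact adm_mono (fun w hw => hS (by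
      rw [Finset.mem_union, Finset.mem_union]; exact Or.inl (Or.inl hw))) hSK
  · exact SU_mono (fun w hw => hS (by
      rw [Finset.mem_union, Finset.mem_union]; exact Or.inl (Or.inr hw))) hSe
  · obtain ⟨S', hS', -⟩ := hN8 K L e q S
    refine ⟨S', hS', adm_mono (fun w hw => ?_) hTL⟩
    rw [hS']
    apply hS
    rw [Finset.mem_union]
    exact Or.inr (Finset.mem_image_of_mem _ hw)

end Pool.Agent.QCF
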