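import Pool.Agent.QCF.St

/-!
# QCF [D15]
-/

set_option autoImplicit false

namespace Pool.Agent.QCF

open HP7 IsDedekindDomain NumberField
open scoped WithZero

theorem thm_D15 (hD13 : St_D13) (hD14 : St_D14) (hG4 : St_G4) (hL17 : St_L17) (hN5 : St_N5) :
    St_D15 := by
  classical
  intro K _ _ e he
  obtain ⟨L, fL, nL, aL, ⟨q⟩⟩ := hN5 K e he
  obtain ⟨S₁, hS₁⟩ := hD14 K L e q
  refine ⟨S₁, fun S hS => ?_⟩
  obtain ⟨hAdm, heS, S', hS', hAdm'⟩ := hS₁ S hS
  refine ⟨hAdm, heS, fun s hs hprod => ?_⟩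
  -- the map to the sign vectors
  have hone : ∀ w : Pl K, sgn w e 1 = 1 := by
    intro w
    have h1 := (hL17 K w).1 e 1 1
    rw [mul_one] at h1
    exact (mul_eq_left.1 h1.symm)
  let f : SU S →* ({w : Pl K // w ∈ S ∧ ¬ LSq w (e : K)} → ℤˣ) :=
    { toFun := fun r i => sgn i.1 e (r : Kˣ)
      map_one' := by
        funext i
        exact hone i.1
      map_mul' := by
        intro x y
        funext i
        exact (hL17 K i.1).1 e x y }
  have hfin : Finite {w : Pl K // w ∈ S ∧ ¬ LSq w (e : K)} :=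
    Finite.of_injective (fun i => (⟨i.1, i.2.1⟩ : {w : Pl K // w ∈ S})) (by
      rintro ⟨a, ha⟩ ⟨b, hb⟩ hab
      simpa using hab)
  by_cases hmem : (fun i : {w : Pl K // w ∈ S ∧ ¬ LSq w (e : K)} => s i.1) ∈ f.range
  · obtain ⟨r, hr⟩ := hmem
    refine ⟨r, r.2, fun w hw => ?_⟩
    by_cases hl : LSq w (e : K)
    · rw [hs w hw hl]
      exact (hL17 K w).2.2.1 e r hl
    · exact congrFun hr ⟨w, hw, hl⟩
  · exfalso
    obtain ⟨C, hC1, hC2⟩ := hG4 _ f.range _ hmem
    have hsub : C.map (Function.Embedding.subtype _) ⊆ S := by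
      intro w hw
      rw [Finset.mem_map] at hw
      obtain ⟨i, _, rfl⟩ := hw
      exact i.2.1
    have h1 := hD13 K L e q S S' hAdm heS hS' hAdm' (C.map (Function.Embedding.subtype _)) hsub
      (by
        intro w hw
        rw [Finset.mem_map] at hw
        obtain ⟨i, _, rfl⟩ := hw
        exact i.2.2)
      (by
        intro y hy
        rw [Finset.prod_map]
        exact hC1 (f ⟨y, hy⟩) ⟨_, rfl⟩)
    rcases h1 with h1 | h1
    · rw [Finset.map_eq_empty] at h1
      rw [h1, Finset.prod_empty] at hC2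
      exact absurd hC2 (by decide)
    · have h2 : ∏ w ∈ S, s w = ∏ w ∈ C.map (Function.Embedding.subtype _), s w := by
        symm
        refine Finset.prod_subset hsub fun w hw hw' => ?_
        refine hs w hw ?_
        by_contra hl
        exact hw' (h1 w hw hl)
      rw [Finset.prod_map] at h2
      have h3 : ∏ w ∈ S, s w = -1 := h2.trans hC2
      rw [hprod] at h3
      exact absurd h3 (by decide)

end Pool.Agent.QCF
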