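import Pool.Agent.QCF.St

/-!
# QCF [D16]
-/

set_option autoImplicit false

namespace Pool.Agent.QCF

open HP7 IsDedekindDomain NumberField
open scoped WithZero

section

variable {K : Type} [Field K] [NumberField K]

/-- the places of `S` where `a` is not a square -/
abbrev d16_I (S : Finset (Pl K)) (a : Kˣ) : Type := {w : Pl K // w ∈ S ∧ ¬ LSq w (a : K)}

theorem d16_fin (S : Finset (Pl K)) (a : Kˣ) : Finite (d16_I S a) :=
  Finite.of_injective (fun w : d16_I S a => (⟨w.1, w.2.1⟩ : {w // w ∈ S}))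
    (fun _ _ h => Subtype.ext (congrArg (fun z : {w // w ∈ S} => (z : Pl K)) h))

theorem d16_card (S : Finset (Pl K)) (a : Kˣ) :
    Nat.card (d16_I S a → ℤˣ) = 2 ^ ns S (a : K) := by
  classical
  have := d16_fin S a
  rw [Nat.card_fun]
  have h2 : Nat.card ℤˣ = 2 := by
    rw [Nat.card_eq_fintype_card]
    decide
  rw [h2]
  congr 1
  unfold ns
  apply Nat.subtype_card
  intro x
  rw [Finset.mem_filter]

/-- the sign map -/
noncomputable def d16_phi (hL17 : St_L17) (S : Finset (Pl K)) (a : Kˣ) :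
    SU S →* (d16_I S a → ℤˣ) where
  toFun b := fun w => sgn w.1 a b
  map_one' := by
    funext w
    have h := (hL17 K w.1).1 a 1 1
    rw [one_mul] at h
    have h2 : sgn w.1 a (1 : Kˣ) = 1 := left_eq_mul.1 h
    exact h2
  map_mul' := by
    intro b c
    funext w
    exact (hL17 K w.1).1 a b c

theorem d16_phi_apply (hL17 : St_L17) (S : Finset (Pl K)) (a : Kˣ) (b : SU S) (w : d16_I S a) :
    d16_phi hL17 S a b w = sgn w.1 a (b : Kˣ) := rfl

theorem d16_ker (hL17 : St_L17) (S : Finset (Pl K)) (a : Kˣ) (N : Subgroup Kˣ)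
    (hN : ∀ b ∈ N, ∃ x y : K, x ^ 2 - (a : K) * y ^ 2 = (b : K)) :
    N.subgroupOf (SU S) ≤ (d16_phi hL17 S a).ker := by
  intro b hb
  rw [MonoidHom.mem_ker]
  funext w
  rw [d16_phi_apply]
  obtain ⟨x, y, hxy⟩ := hN _ (Subgroup.mem_subgroupOf.1 hb)
  have hl : LNm w.1 (a : K) ((b : Kˣ) : K) := by
    refine at_all (P := NormOf (a : K) ((b : Kˣ) : K)) (fun F _ i => ⟨i x, i y, ?_⟩) w.1
    rw [← hxy, map_sub, map_mul, map_pow, map_pow]
  unfold sgn
  rw [if_pos hl]
  rfl

/-- half of the sign vectors have product `1` -/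
theorem d16_half (J : Type) [Finite J] (R : Subgroup (J → ℤˣ))
    (hR : ∀ t : J → ℤˣ, ∏ᶠ j, t j = 1 → t ∈ R) : Nat.card (J → ℤˣ) ≤ 2 * Nat.card R := by
  classical
  have := Fintype.ofFinite J
  let p : (J → ℤˣ) →* ℤˣ :=
    { toFun := fun t => ∏ j, t j
      map_one' := by simp
      map_mul' := fun s t => by simp [Finset.prod_mul_distrib] }
  have hle : p.ker ≤ R := by
    intro t ht
    apply hR
    rw [finprod_eq_prod_of_fintype]
    exact (MonoidHom.mem_ker).1 ht
  have h1 : Nat.card p.ker * p.ker.index = Nat.card (J → ℤˣ) := Subgroup.card_mul_index _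
  have h2 : p.ker.index ≤ 2 := by
    rw [Subgroup.index_ker]
    have h3 : Nat.card p.range ≤ Nat.card ℤˣ := Subgroup.card_le_card_group _
    have h4 : Nat.card ℤˣ = 2 := by
      rw [Nat.card_eq_fintype_card]
      decide
    omega
  have h5 : Nat.card p.ker ≤ Nat.card R := Subgroup.card_le_of_le hle
  calc Nat.card (J → ℤˣ) = Nat.card p.ker * p.ker.index := h1.symm
    _ ≤ Nat.card R * 2 := Nat.mul_le_mul h5 h2
    _ = 2 * Nat.card R := by ring

end

theorem thm_D16 (hD15 : St_D15) (hN12 : St_N12) (hL17 : St_L17) : St_D16 := by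
  intro K _ _ e hsq
  classical
  obtain ⟨S₁, hS₁⟩ := hD15 K e hsq
  refine ⟨S₁, ?_⟩
  intro S hS b hb hloc
  obtain ⟨hadm, he, hsgn⟩ := hS₁ S hS
  obtain ⟨N, hNS, hN, hidx⟩ := hN12 K S e hadm he hsq
  have hfin := d16_fin S e
  have hfint : Fintype (d16_I S e) := Fintype.ofFinite _
  have hker := d16_ker hL17 S e N hN
  have hrange : Nat.card (d16_I S e → ℤˣ) ≤ 2 * Nat.card (d16_phi hL17 S e).range := by
    apply d16_half
    intro t ht
    rw [finprod_eq_prod_of_fintype] at ht
    -- extend by one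
    let s : Pl K → ℤˣ := fun w => if h : w ∈ S ∧ ¬ LSq w (e : K) then t ⟨w, h⟩ else 1
    have hs1 : ∀ w ∈ S, LSq w (e : K) → s w = 1 := by
      intro w _ hw
      have hn : ¬ (w ∈ S ∧ ¬ LSq w (e : K)) := fun h => h.2 hw
      exact dif_neg hn
    have hs2 : ∏ w ∈ S, s w = 1 := by
      rw [← ht]
      have h1 : ∏ w ∈ S, s w = ∏ w ∈ S.filter (fun w => ¬ LSq w (e : K)), s w := by
        symm
        apply Finset.prod_subset (Finset.filter_subset _ _)
        intro w hw hw'
        apply hs1 w hw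
        by_contra hcon
        exact hw' (Finset.mem_filter.2 ⟨hw, hcon⟩)
      rw [h1]
      symm
      refine Finset.prod_bij (fun w _ => w.1) ?_ ?_ ?_ ?_
      · intro w _
        exact Finset.mem_filter.2 w.2
      · intro x _ y _ hxy
        exact Subtype.ext hxy
      · intro w hw
        exact ⟨⟨w, Finset.mem_filter.1 hw⟩, Finset.mem_univ _, rfl⟩
      · intro w _
        change t w = (if h : w.1 ∈ S ∧ ¬ LSq w.1 (e : K) then t ⟨w.1, h⟩ else 1)
        rw [dif_pos w.2]
    obtain ⟨r, hr, hrs⟩ := hsgn s hs1 hs2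
    refine ⟨⟨r, hr⟩, ?_⟩
    funext w
    rw [d16_phi_apply]
    rw [hrs w.1 w.2.1]
    exact dif_pos w.2
  rw [d16_card, ← Subgroup.index_ker, ← hidx] at hrange
  have hle : (N.subgroupOf (SU S)).index ≤ (d16_phi hL17 S e).ker.index := by
    have : 2 * (N.subgroupOf (SU S)).index ≤ 2 * (d16_phi hL17 S e).ker.index := hrange
    omega
  have hpos : 0 < N.relIndex (SU S) := by
    have h2 : 0 < 2 ^ ns S (e : K) := pow_pos two_pos _
    omega
  have hmul := Subgroup.relIndex_mul_index hker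
  have hpos' : 0 < (N.subgroupOf (SU S)).index := hpos
  have hkpos : 0 < (d16_phi hL17 S e).ker.index := by
    rcases Nat.eq_zero_or_pos (d16_phi hL17 S e).ker.index with h | h
    · rw [h, mul_zero] at hmul
      omega
    · exact h
  have hrel : (N.subgroupOf (SU S)).relIndex (d16_phi hL17 S e).ker = 1 := by
    have h1 : (N.subgroupOf (SU S)).relIndex (d16_phi hL17 S e).ker ≤ 1 := by
      by_contra hcon
      push Not at hcon
      have := Nat.mul_le_mul_right (d16_phi hL17 S e).ker.index hcon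
      omega
    have h0 : (N.subgroupOf (SU S)).relIndex (d16_phi hL17 S e).ker ≠ 0 := by
      intro h
      rw [h, zero_mul] at hmul
      omega
    omega
  have hfinal := Subgroup.relIndex_eq_one.1 hrel
  have hbk : (⟨b, hb⟩ : SU S) ∈ (d16_phi hL17 S e).ker := by
    rw [MonoidHom.mem_ker]
    funext w
    rw [d16_phi_apply]
    unfold sgn
    rw [if_pos (hloc w.1 w.2.1)]
    rfl
  have := hfinal hbk
  rw [Subgroup.mem_subgroupOf] at this
  exact hN b this

end Pool.Agent.QCF
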