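import Pool.Agent.QCF.St

/-!
# QCF [D2]
-/

set_option autoImplicit false

namespace Pool.Agent.QCF

open HP7 IsDedekindDomain NumberField
open scoped WithZero

theorem thm_D2 (hD1 : St_D1) : St_D2 := by
  intro K _ _ S a hS ha hsq
  by_contra hns
  obtain ⟨C, hCS, ⟨w, hw⟩, hC, -⟩ := hD1 K S a hS ha hns
  exact hC w hw (hsq w (hCS hw))

end Pool.Agent.QCF
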