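import Pool.Agent.QCF.St

/-!
# QCF [D3]

A nonsquare is a nonsquare unit at infinitely many primes.
-/

set_option autoImplicit false

namespace Pool.Agent.QCF

open HP7 IsDedekindDomain NumberField
open scoped WithZero

theorem thm_D3 (hD1 : St_D1) (hL17 : St_L17) (hL20 : St_L20) (hN1 : St_N1) : St_D3 := by
  classical
  intro K _ _ T a ha
  by_contra hcon
  push Not at hcon
  obtain ⟨Sa, hSa⟩ := (hN1 K).2 a
  obtain ⟨S0, hS0, hA0⟩ := (hN1 K).1 (T ∪ Sa)
  have hTS : T ⊆ S0 := Finset.subset_union_left.trans hS0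
  have haS0 : a ∈ SU S0 := SU_mono (Finset.subset_union_right.trans hS0) hSa
  -- `a` is a square outside `S0`
  have hout : ∀ w : Pl K, w ∉ S0 → LSq w (a : K) := by
    intro w hw
    cases w with
    | inl v =>
      exact hcon v (fun h => hw (hTS h)) (hA0.2.1 v hw) (haS0 v hw)
    | inr w => exact absurd (hA0.1 w) hw
  -- elements concentrated at one place
  have hb : ∀ w : Pl K, ∃ b : Kˣ, w ∈ S0 → ¬ LSq w (a : K) →
      sgn w a b = -1 ∧ ∀ w' ∈ S0, w' ≠ w → sgn w' a b = 1 := by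
    intro w
    by_cases hw : w ∈ S0 ∧ ¬ LSq w (a : K)
    · obtain ⟨y, hy⟩ := (hL17 K w).2.2.2 a hw.2
      obtain ⟨b, hb⟩ := hL20 K S0 (fun w' => if w' = w then y else 1)
      refine ⟨b, fun _ _ => ⟨?_, ?_⟩⟩
      · have h1 := hb w hw.1
        rw [if_pos rfl] at h1
        have h2 : sgn w a (b * y) = 1 := by
          rw [(hL17 K w).2.1]
          exact (hL17 K w).2.2.1 _ _ h1
        rw [(hL17 K w).1, hy] at h2
        have h3 : sgn w a b * -1 * -1 = 1 * -1 := by rw [h2]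
        rw [mul_assoc, neg_one_mul, neg_neg, mul_one, one_mul] at h3
        exact h3
      · intro w' hw' hne
        have h1 := hb w' hw'
        rw [if_neg hne, mul_one] at h1
        rw [(hL17 K w').2.1]
        exact (hL17 K w').2.2.1 _ _ h1
    · refine ⟨1, fun h1 h2 => absurd ⟨h1, h2⟩ hw⟩
  choose b hb using hb
  have hSS : ∀ w : Pl K, ∃ S : Finset (Pl K), b w ∈ SU S := fun w => (hN1 K).2 (b w)
  choose SS hSS using hSS
  obtain ⟨S1, hS1, hA1⟩ := (hN1 K).1 (S0 ∪ S0.biUnion SS)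
  have h01 : S0 ⊆ S1 := Finset.subset_union_left.trans hS1
  obtain ⟨C, hCS, ⟨w0, hw0⟩, hC1, hC2⟩ := hD1 K S1 a hA1 (SU_mono h01 haS0) ha
  have hCS0 : ∀ w ∈ C, w ∈ S0 := by
    intro w hw
    by_contra h
    exact hC1 w hw (hout w h)
  have hbS1 : b w0 ∈ SU S1 := by
    refine SU_mono ?_ (hSS w0)
    refine subset_trans ?_ (Finset.subset_union_right.trans hS1)
    exact Finset.subset_biUnion_of_mem SS (hCS0 w0 hw0)
  obtain ⟨h1, h2⟩ := hb w0 (hCS0 w0 hw0) (hC1 w0 hw0)
  have h3 := hC2 (b w0) hbS1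
  rw [← Finset.mul_prod_erase C _ hw0, h1,
    Finset.prod_eq_one (s := C.erase w0) fun w hw => h2 w (hCS0 w (Finset.mem_of_mem_erase hw))
      (Finset.ne_of_mem_erase hw), mul_one] at h3
  exact absurd h3 (by decide)

end Pool.Agent.QCF
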