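import Pool.Agent.QCF.St

/-!
# QCF [D4]: auxiliary primes
-/

set_option autoImplicit false

namespace Pool.Agent.QCF

open HP7 IsDedekindDomain NumberField
open scoped WithZero

section

variable {K : Type} [Field K] [NumberField K]

theorem d4_chi_eq_one {w : Pl K} {a : Kˣ} : chi w a = 1 ↔ LSq w (a : K) := by
  unfold chi
  by_cases h : LSq w (a : K)
  · simp [h]
  · simp [h]

theorem d4_chi_eq_neg_one {w : Pl K} {a : Kˣ} : chi w a = -1 ↔ ¬ LSq w (a : K) := by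
  unfold chi
  by_cases h : LSq w (a : K)
  · simp only [h, if_true, not_true_eq_false, iff_false]
    decide
  · simp [h]

theorem d4_even {S : Finset (Pl K)} {v : HeightOneSpectrum (𝓞 K)} (hv : (Sum.inl v : Pl K) ∉ S)
    {a : Kˣ} (ha : a ∈ SU S) : EvenAt v (a : K) := by
  refine ⟨0, ?_⟩
  rw [ha v hv, mul_zero, WithZero.exp_zero]

/-- the quadratic character at `v` on the group of `S`-units -/
noncomputable def d4_hom (S : Finset (Pl K)) (v : HeightOneSpectrum (𝓞 K))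
    (h : ∀ a ∈ SU S, ∀ b ∈ SU S, chi (Sum.inl v) (a * b) = chi (Sum.inl v) a * chi (Sum.inl v) b) :
    SU S →* ℤˣ :=
  MonoidHom.mk' (fun a => chi (Sum.inl v : Pl K) (a : Kˣ))
    (fun a b => h a a.2 b b.2)

theorem d4_sq_mem {S : Finset (Pl K)} (g : SU S) (h : IsSquare ((g : Kˣ) : K)) :
    g ∈ sqs (SU S) := by
  rw [← isSquare_iff_mem_sqs] at h
  obtain ⟨c, hc⟩ := h
  have hc' : c ^ 2 = (g : Kˣ) := hc
  have hcS : c ∈ SU S := by
    intro v hv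
    have h1 := g.2 v hv
    rw [← hc', Units.val_pow_eq_pow_val, map_pow] at h1
    exact (pow_eq_one_iff_of_nonneg zero_le two_ne_zero).1 h1
  exact ⟨⟨c, hcS⟩, Subtype.ext hc'⟩

end

theorem thm_D4 (hG5 : St_G5) (hN4 : St_N4) (hL19 : St_L19) (hD3 : St_D3) : St_D4 := by
  classical
  intro K _ _ S hS
  have hmul : ∀ v : {v : HeightOneSpectrum (𝓞 K) // (Sum.inl v : Pl K) ∉ S}, ∀ a ∈ SU S,
      ∀ b ∈ SU S, chi (Sum.inl v.1) (a * b) = chi (Sum.inl v.1) a * chi (Sum.inl v.1) b := by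
    intro v a ha b hb
    exact (hL19 K v.1 (hS.2.1 v.1 v.2)).2.2.2 a b (d4_even v.2 ha) (d4_even v.2 hb)
  obtain ⟨T, hT1, hT2, hT3⟩ := hG5 (SU S) {v : HeightOneSpectrum (𝓞 K) // (Sum.inl v : Pl K) ∉ S}
    (fun v => d4_hom S v.1 (hmul v)) S.card (hN4 K S hS.1).2 (by
      intro g hg
      apply d4_sq_mem
      by_contra hns
      obtain ⟨v, hv, -, -, hv4⟩ := hD3 K S (g : Kˣ) hns
      exact hv4 (d4_chi_eq_one.1 (hg ⟨v, hv⟩)))
  refine ⟨T.map ⟨Subtype.val, Subtype.val_injective⟩, ?_, ?_, ?_, ?_⟩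
  · intro v hv
    obtain ⟨u, -, rfl⟩ := Finset.mem_map.1 hv
    exact u.2
  · rw [Finset.card_map, hT1]
  · intro a ha hloc
    have h1 := hT2 ⟨a, ha⟩ (fun v hv => d4_chi_eq_one.2 (hloc v.1 (Finset.mem_map.2 ⟨v, hv, rfl⟩)))
    obtain ⟨c, hc⟩ := h1
    have hc' : (c : Kˣ) ^ 2 = a := congrArg Subtype.val hc
    exact ⟨((c : Kˣ) : K), by rw [← hc']; simp [sq]⟩
  · intro v hv
    obtain ⟨u, hu, rfl⟩ := Finset.mem_map.1 hv
    obtain ⟨g, hg1, hg2⟩ := hT3 u hu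
    refine ⟨(g : Kˣ), g.2, d4_chi_eq_neg_one.1 hg1, ?_⟩
    intro t ht htu
    obtain ⟨t', ht', rfl⟩ := Finset.mem_map.1 ht
    exact d4_chi_eq_one.1 (hg2 t' ht' (fun h => htu (by rw [h])))

end Pool.Agent.QCF
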