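import Pool.Agent.QCF.St

/-!
# QCF [D5]
-/

set_option autoImplicit false

namespace Pool.Agent.QCF

open HP7 IsDedekindDomain NumberField
open scoped WithZero

section d5

variable {K : Type} [Field K] [NumberField K]

theorem d5_even_of_val {v : HeightOneSpectrum (𝓞 K)} {b : K} (h : v.valuation K b = 1) :
    EvenAt v b := ⟨0, by rw [h, mul_zero, WithZero.exp_zero]⟩

theorem d5_even_SU {S : Finset (Pl K)} {v : HeightOneSpectrum (𝓞 K)} (hv : (Sum.inl v : Pl K) ∉ S)
    {y : Kˣ} (hy : y ∈ SU S) : EvenAt v (y : K) := d5_even_of_val (hy v hv)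

theorem d5_odd_of_val {v : HeightOneSpectrum (𝓞 K)} {b : K}
    (h : v.valuation K b = WithZero.exp (-1 : ℤ)) : ¬ EvenAt v b := by
  rintro ⟨k, hk⟩
  rw [h] at hk
  have := WithZero.exp_injective hk
  omega

/-- no relation is supported on the auxiliary primes -/
theorem d5_noC (hL17 : St_L17) (hL19 : St_L19) (S : Finset (Pl K))
    (T : Finset (HeightOneSpectrum (𝓞 K))) (hS : Adm S) (hT : Aux S T) (b : Kˣ)
    (C : Finset (Pl K)) (hC0 : C.Nonempty) (hCT : ∀ w ∈ C, ∃ v ∈ T, w = Sum.inl v)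
    (hCb : ∀ w ∈ C, ¬ LSq w (b : K))
    (hC : ∀ y ∈ SU (addPl S T), ∏ w ∈ C, sgn w b y = 1) : False := by
  classical
  have hone : ∀ v ∈ T, v.valuation K (2 : K) = 1 := fun v hv => hS.2.1 v (hT.out v hv)
  -- all valuations are even
  have hev : ∀ v ∈ T, (Sum.inl v : Pl K) ∈ C → EvenAt v (b : K) := by
    intro v hv hvC
    by_contra hodd
    obtain ⟨a, haS, hva, hua⟩ := hT.dual v hv
    have h1 := hC a (SU_mono (subset_addPl S T) haS)
    rw [← Finset.mul_prod_erase C _ hvC] at h1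
    have h2 : ∏ w ∈ C.erase (Sum.inl v), sgn w b a = 1 := by
      apply Finset.prod_eq_one
      intro w hw
      rw [Finset.mem_erase] at hw
      obtain ⟨u, hu, rfl⟩ := hCT w hw.2
      have huv : u ≠ v := fun h => hw.1 (by rw [h])
      rw [(hL17 K (Sum.inl u)).2.1 b a]
      exact (hL17 K (Sum.inl u)).2.2.1 a b (hua u hu huv)
    rw [h2, mul_one] at h1
    have h3 := ((hL19 K v (hone v hv)).2.2.1 a b (d5_even_SU (hT.out v hv) haS) hodd).2
    rw [h3] at h1
    unfold chi at h1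
    rw [if_neg hva] at h1
    exact absurd h1 (by decide)
  obtain ⟨w0, hw0⟩ := hC0
  obtain ⟨v0, hv0, rfl⟩ := hCT w0 hw0
  obtain ⟨π, hπ, hπu⟩ := hS.2.2 v0 (hT.out v0 hv0)
  have hπS : π ∈ SU (addPl S T) := by
    rw [mem_SU]
    intro v hv
    rw [mem_addPl] at hv
    push Not at hv
    apply hπu v hv.1
    rintro rfl
    exact hv.2 v hv0 rfl
  have h1 := hC π hπS
  rw [← Finset.mul_prod_erase C _ hw0] at h1
  have h2 : ∏ w ∈ C.erase (Sum.inl v0), sgn w b π = 1 := by
    apply Finset.prod_eq_one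
    intro w hw
    rw [Finset.mem_erase] at hw
    obtain ⟨u, hu, rfl⟩ := hCT w hw.2
    have huv : u ≠ v0 := fun h => hw.1 (by rw [h])
    exact (hL19 K u (hone u hu)).1 b π (hev u hu hw.2) (d5_even_of_val (hπu u (hT.out u hu) huv))
  rw [h2, mul_one] at h1
  have h3 := (hL19 K v0 (hone v0 hv0)).2.1 b π (hev v0 hv0 hw0) (hCb _ hw0) (d5_odd_of_val hπ)
  rw [h3] at h1
  exact absurd h1 (by decide)

end d5

theorem thm_D5 (hD1 : St_D1) (hL17 : St_L17) (hL19 : St_L19) : St_D5 := by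
  intro K _ _ S T hS hT b hb hbS
  by_contra hsq
  obtain ⟨C, hCS, hC0, hCb, hC⟩ := hD1 K (addPl S T) b (adm_mono (subset_addPl S T) hS) hb hsq
  refine d5_noC hL17 hL19 S T hS hT b C hC0 ?_ hCb hC
  intro w hw
  rcases mem_addPl.1 (hCS hw) with h | h
  · exact absurd (hbS w h) (hCb w hw)
  · exact h

end Pool.Agent.QCF
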