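import Pool.Agent.QCF.St

/-!
# QCF [D6]
-/

set_option autoImplicit false

namespace Pool.Agent.QCF

open HP7 IsDedekindDomain NumberField
open scoped WithZero

section d6

variable {K : Type} [Field K] [NumberField K]

/-- the target of the localisation map -/
def d6_Tg (S : Finset (Pl K)) : Type := ∀ w : S, Kˣ ⧸ SqG w.1

noncomputable instance d6_inst (S : Finset (Pl K)) : CommGroup (d6_Tg S) :=
  inferInstanceAs (CommGroup (∀ w : S, Kˣ ⧸ SqG w.1))

/-- the localisation map -/
noncomputable def d6_loc (S : Finset (Pl K)) (H : Subgroup Kˣ) : H →* d6_Tg S where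
  toFun b := fun w => (QuotientGroup.mk' (SqG w.1)) (b : Kˣ)
  map_one' := by
    funext w
    exact map_one (QuotientGroup.mk' (SqG w.1))
  map_mul' := by
    intro x y
    funext w
    exact map_mul (QuotientGroup.mk' (SqG w.1)) (x : Kˣ) (y : Kˣ)

theorem d6_loc_apply (S : Finset (Pl K)) (H : Subgroup Kˣ) (b : H) (w : S) :
    d6_loc S H b w = QuotientGroup.mk' (SqG w.1) (b : Kˣ) := rfl

theorem d6_mem_ker (S : Finset (Pl K)) (H : Subgroup Kˣ) (b : H) :
    b ∈ (d6_loc S H).ker ↔ ∀ w ∈ S, LSq w ((b : Kˣ) : K) := by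
  rw [MonoidHom.mem_ker]
  constructor
  · intro h w hw
    have h1 : (QuotientGroup.mk (b : Kˣ) : Kˣ ⧸ SqG w) = 1 := congrFun h ⟨w, hw⟩
    rw [QuotientGroup.eq_one_iff] at h1
    exact h1
  · intro h
    funext w
    change (QuotientGroup.mk (b : Kˣ) : Kˣ ⧸ SqG w.1) = 1
    rw [QuotientGroup.eq_one_iff]
    exact h w.1 w.2

end d6

theorem thm_D6 (hD5 : St_D5) (hN4 : St_N4) (hL15 : St_L15) : St_D6 := by
  classical
  intro K _ _ S T hS hT x
  have hS1 : Adm (addPl S T) := adm_mono (subset_addPl S T) hS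
  -- the cardinality of `S ∪ T`
  have hcard : (addPl S T).card = 2 * S.card := by
    have hdisj : Disjoint S (finPl T) := by
      rw [Finset.disjoint_left]
      intro w hw hw'
      unfold finPl at hw'
      rw [Finset.mem_map] at hw'
      obtain ⟨v, hv, rfl⟩ := hw'
      exact hT.out v hv hw
    have h1 : (addPl S T).card = S.card + (finPl T).card := by
      unfold addPl
      exact Finset.card_union_of_disjoint hdisj
    rw [h1]
    unfold finPl
    rw [Finset.card_map, hT.card]
    ring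
  -- the kernel
  have hker : (d6_loc S (SU (addPl S T))).ker = (sqs Kˣ).subgroupOf (SU (addPl S T)) := by
    ext b
    rw [d6_mem_ker, Subgroup.mem_subgroupOf, isSquare_iff_mem_sqs]
    constructor
    · intro h
      exact hD5 K S T hS hT (b : Kˣ) b.2 h
    · intro h w _
      exact lsq_of_isSquare w h
  have hidx : (d6_loc S (SU (addPl S T))).ker.index = 4 ^ S.card := by
    rw [hker]
    have h1 := (hN4 K (addPl S T) hS1.1).1
    unfold Subgroup.relIndex at h1
    rw [h1, hcard, pow_mul]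
    norm_num
  have hrange : Nat.card (d6_loc S (SU (addPl S T))).range = 4 ^ S.card := by
    rw [← hidx, Subgroup.index_ker]
  have hprod := hL15 K S hS.1 hS.2.1
  have htot : Nat.card (d6_Tg S) = 4 ^ S.card := by
    change Nat.card (∀ w : S, Kˣ ⧸ SqG w.1) = 4 ^ S.card
    rw [Nat.card_pi, ← hprod]
    exact Finset.prod_coe_sort S (fun w => (SqG w).index)
  have hfin : Finite (d6_Tg S) := by
    apply Nat.finite_of_card_ne_zero
    rw [htot]
    exact pow_ne_zero _ (by norm_num)
  have htop : (d6_loc S (SU (addPl S T))).range = ⊤ := by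
    apply Subgroup.eq_top_of_card_eq
    rw [hrange, htot]
  have hmem : ((fun w : S => (QuotientGroup.mk' (SqG w.1) (x w.1)⁻¹ : Kˣ ⧸ SqG w.1)) :
      d6_Tg S) ∈ (d6_loc S (SU (addPl S T))).range := by
    rw [htop]
    exact Subgroup.mem_top _
  obtain ⟨b, hb⟩ := hmem
  refine ⟨(b : Kˣ), b.2, ?_⟩
  intro w hw
  have h1 := congrFun hb ⟨w, hw⟩
  rw [d6_loc_apply] at h1
  change (QuotientGroup.mk (b : Kˣ) : Kˣ ⧸ SqG w) = QuotientGroup.mk (x w)⁻¹ at h1
  rw [QuotientGroup.eq] at h1
  have h2 := (SqG w).inv_mem h1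
  have h3 : ((b : Kˣ)⁻¹ * (x w)⁻¹)⁻¹ = (b : Kˣ) * x w := by
    rw [mul_inv_rev, inv_inv, inv_inv, mul_comm]
  rw [h3] at h2
  exact h2

end Pool.Agent.QCF
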