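import Pool.Agent.QCF.St
import Pool.Agent.QCF.D5

/-!
# QCF [D7]
-/

set_option autoImplicit false

namespace Pool.Agent.QCF

open HP7 IsDedekindDomain NumberField
open scoped WithZero

theorem d7_units_eq {x y : ℤˣ} (h : x * y = 1) : x = y := by
  rcases Int.units_eq_one_or x with rfl | rfl <;> rcases Int.units_eq_one_or y with rfl | rfl
  · rfl
  · exact absurd h (by decide)
  · exact absurd h (by decide)
  · rfl

theorem thm_D7 (hD1 : St_D1) (hL17 : St_L17) (hL19 : St_L19) : St_D7 := by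
  classical
  intro K _ _ S T hS hT w₀ b hw₀ hb hbS
  by_cases hb0 : LSq w₀ (b : K)
  · refine ⟨∅, Finset.empty_subset _, by simp, ?_⟩
    intro a _
    rw [Finset.prod_empty, (hL17 K w₀).2.1 a b]
    exact (hL17 K w₀).2.2.1 b a hb0
  have hsq : ¬ IsSquare (b : K) := fun h => hb0 (lsq_of_isSquare w₀ h)
  obtain ⟨C, hCS, hC0, hCb, hC⟩ := hD1 K (addPl S T) b (adm_mono (subset_addPl S T) hS) hb hsq
  have hone : ∀ v ∈ T, v.valuation K (2 : K) = 1 := fun v hv => hS.2.1 v (hT.out v hv)
  have hCT : ∀ w ∈ C, w ≠ w₀ → ∃ v ∈ T, w = Sum.inl v := by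
    intro w hw hne
    rcases mem_addPl.1 (hCS hw) with h | h
    · exact absurd (hbS w h hne) (hCb w hw)
    · exact h
  have hw₀C : w₀ ∈ C := by
    by_contra hn
    refine d5_noC hL17 hL19 S T hS hT b C hC0 ?_ hCb hC
    intro w hw
    exact hCT w hw (fun h => hn (h ▸ hw))
  refine ⟨T.filter (fun v => (Sum.inl v : Pl K) ∈ C ∧ ¬ EvenAt v (b : K)),
    Finset.filter_subset _ _, ?_, ?_⟩
  · intro v hv
    exact (Finset.mem_filter.1 hv).2.2
  · intro a ha
    have h1 := hC a (SU_mono (subset_addPl S T) ha)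
    rw [← Finset.mul_prod_erase C _ hw₀C] at h1
    have hE : C.erase w₀ = (T.filter (fun v => (Sum.inl v : Pl K) ∈ C)).map
        ⟨Sum.inl, Sum.inl_injective⟩ := by
      ext w
      rw [Finset.mem_erase, Finset.mem_map]
      constructor
      · rintro ⟨hne, hw⟩
        obtain ⟨v, hv, rfl⟩ := hCT w hw hne
        exact ⟨v, Finset.mem_filter.2 ⟨hv, hw⟩, rfl⟩
      · rintro ⟨v, hv, rfl⟩
        rw [Finset.mem_filter] at hv
        refine ⟨?_, hv.2⟩
        intro h
        apply hT.out v hv.1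
        change Sum.inl v = w₀ at h
        rw [h]
        exact hw₀
    rw [hE, Finset.prod_map] at h1
    have h2 : ∏ v ∈ T.filter (fun v => (Sum.inl v : Pl K) ∈ C ∧ ¬ EvenAt v (b : K)),
        chi (Sum.inl v) a = ∏ v ∈ T.filter (fun v => (Sum.inl v : Pl K) ∈ C),
          sgn (Sum.inl v) b a := by
      rw [← Finset.filter_filter, Finset.prod_filter]
      apply Finset.prod_congr rfl
      intro v hv
      rw [Finset.mem_filter] at hv
      have hav : EvenAt v (a : K) := d5_even_SU (hT.out v hv.1) ha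
      by_cases hvb : EvenAt v (b : K)
      · rw [if_neg (not_not.2 hvb)]
        exact ((hL19 K v (hone v hv.1)).1 b a hvb hav).symm
      · rw [if_pos hvb]
        exact (((hL19 K v (hone v hv.1)).2.2.1 a b hav hvb).2).symm
    rw [h2, (hL17 K w₀).2.1 a b]
    exact d7_units_eq h1

end Pool.Agent.QCF
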