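import Pool.Agent.QCF.St
import Pool.Agent.QCF.D5

/-!
# QCF [D8]
-/

set_option autoImplicit false

namespace Pool.Agent.QCF

open HP7 IsDedekindDomain NumberField
open scoped WithZero

theorem d8_units_eq {x y : ℤˣ} (h : x * y = 1) : x = y := by
  rcases Int.units_eq_one_or x with rfl | rfl <;> rcases Int.units_eq_one_or y with rfl | rfl
  · rfl
  · exact absurd h (by decide)
  · exact absurd h (by decide)
  · rfl

theorem thm_D8 (hD1 : St_D1) (hD6 : St_D6) (hL17 : St_L17) (hL19 : St_L19) : St_D8 := by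
  classical
  intro K _ _ S T hS hT v a hv ha hva hua
  have haS1 : a ∈ SU (addPl S T) := SU_mono (subset_addPl S T) ha
  have hsq : ¬ IsSquare (a : K) := fun h => hva (lsq_of_isSquare _ h)
  obtain ⟨C, hCS, hC0, hCa, hC⟩ := hD1 K (addPl S T) a (adm_mono (subset_addPl S T) hS) haS1 hsq
  have h2 : v.valuation K (2 : K) = 1 := hS.2.1 v (hT.out v hv)
  have hCv : ∀ w ∈ C, w ≠ Sum.inl v → w ∈ S := by
    intro w hw hne
    rcases mem_addPl.1 (hCS hw) with h | ⟨u, hu, rfl⟩
    · exact h
    · exfalso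
      exact hCa _ hw (hua u hu (fun h => hne (by rw [h])))
  have hvC : (Sum.inl v : Pl K) ∈ C := by
    by_contra hn
    obtain ⟨w, hw⟩ := hC0
    have hCS' : ∀ w ∈ C, w ∈ S := fun w' hw' => hCv w' hw' (fun h => hn (h ▸ hw'))
    obtain ⟨b, hb⟩ := (hL17 K w).2.2.2 a (hCa w hw)
    obtain ⟨b', hb'S, hb'⟩ := hD6 K S T hS hT (fun w' => if w' = w then b else 1)
    have h1 := hC b' hb'S
    rw [← Finset.mul_prod_erase C _ hw] at h1
    have h3 : ∏ w' ∈ C.erase w, sgn w' a b' = 1 := by
      apply Finset.prod_eq_one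
      intro w' hw'
      rw [Finset.mem_erase] at hw'
      have h4 := hb' w' (hCS' w' hw'.2)
      rw [if_neg hw'.1, mul_one] at h4
      rw [(hL17 K w').2.1 a b']
      exact (hL17 K w').2.2.1 b' a h4
    rw [h3, mul_one] at h1
    have h5 := hb' w (hCS' w hw)
    rw [if_pos rfl] at h5
    have h6 : sgn w a (b' * b) = 1 := by
      rw [(hL17 K w).2.1 a (b' * b)]
      exact (hL17 K w).2.2.1 (b' * b) a h5
    rw [(hL17 K w).1 a b' b, h1, hb] at h6
    exact absurd h6 (by decide)
  refine ⟨C.erase (Sum.inl v), ?_, ?_⟩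
  · intro w hw
    rw [Finset.mem_erase] at hw
    exact hCv w hw.2 hw.1
  · intro y hy
    have h1 := hC y hy
    rw [← Finset.mul_prod_erase C _ hvC] at h1
    have hav : EvenAt v (a : K) := d5_even_SU (hT.out v hv) ha
    have h3 := d8_units_eq h1
    constructor
    · intro hev
      rw [← h3]
      exact (hL19 K v h2).1 a y hav hev
    · intro hodd
      rw [← h3]
      exact (hL19 K v h2).2.1 a y hav hva hodd

end Pool.Agent.QCF
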