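import Pool.Agent.QCF.St

/-!
# QCF [D9]: reciprocity for elements concentrated at one place
-/

set_option autoImplicit false

namespace Pool.Agent.QCF

open HP7 IsDedekindDomain NumberField
open scoped WithZero

theorem thm_D9 (hD7 : St_D7) (hD8 : St_D8) (hL17 : St_L17) (hL19 : St_L19) : St_D9 := by
  classical
  intro K _ _ S T hS hT w₀ a b hw₀ ha hb hsq
  obtain ⟨D, hDT, hDodd, hD⟩ := hD7 K S T hS hT w₀ b hw₀ hb hsq
  -- `v ∈ D ↔ v(b) odd`
  have key : ∀ v ∈ T, v ∈ D ↔ ¬ EvenAt v (b : K) := by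
    intro v hv
    refine ⟨hDodd v, fun hodd => ?_⟩
    by_contra hvD
    obtain ⟨c, hc, hcv, hcu⟩ := hT.dual v hv
    obtain ⟨C, hCS, hC⟩ := hD8 K S T hS hT v c hv hc hcv hcu
    have h1 : sgn w₀ c b = 1 := by
      rw [hD c hc]
      refine Finset.prod_eq_one fun u hu => ?_
      have huv : u ≠ v := fun h => hvD (h ▸ hu)
      rw [chi, if_pos (hcu u (hDT hu) huv)]
    have h2 : ∏ w ∈ C, sgn w c b = 1 := by
      refine Finset.prod_eq_one fun w hw => ?_
      by_cases hww : w = w₀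
      · rw [hww, h1]
      · obtain ⟨-, h17b, h17c, -⟩ := hL17 K w
        rw [h17b, h17c _ _ (hsq w (hCS hw) hww)]
    have h3 := (hC b hb).2 hodd
    rw [h2] at h3
    exact absurd h3 (by decide)
  rw [hD a ha]
  -- compare the two products
  have hDfil : D = T.filter (fun v => ¬ EvenAt v (b : K)) := by
    ext v
    rw [Finset.mem_filter]
    constructor
    · intro hv
      exact ⟨hDT hv, (key v (hDT hv)).1 hv⟩
    · rintro ⟨hv, hv'⟩
      exact (key v hv).2 hv'
  rw [hDfil, Finset.prod_filter]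
  refine Finset.prod_congr rfl fun v hv => ?_
  have hv2 : v.valuation K (2 : K) = 1 := hS.2.1 v (hT.out v hv)
  have hva : EvenAt v (a : K) := ⟨0, by rw [ha v (hT.out v hv)]; simp⟩
  obtain ⟨h19a, -, h19c, -⟩ := hL19 K v hv2
  by_cases hvb : EvenAt v (b : K)
  · rw [if_neg (not_not_intro hvb), h19a a b hva hvb]
  · rw [if_pos hvb, (h19c a b hva hvb).1]

end Pool.Agent.QCF
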