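import Pool.Agent.QCF.St

/-!
# QCF [G2]
-/

set_option autoImplicit false

namespace Pool.Agent.QCF

open HP7 IsDedekindDomain NumberField
open scoped WithZero

private theorem G2_mem_ker {G : Type*} [CommGroup G] (x : G) :
    x ∈ (powMonoidHom 2 : G →* G).ker ↔ x ^ 2 = 1 := by
  rw [MonoidHom.mem_ker]
  rfl

private theorem G2_mem_sqs {G : Type*} [CommGroup G] (x : G) :
    x ∈ sqs G ↔ ∃ y : G, y ^ 2 = x := Iff.rfl

private theorem G2_one (G : Type) [CommGroup G] [Finite G] : HasQ G 1 := by
  refine ⟨one_ne_zero, inferInstance, ?_⟩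
  rw [one_mul]
  have h1 := Subgroup.card_mul_index (powMonoidHom 2 : G →* G).ker
  rw [Subgroup.index_ker] at h1
  have h2 := Subgroup.card_mul_index (sqs G)
  have h3 : 0 < Nat.card (sqs G) := Nat.card_pos
  have h4 : Nat.card (powMonoidHom 2 : G →* G).ker * Nat.card (sqs G) =
      (sqs G).index * Nat.card (sqs G) := by
    rw [mul_comm (sqs G).index, h2, ← h1]
    rfl
  exact (Nat.eq_of_mul_eq_mul_right h3 h4).symm

private theorem G2_two {G H : Type} [CommGroup G] [CommGroup H] {n : ℕ} (e : G ≃* H)
    (h : HasQ G n) : HasQ H n := by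
  obtain ⟨h1, h2, h3⟩ := h
  let E : (powMonoidHom 2 : G →* G).ker ≃ (powMonoidHom 2 : H →* H).ker :=
    { toFun := fun x => ⟨e x.1, by
        rw [G2_mem_ker, ← map_pow, (G2_mem_ker x.1).1 x.2, map_one]⟩
      invFun := fun y => ⟨e.symm y.1, by
        rw [G2_mem_ker, ← map_pow, (G2_mem_ker y.1).1 y.2, map_one]⟩
      left_inv := fun x => Subtype.ext (e.symm_apply_apply x.1)
      right_inv := fun y => Subtype.ext (e.apply_symm_apply y.1) }
  refine ⟨h1, Finite.of_equiv _ E, ?_⟩
  have h4 : (sqs G).map e.toMonoidHom = sqs H := by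
    ext y
    rw [Subgroup.mem_map]
    constructor
    · rintro ⟨x, hx, rfl⟩
      obtain ⟨z, rfl⟩ := (G2_mem_sqs x).1 hx
      exact (G2_mem_sqs _).2 ⟨e z, (map_pow e z 2).symm⟩
    · intro hy
      obtain ⟨z, rfl⟩ := (G2_mem_sqs y).1 hy
      refine ⟨e.symm z ^ 2, (G2_mem_sqs _).2 ⟨_, rfl⟩, ?_⟩
      show e (e.symm z ^ 2) = z ^ 2
      rw [map_pow, e.apply_symm_apply]
  have h5 : ((sqs G).map e.toMonoidHom).index = (sqs G).index := Subgroup.index_map_equiv _ e
  rw [← h4, h5, h3, Nat.card_congr E]

private theorem G2_four {G : Type} [CommGroup G] {n : ℕ} (hn : n ≠ 0)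
    (h2 : ∀ x : G, x ^ 2 = 1 → x = 1) (hi : (sqs G).index = n) : HasQ G n := by
  have hk : (powMonoidHom 2 : G →* G).ker = ⊥ := by
    rw [Subgroup.eq_bot_iff_forall]
    intro x hx
    exact h2 x ((G2_mem_ker x).1 hx)
  refine ⟨hn, ?_, ?_⟩
  · rw [hk]
    infer_instance
  · rw [hk, hi, Subgroup.card_bot, mul_one]

private theorem G2_three (r : ℕ) : HasQ (Multiplicative (Fin r → ℤ)) (2 ^ r) := by
  apply G2_four (pow_ne_zero _ two_ne_zero)
  · intro x hx
    have h1 : (2 : ℕ) • Multiplicative.toAdd x = 0 := hx
    have h2 : Multiplicative.toAdd x = 0 := by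
      funext i
      have h3 := congrFun h1 i
      simp only [Pi.smul_apply, Pi.zero_apply, nsmul_eq_mul] at h3
      have h4 : (2 : ℤ) * Multiplicative.toAdd x i = 0 := by exact_mod_cast h3
      show Multiplicative.toAdd x i = 0
      omega
    exact Multiplicative.toAdd.injective h2
  · let f : Multiplicative (Fin r → ℤ) →* Multiplicative (Fin r → ZMod 2) :=
      { toFun := fun x => Multiplicative.ofAdd fun i => ((Multiplicative.toAdd x i : ℤ) : ZMod 2)
        map_one' := by
          apply Multiplicative.toAdd.injective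
          funext i
          show (((0 : ℤ)) : ZMod 2) = 0
          exact Int.cast_zero
        map_mul' := by
          intro x y
          apply Multiplicative.toAdd.injective
          funext i
          show ((Multiplicative.toAdd x i + Multiplicative.toAdd y i : ℤ) : ZMod 2) =
            ((Multiplicative.toAdd x i : ℤ) : ZMod 2) + ((Multiplicative.toAdd y i : ℤ) : ZMod 2)
          exact Int.cast_add _ _ }
    have hf : ∀ (x : Multiplicative (Fin r → ℤ)) (i : Fin r),
        Multiplicative.toAdd (f x) i = ((Multiplicative.toAdd x i : ℤ) : ZMod 2) :=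
      fun x i => rfl
    have hker : f.ker = sqs (Multiplicative (Fin r → ℤ)) := by
      ext x
      rw [MonoidHom.mem_ker, G2_mem_sqs]
      constructor
      · intro hx
        have h1 : ∀ i, ∃ c : ℤ, Multiplicative.toAdd x i = 2 * c := by
          intro i
          have h2 : ((Multiplicative.toAdd x i : ℤ) : ZMod 2) = 0 := by
            rw [← hf, hx]
            rfl
          exact (ZMod.intCast_zmod_eq_zero_iff_dvd _ 2).1 h2
        choose c hc using h1
        refine ⟨Multiplicative.ofAdd c, ?_⟩
        apply Multiplicative.toAdd.injective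
        funext i
        rw [hc i]
        show ((2 : ℕ) • c) i = 2 * c i
        simp
      · rintro ⟨y, rfl⟩
        apply Multiplicative.toAdd.injective
        funext i
        rw [hf]
        show (((((2 : ℕ) • Multiplicative.toAdd y) i : ℤ)) : ZMod 2) = 0
        rw [Pi.smul_apply, nsmul_eq_mul, Int.cast_mul]
        have h2 : (((2 : ℕ) : ℤ) : ZMod 2) = 0 := by decide
        rw [h2, zero_mul]
    have hsurj : Function.Surjective f := by
      intro y
      refine ⟨Multiplicative.ofAdd fun i => ((Multiplicative.toAdd y i).val : ℤ), ?_⟩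
      apply Multiplicative.toAdd.injective
      funext i
      rw [hf]
      show ((((Multiplicative.toAdd y i).val : ℕ) : ℤ) : ZMod 2) = Multiplicative.toAdd y i
      rw [Int.cast_natCast, ZMod.natCast_zmod_val]
    rw [← hker, Subgroup.index_ker, MonoidHom.range_eq_top.2 hsurj]
    rw [Nat.card_congr (Subgroup.topEquiv (G := Multiplicative (Fin r → ZMod 2))).toEquiv,
      Nat.card_congr (Multiplicative.toAdd (α := Fin r → ZMod 2)), Nat.card_fun, Nat.card_zmod,
      Nat.card_fin]

theorem thm_G2 : St_G2 := by
  refine ⟨fun G _ hG => G2_one G, fun G H _ _ n ⟨e⟩ h => G2_two e h, ?_,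
    fun G _ n hn h2 hi => G2_four hn h2 hi⟩
  intro G _ r ⟨e⟩
  have e1 : Multiplicative (Fin r → ℤ) ≃* G :=
    { toFun := fun x => Additive.toMul (e.symm (Multiplicative.toAdd x))
      invFun := fun g => Multiplicative.ofAdd (e (Additive.ofMul g))
      left_inv := fun x => by
        show Multiplicative.ofAdd (e (e.symm (Multiplicative.toAdd x))) = x
        rw [e.apply_symm_apply]
        rfl
      right_inv := fun g => by
        show Additive.toMul (e.symm (e (Additive.ofMul g))) = g
        rw [e.symm_apply_apply]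
        rfl
      map_mul' := fun x y => by
        show Additive.toMul (e.symm (Multiplicative.toAdd x + Multiplicative.toAdd y)) = _
        rw [map_add]
        rfl }
  exact G2_two e1 (G2_three r)

end Pool.Agent.QCF
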