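import Pool.Agent.QCF.St

/-!
# QCF [G3]
-/

set_option autoImplicit false

namespace Pool.Agent.QCF

open HP7 IsDedekindDomain NumberField
open scoped WithZero

theorem thm_G3 : St_G3 := by
  intro A B _ _ i N β h1 h2 h3 h4 h5 _ _
  have hAN : sqs A ≤ N.range := by
    rintro _ ⟨a, rfl⟩
    exact ⟨i a, h1 a⟩
  have hC : (sqs A).comap N = i.range ⊔ sqs B := by
    ext z
    rw [Subgroup.mem_comap]
    constructor
    · intro hz
      obtain ⟨a, t, rfl⟩ := h5 z hz
      exact Subgroup.mul_mem_sup ⟨a, rfl⟩ ⟨t, rfl⟩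
    · intro hz
      obtain ⟨_, ⟨a, rfl⟩, _, ⟨t, rfl⟩, rfl⟩ := Subgroup.mem_sup.1 hz
      refine ⟨a * N t, ?_⟩
      simp only [powMonoidHom_apply, map_mul, map_pow, h1]
  have hD : (sqs A).relIndex ((sqs B).comap i) = 2 := by
    rw [Subgroup.relIndex_eq_two_iff]
    refine ⟨β, h2, fun b hb => ?_⟩
    rw [Subgroup.mem_comap] at hb
    by_cases hbA : b ∈ sqs A
    · refine Or.inr ⟨hbA, fun h => h3 ?_⟩
      exact (Subgroup.mul_mem_cancel_left _ hbA).1 h
    · rcases h4 b hb with h | h
      · exact absurd h hbA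
      · exact Or.inl ⟨h, hbA⟩
  have hAD : sqs A ≤ (sqs B).comap i := by
    rintro _ ⟨a, rfl⟩
    refine ⟨i a, ?_⟩
    simp only [powMonoidHom_apply, map_pow]
  have e1 : (sqs A).relIndex N.range * N.range.index = (sqs A).index :=
    Subgroup.relIndex_mul_index hAN
  have e2 : ((sqs A).comap N).index = (sqs A).relIndex N.range := Subgroup.index_comap _ _
  have e3 : (sqs B).relIndex ((sqs A).comap N) * ((sqs A).comap N).index = (sqs B).index := by
    apply Subgroup.relIndex_mul_index
    rw [hC]
    exact le_sup_right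
  have e4 : (sqs B).relIndex ((sqs A).comap N) = ((sqs B).comap i).index := by
    rw [hC, Subgroup.index_comap]
    exact Subgroup.relIndex_sup_right i.range (sqs B)
  have e5 : (sqs A).relIndex ((sqs B).comap i) * ((sqs B).comap i).index = (sqs A).index :=
    Subgroup.relIndex_mul_index hAD
  rw [hD] at e5
  rw [e4, e2] at e3
  calc (sqs A).index ^ 2 = ((sqs A).relIndex N.range * N.range.index) *
        (2 * ((sqs B).comap i).index) := by rw [e1, e5, sq]
    _ = 2 * N.range.index * (((sqs B).comap i).index * (sqs A).relIndex N.range) := by ring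
    _ = 2 * N.range.index * (sqs B).index := by rw [e3]

end Pool.Agent.QCF
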