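import Pool.Agent.QCF.St

/-!
# QCF [G4]
-/

set_option autoImplicit false

namespace Pool.Agent.QCF

open HP7 IsDedekindDomain NumberField
open scoped WithZero

/-- the isomorphism of `ZMod 2` with `ℤˣ` -/
def G4.E (z : ZMod 2) : ℤˣ := if z = 0 then 1 else -1

theorem G4.E_add (a b : ZMod 2) : G4.E (a + b) = G4.E a * G4.E b := by
  revert a b
  decide

theorem G4.E_sum {ι : Type} (s : Finset ι) (f : ι → ZMod 2) :
    G4.E (∑ i ∈ s, f i) = ∏ i ∈ s, G4.E (f i) := by
  classical
  induction s using Finset.induction_on with
  | empty => rfl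
  | insert a s ha ih => rw [Finset.sum_insert ha, Finset.prod_insert ha, G4.E_add, ih]

theorem G4.E_surj (u : ℤˣ) : ∃ z : ZMod 2, G4.E z = u := by
  rcases Int.units_eq_one_or u with rfl | rfl
  · exact ⟨0, rfl⟩
  · exact ⟨1, rfl⟩

theorem G4.E_mul (a b : ZMod 2) : G4.E (a * b) = if b ≠ 0 then G4.E a else 1 := by
  revert a b
  decide

theorem G4.E_ne (a : ZMod 2) (h : a ≠ 0) : G4.E a = -1 := by
  revert a
  decide

theorem thm_G4 : St_G4 := by
  intro ι _ I s hs
  classical
  have := Fintype.ofFinite ι
  let p : Submodule (ZMod 2) (ι → ZMod 2) :=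
    { carrier := {x | (fun i => G4.E (x i)) ∈ I}
      add_mem' := by
        intro x y hx hy
        have : (fun i => G4.E ((x + y) i)) = (fun i => G4.E (x i)) * fun i => G4.E (y i) := by
          funext i
          simp only [Pi.add_apply, Pi.mul_apply, G4.E_add]
        rw [Set.mem_ofPred_eq, this]
        exact I.mul_mem hx hy
      zero_mem' := by
        have : (fun i => G4.E ((0 : ι → ZMod 2) i)) = 1 := by
          funext i
          rfl
        rw [Set.mem_ofPred_eq, this]
        exact I.one_mem
      smul_mem' := by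
        intro c x hx
        have hc : c = 0 ∨ c = 1 := by
          revert c
          decide
        rcases hc with rfl | rfl
        · have : (fun i => G4.E (((0 : ZMod 2) • x) i)) = 1 := by
            funext i
            rw [zero_smul]
            rfl
          rw [Set.mem_ofPred_eq, this]
          exact I.one_mem
        · rwa [one_smul] }
  choose x hx using fun t : ι → ℤˣ => fun i => G4.E_surj (t i)
  have hxs : x s ∉ p := by
    intro h
    apply hs
    have h' : (fun i => G4.E (x s i)) ∈ I := h
    have e : (fun i => G4.E (x s i)) = s := funext (hx s)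
    rwa [e] at h'
  obtain ⟨f, hf, hp⟩ := Submodule.exists_le_ker_of_notMem hxs
  have key : ∀ t : ι → ℤˣ, G4.E (f (x t)) =
      ∏ i ∈ Finset.univ.filter (fun i => f (Pi.single i 1) ≠ 0), t i := by
    intro t
    have h1 : f (x t) = ∑ i, x t i * f (Pi.single i 1) := by
      conv_lhs => rw [← Finset.univ_sum_single (x t)]
      rw [map_sum]
      refine Finset.sum_congr rfl fun i _ => ?_
      have : (Pi.single i (x t i) : ι → ZMod 2) = x t i • Pi.single i 1 := by
        rw [← Pi.single_smul, smul_eq_mul, mul_one]
      rw [this, map_smul, smul_eq_mul]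
    rw [h1, G4.E_sum, Finset.prod_filter]
    refine Finset.prod_congr rfl fun i _ => ?_
    rw [G4.E_mul, hx t i]
  refine ⟨Finset.univ.filter (fun i => f (Pi.single i 1) ≠ 0), fun t ht => ?_, ?_⟩
  · rw [← key t]
    have h1 : x t ∈ p := by
      have e : (fun i => G4.E (x t i)) = t := funext (hx t)
      show (fun i => G4.E (x t i)) ∈ I
      rwa [e]
    have h2 : f (x t) = 0 := hp h1
    rw [h2]
    rfl
  · rw [← key s]
    exact G4.E_ne _ hf

end Pool.Agent.QCF
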