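import Pool.Agent.QCF.St

/-!
# QCF [G5]
-/

set_option autoImplicit false

namespace Pool.Agent.QCF

open HP7 IsDedekindDomain NumberField
open scoped WithZero

namespace G5

variable {G P : Type} [CommGroup G] (χ : P → G →* ℤˣ)

theorem eq_neg_of_ne {x : ℤˣ} (h : x ≠ 1) : x = -1 :=
  (Int.units_eq_one_or x).resolve_left h

theorem sq_one {g : G} (h : g ∈ sqs G) (v : P) : χ v g = 1 := by
  obtain ⟨x, rfl⟩ := h
  show χ v (x ^ 2) = 1
  rw [map_pow]
  rcases Int.units_eq_one_or (χ v x) with h | h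
  · rw [h, one_pow]
  · rw [h]
    rfl

/-- there is a finite separating family -/
theorem exists_fin (hfin : (sqs G).FiniteIndex) (hsep : ∀ g, (∀ v, χ v g = 1) → g ∈ sqs G) :
    ∃ T : Finset P, ∀ g, (∀ v ∈ T, χ v g = 1) → g ∈ sqs G := by
  classical
  have hq : ∀ q : G ⧸ sqs G, ∃ v : Option P, q ≠ 1 → ∃ w, v = some w ∧ χ w q.out ≠ 1 := by
    intro q
    by_cases h : q = 1
    · exact ⟨none, fun h' => absurd h h'⟩
    · have h1 : q.out ∉ sqs G := by
        intro h2
        apply h
        rw [← QuotientGroup.out_eq' q]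
        exact (QuotientGroup.eq_one_iff _).mpr h2
      have h3 : ∃ w, χ w q.out ≠ 1 := by
        by_contra hc
        push Not at hc
        exact h1 (hsep _ hc)
      obtain ⟨w, hw⟩ := h3
      exact ⟨some w, fun _ => ⟨w, rfl, hw⟩⟩
  choose f hf using hq
  have : Finite (G ⧸ sqs G) := Subgroup.finite_quotient_of_finiteIndex
  let _ := Fintype.ofFinite (G ⧸ sqs G)
  refine ⟨(Finset.univ : Finset (G ⧸ sqs G)).biUnion (fun q => (f q).toFinset), fun g hg => ?_⟩
  by_contra hc
  have h1 : ((g : G ⧸ sqs G)) ≠ 1 := fun h => hc ((QuotientGroup.eq_one_iff _).mp h)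
  obtain ⟨w, hw1, hw2⟩ := hf _ h1
  apply hw2
  have h2 : χ w g = 1 := hg w (by
    rw [Finset.mem_biUnion]
    exact ⟨_, Finset.mem_univ _, by rw [hw1]; simp⟩)
  have h3 : ((g : G ⧸ sqs G)).out * g⁻¹ ∈ sqs G := by
    rw [← QuotientGroup.eq_one_iff, QuotientGroup.mk_mul, QuotientGroup.mk_inv,
      QuotientGroup.out_eq', mul_inv_cancel]
  have h4 := sq_one χ h3 w
  rw [map_mul, map_inv, h2, inv_one, mul_one] at h4
  exact h4

/-- the joint homomorphism -/
noncomputable def joint (T : Finset P) : G →* (T → ℤˣ) := MonoidHom.pi fun v => χ v.1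

theorem joint_apply (T : Finset P) (g : G) (v : T) : joint χ T g v = χ v.1 g := rfl

end G5

theorem thm_G5 : St_G5 := by
  classical
  intro G P _ χ n hn hsep
  have hfin : (sqs G).FiniteIndex := ⟨by rw [hn]; positivity⟩
  have hex : ∃ m : ℕ, ∃ T : Finset P, T.card = m ∧ ∀ g, (∀ v ∈ T, χ v g = 1) → g ∈ sqs G := by
    obtain ⟨T, hT⟩ := G5.exists_fin χ hfin hsep
    exact ⟨T.card, T, rfl, hT⟩
  obtain ⟨T, hTc, hT⟩ := Nat.find_spec hex
  have hdual : ∀ v ∈ T, ∃ g, χ v g = -1 ∧ ∀ u ∈ T, u ≠ v → χ u g = 1 := by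
    intro v hv
    have h1 := Nat.find_min hex (m := (T.erase v).card) (by
      rw [← hTc]
      exact Finset.card_erase_lt_of_mem hv)
    have h2 : ¬ ∀ g, (∀ u ∈ T.erase v, χ u g = 1) → g ∈ sqs G :=
      fun h => h1 ⟨T.erase v, rfl, h⟩
    push Not at h2
    obtain ⟨g, hg, hg'⟩ := h2
    refine ⟨g, ?_, fun u hu hne => hg u (Finset.mem_erase.mpr ⟨hne, hu⟩)⟩
    apply G5.eq_neg_of_ne
    intro h3
    apply hg'
    apply hT
    intro u hu
    by_cases hne : u = v
    · rw [hne, h3]
    · exact hg u (Finset.mem_erase.mpr ⟨hne, hu⟩)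
  refine ⟨T, ?_, hT, hdual⟩
  choose! d hd1 hd2 using hdual
  have hsurj : Function.Surjective (G5.joint χ T) := by
    intro ε
    refine ⟨∏ v : T, (if ε v = -1 then d v.1 else 1), ?_⟩
    funext u
    rw [map_prod, Finset.prod_apply, Finset.prod_eq_single u]
    · rw [G5.joint_apply]
      split_ifs with h
      · rw [hd1 u.1 u.2, h]
      · rw [map_one]
        exact ((Int.units_eq_one_or (ε u)).resolve_right h).symm
    · intro v _ hv
      rw [G5.joint_apply]
      split_ifs with h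
      · exact hd2 v.1 v.2 u.1 u.2 (fun e => hv (Subtype.ext e.symm))
      · rw [map_one]
    · intro h
      exact absurd (Finset.mem_univ _) h
  have hker : (G5.joint χ T).ker = sqs G := by
    apply le_antisymm
    · intro g hg
      apply hT
      intro v hv
      have h1 := congrFun (MonoidHom.mem_ker.mp hg) ⟨v, hv⟩
      exact h1
    · intro g hg
      rw [MonoidHom.mem_ker]
      funext v
      exact G5.sq_one χ hg v.1
  have h1 := Subgroup.index_ker (G5.joint χ T)
  rw [hker, hn, MonoidHom.range_eq_top.mpr hsurj, Subgroup.card_top, Nat.card_fun,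
    Nat.card_eq_fintype_card, Nat.card_eq_fintype_card, Fintype.card_coe,
    Fintype.card_units_int] at h1
  exact (Nat.pow_right_injective le_rfl h1).symm

end Pool.Agent.QCF
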