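import Pool.Agent.QCF.St
import Pool.Agent.HM.SqNA

/-!
# QCF [L1]
-/

set_option autoImplicit false

namespace Pool.Agent.QCF

open HP7 IsDedekindDomain NumberField
open scoped WithZero

section L1

variable {K : Type} [Field K] [NumberField K] (v : HeightOneSpectrum (𝓞 K))

/-- the embedding of the integers -/
private noncomputable def gE : 𝓞 K →+* v.adicCompletion K :=
  (FinitePlace.embedding (K := K) v).comp (algebraMap (𝓞 K) K)

private lemma L1_norm_le_iff (x : v.adicCompletion K) : ‖x‖ ≤ 1 ↔ Valued.v x ≤ 1 :=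
  Valued.toNormedField.norm_le_one_iff

private lemma L1_norm_lt_iff (x : v.adicCompletion K) : ‖x‖ < 1 ↔ Valued.v x < 1 :=
  Valued.toNormedField.norm_lt_one_iff

private lemma gE_lt (x : 𝓞 K) : (Valued.v (gE v x) : ℤᵐ⁰) < 1 ↔ x ∈ v.asIdeal := by
  rw [← L1_norm_lt_iff]
  exact FinitePlace.norm_lt_one_iff_mem K v x

private lemma gE_le (x : 𝓞 K) : (Valued.v (gE v x) : ℤᵐ⁰) ≤ 1 := by
  rw [← L1_norm_le_iff]
  exact FinitePlace.norm_le_one K v x

private lemma L1_um : IsUltrametricDist (v.adicCompletion K) :=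
  inferInstance

private lemma L1_val (x : K) : (Valued.v (algebraMap K (v.adicCompletion K) x) : ℤᵐ⁰) =
    v.valuation K x :=
  HeightOneSpectrum.valuedAdicCompletion_eq_valuation' (K := K) v x

/-- approximation by integers -/
private lemma L1_approx (z : v.adicCompletion K) (hz : ‖z‖ ≤ 1) :
    ∃ r : 𝓞 K, (Valued.v (z - gE v r) : ℤᵐ⁰) < 1 := by
  haveI := L1_um v
  obtain ⟨k, hk⟩ := (HeightOneSpectrum.denseRange_algebraMap K v).exists_dist_lt z
    (zero_lt_one (α := ℝ))
  rw [dist_eq_norm] at hk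
  have hk1 : ‖algebraMap K (v.adicCompletion K) k‖ ≤ 1 := by
    have h1 : algebraMap K (v.adicCompletion K) k =
        z + -(z - algebraMap K (v.adicCompletion K) k) := by ring
    rw [h1]
    refine le_trans (IsUltrametricDist.norm_add_le_max _ _) (max_le hz ?_)
    rw [norm_neg]
    exact hk.le
  have hk2 : v.valuation K k ≤ 1 := by
    have h1 := (L1_norm_le_iff v _).1 hk1
    rw [← L1_val]
    exact h1
  obtain ⟨r, hr⟩ := HeightOneSpectrum.exists_valuation_sub_lt_of_integer v hk2 1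
  refine ⟨r, ?_⟩
  have h3 : ‖algebraMap K (v.adicCompletion K) (algebraMap (𝓞 K) K r - k)‖ < 1 := by
    refine (L1_norm_lt_iff v _).2 ?_
    rw [L1_val]
    exact hr
  have h5 : z - gE v r = (z - algebraMap K (v.adicCompletion K) k) +
      -algebraMap K (v.adicCompletion K) (algebraMap (𝓞 K) K r - k) := by
    rw [map_sub]
    have h6 : gE v r = algebraMap K (v.adicCompletion K) (algebraMap (𝓞 K) K r) := rfl
    rw [h6]
    ring
  rw [← L1_norm_lt_iff, h5]
  refine lt_of_le_of_lt (IsUltrametricDist.norm_add_le_max _ _) (max_lt hk ?_)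
  rw [norm_neg]
  exact h3

private lemma L1_two : (2 : v.adicCompletion K) ≠ 0 := by
  intro h
  have h1 : algebraMap K (v.adicCompletion K) 2 = 0 := by
    rw [map_ofNat]
    exact h
  have h2 := L1_val v 2
  rw [h1, map_zero] at h2
  exact (two_ne_zero : (2 : K) ≠ 0) ((Valuation.zero_iff _).1 h2.symm)

end L1

theorem thm_L1 : St_L1 := by
  intro K _ _ v
  classical
  haveI := L1_um v
  refine ⟨?_, L1_two v, ?_, ?_⟩
  · intro n
    obtain ⟨π, hπ⟩ := v.valuation_exists_uniformizer K
    refine ⟨algebraMap K (v.adicCompletion K) (π ^ (-n)), ?_⟩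
    rw [L1_val, map_zpow₀, hπ, ← WithZero.exp_zsmul]
    congr 1
    simp
  · intro μ hμ
    have h4 : (4 : v.adicCompletion K) ≠ 0 := by
      have e : (4 : v.adicCompletion K) = 2 * 2 := by norm_num
      rw [e]
      exact mul_ne_zero (L1_two v) (L1_two v)
    obtain ⟨t, -, ht⟩ := HM.thm_SqNA (v.adicCompletion K) (1 + 4 * μ) (L1_two v) (by
      rw [add_sub_cancel_left, norm_mul]
      have h1 : ‖μ‖ < 1 := (L1_norm_lt_iff v μ).2 hμ
      have h2 : 0 < ‖(4 : v.adicCompletion K)‖ := norm_pos_iff.2 h4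
      nlinarith)
    exact ⟨t, ht.symm⟩
  · haveI hfin : Finite (𝓞 K ⧸ v.asIdeal) := v.asIdeal.finiteQuotientOfFreeOfNeBot v.ne_bot
    letI : Fintype (𝓞 K ⧸ v.asIdeal) := Fintype.ofFinite _
    obtain ⟨o, ho⟩ := (Ideal.Quotient.mk_surjective (I := v.asIdeal)).hasRightInverse
    have hsep : ∀ a b : 𝓞 K, (Valued.v (gE v a - gE v b) : ℤᵐ⁰) < 1 →
        Ideal.Quotient.mk v.asIdeal a = Ideal.Quotient.mk v.asIdeal b := by
      intro a b hab
      rw [← map_sub, gE_lt] at hab
      exact Ideal.Quotient.eq.2 hab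
    have hsep2 : ∀ a b : 𝓞 K, Ideal.Quotient.mk v.asIdeal a = Ideal.Quotient.mk v.asIdeal b →
        (Valued.v (gE v a - gE v b) : ℤᵐ⁰) < 1 := by
      intro a b hab
      rw [← map_sub, gE_lt]
      exact Ideal.Quotient.eq.1 hab
    have hinj : Function.Injective (fun q : 𝓞 K ⧸ v.asIdeal => gE v (o q)) := by
      intro q q' hq
      have h1 := hsep (o q) (o q') (by
        have h2 : gE v (o q) = gE v (o q') := hq
        rw [h2, sub_self, map_zero]
        exact zero_lt_one)
      rwa [ho, ho] at h1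
    refine ⟨Finset.univ.map ⟨_, hinj⟩, ?_, ?_, ?_⟩
    · rw [Finset.card_map, Finset.card_univ, ← Nat.card_eq_fintype_card]
      rfl
    · intro r hr
      obtain ⟨q, -, rfl⟩ := Finset.mem_map.1 hr
      exact gE_le v _
    · intro x hx
      obtain ⟨r, hr⟩ := L1_approx v x ((L1_norm_le_iff v x).2 hx)
      refine ⟨gE v (o (Ideal.Quotient.mk v.asIdeal r)), ⟨?_, ?_⟩, ?_⟩
      · exact Finset.mem_map.2 ⟨Ideal.Quotient.mk v.asIdeal r, Finset.mem_univ _, rfl⟩
      · have h1 := hsep2 r (o (Ideal.Quotient.mk v.asIdeal r)) (ho _).symm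
        have h2 : x - gE v (o (Ideal.Quotient.mk v.asIdeal r)) =
            (x - gE v r) + (gE v r - gE v (o (Ideal.Quotient.mk v.asIdeal r))) := by ring
        rw [h2]
        exact lt_of_le_of_lt (Valuation.map_add _ _ _) (max_lt hr h1)
      · rintro y ⟨hy, hxy⟩
        obtain ⟨q, -, rfl⟩ := Finset.mem_map.1 hy
        change (Valued.v (x - gE v (o q)) : ℤᵐ⁰) < 1 at hxy
        change gE v (o q) = _
        have h1 : (Valued.v (gE v (o q) - gE v r) : ℤᵐ⁰) < 1 := by
          have h2 : gE v (o q) - gE v r = (x - gE v r) - (x - gE v (o q)) := by ring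
          rw [h2]
          exact lt_of_le_of_lt (Valuation.map_sub _ _ _) (max_lt hr hxy)
        have h3 := hsep _ _ h1
        rw [ho] at h3
        rw [h3]

end Pool.Agent.QCF
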