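import Pool.Agent.QCF.St

/-!
# QCF [L10]
-/

set_option autoImplicit false

namespace Pool.Agent.QCF

open HP7 IsDedekindDomain NumberField
open scoped WithZero

private theorem l10_norm {F : Type} [Field F] {b : F} (z : QA F b) :
    QuadraticAlgebra.norm z = z.re ^ 2 - b * z.im ^ 2 := by
  rw [QuadraticAlgebra.norm_def]
  ring

private theorem l10_unit {F : Type} [Field F] {b : F} (z : QA F b)
    (h : z.re ^ 2 - b * z.im ^ 2 ≠ 0) : ∃ u : (QA F b)ˣ, (u : QA F b) = z := by
  rw [← l10_norm] at h
  exact QuadraticAlgebra.isUnit_iff_norm_isUnit.2 (isUnit_iff_ne_zero.2 h)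

private theorem l10_index (hG3 : St_G3) (hL4 : St_L4) (hL9 : St_L9)
    (F : Type) [Field F] (v : Valuation F ℤᵐ⁰) (N : ℕ) (hF : IsLF F v N) (b : F) (hb : b ≠ 0)
    (hsq : ¬ IsSquare b) (hv : v b ≤ 1) :
    (Units.map (QuadraticAlgebra.norm : QA F b →* F)).range.index = 2 := by
  have h2 : (2 : F) ≠ 0 := hF.two
  -- the valuation of two
  have hv2 : v 2 ≤ 1 := by
    have h1 : (2 : F) = 1 + 1 := by norm_num
    rw [h1]
    refine (Valuation.map_add _ _ _).trans ?_
    rw [map_one, max_self]
  have hv2' : v 2 ≠ 0 := (Valuation.ne_zero_iff v).2 h2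
  obtain ⟨e, he⟩ : ∃ e : ℕ, v 2 = WithZero.exp (-(e : ℤ)) := by
    have h3 : v 2 = WithZero.exp (WithZero.log (v 2)) := (WithZero.exp_log hv2').symm
    have h4 : WithZero.log (v 2) ≤ 0 := by
      rw [h3, ← WithZero.exp_zero, WithZero.exp_le_exp] at hv2
      exact hv2
    refine ⟨(-(WithZero.log (v 2))).toNat, ?_⟩
    rw [Int.toNat_of_nonneg (by omega), neg_neg]
    exact h3
  have hN : N ≠ 0 := by
    obtain ⟨R, hR, -, hR2⟩ := hF.res
    obtain ⟨r, ⟨hr, -⟩, -⟩ := hR2 0 (by rw [map_zero]; exact zero_le)
    rw [← hR]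
    exact Finset.card_ne_zero_of_mem hr
  have iA := (hL4 F v N e hF he).2
  have iB := hL9 F v N e b hF hb hsq hv he
  have hA0 : (sqs Fˣ).index ≠ 0 := by
    rw [iA]
    positivity
  have hB0 : (sqs (QA F b)ˣ).index ≠ 0 := by
    rw [iB]
    positivity
  have key := hG3 Fˣ (QA F b)ˣ
    (Units.map ((algebraMap F (QA F b) : F →+* QA F b) : F →* QA F b))
    (Units.map (QuadraticAlgebra.norm : QA F b →* F)) (Units.mk0 b hb)
    (by
      intro a
      ext
      simp [QuadraticAlgebra.norm_algebraMap])
    (by
      obtain ⟨u, hu⟩ := l10_unit (b := b) (⟨0, 1⟩ : QA F b) (by simpa using hb)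
      refine ⟨u, ?_⟩
      rw [Units.ext_iff]
      change ((u ^ 2 : (QA F b)ˣ) : QA F b) = algebraMap F (QA F b) b
      rw [Units.val_pow_eq_pow_val, hu]
      ext
      · simp [sq]
      · simp [sq])
    (by
      rintro ⟨u, hu⟩
      apply hsq
      refine ⟨(u : F), ?_⟩
      have h3 := congrArg (fun z : Fˣ => (z : F)) hu
      simp only [powMonoidHom_apply, Units.val_pow_eq_pow_val, Units.val_mk0] at h3
      rw [← h3, sq])
    (by
      rintro a ⟨u, hu⟩
      have h3 := congrArg (fun z : (QA F b)ˣ => (z : QA F b)) hu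
      have h4 : (u : QA F b) ^ 2 = algebraMap F (QA F b) (a : F) := by
        simpa using h3
      have hre := congrArg QuadraticAlgebra.re h4
      have him := congrArg QuadraticAlgebra.im h4
      rw [sq, QuadraticAlgebra.re_mul, QuadraticAlgebra.algebraMap_re] at hre
      rw [sq, QuadraticAlgebra.im_mul, QuadraticAlgebra.algebraMap_im] at him
      have him' : 2 * ((u : QA F b).re * (u : QA F b).im) = 0 := by linear_combination him
      rcases mul_eq_zero.1 him' with h | h
      · exact absurd h h2
      rcases mul_eq_zero.1 h with h | h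
      · right
        rw [h] at hre
        have hne : (u : QA F b).im ≠ 0 := by
          intro h0
          rw [h0] at hre
          exact a.ne_zero (by linear_combination -hre)
        refine ⟨Units.mk0 (b * (u : QA F b).im) (mul_ne_zero hb hne), ?_⟩
        ext
        simp only [powMonoidHom_apply, Units.val_pow_eq_pow_val, Units.val_mk0, Units.val_mul]
        linear_combination b * hre
      · left
        rw [h] at hre
        have hne : (u : QA F b).re ≠ 0 := by
          intro h0
          rw [h0] at hre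
          exact a.ne_zero (by linear_combination -hre)
        refine ⟨Units.mk0 ((u : QA F b).re) hne, ?_⟩
        ext
        simp only [powMonoidHom_apply, Units.val_pow_eq_pow_val, Units.val_mk0]
        linear_combination hre)
    (by
      rintro z ⟨c, hc⟩
      have h3 := congrArg (fun z : Fˣ => (z : F)) hc
      have h4 : (c : F) ^ 2 = (z : QA F b).re ^ 2 - b * (z : QA F b).im ^ 2 := by
        rw [← l10_norm]
        simpa using h3
      by_cases hs : (z : QA F b).re + (c : F) = 0
      · have him : (z : QA F b).im = 0 := by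
          have h5 : b * (z : QA F b).im ^ 2 = 0 := by
            linear_combination ((z : QA F b).re - (c : F)) * hs + h4
          rcases mul_eq_zero.1 h5 with h | h
          · exact absurd h hb
          · exact pow_eq_zero_iff two_ne_zero |>.1 h
        refine ⟨-c, 1, ?_⟩
        rw [Units.ext_iff]
        simp only [one_pow, mul_one]
        ext
        · simp
          linear_combination hs
        · simp [him]
      · obtain ⟨y, hy⟩ := l10_unit (b := b)
          (⟨(z : QA F b).re + (c : F), (z : QA F b).im⟩ : QA F b) (by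
            intro h5
            have h6 : 2 * ((c : F) * ((z : QA F b).re + (c : F))) = 0 := by
              linear_combination h5 + h4
            rcases mul_eq_zero.1 h6 with h | h
            · exact h2 h
            · rcases mul_eq_zero.1 h with h | h
              · exact c.ne_zero h
              · exact hs h)
        have h7 : 2 * ((z : QA F b).re + (c : F)) ≠ 0 := mul_ne_zero h2 hs
        refine ⟨(Units.mk0 _ h7)⁻¹, y, ?_⟩
        have h8 : algebraMap F (QA F b) (2 * ((z : QA F b).re + (c : F))) * (z : QA F b)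
            = (y : QA F b) ^ 2 := by
          rw [hy, sq]
          ext
          · simp only [QuadraticAlgebra.re_mul, QuadraticAlgebra.algebraMap_re,
              QuadraticAlgebra.algebraMap_im]
            linear_combination -h4
          · simp only [QuadraticAlgebra.im_mul, QuadraticAlgebra.algebraMap_re,
              QuadraticAlgebra.algebraMap_im]
            ring
        rw [map_inv, eq_inv_mul_iff_mul_eq, Units.ext_iff]
        simpa using h8)
    hA0 hB0
  rw [iA, iB] at key
  have h5 : N ^ (2 * e) = (N ^ e) ^ 2 := by rw [← pow_mul, mul_comm]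
  have h6 : 0 < N ^ e := Nat.pos_of_ne_zero (pow_ne_zero e hN)
  rw [h5] at key
  have h7 : (8 * (N ^ e) ^ 2) *
      (Units.map (QuadraticAlgebra.norm : QA F b →* F)).range.index = (8 * (N ^ e) ^ 2) * 2 := by
    nlinarith [key]
  exact Nat.eq_of_mul_eq_mul_left (by positivity) h7

theorem thm_L10 (hG3 : St_G3) (hL4 : St_L4) (hL9 : St_L9) : St_L10 := by
  intro F _ v N hF a ha hsq
  -- scale `a`
  have hva : v a ≠ 0 := (Valuation.ne_zero_iff v).2 ha
  obtain ⟨c, hc⟩ := hF.surj (-|WithZero.log (v a)|)
  have hc0 : c ≠ 0 := by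
    intro h
    rw [h, map_zero] at hc
    exact WithZero.exp_ne_zero hc.symm
  have hb0 : a * c ^ 2 ≠ 0 := mul_ne_zero ha (pow_ne_zero 2 hc0)
  have hbs : ¬ IsSquare (a * c ^ 2) := by
    rintro ⟨r, hr⟩
    apply hsq
    refine ⟨r / c, ?_⟩
    field_simp
    linear_combination hr
  have hvb : v (a * c ^ 2) ≤ 1 := by
    rw [map_mul, map_pow, hc, ← WithZero.exp_log hva, ← WithZero.exp_nsmul, ← WithZero.exp_add,
      ← WithZero.exp_zero, WithZero.exp_le_exp, WithZero.log_exp]
    have h1 := le_abs_self (WithZero.log (v a))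
    have h2 := abs_nonneg (WithZero.log (v a))
    simp only [smul_neg, nsmul_eq_mul, Nat.cast_ofNat]
    linarith
  have hidx := l10_index hG3 hL4 hL9 F v N hF (a * c ^ 2) hb0 hbs hvb
  have hmem : ∀ u : Fˣ, u ∈ (Units.map (QuadraticAlgebra.norm : QA F (a * c ^ 2) →* F)).range ↔
      ∃ x y : F, x ^ 2 - a * y ^ 2 = (u : F) := by
    intro u
    constructor
    · rintro ⟨z, hz⟩
      refine ⟨(z : QA F (a * c ^ 2)).re, c * (z : QA F (a * c ^ 2)).im, ?_⟩
      have h3 := congrArg (fun z : Fˣ => (z : F)) hz
      have h4 : (z : QA F (a * c ^ 2)).re ^ 2 - (a * c ^ 2) * (z : QA F (a * c ^ 2)).im ^ 2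
          = (u : F) := by
        rw [← l10_norm]
        simpa using h3
      linear_combination h4
    · rintro ⟨x, y, hxy⟩
      have h5 : x ^ 2 - a * c ^ 2 * (y / c) ^ 2 = (u : F) := by
        rw [← hxy]
        field_simp
      obtain ⟨z, hz⟩ := l10_unit (b := a * c ^ 2) (⟨x, y / c⟩ : QA F (a * c ^ 2)) (by
        change x ^ 2 - a * c ^ 2 * (y / c) ^ 2 ≠ 0
        rw [h5]
        exact u.ne_zero)
      refine ⟨z, ?_⟩
      ext
      rw [Units.coe_map, hz, l10_norm]
      exact h5
  constructor
  · by_contra hcon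
    push Not at hcon
    have htop : (Units.map (QuadraticAlgebra.norm : QA F (a * c ^ 2) →* F)).range = ⊤ := by
      rw [eq_top_iff]
      intro u _
      rw [hmem]
      obtain ⟨x, y, hxy⟩ := hcon (u : F) u.ne_zero
      exact ⟨x, y, hxy⟩
    rw [htop, Subgroup.index_top] at hidx
    omega
  · intro b d hb hd hnb hnd
    have h1 : Units.mk0 b hb ∉ (Units.map (QuadraticAlgebra.norm : QA F (a * c ^ 2) →* F)).range := by
      rw [hmem]
      exact hnb
    have h2 : Units.mk0 d hd ∉ (Units.map (QuadraticAlgebra.norm : QA F (a * c ^ 2) →* F)).range := by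
      rw [hmem]
      exact hnd
    have h3 := (Subgroup.mul_mem_iff_of_index_two hidx (a := Units.mk0 b hb)
      (b := Units.mk0 d hd)).2 ⟨fun h => absurd h h1, fun h => absurd h h2⟩
    rw [hmem] at h3
    exact h3

end Pool.Agent.QCF
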