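import Pool.Agent.QCF.St
import Pool.Agent.HM.WA
import Pool.Agent.HM.SqNear

/-!
# QCF [L11]
-/

set_option autoImplicit false

namespace Pool.Agent.QCF

open HP7 IsDedekindDomain NumberField
open scoped WithZero

/-- every nonzero element of the completion is an element of `K` times a square -/
theorem L11.dense {K : Type} [Field K] [NumberField K] (w : Pl K) (x : HM.Cpl w) (hx : x ≠ 0) :
    ∃ (a : Kˣ) (y : HM.Cpl w), y ≠ 0 ∧ x = algebraMap K (HM.Cpl w) (a : K) * y ^ 2 := by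
  obtain ⟨ε, hε, h⟩ := HM.thm_SqNear K w x hx
  obtain ⟨a, ha⟩ := HM.approx_one w x hε
  obtain ⟨t, ht, hat⟩ := h _ ha
  have ha0 : a ≠ 0 := by
    rintro rfl
    rw [map_zero] at hat
    exact mul_ne_zero hx (pow_ne_zero 2 ht) hat.symm
  refine ⟨Units.mk0 a ha0, t⁻¹, inv_ne_zero ht, ?_⟩
  rw [Units.val_mk0, hat]
  field_simp

theorem thm_L11 (_hL1 : St_L1) : St_L11 := by
  intro K _ _ v x hx
  exact L11.dense (Sum.inl v : Pl K) x hx

end Pool.Agent.QCF
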