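import Pool.Agent.QCF.St

/-!
# QCF [L12]

Local squares and norms at finite places in terms of `K`: density of `K` in the completion and the
property `hensel` of `[L1]`.
-/

set_option autoImplicit false

namespace Pool.Agent.QCF

open HP7 IsDedekindDomain NumberField
open scoped WithZero

namespace L12

variable {K : Type} [Field K] [NumberField K] (v : HeightOneSpectrum (𝓞 K))

private theorem val_eq (k : K) :
    Valued.v (algebraMap K (v.adicCompletion K) k) = v.valuation K k :=
  HeightOneSpectrum.valuedAdicCompletion_eq_valuation' v k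

/-- approximation of a zero of a continuous function by elements of `K` -/
private theorem dense_zero (g : v.adicCompletion K × v.adicCompletion K → v.adicCompletion K)
    (hg : Continuous g) (p : v.adicCompletion K × v.adicCompletion K) (hp : g p = 0) (c : K)
    (hc : c ≠ 0) :
    ∃ x y : K, Valued.v (g (algebraMap K (v.adicCompletion K) x,
      algebraMap K (v.adicCompletion K) y)) < v.valuation K c := by
  have hic : algebraMap K (v.adicCompletion K) c ≠ 0 := (map_ne_zero _).2 hc
  have hcont : Continuous fun q => ‖g q / algebraMap K (v.adicCompletion K) c‖ :=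
    (hg.div_const _).norm
  have hopen : IsOpen {q | ‖g q / algebraMap K (v.adicCompletion K) c‖ < 1} :=
    isOpen_lt hcont continuous_const
  have hmem : p ∈ {q | ‖g q / algebraMap K (v.adicCompletion K) c‖ < 1} := by
    show ‖g p / algebraMap K (v.adicCompletion K) c‖ < 1
    rw [hp, zero_div, norm_zero]
    exact zero_lt_one
  have hd : DenseRange (Prod.map (algebraMap K (v.adicCompletion K))
      (algebraMap K (v.adicCompletion K))) :=
    (HeightOneSpectrum.denseRange_algebraMap K v).prodMap
      (HeightOneSpectrum.denseRange_algebraMap K v)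
  obtain ⟨⟨x, y⟩, hxy⟩ := hd.exists_mem_open hopen ⟨p, hmem⟩
  refine ⟨x, y, ?_⟩
  have h1 : Valued.v (g (algebraMap K (v.adicCompletion K) x,
      algebraMap K (v.adicCompletion K) y) / algebraMap K (v.adicCompletion K) c) < 1 :=
    Valued.toNormedField.norm_lt_one_iff.1 hxy
  have hc0 : 0 < v.valuation K c := (Valuation.pos_iff _).2 hc
  rw [map_div₀, val_eq, div_lt_one₀ hc0] at h1
  exact h1

/-- an element near a nonzero element `c` is `c` times a square -/
private theorem near (hL1 : St_L1) {b c : v.adicCompletion K} (hb : b ≠ 0)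
    (h : Valued.v (b - c) < Valued.v (4 * b)) :
    ∃ z : v.adicCompletion K, b = c * z ^ 2 := by
  have hLF := hL1 K v
  have h2 : (2 : v.adicCompletion K) ≠ 0 := hLF.two
  have h4 : (4 : v.adicCompletion K) ≠ 0 := by
    have : (4 : v.adicCompletion K) = 2 * 2 := by norm_num
    rw [this]
    exact mul_ne_zero h2 h2
  have h4le : Valued.v (4 : v.adicCompletion K) ≤ 1 := by
    have h5 : (4 : v.adicCompletion K) = 1 + 1 + (1 + 1) := by norm_num
    rw [h5]
    have h6 : Valued.v (1 + 1 : v.adicCompletion K) ≤ 1 :=
      (Valuation.map_add _ _ _).trans (max_le (by rw [map_one]) (by rw [map_one]))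
    exact (Valuation.map_add _ _ _).trans (max_le h6 h6)
  have hbb : Valued.v (b - c) < Valued.v b := by
    refine h.trans_le ?_
    rw [map_mul]
    calc Valued.v (4 : v.adicCompletion K) * Valued.v b ≤ 1 * Valued.v b := by gcongr
      _ = _ := one_mul _
  have hcv : Valued.v c = Valued.v b := by
    have h5 : c = b - (b - c) := by ring
    rw [h5]
    exact Valuation.map_sub_eq_of_lt_left _ hbb
  have hb0 : Valued.v b ≠ 0 := (Valuation.ne_zero_iff _).2 hb
  have hc : c ≠ 0 := by
    rintro rfl
    rw [map_zero] at hcv
    exact hb0 hcv.symm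
  obtain ⟨z, hz⟩ := hLF.hensel ((b - c) / (4 * c)) (by
    rw [map_div₀, map_mul, hcv, ← map_mul]
    have h5 : 0 < Valued.v (4 * b) := (Valuation.pos_iff _).2 (mul_ne_zero h4 hb)
    rw [div_lt_one₀ h5]
    exact h)
  refine ⟨z, ?_⟩
  rw [hz]
  field_simp
  ring

end L12

theorem thm_L12 (hL1 : St_L1) : St_L12 := by
  intro K _ _ v a
  have ha : (a : K) ≠ 0 := a.ne_zero
  have h4 : (4 : K) ≠ 0 := by norm_num
  have hi : ∀ k : K, k ≠ 0 → algebraMap K (v.adicCompletion K) k ≠ 0 := fun k hk =>
    (map_ne_zero _).2 hk
  have hi4 : algebraMap K (v.adicCompletion K) 4 = 4 := map_ofNat _ 4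
  constructor
  · constructor
    · rintro ⟨X, hX⟩
      have hX' : X ^ 2 = algebraMap K (v.adicCompletion K) (a : K) := hX
      obtain ⟨x, y, hxy⟩ := L12.dense_zero v
        (fun q => algebraMap K (v.adicCompletion K) (a : K) - q.1 ^ 2) (by fun_prop) (X, X)
        (by show algebraMap K (v.adicCompletion K) (a : K) - X ^ 2 = 0; rw [hX', sub_self])
        (4 * (a : K)) (mul_ne_zero h4 ha)
      refine ⟨x, ?_⟩
      have e : algebraMap K (v.adicCompletion K) ((a : K) - x ^ 2) =
          algebraMap K (v.adicCompletion K) (a : K) - algebraMap K (v.adicCompletion K) x ^ 2 := by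
        rw [map_sub, map_pow]
      have h5 : Valued.v (algebraMap K (v.adicCompletion K) ((a : K) - x ^ 2)) <
          v.valuation K (4 * (a : K)) := by
        rw [e]
        exact hxy
      rw [L12.val_eq] at h5
      exact h5
    · rintro ⟨x, hx⟩
      obtain ⟨z, hz⟩ := L12.near v hL1 (b := algebraMap K (v.adicCompletion K) (a : K))
        (c := algebraMap K (v.adicCompletion K) (x ^ 2)) (hi _ ha) (by
          rw [← map_sub, L12.val_eq, ← hi4, ← map_mul, L12.val_eq]
          exact hx)
      refine ⟨algebraMap K (v.adicCompletion K) x * z, ?_⟩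
      show (algebraMap K (v.adicCompletion K) x * z) ^ 2 =
        algebraMap K (v.adicCompletion K) (a : K)
      rw [hz, map_pow]
      ring
  · intro b
    have hb : (b : K) ≠ 0 := b.ne_zero
    constructor
    · rintro ⟨X, Y, hX⟩
      have hX' : X ^ 2 - algebraMap K (v.adicCompletion K) (a : K) * Y ^ 2 =
        algebraMap K (v.adicCompletion K) (b : K) := hX
      obtain ⟨x, y, hxy⟩ := L12.dense_zero v
        (fun q => algebraMap K (v.adicCompletion K) (b : K) -
          (q.1 ^ 2 - algebraMap K (v.adicCompletion K) (a : K) * q.2 ^ 2)) (by fun_prop) (X, Y)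
        (by
          show algebraMap K (v.adicCompletion K) (b : K) -
            (X ^ 2 - algebraMap K (v.adicCompletion K) (a : K) * Y ^ 2) = 0
          rw [hX', sub_self])
        (4 * (b : K)) (mul_ne_zero h4 hb)
      refine ⟨x, y, ?_⟩
      have e : algebraMap K (v.adicCompletion K) ((b : K) - (x ^ 2 - (a : K) * y ^ 2)) =
          algebraMap K (v.adicCompletion K) (b : K) -
          (algebraMap K (v.adicCompletion K) x ^ 2 - algebraMap K (v.adicCompletion K) (a : K) *
            algebraMap K (v.adicCompletion K) y ^ 2) := by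
        rw [map_sub, map_sub, map_pow, map_mul, map_pow]
      have h5 : Valued.v (algebraMap K (v.adicCompletion K)
          ((b : K) - (x ^ 2 - (a : K) * y ^ 2))) < v.valuation K (4 * (b : K)) := by
        rw [e]
        exact hxy
      rw [L12.val_eq] at h5
      exact h5
    · rintro ⟨x, y, hx⟩
      obtain ⟨z, hz⟩ := L12.near v hL1 (b := algebraMap K (v.adicCompletion K) (b : K))
        (c := algebraMap K (v.adicCompletion K) (x ^ 2 - (a : K) * y ^ 2)) (hi _ hb) (by
          rw [← map_sub, L12.val_eq, ← hi4, ← map_mul, L12.val_eq]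
          exact hx)
      refine ⟨algebraMap K (v.adicCompletion K) x * z, algebraMap K (v.adicCompletion K) y * z, ?_⟩
      show (algebraMap K (v.adicCompletion K) x * z) ^ 2 -
        algebraMap K (v.adicCompletion K) (a : K) * (algebraMap K (v.adicCompletion K) y * z) ^ 2 =
        algebraMap K (v.adicCompletion K) (b : K)
      rw [hz, map_sub, map_mul, map_pow, map_pow]
      ring

end Pool.Agent.QCF
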