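import Pool.Agent.QCF.St

/-!
# QCF [L13]

Local squares and norms at the infinite places: the completion is `ℝ` or `ℂ`.
-/

set_option autoImplicit false

namespace Pool.Agent.QCF

open HP7 IsDedekindDomain NumberField
open scoped WithZero

/-- at a complex place everything is a square -/
private theorem L13_complex {K : Type} [Field K] [NumberField K] (w : InfinitePlace K)
    (hw : w.IsComplex) (a : K) : LSq (Sum.inr w) a := by
  change ∃ x : w.Completion, x ^ 2 = algebraMap K w.Completion a
  obtain ⟨z, hz⟩ := Complex.isSquare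
    (InfinitePlace.Completion.ringEquivComplexOfIsComplex hw (algebraMap K w.Completion a))
  refine ⟨(InfinitePlace.Completion.ringEquivComplexOfIsComplex hw).symm z, ?_⟩
  rw [← map_pow, sq, ← hz, RingEquiv.symm_apply_apply]

private theorem L13_emb {K : Type} [Field K] [NumberField K] (w : InfinitePlace K)
    (hw : w.IsReal) (a : K) :
    InfinitePlace.Completion.ringEquivRealOfIsReal hw (algebraMap K w.Completion a) =
      (w.embedding a).re := by
  rw [InfinitePlace.Completion.ringEquivRealOfIsReal_apply]
  have h := InfinitePlace.Completion.extensionEmbeddingOfIsReal_coe hw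
    ((WithAbs.equiv w.1).symm a)
  have h2 : (w.embedding a).re = InfinitePlace.embedding_of_isReal hw a := by
    rw [← InfinitePlace.embedding_of_isReal_apply hw a, Complex.ofReal_re]
  rw [h2]
  exact h

private theorem L13_real {K : Type} [Field K] [NumberField K] (w : InfinitePlace K)
    (hw : w.IsReal) (a : Kˣ) :
    LSq (Sum.inr w) (a : K) ↔ 0 < (w.embedding (a : K)).re := by
  have hne : (w.embedding (a : K)).re ≠ 0 := by
    rw [← L13_emb w hw]
    intro h
    rw [map_eq_zero, map_eq_zero] at h
    exact a.ne_zero h
  constructor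
  · rintro ⟨x, hx⟩
    have h := congrArg (InfinitePlace.Completion.ringEquivRealOfIsReal hw) hx
    rw [L13_emb w hw, map_pow] at h
    rw [← h] at hne ⊢
    exact lt_of_le_of_ne (sq_nonneg _) (Ne.symm hne)
  · intro h
    refine ⟨(InfinitePlace.Completion.ringEquivRealOfIsReal hw).symm
      (Real.sqrt (w.embedding (a : K)).re), ?_⟩
    rw [← map_pow, Real.sq_sqrt h.le, ← L13_emb w hw, RingEquiv.symm_apply_apply]

theorem thm_L13 : St_L13 := by
  intro K _ _ w a
  refine ⟨fun hw => L13_complex w hw _, fun hw => L13_real w hw a, fun hw b => ?_⟩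
  constructor
  · rintro ⟨x, y, hxy⟩
    by_contra hcon
    rw [not_or, not_lt, not_lt] at hcon
    obtain ⟨ha, hb⟩ := hcon
    have hne : (w.embedding (b : K)).re ≠ 0 := by
      rw [← L13_emb w hw]
      intro h
      rw [map_eq_zero, map_eq_zero] at h
      exact b.ne_zero h
    have h := congrArg (InfinitePlace.Completion.ringEquivRealOfIsReal hw) hxy
    rw [map_sub, map_mul, map_pow, map_pow, L13_emb w hw, L13_emb w hw] at h
    have hb' := lt_of_le_of_ne hb hne
    rw [← h] at hb'
    have h1 := sq_nonneg (InfinitePlace.Completion.ringEquivRealOfIsReal hw x)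
    have h2 := mul_nonneg (neg_nonneg.2 ha)
      (sq_nonneg (InfinitePlace.Completion.ringEquivRealOfIsReal hw y))
    linarith
  · rintro (h | h)
    · exact lnm_of_lsq _ a.ne_zero _ ((L13_real w hw a).2 h)
    · exact lnm_symm _ b.ne_zero a.ne_zero
        (lnm_of_lsq _ b.ne_zero _ ((L13_real w hw b).2 h))

end Pool.Agent.QCF
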