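import Pool.Agent.QCF.St

/-!
# QCF [L15]: product formula for the indices of the local squares
-/

set_option autoImplicit false

namespace Pool.Agent.QCF

open HP7 IsDedekindDomain NumberField
open scoped WithZero

section L15

variable {K : Type} [Field K] [NumberField K]

open Classical in
private noncomputable def e2 (v : HeightOneSpectrum (𝓞 K)) : ℕ :=
  (Associates.mk v.asIdeal).count (Associates.mk (Ideal.span {(2 : 𝓞 K)} : Ideal (𝓞 K))).factors

private lemma val_two (v : HeightOneSpectrum (𝓞 K)) :
    v.valuation K (2 : K) = WithZero.exp (-(e2 v : ℤ)) := by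
  have h : v.valuation K (algebraMap (𝓞 K) K 2) = v.intValuation 2 :=
    HeightOneSpectrum.valuation_of_algebraMap v 2
  rw [map_ofNat] at h
  rw [h, HeightOneSpectrum.intValuation_if_neg _ two_ne_zero]
  rfl

private lemma norm_two (T : Finset (HeightOneSpectrum (𝓞 K))) (hT : ∀ v ∉ T, e2 v = 0) :
    ∏ v ∈ T, Ideal.absNorm v.asIdeal ^ e2 v = 2 ^ Module.finrank ℚ K := by
  have hI : (Ideal.span {(2 : 𝓞 K)} : Ideal (𝓞 K)) ≠ 0 := by simp
  have h1 := Ideal.finprod_heightOneSpectrum_factorization hI
  have hsub : Function.mulSupport (fun v : HeightOneSpectrum (𝓞 K) =>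
      v.maxPowDividing (Ideal.span {(2 : 𝓞 K)})) ⊆ T := by
    intro v hv
    by_contra hvT
    apply hv
    have := hT v hvT
    unfold e2 at this
    simp only [HeightOneSpectrum.maxPowDividing]
    rw [this, pow_zero]
  rw [finprod_eq_prod_of_mulSupport_subset _ hsub] at h1
  have h2 := congrArg Ideal.absNorm h1
  rw [map_prod, Ideal.absNorm_span_singleton] at h2
  have h3 : Algebra.norm ℤ (2 : 𝓞 K) = 2 ^ Module.finrank ℚ K := by
    have : (2 : 𝓞 K) = algebraMap ℤ (𝓞 K) 2 := by simp
    rw [this, Algebra.norm_algebraMap, RingOfIntegers.rank]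
  rw [h3, Int.natAbs_pow] at h2
  rw [show (2 : ℕ) = (2 : ℤ).natAbs from rfl, ← h2]
  refine Finset.prod_congr rfl fun v _ => ?_
  simp only [HeightOneSpectrum.maxPowDividing, map_pow]
  rfl

end L15

theorem thm_L15 (hL14 : St_L14) : St_L15 := by
  classical
  intro K _ _ S hinf hfin
  obtain ⟨h1, h2, h3⟩ := hL14 K
  have hS : S = S.toLeft.disjSum S.toRight := (Finset.toLeft_disjSum_toRight).symm
  have hR : S.toRight = Finset.univ := by
    ext w
    simp [hinf w]
  have hcard : S.card = S.toLeft.card + (InfinitePlace.nrRealPlaces K +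
      InfinitePlace.nrComplexPlaces K) := by
    conv_lhs => rw [hS]
    rw [Finset.card_disjSum, hR, Finset.card_univ,
      InfinitePlace.card_eq_nrRealPlaces_add_nrComplexPlaces]
  have hprod : ∏ w ∈ S, (SqG w).index = (∏ v ∈ S.toLeft, (SqG (Sum.inl v : Pl K)).index) *
      ∏ w : InfinitePlace K, (SqG (Sum.inr w : Pl K)).index := by
    conv_lhs => rw [hS]
    rw [Finset.prod_disjSum, hR]
  have hI : ∏ w : InfinitePlace K, (SqG (Sum.inr w : Pl K)).index =
      2 ^ InfinitePlace.nrRealPlaces K := by
    have : ∀ w : InfinitePlace K, (SqG (Sum.inr w : Pl K)).index =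
        if w.IsReal then 2 else 1 := by
      intro w
      split_ifs with hw
      · exact h2 w hw
      · exact h3 w (InfinitePlace.not_isReal_iff_isComplex.mp hw)
    simp_rw [this]
    rw [Finset.prod_ite, Finset.prod_const, Finset.prod_const_one, mul_one,
      InfinitePlace.nrRealPlaces, Fintype.card_subtype]
  have hF : ∏ v ∈ S.toLeft, (SqG (Sum.inl v : Pl K)).index =
      4 ^ S.toLeft.card * 2 ^ Module.finrank ℚ K := by
    rw [← norm_two (K := K) S.toLeft, ← Finset.prod_const, ← Finset.prod_mul_distrib]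
    · exact Finset.prod_congr rfl fun v _ => h1 v (e2 v) (val_two v)
    · intro v hv
      have := hfin v (by simpa using hv)
      rw [val_two, ← WithZero.exp_zero, WithZero.exp_inj] at this
      omega
  rw [hprod, hI, hF, hcard, ← InfinitePlace.card_add_two_mul_card_eq_rank K,
    show (4 : ℕ) = 2 ^ 2 from rfl, ← pow_mul, ← pow_mul, ← pow_add, ← pow_add]
  congr 1
  ring

end Pool.Agent.QCF
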