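import Pool.Agent.QCF.St

/-!
# QCF [L16]
-/

set_option autoImplicit false

namespace Pool.Agent.QCF

open HP7 IsDedekindDomain NumberField
open scoped WithZero

private theorem L16.fin (hL1 : St_L1) (hL10 : St_L10) (hL11 : St_L11)
    (K : Type) [Field K] [NumberField K] (v : HeightOneSpectrum (𝓞 K)) (a : Kˣ) :
    (¬ LSq (Sum.inl v) (a : K) → ∃ b : Kˣ, ¬ LNm (Sum.inl v) (a : K) (b : K)) ∧
    ∀ b c : Kˣ, ¬ LNm (Sum.inl v) (a : K) (b : K) → ¬ LNm (Sum.inl v) (a : K) (c : K) →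
      LNm (Sum.inl v) (a : K) ((b * c : Kˣ) : K) := by
  have ha0 : algebraMap K (v.adicCompletion K) (a : K) ≠ 0 := (map_ne_zero _).2 a.ne_zero
  have hsq : ¬ LSq (Sum.inl v) (a : K) → ¬ IsSquare (algebraMap K (v.adicCompletion K) (a : K)) := by
    rintro h ⟨x, hx⟩
    exact h ⟨x, by rw [hx, sq]⟩
  constructor
  · intro h
    obtain ⟨⟨b, hb0, hb⟩, -⟩ := hL10 _ _ _ (hL1 K v) _ ha0 (hsq h)
    obtain ⟨b0, y, hy, rfl⟩ := hL11 K v b hb0
    refine ⟨b0, ?_⟩
    rintro ⟨x, z, hxz⟩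
    refine hb ⟨x * y, z * y, ?_⟩
    rw [← hxz]
    ring
  · intro b c hb hc
    have h : ¬ LSq (Sum.inl v) (a : K) := fun h => hb (lnm_of_lsq _ a.ne_zero _ h)
    obtain ⟨-, h2⟩ := hL10 _ _ _ (hL1 K v) _ ha0 (hsq h)
    obtain ⟨x, y, hxy⟩ := h2 (algebraMap K (v.adicCompletion K) (b : K))
      (algebraMap K (v.adicCompletion K) (c : K)) ((map_ne_zero _).2 b.ne_zero)
      ((map_ne_zero _).2 c.ne_zero) hb hc
    exact ⟨x, y, by rw [hxy, Units.val_mul, map_mul]⟩

private theorem L16.real (K : Type) [Field K] [NumberField K] (w : InfinitePlace K) (hw : w.IsReal)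
    (b : K) : w.embedding b = (((w.embedding b).re : ℝ) : ℂ) := by
  have h := InfinitePlace.isReal_iff.1 hw
  have h1 := ComplexEmbedding.IsReal.coe_embedding_apply h b
  rw [← h1, Complex.ofReal_re]

private theorem L16.inf (hL13 : St_L13)
    (K : Type) [Field K] [NumberField K] (w : InfinitePlace K) (a : Kˣ) :
    (¬ LSq (Sum.inr w) (a : K) → ∃ b : Kˣ, ¬ LNm (Sum.inr w) (a : K) (b : K)) ∧
    ∀ b c : Kˣ, ¬ LNm (Sum.inr w) (a : K) (b : K) → ¬ LNm (Sum.inr w) (a : K) (c : K) →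
      LNm (Sum.inr w) (a : K) ((b * c : Kˣ) : K) := by
  obtain ⟨h1, h2, h3⟩ := hL13 K w a
  rcases w.isReal_or_isComplex with hw | hw
  · have h2 := h2 hw
    have h3 := h3 hw
    have hre : ∀ b : Kˣ, (w.embedding (b : K)).re ≠ 0 := by
      intro b h
      have := L16.real K w hw b
      rw [h, Complex.ofReal_zero] at this
      exact b.ne_zero ((map_eq_zero _).1 this)
    constructor
    · intro h
      refine ⟨-1, ?_⟩
      rw [h3 (-1)]
      rintro (h' | h')
      · exact h (h2.2 h')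
      · simp at h'
        linarith
    · intro b c hb hc
      rw [h3 (b * c)]
      rw [h3 b] at hb
      rw [h3 c] at hc
      push Not at hb hc
      right
      have hb' := lt_of_le_of_ne hb.2 (hre b)
      have hc' := lt_of_le_of_ne hc.2 (hre c)
      rw [Units.val_mul, map_mul, L16.real K w hw b, L16.real K w hw c, ← Complex.ofReal_mul,
        Complex.ofReal_re]
      exact mul_pos_of_neg_of_neg hb' hc'
  · exact ⟨fun h => absurd (h1 hw) h, fun b c hb _ => absurd (lnm_of_lsq _ a.ne_zero _ (h1 hw)) hb⟩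

theorem thm_L16 (hL1 : St_L1) (hL10 : St_L10) (hL11 : St_L11) (hL13 : St_L13) : St_L16 := by
  intro K _ _ w a
  rcases w with v | w
  · exact L16.fin hL1 hL10 hL11 K v a
  · exact L16.inf hL13 K w a

end Pool.Agent.QCF
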