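import Pool.Agent.QCF.St

/-!
# QCF [L17]
-/

set_option autoImplicit false

namespace Pool.Agent.QCF

open HP7 IsDedekindDomain NumberField
open scoped WithZero

open Classical in
theorem thm_L17 (hL16 : St_L16) : St_L17 := by
  intro K _ _ w
  refine ⟨?_, ?_, ?_, ?_⟩
  · intro a b c
    unfold sgn
    by_cases hb : LNm w (a : K) (b : K)
    · rw [if_pos hb, one_mul]
      refine if_congr ?_ rfl rfl
      rw [Units.val_mul]
      exact lnm_mul_iff w b.ne_zero hb
    · by_cases hc : LNm w (a : K) (c : K)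
      · rw [if_pos hc, mul_one]
        refine if_congr ?_ rfl rfl
        rw [Units.val_mul, mul_comm]
        exact lnm_mul_iff w c.ne_zero hc
      · rw [if_neg hb, if_neg hc, if_pos ((hL16 K w a).2 b c hb hc)]
        rfl
  · intro a b
    unfold sgn
    exact if_congr ⟨lnm_symm w a.ne_zero b.ne_zero, lnm_symm w b.ne_zero a.ne_zero⟩ rfl rfl
  · intro a b h
    unfold sgn
    rw [if_pos (lnm_of_lsq w a.ne_zero (b : K) h)]
  · intro a h
    obtain ⟨b, hb⟩ := (hL16 K w a).1 h
    refine ⟨b, ?_⟩
    unfold sgn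
    rw [if_neg hb]

end Pool.Agent.QCF
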