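import Pool.Agent.QCF.St
import Pool.Agent.QCF.Basic
import Pool.Agent.HM.SqNA
import Pool.Agent.HM.Good
import Pool.Agent.HM.Alg

/-!
# QCF [L18]
-/

set_option autoImplicit false

namespace Pool.Agent.QCF

open HP7 IsDedekindDomain NumberField
open scoped WithZero

namespace L18

variable {K : Type} [Field K] [NumberField K]

/-- units are norms -/
theorem unit_norm (v : HeightOneSpectrum (𝓞 K)) (h2 : v.valuation K (2 : K) = 1) (a b : K)
    (ha : v.valuation K a = 1) (hb : v.valuation K b = 1) : LNm (Sum.inl v) a b := by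
  have hval : ∀ x : K, Valued.v (algebraMap K (v.adicCompletion K) x) = v.valuation K x := by
    intro x
    exact HeightOneSpectrum.valuedAdicCompletion_eq_valuation' (K := K) v x
  have hd := HM.thm_Good HM.thm_SqNA K v ![1, algebraMap K (v.adicCompletion K) (-a),
    algebraMap K (v.adicCompletion K) (-b)] (by
      have := hval 2
      rw [map_ofNat] at this
      rw [this, h2]) (by
      intro i
      fin_cases i
      · exact map_one _
      · change Valued.v (algebraMap K (v.adicCompletion K) (-a)) = 1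
        rw [hval, Valuation.map_neg, ha]
      · change Valued.v (algebraMap K (v.adicCompletion K) (-b)) = 1
        rw [hval, Valuation.map_neg, hb])
  obtain ⟨x, hx, hx0⟩ := hd
  have ha0 : a ≠ 0 := by
    rintro rfl
    rw [map_zero] at ha
    exact zero_ne_one ha
  have hb0 : b ≠ 0 := by
    rintro rfl
    rw [map_zero] at hb
    exact zero_ne_one hb
  have h20 : (2 : v.adicCompletion K) ≠ 0 := by
    intro h
    have h3 := hval 2
    rw [map_ofNat, h, map_zero, h2] at h3
    exact zero_ne_one h3
  have ht := (HM.thm_Tern (v.adicCompletion K) 1 (algebraMap K (v.adicCompletion K) (-a))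
    (algebraMap K (v.adicCompletion K) (-b)) h20 one_ne_zero (by
      rw [map_ne_zero]
      exact neg_ne_zero.2 ha0) (by
      rw [map_ne_zero]
      exact neg_ne_zero.2 hb0)).1 ⟨x 0, x 1, x 2, ?_, ?_⟩
  · obtain ⟨p, q, hpq⟩ := ht
    refine ⟨p, q, ?_⟩
    rw [map_neg, map_neg, one_mul, one_mul, neg_neg, neg_neg] at hpq
    exact hpq.symm
  · rintro ⟨h0, h1, h2'⟩
    apply hx
    funext i
    fin_cases i
    · exact h0
    · exact h1
    · exact h2'
  · rw [Fin.sum_univ_three] at hx0
    exact hx0

/-- scaling -/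
theorem scale (w : Pl K) (a b p q : K) (hp : p ≠ 0) (hq : q ≠ 0)
    (h : LNm w (a * p ^ 2) (b * q ^ 2)) : LNm w a b := by
  refine at_mono (P := NormOf (a * p ^ 2) (b * q ^ 2)) (Q := NormOf a b) ?_ w h
  rintro F _ i ⟨x, y, hxy⟩
  have hp' : i p ≠ 0 := (map_ne_zero i).2 hp
  have hq' : i q ≠ 0 := (map_ne_zero i).2 hq
  refine ⟨x / i q, i p * y / i q, ?_⟩
  rw [map_mul, map_mul, map_pow, map_pow] at hxy
  field_simp
  linear_combination hxy

end L18

theorem thm_L18 (hL12 : St_L12) : St_L18 := by
  intro K _ _ v a b h2 ha hns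
  have h4 : v.valuation K (4 : K) = 1 := by
    have : (4 : K) = 2 * 2 := by norm_num
    rw [this, map_mul, h2, one_mul]
  constructor
  · intro h
    obtain ⟨x, y, hxy⟩ := ((hL12 K v a).2 b).1 h
    rw [map_mul, h4, one_mul] at hxy
    have hb0 : v.valuation K (b : K) ≠ 0 := (Valuation.ne_zero_iff _).2 b.ne_zero
    have hN : v.valuation K (x ^ 2 - (a : K) * y ^ 2) = v.valuation K (b : K) := by
      have h5 : x ^ 2 - (a : K) * y ^ 2 = (b : K) - ((b : K) - (x ^ 2 - (a : K) * y ^ 2)) := by
        ring
      rw [h5]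
      exact Valuation.map_sub_eq_of_lt_left _ hxy
    have hevx : ∀ z : K, z ≠ 0 → EvenAt v (z ^ 2) := by
      intro z hz
      have hz0 : v.valuation K z ≠ 0 := (Valuation.ne_zero_iff _).2 hz
      refine ⟨WithZero.log (v.valuation K z), ?_⟩
      rw [map_pow, two_mul, WithZero.exp_add, WithZero.exp_log hz0, sq]
    have hevay : ∀ z : K, z ≠ 0 → EvenAt v ((a : K) * z ^ 2) := by
      intro z hz
      obtain ⟨k, hk⟩ := ha
      obtain ⟨l, hl⟩ := hevx z hz
      refine ⟨k + l, ?_⟩
      rw [map_mul, hk, hl, ← WithZero.exp_add]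
      congr 1
      ring
    have hgoal : ∀ c : K, EvenAt v c → v.valuation K c = v.valuation K (b : K) →
        EvenAt v (b : K) := by
      rintro c ⟨k, hk⟩ hc
      exact ⟨k, by rw [← hc, hk]⟩
    rcases lt_trichotomy (v.valuation K (x ^ 2)) (v.valuation K ((a : K) * y ^ 2)) with h5 | h5 | h5
    · have hy : y ≠ 0 := by
        rintro rfl
        rw [zero_pow two_ne_zero, mul_zero, map_zero] at h5
        exact not_lt_zero' h5
      refine hgoal _ (hevay y hy) ?_
      rw [← hN, Valuation.map_sub_eq_of_lt_right _ h5]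
    · by_cases hy : y = 0
      · exfalso
        rw [hy, zero_pow two_ne_zero, mul_zero, map_zero] at h5
        rw [hy, zero_pow two_ne_zero, mul_zero, sub_zero, h5] at hN
        exact hb0 hN.symm
      · refine hgoal _ (hevay y hy) ?_
        rw [← hN]
        by_contra hne
        apply hns
        rw [(hL12 K v a).1]
        refine ⟨x / y, ?_⟩
        rw [map_mul, h4, one_mul]
        have h6 : v.valuation K (x ^ 2 - (a : K) * y ^ 2) < v.valuation K ((a : K) * y ^ 2) := by
          refine lt_of_le_of_ne ?_ (Ne.symm hne)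
          refine (Valuation.map_sub _ _ _).trans ?_
          rw [h5, max_self]
        have h7 : (a : K) - (x / y) ^ 2 = -(x ^ 2 - (a : K) * y ^ 2) / y ^ 2 := by
          field_simp
          ring
        rw [h7, map_div₀, Valuation.map_neg]
        have h8 : 0 < v.valuation K (y ^ 2) := zero_lt_iff.2
          ((Valuation.ne_zero_iff _).2 (pow_ne_zero 2 hy))
        rw [div_lt_iff₀ h8, ← map_mul]
        exact h6
    · have hx : x ≠ 0 := by
        rintro rfl
        rw [zero_pow two_ne_zero, map_zero] at h5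
        exact not_lt_zero' h5
      refine hgoal _ (hevx x hx) ?_
      rw [← hN, Valuation.map_sub_eq_of_lt_left _ h5]
  · rintro ⟨m, hm⟩
    obtain ⟨k, hk⟩ := ha
    obtain ⟨π, hπ⟩ := v.valuation_exists_uniformizer K
    have hπ0 : π ≠ 0 := by
      rintro rfl
      rw [map_zero] at hπ
      exact WithZero.exp_ne_zero hπ.symm
    have hπz : ∀ n : ℤ, v.valuation K ((π ^ n) ^ 2) = WithZero.exp (-(2 * n)) := by
      intro n
      rw [map_pow, map_zpow₀, hπ, ← WithZero.exp_zsmul, ← WithZero.exp_nsmul]
      congr 1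
      simp
    apply L18.scale (Sum.inl v) (a : K) (b : K) (π ^ k) (π ^ m) (zpow_ne_zero _ hπ0)
      (zpow_ne_zero _ hπ0)
    apply L18.unit_norm v h2
    · rw [map_mul, hk, hπz, ← WithZero.exp_add, add_neg_cancel, WithZero.exp_zero]
    · rw [map_mul, hm, hπz, ← WithZero.exp_add, add_neg_cancel, WithZero.exp_zero]

end Pool.Agent.QCF
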