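import Pool.Agent.QCF.St

/-!
# QCF [L19]
-/

set_option autoImplicit false

namespace Pool.Agent.QCF

open HP7 IsDedekindDomain NumberField
open scoped WithZero

theorem thm_L19 (hL17 : St_L17) (hL18 : St_L18) : St_L19 := by
  intro K _ _ v h2
  obtain ⟨hmul, hsymm, hsq, -⟩ := hL17 K (Sum.inl v)
  have h1 : ∀ a b : Kˣ, EvenAt v (a : K) → EvenAt v (b : K) → sgn (Sum.inl v) a b = 1 := by
    intro a b ha hb
    by_cases h : LSq (Sum.inl v) (a : K)
    · exact hsq a b h
    · unfold sgn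
      rw [if_pos ((hL18 K v a b h2 ha h).2 hb)]
  have h3 : ∀ a b : Kˣ, EvenAt v (a : K) → ¬ LSq (Sum.inl v) (a : K) → ¬ EvenAt v (b : K) →
      sgn (Sum.inl v) a b = -1 := by
    intro a b ha h hb
    unfold sgn
    rw [if_neg]
    intro h4
    exact hb ((hL18 K v a b h2 ha h).1 h4)
  have h5 : ∀ a b : Kˣ, EvenAt v (a : K) → ¬ EvenAt v (b : K) →
      sgn (Sum.inl v) a b = chi (Sum.inl v) a := by
    intro a b ha hb
    unfold chi
    split_ifs with h
    · exact hsq a b h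
    · exact h3 a b ha h hb
  refine ⟨h1, h3, ?_, ?_⟩
  · intro a b ha hb
    refine ⟨h5 a b ha hb, ?_⟩
    rw [hsymm]
    exact h5 a b ha hb
  · intro a b ha hb
    obtain ⟨π, hπ⟩ := v.valuation_exists_uniformizer K
    have hπ0 : π ≠ 0 := by
      rintro rfl
      rw [map_zero] at hπ
      exact WithZero.exp_ne_zero hπ.symm
    have hne : ¬ EvenAt v ((Units.mk0 π hπ0 : Kˣ) : K) := by
      rintro ⟨k, hk⟩
      rw [Units.val_mk0, hπ, WithZero.exp_inj] at hk
      omega
    have hab : EvenAt v ((a * b : Kˣ) : K) := by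
      obtain ⟨k, hk⟩ := ha
      obtain ⟨l, hl⟩ := hb
      refine ⟨k + l, ?_⟩
      rw [Units.val_mul, map_mul, hk, hl, ← WithZero.exp_add]
      congr 1
      ring
    rw [← h5 a _ ha hne, ← h5 b _ hb hne, ← h5 _ _ hab hne, hsymm (a * b), hmul, hsymm a,
      hsymm b]

end Pool.Agent.QCF
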