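import Pool.Agent.QCF.St

/-!
# QCF [L2]
-/

set_option autoImplicit false

namespace Pool.Agent.QCF

open HP7 IsDedekindDomain NumberField
open scoped WithZero

namespace L2

/-- an index from a classifying map -/
theorem relIndex_of_map {G T : Type*} [Group G] (A B : Subgroup G) (f : B → T)
    (hf : Function.Surjective f) (h : ∀ x y : B, f x = f y ↔ (x : G)⁻¹ * y ∈ A) :
    A.relIndex B = Nat.card T := by
  have hrel : ∀ x y : B, (x : B ⧸ A.subgroupOf B) = y ↔ f x = f y := by
    intro x y
    rw [QuotientGroup.eq, h, Subgroup.mem_subgroupOf]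
    rfl
  have hw : ∀ x y : B, (QuotientGroup.leftRel (A.subgroupOf B)) x y → f x = f y := by
    intro x y hxy
    exact (hrel x y).1 (Quotient.sound hxy)
  let g : B ⧸ A.subgroupOf B → T := Quotient.lift f hw
  have hg : Function.Bijective g := by
    constructor
    · intro p q
      induction p using QuotientGroup.induction_on with
      | H x =>
        induction q using QuotientGroup.induction_on with
        | H y =>
          intro hxy
          exact (hrel x y).2 hxy
    · intro t
      obtain ⟨x, rfl⟩ := hf t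
      exact ⟨(x : B ⧸ A.subgroupOf B), rfl⟩
  show (A.subgroupOf B).index = _
  rw [Subgroup.index]
  exact Nat.card_congr (Equiv.ofBijective g hg)

/-- finiteness of an index from a classifying map -/
theorem relIndex_ne_zero_of_map {G T : Type*} [Group G] [Finite T] (A B : Subgroup G) (f : B → T)
    (h : ∀ x y : B, f x = f y → (x : G)⁻¹ * y ∈ A) : A.relIndex B ≠ 0 := by
  have hfin : Finite (B ⧸ A.subgroupOf B) := by
    have hinj : Function.Injective fun q : B ⧸ A.subgroupOf B => f (Quotient.out q) := by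
      intro p q hpq
      have h1 := h _ _ hpq
      have h2 : ((Quotient.out p : B) : B ⧸ A.subgroupOf B) = (Quotient.out q : B) := by
        rw [QuotientGroup.eq, Subgroup.mem_subgroupOf]
        exact h1
      rwa [QuotientGroup.out_eq', QuotientGroup.out_eq'] at h2
    exact Finite.of_injective _ hinj
  exact Subgroup.index_ne_zero_of_finite (H := A.subgroupOf B)

theorem lt_exp_succ (x : ℤᵐ⁰) (n : ℤ) : x < WithZero.exp (n + 1) ↔ x ≤ WithZero.exp n := by
  rcases eq_or_ne x 0 with rfl | h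
  · simp
  · rw [← WithZero.exp_log h, WithZero.exp_lt_exp, WithZero.exp_le_exp]
    omega

theorem lt_one_iff (x : ℤᵐ⁰) : x < 1 ↔ x ≤ WithZero.exp (-1 : ℤ) := by
  rw [← lt_exp_succ, neg_add_cancel, WithZero.exp_zero]

variable {F : Type} [Field F] {v : Valuation F ℤᵐ⁰} {N : ℕ}

theorem mem_UU {m : ℕ} {x : Fˣ} : x ∈ UU v m ↔
    v (x : F) = 1 ∧ v ((x : F) - 1) ≤ WithZero.exp (-(m : ℤ)) := Iff.rfl

theorem UU_anti {m k : ℕ} (h : m ≤ k) : UU v k ≤ UU v m := by
  intro x hx
  rw [mem_UU] at hx ⊢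
  refine ⟨hx.1, hx.2.trans ?_⟩
  rw [WithZero.exp_le_exp]
  omega

/-- units close to each other -/
theorem inv_mul_mem {m k : ℕ} {x y : Fˣ} (hx : x ∈ UU v k) (hy : y ∈ UU v k) :
    x⁻¹ * y ∈ UU v m ↔ v ((y : F) - x) ≤ WithZero.exp (-(m : ℤ)) := by
  rw [mem_UU] at hx hy ⊢
  have h1 : ((x⁻¹ * y : Fˣ) : F) - 1 = (x : F)⁻¹ * ((y : F) - x) := by
    rw [Units.val_mul, Units.val_inv_eq_inv_val]
    field_simp
  have h2 : v ((x⁻¹ * y : Fˣ) : F) = 1 := by
    rw [Units.val_mul, Units.val_inv_eq_inv_val, map_mul, map_inv₀, hx.1, hy.1, inv_one, one_mul]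
  rw [h1, h2, map_mul, map_inv₀, hx.1, inv_one, one_mul]
  exact ⟨fun h => h.2, fun h => ⟨rfl, h⟩⟩

theorem sub_lt {a b c : F} {γ : ℤᵐ⁰} (h1 : v (a - c) < γ) (h2 : v (b - c) < γ) :
    v (a - b) < γ := by
  have : a - b = (a - c) - (b - c) := by ring
  rw [this]
  exact lt_of_le_of_lt (Valuation.map_sub _ _ _) (max_lt h1 h2)

end L2

open L2 in
theorem thm_L2 : St_L2 := by
  intro F _ v N hF
  obtain ⟨R, hRc, hR1, hR⟩ := hF.res
  classical
  -- the residue class
  have hcls : ∀ x : F, ∃ r : R, v x ≤ 1 → v (x - r) < 1 := by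
    intro x
    by_cases hx : v x ≤ 1
    · obtain ⟨r, ⟨hr, h1⟩, -⟩ := hR x hx
      exact ⟨⟨r, hr⟩, fun _ => h1⟩
    · obtain ⟨r, ⟨hr, h1⟩, -⟩ := hR 0 (by rw [map_zero]; exact zero_le_one)
      exact ⟨⟨r, hr⟩, fun h => absurd h hx⟩
  choose c hc using hcls
  have huniq : ∀ (x : F) (r : R), v x ≤ 1 → v (x - r) < 1 → c x = r := by
    intro x r hx hr
    exact Subtype.ext ((hR x hx).unique ⟨(c x).2, hc x hx⟩ ⟨r.2, hr⟩)
  have hcard : Nat.card R = N := by
    rw [Nat.card_eq_fintype_card, Fintype.card_coe, hRc]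
  have hN2 : 2 ≤ N := by
    have h0 : v (0 : F) ≤ 1 := by rw [map_zero]; exact zero_le_one
    have h1 : v (1 : F) ≤ 1 := by rw [map_one]
    have hne : (c 0 : F) ≠ c 1 := by
      intro h
      have h2 := sub_lt (v := v) (hc 1 h1) (h ▸ hc 0 h0)
      rw [sub_zero, map_one] at h2
      exact lt_irrefl _ h2
    rw [← hRc]
    exact Finset.one_lt_card.2 ⟨_, (c 0).2, _, (c 1).2, hne⟩
  have hidx : ∀ m, 1 ≤ m → (UU v (m + 1)).relIndex (UU v m) = N := by
    intro m hm
    obtain ⟨p, hp⟩ := hF.surj (-(m : ℤ))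
    have hp0 : p ≠ 0 := by
      rintro rfl
      rw [map_zero] at hp
      exact WithZero.exp_ne_zero hp.symm
    have hvp : v p ≠ 0 := by rw [hp]; exact WithZero.exp_ne_zero
    have hq : ∀ x : F, v x ≤ WithZero.exp (-(m : ℤ)) → v (x / p) ≤ 1 := by
      intro x hx
      rw [map_div₀, hp]
      exact (div_le_one₀ WithZero.exp_pos).2 hx
    have hq' : ∀ x : F, v (x / p) < 1 ↔ v x ≤ WithZero.exp (-((m + 1 : ℕ) : ℤ)) := by
      intro x
      rw [map_div₀, hp, div_lt_one₀ WithZero.exp_pos, ← lt_exp_succ]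
      have : (-((m + 1 : ℕ) : ℤ)) + 1 = -(m : ℤ) := by push_cast; ring
      rw [this]
    rw [← hcard]
    refine relIndex_of_map _ _ (fun x : UU v m => c ((((x : Fˣ) : F) - 1) / p)) ?_ ?_
    · intro r
      have hr1 := hR1 r r.2
      have hpr : v (p * r) ≤ WithZero.exp (-(m : ℤ)) := by
        rw [map_mul, hp]
        calc _ ≤ WithZero.exp (-(m : ℤ)) * 1 := by gcongr
          _ = _ := mul_one _
      have hpr1 : v (p * r) < 1 := lt_of_le_of_lt hpr (by
        rw [← WithZero.exp_zero, WithZero.exp_lt_exp]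
        omega)
      have hv1 : v (1 + p * r) = 1 := by
        rw [Valuation.map_add_eq_of_lt_left]
        · exact map_one v
        · rw [map_one]; exact hpr1
      have hne : (1 + p * (r : F)) ≠ 0 := by
        intro h
        rw [h, map_zero] at hv1
        exact zero_ne_one hv1
      refine ⟨⟨Units.mk0 _ hne, ?_⟩, ?_⟩
      · rw [mem_UU, Units.val_mk0]
        refine ⟨hv1, ?_⟩
        rw [add_sub_cancel_left]
        exact hpr
      · show c ((1 + p * (r : F) - 1) / p) = r
        rw [add_sub_cancel_left, mul_div_cancel_left₀ _ hp0]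
        exact huniq _ _ hr1 (by rw [sub_self, map_zero]; exact zero_lt_one)
    · intro x y
      have hx := x.2
      have hy := y.2
      rw [inv_mul_mem hx hy, ← hq']
      rw [mem_UU] at hx hy
      have e : ((((y : Fˣ) : F) - 1) / p) - ((((x : Fˣ) : F) - 1) / p) =
          (((y : Fˣ) : F) - ((x : Fˣ) : F)) / p := by
        rw [← sub_div]
        congr 1
        ring
      constructor
      · intro hxy
        rw [← e]
        have h1 := hc _ (hq _ hx.2)
        have h2 := hc _ (hq _ hy.2)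
        rw [show c ((((x : Fˣ) : F) - 1) / p) = c ((((y : Fˣ) : F) - 1) / p) from hxy] at h1
        exact sub_lt h2 h1
      · intro hxy
        rw [← e] at hxy
        refine (huniq _ _ (hq _ hx.2) ?_)
        have h2 := hc _ (hq _ hy.2)
        have e2 : ((((x : Fˣ) : F) - 1) / p) - (c ((((y : Fˣ) : F) - 1) / p) : F) =
            (((((y : Fˣ) : F) - 1) / p) - (c ((((y : Fˣ) : F) - 1) / p) : F)) -
            (((((y : Fˣ) : F) - 1) / p) - ((((x : Fˣ) : F) - 1) / p)) := by ring
        rw [e2]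
        exact lt_of_le_of_lt (Valuation.map_sub _ _ _) (max_lt h2 hxy)
  refine ⟨hN2, hidx, ?_⟩
  · have h01 : (UU v 1).relIndex (UU v 0) ≠ 0 := by
      refine relIndex_ne_zero_of_map _ _ (fun x : UU v 0 => c ((x : Fˣ) : F)) ?_
      intro x y hxy
      have hx := x.2
      have hy := y.2
      rw [inv_mul_mem hx hy]
      rw [mem_UU] at hx hy
      have h1 := hc _ hx.1.le
      have h2 := hc _ hy.1.le
      rw [show c ((x : Fˣ) : F) = c ((y : Fˣ) : F) from hxy] at h1
      have h3 := sub_lt h2 h1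
      rw [lt_one_iff] at h3
      exact_mod_cast h3
    intro m
    rcases Nat.eq_zero_or_pos m with rfl | hm
    · rw [Subgroup.relIndex_self]
      exact one_ne_zero
    · induction m, hm using Nat.le_induction with
      | base => exact h01
      | succ m hm ih =>
        rw [← Subgroup.relIndex_mul_relIndex _ _ _ (UU_anti (v := v) (Nat.le_succ m))
          (UU_anti (v := v) (Nat.zero_le m))]
        refine mul_ne_zero ?_ ih
        rw [hidx m hm]
        omega

end Pool.Agent.QCF
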