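import Pool.Agent.QCF.St
import Pool.Agent.HM.WA
import Pool.Agent.HM.SqNear

/-!
# QCF [L20] weak approximation modulo squares
-/

set_option autoImplicit false

namespace Pool.Agent.QCF

open HP7 IsDedekindDomain NumberField
open scoped WithZero

theorem thm_L20 (_hL12 : St_L12) (_hL13 : St_L13) : St_L20 := by
  intro K _ _ S x
  classical
  rcases S.eq_empty_or_nonempty with rfl | hS
  · exact ⟨1, fun w hw => absurd hw (Finset.notMem_empty w)⟩
  have hb : ∀ w : Pl K, algebraMap K (HM.Cpl w) (x w : K) ≠ 0 := fun w =>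
    (map_ne_zero _).2 (x w).ne_zero
  choose ε hε hnear using fun w : Pl K => HM.thm_SqNear K w (algebraMap K (HM.Cpl w) (x w : K)) (hb w)
  obtain ⟨a, ha⟩ := HM.thm_WA K S (fun w => algebraMap K (HM.Cpl w) (x w : K)) (S.inf' hS ε)
    ((Finset.lt_inf'_iff hS).2 fun w _ => hε w)
  have key : ∀ w ∈ S, ∃ t : HM.Cpl w, t ≠ 0 ∧
      algebraMap K (HM.Cpl w) a = algebraMap K (HM.Cpl w) (x w : K) * t ^ 2 := fun w hw =>
    hnear w _ ((ha w hw).trans_le (Finset.inf'_le ε hw))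
  have ha0 : a ≠ 0 := by
    rintro rfl
    obtain ⟨w, hw⟩ := hS
    obtain ⟨t, ht, h⟩ := key w hw
    rw [map_zero] at h
    exact mul_ne_zero (hb w) (pow_ne_zero 2 ht) h.symm
  refine ⟨Units.mk0 a ha0, fun w hw => ?_⟩
  obtain ⟨t, -, h⟩ := key w hw
  refine (HM.at_iff _ w).2 ⟨algebraMap K (HM.Cpl w) (x w : K) * t, ?_⟩
  rw [Units.val_mul, Units.val_mk0, map_mul, h]
  ring

end Pool.Agent.QCF
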