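import Pool.Agent.QCF.St
import Pool.Agent.HM.Lift

/-!
# QCF [L21] local squares go up
-/

set_option autoImplicit false

namespace Pool.Agent.QCF

open HP7 IsDedekindDomain NumberField
open scoped WithZero

/-- completion at the place below maps to the completion -/
theorem L21.lift {K L : Type} [Field K] [NumberField K] [Field L] [NumberField L] [Algebra K L]
    (w : Pl L) : ∃ φ : HM.Cpl (below K w) →+* HM.Cpl w,
      ∀ x : K, φ (algebraMap K (HM.Cpl (below K w)) x) =
        algebraMap L (HM.Cpl w) (algebraMap K L x) := by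
  rcases w with w | w
  · have : w.asIdeal.LiesOver (w.under (𝓞 K)).asIdeal := ⟨rfl⟩
    have huc := HeightOneSpectrum.uniformContinuous_algebraMap_liesOver K L (w.under (𝓞 K)) w
    refine ⟨((HeightOneSpectrum.adicCompletion.equiv L w).symm.toRingHom.comp
      (UniformSpace.Completion.mapRingHom _ huc.continuous)).comp
      (HeightOneSpectrum.adicCompletion.equiv K (w.under (𝓞 K))).toRingHom, fun x => ?_⟩
    apply HeightOneSpectrum.adicCompletion.ext
    exact UniformSpace.Completion.mapRingHom_coe huc.continuous ((WithVal.equiv _).symm x)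
  · have : w.LiesOver (w.comap (algebraMap K L)) := ⟨rfl⟩
    refine ⟨NumberField.LiesOver.completionMap, fun x => ?_⟩
    exact NumberField.LiesOver.completionMap_coe (v := w.comap (algebraMap K L)) (w := w)
      ((WithAbs.equiv _).symm x)

theorem thm_L21 (_hL12 : St_L12) (_hL13 : St_L13) : St_L21 := by
  intro K L _ _ _ _ _ w a h
  obtain ⟨φ, hφ⟩ := L21.lift (K := K) w
  obtain ⟨t, ht⟩ := (HM.at_iff _ _).1 h
  refine (HM.at_iff _ w).2 ⟨φ t, ?_⟩
  rw [← map_pow, ht, hφ]

end Pool.Agent.QCF
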