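import Pool.Agent.QCF.St

/-!
# QCF [L3]
-/

set_option autoImplicit false

namespace Pool.Agent.QCF

open HP7 IsDedekindDomain NumberField
open scoped WithZero

namespace L3

variable {F : Type} [Field F]

lemma pick (v : Valuation F ℤᵐ⁰) (e m : ℕ) (y z : F)
    (hy : y ^ 2 = z)
    (hz : v (z - 1) ≤ WithZero.exp (-((m + e : ℕ) : ℤ)))
    (hb : WithZero.exp (-(e : ℤ)) ≤ v (y + 1)) :
    v (y - 1) ≤ WithZero.exp (-(m : ℤ)) := by
  have h1 : v (y - 1) * v (y + 1) ≤ WithZero.exp (-((m + e : ℕ) : ℤ)) := by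
    rw [← map_mul]
    have : (y - 1) * (y + 1) = z - 1 := by rw [← hy]; ring
    rw [this]
    exact hz
  have h2 : v (y - 1) * WithZero.exp (-(e : ℤ)) ≤ WithZero.exp (-(m : ℤ)) *
      WithZero.exp (-(e : ℤ)) := by
    rw [← WithZero.exp_add]
    have : -(m : ℤ) + -(e : ℤ) = -((m + e : ℕ) : ℤ) := by push_cast; ring
    rw [this]
    refine le_trans ?_ h1
    gcongr
  exact le_of_mul_le_mul_right h2 (zero_lt_iff.2 WithZero.exp_ne_zero)

end L3

theorem thm_L3 : St_L3 := by
  intro F _ v N e m hLF h2 hm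
  refine ⟨?_, ?_, ?_⟩
  · rintro x ⟨hx, hx'⟩
    refine ⟨by rw [Units.val_pow_eq_pow_val, map_pow, hx, one_pow], ?_⟩
    have h1 : ((x ^ 2 : Fˣ) : F) - 1 = ((x : F) - 1) * (((x : F) - 1) + 2) := by
      rw [Units.val_pow_eq_pow_val]; ring
    have h3 : v (((x : F) - 1) + 2) ≤ WithZero.exp (-(e : ℤ)) := by
      refine (Valuation.map_add _ _ _).trans (max_le (hx'.trans ?_) h2.le)
      rw [WithZero.exp_le_exp]
      omega
    rw [h1, map_mul]
    calc v ((x : F) - 1) * v (((x : F) - 1) + 2)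
        ≤ WithZero.exp (-(m : ℤ)) * WithZero.exp (-(e : ℤ)) := by gcongr
      _ = WithZero.exp (-((m + e : ℕ) : ℤ)) := by
          rw [← WithZero.exp_add]
          congr 1
          push_cast
          ring
  · rintro z ⟨hz, hz'⟩
    have h20 : (2 : F) ≠ 0 := hLF.two
    have h40 : (4 : F) ≠ 0 := by
      have : (4 : F) = 2 * 2 := by norm_num
      rw [this]
      exact mul_ne_zero h20 h20
    have hv4 : v 4 = WithZero.exp (-(2 * e : ℤ)) := by
      have : (4 : F) = 2 * 2 := by norm_num
      rw [this, map_mul, h2, ← WithZero.exp_add]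
      congr 1
      ring
    have hmu : v (((z : F) - 1) / 4) < 1 := by
      rw [map_div₀, hv4]
      have h1 : v ((z : F) - 1) / WithZero.exp (-(2 * e : ℤ)) ≤
          WithZero.exp (-((m + e : ℕ) : ℤ)) / WithZero.exp (-(2 * e : ℤ)) := by
        rw [div_eq_mul_inv, div_eq_mul_inv]
        gcongr
      refine h1.trans_lt ?_
      rw [← WithZero.exp_sub, ← WithZero.exp_zero, WithZero.exp_lt_exp]
      push_cast
      omega
    obtain ⟨y, hy⟩ := hLF.hensel _ hmu
    have hy' : y ^ 2 = (z : F) := by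
      rw [hy]
      field_simp
      ring
    have hy0 : y ≠ 0 := by
      rintro rfl
      rw [zero_pow two_ne_zero] at hy'
      exact z.ne_zero hy'.symm
    have hvy : v y = 1 := by
      have h1 : v y ^ 2 = 1 := by rw [← map_pow, hy', hz]
      exact (pow_eq_one_iff_of_nonneg zero_le' two_ne_zero).1 h1
    by_cases hb : WithZero.exp (-(e : ℤ)) ≤ v (y + 1)
    · refine ⟨Units.mk0 y hy0, ⟨hvy, ?_⟩, ?_⟩
      · exact L3.pick v e m y z hy' hz' hb
      · ext
        rw [Units.val_pow_eq_pow_val]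
        exact hy'
    · have hb' : WithZero.exp (-(e : ℤ)) ≤ v (-y + 1) := by
        by_contra hc
        rw [not_le] at hb hc
        have h1 : v ((y + 1) + (-y + 1)) < WithZero.exp (-(e : ℤ)) :=
          Valuation.map_add_lt _ hb hc
        have h3 : (y + 1) + (-y + 1) = 2 := by ring
        rw [h3, h2] at h1
        exact lt_irrefl _ h1
      have hy1 : (-y) ^ 2 = (z : F) := by rw [neg_sq, hy']
      refine ⟨Units.mk0 (-y) (neg_ne_zero.2 hy0), ⟨?_, ?_⟩, ?_⟩
      · rw [Units.val_mk0, Valuation.map_neg, hvy]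
      · exact L3.pick v e m (-y) z hy1 hz' hb'
      · ext
        rw [Units.val_pow_eq_pow_val]
        exact hy1
  · rintro x ⟨hx, hx'⟩ hx2
    have h1 : ((x : F) - 1) * ((x : F) + 1) = 0 := by
      have : (x : F) ^ 2 = 1 := by
        rw [← Units.val_pow_eq_pow_val, hx2, Units.val_one]
      linear_combination this
    rcases mul_eq_zero.1 h1 with h | h
    · ext
      rw [Units.val_one]
      exact sub_eq_zero.1 h
    · exfalso
      have h3 : (x : F) - 1 = -2 := by linear_combination h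
      rw [h3, Valuation.map_neg, h2, WithZero.exp_le_exp] at hx'
      omega

end Pool.Agent.QCF
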