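import Pool.Agent.QCF.L2

/-!
# QCF [L4]
-/

set_option autoImplicit false

namespace Pool.Agent.QCF

open HP7 IsDedekindDomain NumberField
open scoped WithZero

namespace L4

variable {F : Type} [Field F] {v : Valuation F ℤᵐ⁰} {N : ℕ}

/-- the chain of indices -/
theorem relIndex_chain (hidx : ∀ m : ℕ, 1 ≤ m → (UU v (m + 1)).relIndex (UU v m) = N)
    (m : ℕ) (hm : 1 ≤ m) (k : ℕ) : (UU v (m + k)).relIndex (UU v m) = N ^ k := by
  induction k with
  | zero => rw [add_zero, Subgroup.relIndex_self, pow_zero]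
  | succ k ih =>
    rw [← add_assoc, ← Subgroup.relIndex_mul_relIndex (UU v (m + k + 1)) (UU v (m + k)) (UU v m)
      (L2.UU_anti (v := v) (Nat.le_succ _)) (L2.UU_anti (v := v) (Nat.le_add_right m k)),
      ih, hidx (m + k) (by omega), pow_succ, mul_comm]

/-- the logarithm of the valuation -/
noncomputable def lg (v : Valuation F ℤᵐ⁰) : Fˣ →* Multiplicative ℤ where
  toFun x := Multiplicative.ofAdd (WithZero.log (v (x : F)))
  map_one' := by
    simp
  map_mul' := by
    intro x y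
    have hx : v (x : F) ≠ 0 := (Valuation.ne_zero_iff v).2 x.ne_zero
    have hy : v (y : F) ≠ 0 := (Valuation.ne_zero_iff v).2 y.ne_zero
    rw [Units.val_mul, map_mul, WithZero.log_mul hx hy, ofAdd_add]

theorem lg_ker : (lg v).ker = UU v 0 := by
  ext x
  have hx : v (x : F) ≠ 0 := (Valuation.ne_zero_iff v).2 x.ne_zero
  rw [MonoidHom.mem_ker, L2.mem_UU]
  constructor
  · intro h
    have h1 : WithZero.log (v (x : F)) = 0 := by
      have h2 : Multiplicative.ofAdd (WithZero.log (v (x : F))) = Multiplicative.ofAdd 0 := h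
      exact Multiplicative.ofAdd.injective h2
    have h2 : v (x : F) = 1 := by
      rw [← WithZero.exp_log hx, h1, WithZero.exp_zero]
    refine ⟨h2, ?_⟩
    rw [Nat.cast_zero, neg_zero, WithZero.exp_zero]
    refine (Valuation.map_sub _ _ _).trans (max_le h2.le ?_)
    rw [map_one]
  · rintro ⟨h, -⟩
    show Multiplicative.ofAdd (WithZero.log (v (x : F))) = 1
    rw [h, WithZero.log_one, ofAdd_zero]

theorem lg_surj (hs : ∀ n : ℤ, ∃ x : F, v x = WithZero.exp n) : Function.Surjective (lg v) := by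
  intro n
  obtain ⟨x, hx⟩ := hs (Multiplicative.toAdd n)
  have hx0 : x ≠ 0 := by
    rintro rfl
    rw [map_zero] at hx
    exact WithZero.exp_ne_zero hx.symm
  refine ⟨Units.mk0 x hx0, ?_⟩
  show Multiplicative.ofAdd (WithZero.log (v x)) = n
  rw [hx, WithZero.log_exp, ofAdd_toAdd]

theorem card_ker (h2 : (2 : F) ≠ 0) : Nat.card (powMonoidHom 2 : Fˣ →* Fˣ).ker = 2 := by
  have h : (((powMonoidHom 2 : Fˣ →* Fˣ).ker : Subgroup Fˣ) : Set Fˣ) = {1, -1} := by
    ext x
    rw [SetLike.mem_coe, MonoidHom.mem_ker, powMonoidHom_apply, Set.mem_insert_iff,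
      Set.mem_singleton_iff]
    constructor
    · intro hx
      have h1 : (x : F) ^ 2 = 1 := by
        rw [← Units.val_pow_eq_pow_val, hx, Units.val_one]
      rcases sq_eq_one_iff.1 h1 with h3 | h3
      · exact Or.inl (Units.ext h3)
      · exact Or.inr (Units.ext h3)
    · rintro (rfl | rfl)
      · exact one_pow 2
      · exact neg_one_sq
  have hne : (1 : Fˣ) ≠ -1 := by
    intro h3
    have h4 : ((1 : Fˣ) : F) = ((-1 : Fˣ) : F) := by rw [← h3]
    rw [Units.val_neg, Units.val_one] at h4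
    apply h2
    linear_combination h4
  have h5 : Nat.card ((powMonoidHom 2 : Fˣ →* Fˣ).ker : Set Fˣ) = 2 := by
    rw [Nat.card_coe_set_eq, h, Set.ncard_pair hne]
  exact h5

end L4

open L4 in
theorem thm_L4 (hG1 : St_G1) (hG2 : St_G2) (hL2 : St_L2) (hL3 : St_L3) : St_L4 := by
  intro F _ v N e hF he
  obtain ⟨hN2, hidx, hfin⟩ := hL2 F v N hF
  obtain ⟨h31, h32, h33⟩ := hL3 F v N e (e + 1) hF he le_rfl
  obtain ⟨hG21, hG22, hG23, hG24⟩ := hG2
  have hNe : N ^ e ≠ 0 := pow_ne_zero _ (by omega)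
  -- deep units
  have hA : HasQ (UU v (e + 1)) (N ^ e) := by
    refine hG24 _ _ hNe ?_ ?_
    · intro x hx
      refine Subtype.ext (h33 x x.2 ?_)
      have := congrArg Subtype.val hx
      exact this
    · have hs : sqs (UU v (e + 1)) = (UU v (e + 1 + e)).subgroupOf (UU v (e + 1)) := by
        ext x
        rw [mem_sqs, Subgroup.mem_subgroupOf]
        constructor
        · rintro ⟨c, rfl⟩
          exact h31 c c.2
        · intro hx
          obtain ⟨c, hc, hcx⟩ := h32 _ hx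
          exact ⟨⟨c, hc⟩, Subtype.ext hcx⟩
      rw [hs]
      exact relIndex_chain hidx (e + 1) (by omega) e
  have hle : UU v (e + 1) ≤ UU v 0 := L2.UU_anti (Nat.zero_le _)
  have hB : HasQ ((UU v 0) ⧸ (UU v (e + 1)).subgroupOf (UU v 0)) 1 := by
    refine hG21 _ ?_
    have h0 : ((UU v (e + 1)).subgroupOf (UU v 0)).index ≠ 0 := hfin (e + 1)
    have : ((UU v (e + 1)).subgroupOf (UU v 0)).FiniteIndex := ⟨h0⟩
    exact Subgroup.finite_quotient_of_finiteIndex
  have hC : HasQ ((UU v (e + 1)).subgroupOf (UU v 0)) (N ^ e) :=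
    hG22 _ _ _ ⟨(Subgroup.subgroupOfEquivOfLe hle).symm⟩ hA
  have hD : HasQ (UU v 0) (N ^ e * 1) := hG1 _ _ _ _ hC hB
  have hE : HasQ (Fˣ ⧸ UU v 0) (2 ^ 1) := by
    refine hG23 _ 1 ⟨?_⟩
    have e1 : Fˣ ⧸ UU v 0 ≃* Multiplicative ℤ :=
      (QuotientGroup.quotientMulEquivOfEq (lg_ker (v := v)).symm).trans
        (QuotientGroup.quotientKerEquivOfSurjective (lg v) (lg_surj hF.surj))
    have e2 : Additive (Fˣ ⧸ UU v 0) ≃+ ℤ :=
      (MulEquiv.toAdditive e1).trans (AddEquiv.additiveMultiplicative ℤ)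
    exact e2.trans (AddEquiv.piUnique (fun _ : Fin 1 => ℤ)).symm
  have hFx : HasQ Fˣ (N ^ e * 1 * 2 ^ 1) := hG1 _ _ _ _ hD hE
  have hn : N ^ e * 1 * 2 ^ 1 = 2 * N ^ e := by ring
  rw [hn] at hFx
  refine ⟨hFx, ?_⟩
  rw [hFx.2.2, card_ker hF.two]
  ring

end Pool.Agent.QCF
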