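import Pool.Agent.QCF.St

/-!
# QCF [L5]
-/

set_option autoImplicit false

namespace Pool.Agent.QCF

open HP7 IsDedekindDomain NumberField
open scoped WithZero

private theorem l5_lt_exp {t : ℤᵐ⁰} {n : ℤ} :
    t < WithZero.exp (-n) ↔ t ≤ WithZero.exp (-(n + 1)) := by
  rcases eq_or_ne t 0 with h | h
  · rw [h]
    exact ⟨fun _ => zero_le, fun _ => WithZero.exp_pos⟩
  · rw [← WithZero.exp_log h, WithZero.exp_lt_exp, WithZero.exp_le_exp]
    omega

/-- the index is the number of values of a map which separates the cosets -/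
private theorem l5_index {G : Type*} [Group G] (H : Subgroup G) {T : Type*} (f : G → T)
    (hs : Function.Surjective f) (he : ∀ x y, f x = f y ↔ x⁻¹ * y ∈ H) :
    H.index = Nat.card T := by
  have hm : ∀ x : G, (Quotient.out (x : G ⧸ H))⁻¹ * x ∈ H := by
    intro x
    exact QuotientGroup.eq.1 (QuotientGroup.out_eq' (x : G ⧸ H))
  refine Nat.card_eq_of_bijective (fun q : G ⧸ H => f q.out) ⟨fun q q' h => ?_, fun t => ?_⟩
  · have h1 := (he _ _).1 h
    rw [← QuotientGroup.out_eq' q, ← QuotientGroup.out_eq' q']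
    exact QuotientGroup.eq.2 h1
  · obtain ⟨x, rfl⟩ := hs t
    exact ⟨(x : G ⧸ H), (he _ _).2 (hm x)⟩

private theorem l5_mul_le {F : Type} [Field F] (v : Valuation F ℤᵐ⁰) {x y : F} {e : ℤᵐ⁰}
    (hx : v x ≤ 1) (hy : v y ≤ e) : v (x * y) ≤ e := by
  rw [map_mul]
  calc v x * v y ≤ 1 * e := mul_le_mul' hx hy
    _ = e := one_mul e

private theorem l5_coset {F : Type} [Field F] (v : Valuation F ℤᵐ⁰) {b : F} (hb : v b ≤ 1)
    {m : ℕ} {x y : (QA F b)ˣ} (hx : x ∈ AG v hb m) :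
    x⁻¹ * y ∈ AG v hb (m + 1) ↔
      v ((y : QA F b).re - (x : QA F b).re) ≤ WithZero.exp (-((m + 1 + 1 : ℕ) : ℤ)) ∧
      v ((y : QA F b).im - (x : QA F b).im) ≤ WithZero.exp (-((m + 1 + 1 : ℕ) : ℤ)) := by
  have hexp : (WithZero.exp (-((m + 1 : ℕ) : ℤ)) : ℤᵐ⁰) ≤ 1 := by
    rw [← WithZero.exp_zero, WithZero.exp_le_exp]
    push_cast
    omega
  obtain ⟨-, hx1, -⟩ := v_norm_of_InA v hb (z := (x : QA F b)) hx
  have hx3 : v (x : QA F b).im ≤ 1 := hx.2.trans hexp
  have hw : x⁻¹ ∈ AG v hb m := inv_mem hx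
  obtain ⟨-, hw1, -⟩ := v_norm_of_InA v hb (z := ((x⁻¹ : (QA F b)ˣ) : QA F b)) hw
  have hw3 : v ((x⁻¹ : (QA F b)ˣ) : QA F b).im ≤ 1 := hw.2.trans hexp
  constructor
  · intro h
    obtain ⟨z, hz⟩ : ∃ z : (QA F b)ˣ, z = x⁻¹ * y := ⟨_, rfl⟩
    have hy : y = x * z := by rw [hz]; group
    rw [← hz] at h
    obtain ⟨h1, h2⟩ := h
    rw [hy, Units.val_mul]
    constructor
    · have e1 : ((x : QA F b) * (z : QA F b)).re - (x : QA F b).re =
          (x : QA F b).re * ((z : QA F b).re - 1) + b * ((x : QA F b).im * (z : QA F b).im) := by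
        rw [QuadraticAlgebra.re_mul]; ring
      rw [e1]
      refine (Valuation.map_add _ _ _).trans (max_le ?_ ?_)
      · exact l5_mul_le v hx1.le h1
      · exact l5_mul_le v hb (l5_mul_le v hx3 h2)
    · have e1 : ((x : QA F b) * (z : QA F b)).im - (x : QA F b).im =
          (x : QA F b).re * (z : QA F b).im + (x : QA F b).im * ((z : QA F b).re - 1) := by
        rw [QuadraticAlgebra.im_mul]; ring
      rw [e1]
      refine (Valuation.map_add _ _ _).trans (max_le ?_ ?_)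
      · exact l5_mul_le v hx1.le h2
      · exact l5_mul_le v hx3 h1
  · rintro ⟨h1, h2⟩
    obtain ⟨w, hwd⟩ : ∃ w : QA F b, w = ((x⁻¹ : (QA F b)ˣ) : QA F b) := ⟨_, rfl⟩
    have hwx : w * (x : QA F b) = 1 := by rw [hwd]; exact Units.inv_mul x
    have hre : w.re * (x : QA F b).re + b * (w.im * (x : QA F b).im) = 1 := by
      have := congrArg QuadraticAlgebra.re hwx
      rw [QuadraticAlgebra.re_mul, QuadraticAlgebra.re_one] at this
      linear_combination this
    have him : w.re * (x : QA F b).im + w.im * (x : QA F b).re = 0 := by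
      have := congrArg QuadraticAlgebra.im hwx
      rw [QuadraticAlgebra.im_mul, QuadraticAlgebra.im_one] at this
      linear_combination this
    rw [← hwd] at hw1 hw3
    show InA v (m + 1 + 1) ((x⁻¹ * y : (QA F b)ˣ) : QA F b)
    rw [Units.val_mul, ← hwd]
    constructor
    · have e1 : (w * (y : QA F b)).re - 1 = w.re * ((y : QA F b).re - (x : QA F b).re) +
          b * (w.im * ((y : QA F b).im - (x : QA F b).im)) := by
        rw [QuadraticAlgebra.re_mul]
        linear_combination hre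
      rw [e1]
      refine (Valuation.map_add _ _ _).trans (max_le ?_ ?_)
      · exact l5_mul_le v hw1.le h1
      · exact l5_mul_le v hb (l5_mul_le v hw3 h2)
    · have e1 : (w * (y : QA F b)).im = w.re * ((y : QA F b).im - (x : QA F b).im) +
          w.im * ((y : QA F b).re - (x : QA F b).re) := by
        rw [QuadraticAlgebra.im_mul]
        linear_combination him
      rw [e1]
      refine (Valuation.map_add _ _ _).trans (max_le ?_ ?_)
      · exact l5_mul_le v hw1.le h2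
      · exact l5_mul_le v hw3 h1

theorem thm_L5 : St_L5 := by
  intro F _ v N b hb hLF m
  obtain ⟨R, hRN, hR1, hRu⟩ := hLF.res
  obtain ⟨π, hπ⟩ := hLF.surj (-((m + 1 : ℕ) : ℤ))
  have hπpos : 0 < v π := by rw [hπ]; exact WithZero.exp_pos
  have hπ0 : π ≠ 0 := fun h => by
    rw [h, map_zero] at hπpos
    exact lt_irrefl _ hπpos
  have hdiv : ∀ t, v t ≤ WithZero.exp (-((m + 1 : ℕ) : ℤ)) → v (t / π) ≤ 1 := by
    intro t ht
    rw [map_div₀, div_le_one₀ hπpos, hπ]
    exact ht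
  have hdiv' : ∀ t, v (t / π) < 1 ↔ v t ≤ WithZero.exp (-((m + 1 + 1 : ℕ) : ℤ)) := by
    intro t
    rw [map_div₀, div_lt_one₀ hπpos, hπ, l5_lt_exp]
    push_cast
    rfl
  -- residue map
  obtain ⟨ρ, hρ⟩ : ∃ ρ : F → F, ∀ x, v x ≤ 1 → ρ x ∈ R ∧ v (x - ρ x) < 1 := by
    classical
    refine ⟨fun x => if h : v x ≤ 1 then (hRu x h).choose else 0, fun x hx => ?_⟩
    simp only [dif_pos hx]
    exact (hRu x hx).choose_spec.1
  have hρu : ∀ x r, v x ≤ 1 → r ∈ R → v (x - r) < 1 → ρ x = r := by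
    intro x r hx hr h
    obtain ⟨r', -, hu⟩ := hRu x hx
    rw [hu _ (hρ x hx), hu r ⟨hr, h⟩]
  have hρeq : ∀ x y, v x ≤ 1 → v y ≤ 1 → (ρ x = ρ y ↔ v (y - x) < 1) := by
    intro x y hx hy
    constructor
    · intro h
      have e1 : y - x = (y - ρ y) - (x - ρ x) := by rw [h]; ring
      rw [e1]
      exact (Valuation.map_sub v _ _).trans_lt (max_lt (hρ y hy).2 (hρ x hx).2)
    · intro h
      refine hρu x (ρ y) hx (hρ y hy).1 ?_
      have e1 : x - ρ y = (y - ρ y) - (y - x) := by ring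
      rw [e1]
      exact (Valuation.map_sub v _ _).trans_lt (max_lt (hρ y hy).2 h)
  have hv1 : ∀ z : AG v hb m, v ((((z : (QA F b)ˣ) : QA F b).re - 1) / π) ≤ 1 := fun z =>
    hdiv _ z.2.1
  have hv2 : ∀ z : AG v hb m, v (((z : (QA F b)ˣ) : QA F b).im / π) ≤ 1 := fun z =>
    hdiv _ z.2.2
  let f : AG v hb m → {r // r ∈ R} × {r // r ∈ R} := fun z =>
    (⟨ρ ((((z : (QA F b)ˣ) : QA F b).re - 1) / π), (hρ _ (hv1 z)).1⟩,
      ⟨ρ (((z : (QA F b)ˣ) : QA F b).im / π), (hρ _ (hv2 z)).1⟩)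
  have hcard : Nat.card ({r // r ∈ R} × {r // r ∈ R}) = N ^ 2 := by
    rw [Nat.card_prod, Nat.card_eq_fintype_card, Fintype.card_coe, hRN, sq]
  rw [← hcard]
  refine l5_index ((AG v hb (m + 1)).subgroupOf (AG v hb m)) f ?_ ?_
  · rintro ⟨⟨r, hr⟩, ⟨s, hs⟩⟩
    have hin : InA v (m + 1) (⟨1 + π * r, π * s⟩ : QA F b) := by
      constructor
      · show v (1 + π * r - 1) ≤ _
        rw [add_sub_cancel_left, ← hπ, mul_comm]
        exact l5_mul_le v (hR1 r hr) le_rfl
      · show v (π * s) ≤ _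
        rw [← hπ, mul_comm]
        exact l5_mul_le v (hR1 s hs) le_rfl
    have hn := (v_norm_of_InA v hb hin).1
    have hu : IsUnit (⟨1 + π * r, π * s⟩ : QA F b) := by
      rw [QuadraticAlgebra.isUnit_iff_norm_isUnit, isUnit_iff_ne_zero]
      intro h
      rw [h, map_zero] at hn
      exact zero_ne_one hn
    obtain ⟨u, hu⟩ := hu
    have humem : u ∈ AG v hb m := by
      show InA v (m + 1) (u : QA F b)
      rw [hu]
      exact hin
    have hself : ∀ t ∈ R, ρ t = t := fun t ht => hρu t t (hR1 t ht) ht (by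
      rw [sub_self, map_zero]
      exact zero_lt_one)
    refine ⟨⟨u, humem⟩, ?_⟩
    have e1 : ((u : QA F b).re - 1) / π = r := by
      rw [hu]
      show (1 + π * r - 1) / π = r
      rw [add_sub_cancel_left, mul_div_cancel_left₀ _ hπ0]
    have e2 : (u : QA F b).im / π = s := by
      rw [hu]
      show (π * s) / π = s
      rw [mul_div_cancel_left₀ _ hπ0]
    refine Prod.ext (Subtype.ext ?_) (Subtype.ext ?_)
    · show ρ (((u : QA F b).re - 1) / π) = r
      rw [e1, hself r hr]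
    · show ρ ((u : QA F b).im / π) = s
      rw [e2, hself s hs]
  · intro x y
    rw [Subgroup.mem_subgroupOf]
    show f x = f y ↔ ((x : (QA F b)ˣ))⁻¹ * (y : (QA F b)ˣ) ∈ AG v hb (m + 1)
    rw [l5_coset v hb x.2, Prod.ext_iff, Subtype.ext_iff, Subtype.ext_iff]
    show (ρ _ = ρ _ ∧ ρ _ = ρ _) ↔ _
    rw [hρeq _ _ (hv1 x) (hv1 y), hρeq _ _ (hv2 x) (hv2 y), ← hdiv', ← hdiv']
    have e1 : (((y : (QA F b)ˣ) : QA F b).re - 1) / π - (((x : (QA F b)ˣ) : QA F b).re - 1) / π =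
        (((y : (QA F b)ˣ) : QA F b).re - ((x : (QA F b)ˣ) : QA F b).re) / π := by ring
    have e2 : ((y : (QA F b)ˣ) : QA F b).im / π - ((x : (QA F b)ˣ) : QA F b).im / π =
        (((y : (QA F b)ˣ) : QA F b).im - ((x : (QA F b)ˣ) : QA F b).im) / π := by ring
    rw [e1, e2]

end Pool.Agent.QCF
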