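import Pool.Agent.QCF.St

/-!
# QCF [L6]
-/

set_option autoImplicit false

namespace Pool.Agent.QCF

open HP7 IsDedekindDomain NumberField
open scoped WithZero

section

variable {F : Type} [Field F]

theorem L6_add (v : Valuation F ℤᵐ⁰) {x y : F} {r : ℤᵐ⁰} (hx : v x ≤ r) (hy : v y ≤ r) :
    v (x + y) ≤ r := (Valuation.map_add _ _ _).trans (max_le hx hy)

theorem L6_mul (v : Valuation F ℤᵐ⁰) {x y : F} {i j k : ℤ} (hx : v x ≤ WithZero.exp i)
    (hy : v y ≤ WithZero.exp j) (hk : i + j ≤ k) : v (x * y) ≤ WithZero.exp k := by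
  rw [map_mul]
  calc v x * v y ≤ WithZero.exp i * WithZero.exp j := mul_le_mul' hx hy
    _ = WithZero.exp (i + j) := (WithZero.exp_add i j).symm
    _ ≤ _ := WithZero.exp_le_exp.2 hk

/-- if `t` is closer to `1` than `-1` then `v (t - 1)` is controlled by `v (t ^ 2 - 1)` -/
theorem L6_one (v : Valuation F ℤᵐ⁰) {e k : ℤ} (h2 : v 2 = WithZero.exp (-e)) {t : F}
    (ht : v (t - 1) < WithZero.exp (-e)) (hk : v (t ^ 2 - 1) ≤ WithZero.exp (-(k + e))) :
    v (t - 1) ≤ WithZero.exp (-k) := by
  have h1 : v (t + 1) = WithZero.exp (-e) := by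
    have : t + 1 = 2 + (t - 1) := by ring
    rw [this, Valuation.map_add_eq_of_lt_left, h2]
    rw [h2]; exact ht
  have h3 : t ^ 2 - 1 = (t - 1) * (t + 1) := by ring
  rw [h3, map_mul, h1] at hk
  have h4 : v (t - 1) = v (t - 1) * WithZero.exp (-e) * WithZero.exp e := by
    rw [mul_assoc, ← WithZero.exp_add, neg_add_cancel, WithZero.exp_zero, mul_one]
  rw [h4]
  calc v (t - 1) * WithZero.exp (-e) * WithZero.exp e
      ≤ WithZero.exp (-(k + e)) * WithZero.exp e := mul_le_mul' hk le_rfl
    _ = WithZero.exp (-k) := by rw [← WithZero.exp_add]; congr 1; ring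

end

theorem thm_L6 (hL3 : St_L3) : St_L6 := by
  intro F _ v N e m b hb hF _ h2 hm
  have h20 : (2 : F) ≠ 0 := hF.two
  have hinv2 : v (2 : F)⁻¹ = WithZero.exp (e : ℤ) := by
    rw [map_inv₀, h2, ← WithZero.exp_neg, neg_neg]
  have hb0 : v b ≤ WithZero.exp 0 := by rw [WithZero.exp_zero]; exact hb
  refine ⟨?_, ?_, ?_⟩
  · intro x hx
    obtain ⟨hN, hre, -⟩ := v_norm_of_InA v hb hx
    obtain ⟨hx2, hx3⟩ := hx
    have hxx : ((x ^ 2 : (QA F b)ˣ) : QA F b) = (x : QA F b) * (x : QA F b) := by
      rw [Units.val_pow_eq_pow_val, sq]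
    have hre0 : v (x : QA F b).re ≤ WithZero.exp 0 := by rw [WithZero.exp_zero]; exact hre.le
    constructor
    · have e1 : ((x ^ 2 : (QA F b)ˣ) : QA F b).re - 1 =
          ((x : QA F b).re - 1) * ((x : QA F b).re + 1) +
            b * (x : QA F b).im * (x : QA F b).im := by
        rw [hxx, QuadraticAlgebra.re_mul]; ring
      rw [e1]
      have hp1 : v ((x : QA F b).re + 1) ≤ WithZero.exp (-(e : ℤ)) := by
        have : (x : QA F b).re + 1 = 2 + ((x : QA F b).re - 1) := by ring
        rw [this]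
        refine L6_add v h2.le (hx2.trans (WithZero.exp_le_exp.2 ?_))
        push_cast
        omega
      apply L6_add
      · exact L6_mul v hx2 hp1 (by push_cast; omega)
      · exact L6_mul v (L6_mul v hb0 hx3 le_rfl) hx3 (by push_cast; omega)
    · have e1 : ((x ^ 2 : (QA F b)ˣ) : QA F b).im =
          2 * (x : QA F b).re * (x : QA F b).im := by
        rw [hxx, QuadraticAlgebra.im_mul]; ring
      rw [e1]
      exact L6_mul v (L6_mul v h2.le hre0 le_rfl) hx3 (by push_cast; omega)
  · intro z hz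
    obtain ⟨hN, hre, hN1⟩ := v_norm_of_InA v hb hz
    obtain ⟨hz2, hz3⟩ := hz
    have hN0 : QuadraticAlgebra.norm (z : QA F b) ≠ 0 := by
      intro h
      rw [h, map_zero] at hN
      exact zero_ne_one hN
    -- the square root of the norm
    obtain ⟨-, hs, -⟩ := hL3 F v N e (m + 1) hF h2 (by omega)
    obtain ⟨n, ⟨-, hn1⟩, hn2⟩ := hs (Units.mk0 _ hN0) ⟨by rw [Units.val_mk0]; exact hN, by
      rw [Units.val_mk0]
      refine hN1.trans (WithZero.exp_le_exp.2 ?_)
      push_cast
      omega⟩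
    have hn2' : (n : F) ^ 2 = QuadraticAlgebra.norm (z : QA F b) := by
      rw [← Units.val_pow_eq_pow_val, hn2, Units.val_mk0]
    rw [QuadraticAlgebra.norm_def] at hn2'
    -- the square root of `(p + n) / 2`
    have hT1 : v (((z : QA F b).re + n) * 2⁻¹ - 1) ≤ WithZero.exp (-(((m + 1 - e : ℕ)) : ℤ)) := by
      have : ((z : QA F b).re + n) * 2⁻¹ - 1 = (((z : QA F b).re - 1) + ((n : F) - 1)) * 2⁻¹ := by
        field_simp; ring
      rw [this]
      refine L6_mul v (i := -((m + 1 : ℕ) : ℤ)) (L6_add v ?_ ?_) hinv2.le (by push_cast; omega)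
      · exact hz2.trans (WithZero.exp_le_exp.2 (by push_cast; omega))
      · exact hn1
    have hT2 : v (((z : QA F b).re + n) * 2⁻¹) = 1 := by
      have : ((z : QA F b).re + n) * 2⁻¹ = 1 + (((z : QA F b).re + n) * 2⁻¹ - 1) := by ring
      rw [this, Valuation.map_add_eq_of_lt_left]
      · exact map_one v
      · rw [map_one]
        refine hT1.trans_lt ?_
        rw [← WithZero.exp_zero, WithZero.exp_lt_exp]
        omega
    have hT0 : ((z : QA F b).re + n) * 2⁻¹ ≠ 0 := by
      intro h
      rw [h, map_zero] at hT2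
      exact zero_ne_one hT2
    obtain ⟨-, hs', -⟩ := hL3 F v N e (m + 1 - 2 * e) hF h2 (by omega)
    obtain ⟨t, ⟨ht0, ht1⟩, ht2⟩ := hs' (Units.mk0 _ hT0) ⟨by rw [Units.val_mk0]; exact hT2, by
      rw [Units.val_mk0]
      refine hT1.trans (WithZero.exp_le_exp.2 ?_)
      omega⟩
    have ht2' : (t : F) ^ 2 = ((z : QA F b).re + n) * 2⁻¹ := by
      rw [← Units.val_pow_eq_pow_val, ht2, Units.val_mk0]
    have htn : (t : F) ≠ 0 := t.ne_zero
    set p : F := (z : QA F b).re with hp
    set q : F := (z : QA F b).im with hq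
    set s : F := q * 2⁻¹ * (t : F)⁻¹ with hs_def
    have hvs : v s ≤ WithZero.exp (-((m + 1 : ℕ) : ℤ)) := by
      have hti : v (t : F)⁻¹ ≤ WithZero.exp 0 := by
        rw [map_inv₀, ht0, inv_one, WithZero.exp_zero]
      exact L6_mul v (L6_mul v hz3 hinv2.le le_rfl) hti (by push_cast; omega)
    have hkey : (t : F) ^ 2 + b * s ^ 2 = p := by
      have h4 : (2 * (t : F) ^ 2 - p) ^ 2 = p ^ 2 - b * q ^ 2 := by
        rw [ht2']
        have : 2 * ((p + (n : F)) * 2⁻¹) - p = n := by field_simp; ring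
        rw [this, hn2']
        ring
      have h5 : (t : F) ^ 2 ≠ 0 := pow_ne_zero _ htn
      have h6 : s * (2 * (t : F)) = q := by
        rw [hs_def]; field_simp
      have h7 : b * q ^ 2 = b * s ^ 2 * (4 * (t : F) ^ 2) := by
        rw [← h6]; ring
      have h8 : (4 * (t : F) ^ 2) * ((t : F) ^ 2 + b * s ^ 2 - p) = 0 := by
        have : (4 * (t : F) ^ 2) * ((t : F) ^ 2 + b * s ^ 2 - p) =
            (2 * (t : F) ^ 2 - p) ^ 2 - p ^ 2 + b * s ^ 2 * (4 * (t : F) ^ 2) := by ring
        rw [this, h4, ← h7]; ring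
      have h9 : (4 * (t : F) ^ 2) ≠ 0 := by
        have : (4 : F) = 2 * 2 := by norm_num
        rw [this]
        exact mul_ne_zero (mul_ne_zero h20 h20) h5
      have h10 := (mul_eq_zero.1 h8).resolve_left h9
      linear_combination h10
    have hkey2 : 2 * (t : F) * s = q := by
      rw [hs_def]; field_simp
    have hvt : v ((t : F) - 1) ≤ WithZero.exp (-((m + 1 : ℕ) : ℤ)) := by
      apply L6_one v h2
      · refine ht1.trans_lt (WithZero.exp_lt_exp.2 ?_)
        omega
      · have : (t : F) ^ 2 - 1 = (p - 1) + -(b * s * s) := by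
          rw [← hkey]; ring
        rw [this]
        apply L6_add
        · exact hz2.trans (WithZero.exp_le_exp.2 (by push_cast; omega))
        · rw [Valuation.map_neg]
          exact L6_mul v (L6_mul v hb0 hvs le_rfl) hvs (by push_cast; omega)
    have hxz : (⟨t, s⟩ : QA F b) ^ 2 = (z : QA F b) := by
      rw [sq]
      apply QuadraticAlgebra.ext
      · rw [QuadraticAlgebra.re_mul]
        simp only
        rw [← hp, ← hkey]; ring
      · rw [QuadraticAlgebra.im_mul]
        simp only
        rw [← hq, ← hkey2]; ring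
    have hu : IsUnit (⟨t, s⟩ : QA F b) := by
      rw [← isUnit_pow_iff (n := 2) two_ne_zero, hxz]
      exact z.isUnit
    refine ⟨hu.unit, ⟨?_, ?_⟩, ?_⟩
    · rw [IsUnit.unit_spec]
      exact hvt
    · rw [IsUnit.unit_spec]
      exact hvs
    · apply Units.ext
      rw [Units.val_pow_eq_pow_val, IsUnit.unit_spec]
      exact hxz
  · intro x hx hx1
    obtain ⟨hN, hre, -⟩ := v_norm_of_InA v hb hx
    obtain ⟨hx2, hx3⟩ := hx
    have hxx : (x : QA F b) * (x : QA F b) = 1 := by
      rw [← sq, ← Units.val_pow_eq_pow_val, hx1, Units.val_one]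
    have h1 := congrArg QuadraticAlgebra.re hxx
    have h3 := congrArg QuadraticAlgebra.im hxx
    rw [QuadraticAlgebra.re_mul, QuadraticAlgebra.re_one] at h1
    rw [QuadraticAlgebra.im_mul, QuadraticAlgebra.im_one] at h3
    have hp0 : (x : QA F b).re ≠ 0 := by
      intro h
      rw [h, map_zero] at hre
      exact zero_ne_one hre
    have him : (x : QA F b).im = 0 := by
      have h4 : 2 * (x : QA F b).re * (x : QA F b).im = 0 := by
        linear_combination h3
      exact (mul_eq_zero.1 h4).resolve_left (mul_ne_zero h20 hp0)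
    rw [him] at h1
    have h5 : ((x : QA F b).re - 1) * ((x : QA F b).re + 1) = 0 := by
      linear_combination h1
    have h6 : (x : QA F b).re + 1 ≠ 0 := by
      intro h
      have h7 : (x : QA F b).re - 1 = -2 := by linear_combination h
      rw [h7, Valuation.map_neg, h2, WithZero.exp_le_exp] at hx2
      push_cast at hx2
      omega
    have h8 := (mul_eq_zero.1 h5).resolve_right h6
    apply Units.ext
    rw [Units.val_one]
    apply QuadraticAlgebra.ext
    · rw [QuadraticAlgebra.re_one]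
      linear_combination h8
    · rw [QuadraticAlgebra.im_one, him]

end Pool.Agent.QCF
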