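import Pool.Agent.QCF.St

/-!
# QCF [L7]
-/

set_option autoImplicit false

namespace Pool.Agent.QCF

open HP7 IsDedekindDomain NumberField
open scoped WithZero

namespace L7

lemma le_of_sq_le {w : ℤᵐ⁰} {M : ℕ} (h : w ^ 2 ≤ WithZero.exp (M : ℤ)) :
    w ≤ WithZero.exp (M : ℤ) := by
  rcases le_total w 1 with h1 | h1
  · refine h1.trans ?_
    rw [← WithZero.exp_zero, WithZero.exp_le_exp]
    exact Int.natCast_nonneg M
  · refine le_trans ?_ h
    rw [sq]
    exact le_mul_of_one_le_left' h1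

lemma v_two_le {F : Type} [Field F] (v : Valuation F ℤᵐ⁰) : v (2 : F) ≤ 1 := by
  have : (2 : F) = 1 + 1 := by norm_num
  rw [this]
  refine (Valuation.map_add _ _ _).trans ?_
  rw [map_one, max_self]

lemma v_four_le {F : Type} [Field F] (v : Valuation F ℤᵐ⁰) : v (4 : F) ≤ 1 := by
  have : (4 : F) = 2 * 2 := by norm_num
  rw [this, map_mul]
  exact mul_le_one' (v_two_le v) (v_two_le v)

end L7

theorem thm_L7 : St_L7 := by
  intro F _ v N b hF hb0 hb hvb
  have h4 : (4 : F) ≠ 0 := by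
    have : (4 : F) = 2 * 2 := by norm_num
    rw [this]
    exact mul_ne_zero hF.two hF.two
  have h4b : v (4 * b) ≠ 0 := (Valuation.ne_zero_iff v).2 (mul_ne_zero h4 hb0)
  obtain ⟨n, hn⟩ : ∃ n : ℤ, v (4 * b) = WithZero.exp n :=
    ⟨WithZero.log (v (4 * b)), (WithZero.exp_log h4b).symm⟩
  have hn0 : n ≤ 0 := by
    have h1 : v (4 * b) ≤ 1 := by
      rw [map_mul]
      exact mul_le_one' (L7.v_four_le v) hvb
    rw [hn, ← WithZero.exp_zero, WithZero.exp_le_exp] at h1
    exact h1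
  obtain ⟨M, hM⟩ := Int.exists_eq_neg_ofNat hn0
  have key : ∀ x y : F, v (x ^ 2 - b * y ^ 2) = 1 → v (4 * b) * v y ^ 2 ≤ 1 := by
    intro x y hxy
    by_contra hcon
    rw [not_le] at hcon
    have hy : y ≠ 0 := by
      rintro rfl
      rw [map_zero, zero_pow two_ne_zero, mul_zero] at hcon
      exact absurd hcon (not_lt.2 zero_le')
    set u := x ^ 2 - b * y ^ 2 with hu
    have hden : 4 * b * y ^ 2 ≠ 0 := mul_ne_zero (mul_ne_zero h4 hb0) (pow_ne_zero _ hy)
    have hμ : v (u / (4 * b * y ^ 2)) < 1 := by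
      rw [map_div₀, hxy, map_mul, map_pow]
      rw [div_lt_one₀ (lt_of_le_of_lt zero_le' hcon)]
      exact hcon
    obtain ⟨s, hs⟩ := hF.hensel _ hμ
    have hs0 : s ≠ 0 := by
      rintro rfl
      rw [zero_pow two_ne_zero] at hs
      have h1 : (1 : F) = -(4 * (u / (4 * b * y ^ 2))) := by
        rw [eq_neg_iff_add_eq_zero]
        exact hs.symm
      have h2 : v (1 : F) < 1 := by
        rw [h1, Valuation.map_neg, map_mul]
        exact lt_of_le_of_lt (mul_le_of_le_one_left' (L7.v_four_le v)) hμ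
      rw [map_one] at h2
      exact lt_irrefl _ h2
    apply hb
    refine ⟨x / (y * s), ?_⟩
    have h3 : b * y ^ 2 * s ^ 2 = x ^ 2 := by
      rw [hs, hu]
      field_simp
      ring
    have h5 : y * s ≠ 0 := mul_ne_zero hy hs0
    rw [div_mul_div_comm, eq_div_iff (mul_ne_zero h5 h5)]
    rw [← sq x, ← h3]
    ring
  refine ⟨M, fun x y hxy => ?_⟩
  have h1 := key x y hxy
  have hexp : v (4 * b) = WithZero.exp (-(M : ℤ)) := by
    rw [hn, hM]
  have h2 : v y ^ 2 ≤ WithZero.exp (M : ℤ) := by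
    rw [hexp] at h1
    calc v y ^ 2 = WithZero.exp (M : ℤ) * (WithZero.exp (-(M : ℤ)) * v y ^ 2) := by
          rw [← mul_assoc, ← WithZero.exp_add, add_neg_cancel, WithZero.exp_zero, one_mul]
      _ ≤ WithZero.exp (M : ℤ) * 1 := by gcongr
      _ = _ := mul_one _
  refine ⟨L7.le_of_sq_le ?_, L7.le_of_sq_le h2⟩
  have h3 : x ^ 2 = (x ^ 2 - b * y ^ 2) + b * y ^ 2 := by ring
  rw [← map_pow, h3]
  refine (Valuation.map_add _ _ _).trans (max_le ?_ ?_)
  · rw [hxy, ← WithZero.exp_zero, WithZero.exp_le_exp]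
    exact Int.natCast_nonneg M
  · rw [map_mul, map_pow]
    calc v b * v y ^ 2 ≤ 1 * v y ^ 2 := by gcongr
      _ ≤ _ := by rw [one_mul]; exact h2

end Pool.Agent.QCF
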