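import Pool.Agent.QCF.L2

/-!
# QCF [L8]
-/

set_option autoImplicit false

namespace Pool.Agent.QCF

open HP7 IsDedekindDomain NumberField
open scoped WithZero

namespace L8

variable {F : Type} [Field F] {v : Valuation F ℤᵐ⁰} {N : ℕ}

/-- balls have finite residue systems -/
theorem exists_classes (hF : IsLF F v N) (j : ℕ) : ∀ n : ℤ, ∃ (T : Type) (_ : Finite T)
    (c : F → T), ∀ x y : F, v x ≤ WithZero.exp n → v y ≤ WithZero.exp n → c x = c y →
      v (x - y) ≤ WithZero.exp (n - (j : ℤ)) := by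
  induction j with
  | zero =>
    intro n
    refine ⟨Unit, inferInstance, fun _ => (), ?_⟩
    intro x y hx hy _
    rw [Nat.cast_zero, sub_zero]
    exact (Valuation.map_sub _ _ _).trans (max_le hx hy)
  | succ j ih =>
    intro n
    obtain ⟨T, hT, c, hc⟩ := ih (n - 1)
    obtain ⟨R, -, -, hR⟩ := hF.res
    obtain ⟨p, hp⟩ := hF.surj n
    have hp0 : p ≠ 0 := by
      rintro rfl
      rw [map_zero] at hp
      exact WithZero.exp_ne_zero hp.symm
    have hcls : ∀ x : F, ∃ r : R, v x ≤ WithZero.exp n → v (x - r * p) ≤ WithZero.exp (n - 1) := by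
      intro x
      by_cases hx : v x ≤ WithZero.exp n
      · have h1 : v (x / p) ≤ 1 := by
          rw [map_div₀, hp]
          exact (div_le_one₀ WithZero.exp_pos).2 hx
        obtain ⟨r, ⟨hr, h2⟩, -⟩ := hR _ h1
        refine ⟨⟨r, hr⟩, fun _ => ?_⟩
        rw [← L2.lt_exp_succ, sub_add_cancel]
        have e : x - r * p = (x / p - r) * p := by field_simp
        show v (x - r * p) < _
        rw [e, map_mul, hp]
        calc _ < 1 * WithZero.exp n := by
              exact mul_lt_mul_of_pos_right h2 WithZero.exp_pos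
          _ = _ := one_mul _
      · obtain ⟨r, ⟨hr, h1⟩, -⟩ := hR 0 (by rw [map_zero]; exact zero_le_one)
        exact ⟨⟨r, hr⟩, fun h => absurd h hx⟩
    choose r hr using hcls
    refine ⟨R × T, inferInstance, fun x => (r x, c (x - r x * p)), ?_⟩
    intro x y hx hy hxy
    have h1 : r x = r y := congrArg Prod.fst hxy
    have h2 : c (x - r x * p) = c (y - r y * p) := congrArg Prod.snd hxy
    have h3 := hc _ _ (hr x hx) (hr y hy) h2
    have e : x - r x * p - (y - r y * p) = x - y := by
      rw [h1]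
      ring
    rw [e] at h3
    refine h3.trans_eq ?_
    congr 1
    push_cast
    ring

/-- units with valuation of the norm equal to `1` -/
def HH (v : Valuation F ℤᵐ⁰) (b : F) : Subgroup (QA F b)ˣ where
  carrier := {z | v (QuadraticAlgebra.norm (z : QA F b)) = 1}
  mul_mem' := by
    intro x y hx hy
    show v (QuadraticAlgebra.norm ((x * y : (QA F b)ˣ) : QA F b)) = 1
    rw [Units.val_mul, map_mul, map_mul]
    have hx' : v (QuadraticAlgebra.norm (x : QA F b)) = 1 := hx
    have hy' : v (QuadraticAlgebra.norm (y : QA F b)) = 1 := hy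
    rw [hx', hy', one_mul]
  one_mem' := by
    show v (QuadraticAlgebra.norm ((1 : (QA F b)ˣ) : QA F b)) = 1
    rw [Units.val_one, map_one, map_one]
  inv_mem' := by
    intro x hx
    show v (QuadraticAlgebra.norm ((x⁻¹ : (QA F b)ˣ) : QA F b)) = 1
    have hx' : v (QuadraticAlgebra.norm (x : QA F b)) = 1 := hx
    have h1 : QuadraticAlgebra.norm ((x⁻¹ : (QA F b)ˣ) : QA F b) *
        QuadraticAlgebra.norm (x : QA F b) = 1 := by
      rw [← map_mul, Units.inv_mul, map_one]
    have h2 := congrArg v h1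
    rw [map_mul, hx', mul_one, map_one] at h2
    exact h2

theorem mul_le_exp {x y : F} {a b : ℤ} (hx : v x ≤ WithZero.exp a) (hy : v y ≤ WithZero.exp b) :
    v (x * y) ≤ WithZero.exp (a + b) := by
  rw [map_mul, WithZero.exp_add]
  exact mul_le_mul' hx hy

end L8

open L8 in
theorem thm_L8 (hL7 : St_L7) : St_L8 := by
  intro F _ v N b hb hF hb0 hbs
  obtain ⟨M, hM⟩ := hL7 F v N b hF hb0 hbs hb
  refine ⟨HH v b, fun z => Iff.rfl, fun m => ⟨?_, ?_⟩⟩
  · intro z hz
    exact (v_norm_of_InA v hb hz).1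
  · obtain ⟨T, hT, c, hc⟩ := exists_classes hF (2 * M + m + 1) (M : ℤ)
    refine L2.relIndex_ne_zero_of_map (T := T × T) _ _
      (fun z : HH v b => (c ((z : (QA F b)ˣ) : QA F b).re, c ((z : (QA F b)ˣ) : QA F b).im)) ?_
    intro z z' hzz
    have h1 : c ((z : (QA F b)ˣ) : QA F b).re = c ((z' : (QA F b)ˣ) : QA F b).re :=
      congrArg Prod.fst hzz
    have h2 : c ((z : (QA F b)ˣ) : QA F b).im = c ((z' : (QA F b)ˣ) : QA F b).im :=
      congrArg Prod.snd hzz
    have hz : v (QuadraticAlgebra.norm ((z : (QA F b)ˣ) : QA F b)) = 1 := z.2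
    have hz' : v (QuadraticAlgebra.norm ((z' : (QA F b)ˣ) : QA F b)) = 1 := z'.2
    set p : QA F b := ((z : (QA F b)ˣ) : QA F b) with hp
    set q : QA F b := ((z' : (QA F b)ˣ) : QA F b) with hq
    set w : QA F b := (((z : (QA F b)ˣ)⁻¹ * (z' : (QA F b)ˣ) : (QA F b)ˣ) : QA F b) with hw
    have hpw : p * w = q := by
      rw [hp, hw, hq, ← Units.val_mul, mul_inv_cancel_left]
    have hn : ∀ u : QA F b, QuadraticAlgebra.norm u = u.re ^ 2 - b * u.im ^ 2 := by
      intro u
      rw [QuadraticAlgebra.norm_def]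
      ring
    rw [hn] at hz hz'
    have hpw1 : p.re * w.re + b * p.im * w.im = q.re := by
      rw [← hpw, QuadraticAlgebra.re_mul]
    have hpw2 : p.re * w.im + p.im * w.re = q.im := by
      rw [← hpw, QuadraticAlgebra.im_mul]
      ring
    obtain ⟨hp1, hp2⟩ := hM _ _ hz
    obtain ⟨hq1, hq2⟩ := hM _ _ hz'
    have h3 := hc _ _ hq1 hp1 h1.symm
    have h4 := hc _ _ hq2 hp2 h2.symm
    have hbe : v b ≤ WithZero.exp (0 : ℤ) := by rw [WithZero.exp_zero]; exact hb
    have hexp : ((M : ℤ) + ((M : ℤ) - ((2 * M + m + 1 : ℕ) : ℤ))) = -((m + 1 : ℕ) : ℤ) := by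
      push_cast
      ring
    constructor
    · have e1 : w.re - 1 = (p.re ^ 2 - b * p.im ^ 2)⁻¹ *
          (p.re * (q.re - p.re) - b * (p.im * (q.im - p.im))) := by
        rw [eq_inv_mul_iff_mul_eq₀]
        · rw [← hpw1, ← hpw2]
          ring
        · intro h
          rw [h, map_zero] at hz
          exact zero_ne_one hz
      show v (w.re - 1) ≤ _
      rw [e1, map_mul, map_inv₀, hz, inv_one, one_mul]
      refine (Valuation.map_sub _ _ _).trans (max_le ?_ ?_)
      · rw [← hexp]
        exact mul_le_exp hp1 h3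
      · rw [← hexp]
        have h5 := mul_le_exp hbe (mul_le_exp hp2 h4)
        rwa [zero_add] at h5
    · have e1 : w.im = (p.re ^ 2 - b * p.im ^ 2)⁻¹ *
          (p.re * (q.im - p.im) - p.im * (q.re - p.re)) := by
        rw [eq_inv_mul_iff_mul_eq₀]
        · rw [← hpw1, ← hpw2]
          ring
        · intro h
          rw [h, map_zero] at hz
          exact zero_ne_one hz
      show v w.im ≤ _
      rw [e1, map_mul, map_inv₀, hz, inv_one, one_mul]
      refine (Valuation.map_sub _ _ _).trans (max_le ?_ ?_)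
      · rw [← hexp]
        exact mul_le_exp hp1 h4
      · rw [← hexp]
        exact mul_le_exp hp2 h3

end Pool.Agent.QCF
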