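import Pool.Agent.QCF.St

/-!
# QCF [L9]
-/

set_option autoImplicit false

namespace Pool.Agent.QCF

open HP7 IsDedekindDomain NumberField
open scoped WithZero

namespace L9

/-- nonzero subgroups of `ℤ` are isomorphic to `ℤ` -/
theorem cyc (A : AddSubgroup ℤ) (hA : A ≠ ⊥) : Nonempty (A ≃+ (Fin 1 → ℤ)) := by
  obtain ⟨a, ha⟩ := Int.subgroup_cyclic A
  have ha' : A = AddSubgroup.zmultiples a := by
    rw [ha, AddSubgroup.zmultiples_eq_closure]
  have ha0 : a ≠ 0 := by
    rintro rfl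
    apply hA
    rw [ha', AddSubgroup.zmultiples_zero_eq_bot]
  have hmem : ∀ n : ℤ, n * a ∈ A := by
    intro n
    rw [ha', AddSubgroup.mem_zmultiples_iff]
    exact ⟨n, by rw [smul_eq_mul]⟩
  have f : ℤ ≃+ A := AddEquiv.ofBijective
    (⟨⟨fun n => ⟨n * a, hmem n⟩, by ext; simp⟩, by intro x y; ext; simp [add_mul]⟩ : ℤ →+ A) (by
      constructor
      · intro x y hxy
        have h1 : x * a = y * a := congrArg Subtype.val hxy
        exact mul_right_cancel₀ ha0 h1
      · rintro ⟨x, hx⟩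
        rw [ha', AddSubgroup.mem_zmultiples_iff] at hx
        obtain ⟨n, hn⟩ := hx
        exact ⟨n, Subtype.ext (show n * a = x from hn)⟩)
  exact ⟨f.symm.trans (LinearEquiv.funUnique (Fin 1) ℤ ℤ).symm.toAddEquiv⟩

/-- quotients by the kernel of a nonzero homomorphism to `ℤ` -/
theorem quot {G : Type} [CommGroup G] (H : Subgroup G) (f : Additive G →+ ℤ)
    (hH : ∀ x : G, x ∈ H ↔ f (Additive.ofMul x) = 0) (hf : ∃ x, f x ≠ 0) :
    Nonempty (Additive (G ⧸ H) ≃+ (Fin 1 → ℤ)) := by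
  have hr : f.range ≠ ⊥ := by
    intro h
    obtain ⟨x, hx⟩ := hf
    have : f x ∈ f.range := ⟨x, rfl⟩
    rw [h, AddSubgroup.mem_bot] at this
    exact hx this
  obtain ⟨e⟩ := cyc f.range hr
  let g : G →* Multiplicative ℤ := AddMonoidHom.toMultiplicativeRight f
  have hk : H = g.ker := by
    ext x
    rw [hH, MonoidHom.mem_ker]
    rfl
  let q : (G ⧸ H) ≃* g.range :=
    (QuotientGroup.quotientMulEquivOfEq hk).trans (QuotientGroup.quotientKerEquivRange g)
  let r : Additive g.range ≃+ f.range :=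
    { toFun := fun x => ⟨Multiplicative.toAdd ((Additive.toMul x : g.range) : Multiplicative ℤ), by
        obtain ⟨y, hy⟩ := (Additive.toMul x : g.range).2
        exact ⟨Additive.ofMul y, by rw [← hy]; rfl⟩⟩
      invFun := fun x => Additive.ofMul ⟨Multiplicative.ofAdd (x : ℤ), by
        obtain ⟨y, hy⟩ := x.2
        exact ⟨Additive.toMul y, by rw [← hy]; rfl⟩⟩
      left_inv := fun x => rfl
      right_inv := fun x => rfl
      map_add' := fun x y => rfl }
  exact ⟨((MulEquiv.toAdditive q).trans r).trans e⟩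

theorem chain (hG1 : St_G1) (hG2 : St_G2) {G : Type} [CommGroup G] (H A : Subgroup G)
    (hAH : A ≤ H) (hfin : A.relIndex H ≠ 0) {n m : ℕ} (hA : HasQ A n) (hGH : HasQ (G ⧸ H) m) :
    HasQ G (n * 1 * m) := by
  have h1 : HasQ (A.subgroupOf H) n :=
    hG2.2.1 A (A.subgroupOf H) n ⟨(Subgroup.subgroupOfEquivOfLe hAH).symm⟩ hA
  have hfi : (A.subgroupOf H).FiniteIndex := ⟨hfin⟩
  have h2 : HasQ (H ⧸ A.subgroupOf H) 1 := hG2.1 _ inferInstance
  exact hG1 G H _ _ (hG1 H (A.subgroupOf H) n 1 h1 h2) hGH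

section

variable {F : Type} [Field F] {v : Valuation F ℤᵐ⁰} {b : F} (hb : v b ≤ 1)

theorem AG_anti (m : ℕ) : AG v hb (m + 1) ≤ AG v hb m := by
  rintro x ⟨h1, h2⟩
  have h3 : (WithZero.exp (-((m + 1 + 1 : ℕ) : ℤ)) : ℤᵐ⁰) ≤ WithZero.exp (-((m + 1 : ℕ) : ℤ)) := by
    rw [WithZero.exp_le_exp]
    push_cast
    omega
  exact ⟨h1.trans h3, h2.trans h3⟩

theorem AG_anti' (m k : ℕ) : AG v hb (m + k) ≤ AG v hb m := by
  induction k with
  | zero => exact le_rfl
  | succ k ih => exact (AG_anti hb (m + k)).trans ih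

theorem AG_relIndex (hL5 : St_L5) {N : ℕ} (hF : IsLF F v N) (m k : ℕ) :
    (AG v hb (m + k)).relIndex (AG v hb m) = (N ^ 2) ^ k := by
  induction k with
  | zero => rw [add_zero, Subgroup.relIndex_self, pow_zero]
  | succ k ih =>
    rw [← add_assoc, ← Subgroup.relIndex_mul_relIndex _ _ _ (AG_anti hb (m + k))
      (AG_anti' hb m k), ih, hL5 F v N b hb hF (m + k), pow_succ (N ^ 2) k, mul_comm]

/-- square roots of one -/
theorem sq_one (hsq : ¬ IsSquare b) (h2 : (2 : F) ≠ 0) {z : QA F b} (hz : z ^ 2 = 1) :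
    z = 1 ∨ z = -1 := by
  have hre : (z ^ 2).re = (1 : QA F b).re := by rw [hz]
  have him : (z ^ 2).im = (1 : QA F b).im := by rw [hz]
  rw [sq, QuadraticAlgebra.re_mul, QuadraticAlgebra.re_one] at hre
  rw [sq, QuadraticAlgebra.im_mul, QuadraticAlgebra.im_one] at him
  have him' : 2 * (z.re * z.im) = 0 := by linear_combination him
  rcases mul_eq_zero.1 ((mul_eq_zero.1 him').resolve_left h2) with h | h
  · exfalso
    apply hsq
    rw [h] at hre
    have hy : z.im ≠ 0 := by
      intro h0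
      rw [h0] at hre
      simp at hre
    refine ⟨z.im⁻¹, ?_⟩
    field_simp
    rw [← hre]
    ring
  · rw [h] at hre
    have h3 : (z.re - 1) * (z.re + 1) = 0 := by linear_combination hre
    rcases mul_eq_zero.1 h3 with h4 | h4
    · left
      ext
      · rw [QuadraticAlgebra.re_one]
        exact sub_eq_zero.1 h4
      · rw [QuadraticAlgebra.im_one]
        exact h
    · right
      ext
      · rw [QuadraticAlgebra.re_neg, QuadraticAlgebra.re_one]
        exact eq_neg_of_add_eq_zero_left h4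
      · rw [QuadraticAlgebra.im_neg, QuadraticAlgebra.im_one, neg_zero]
        exact h

theorem norm_ne (z : (QA F b)ˣ) : QuadraticAlgebra.norm (z : QA F b) ≠ 0 := by
  intro h
  have h1 : QuadraticAlgebra.norm ((z : QA F b) * ((z⁻¹ : (QA F b)ˣ) : QA F b)) = 1 := by
    rw [Units.mul_inv, map_one]
  rw [map_mul, h, zero_mul] at h1
  exact zero_ne_one h1

theorem card_ker (hsq : ¬ IsSquare b) (h2 : (2 : F) ≠ 0) :
    Nat.card (powMonoidHom 2 : (QA F b)ˣ →* (QA F b)ˣ).ker = 2 := by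
  have h1 : ((powMonoidHom 2 : (QA F b)ˣ →* (QA F b)ˣ).ker : Set (QA F b)ˣ) = {1, -1} := by
    ext z
    rw [SetLike.mem_coe, MonoidHom.mem_ker, powMonoidHom_apply, Set.mem_insert_iff,
      Set.mem_singleton_iff]
    constructor
    · intro hz
      have hz' : (z : QA F b) ^ 2 = 1 := by
        rw [← Units.val_pow_eq_pow_val, hz, Units.val_one]
      rcases sq_one hsq h2 hz' with h | h
      · exact Or.inl (Units.ext h)
      · exact Or.inr (Units.ext h)
    · rintro (rfl | rfl)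
      · exact one_pow 2
      · exact neg_one_sq
  have h3 : (1 : (QA F b)ˣ) ≠ -1 := by
    intro h
    have h4 : (((1 : (QA F b)ˣ) : QA F b)).re = (((-1 : (QA F b)ˣ) : QA F b)).re := by rw [← h]
    rw [Units.val_neg, Units.val_one, QuadraticAlgebra.re_neg, QuadraticAlgebra.re_one] at h4
    exact h2 (by linear_combination h4)
  change Nat.card ((powMonoidHom 2 : (QA F b)ˣ →* (QA F b)ˣ).ker : Set (QA F b)ˣ) = 2
  rw [h1, Nat.card_coe_set_eq, Set.ncard_pair h3]

variable (v b) in
/-- the valuation of the norm -/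
noncomputable def vn : Additive (QA F b)ˣ →+ ℤ where
  toFun x := WithZero.log (v (QuadraticAlgebra.norm ((Additive.toMul x : (QA F b)ˣ) : QA F b)))
  map_zero' := by
    rw [toMul_zero, Units.val_one, map_one, map_one, WithZero.log_one]
  map_add' x y := by
    rw [toMul_add, Units.val_mul, map_mul, map_mul, WithZero.log_mul]
    · exact (Valuation.ne_zero_iff v).2 (norm_ne _)
    · exact (Valuation.ne_zero_iff v).2 (norm_ne _)

end

end L9

theorem thm_L9 (hG1 : St_G1) (hG2 : St_G2) (hL2 : St_L2) (hL5 : St_L5) (hL6 : St_L6) (hL8 : St_L8) : St_L9 := by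
  intro F _ v N e b hF hb0 hsq hb h2
  obtain ⟨hN, -, -⟩ := hL2 F v N hF
  obtain ⟨H, hH, hHA⟩ := hL8 F v N b hb hF hb0 hsq
  obtain ⟨hs1, hs2, hs3⟩ := hL6 F v N e (3 * e + 1) b hb hF hsq h2 le_rfl
  have hA : HasQ (AG v hb (3 * e + 1)) (N ^ (2 * e)) := by
    refine hG2.2.2.2 _ _ (pow_ne_zero _ (by omega)) ?_ ?_
    · rintro ⟨x, hx⟩ h
      exact Subtype.ext (hs3 x hx (congrArg Subtype.val h))
    · have h1 : sqs (AG v hb (3 * e + 1)) =
          (AG v hb (3 * e + 1 + e)).subgroupOf (AG v hb (3 * e + 1)) := by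
        ext x
        rw [mem_sqs, Subgroup.mem_subgroupOf]
        constructor
        · rintro ⟨c, rfl⟩
          exact hs1 c c.2
        · intro hx
          obtain ⟨y, hy, hyx⟩ := hs2 x hx
          exact ⟨⟨y, hy⟩, Subtype.ext hyx⟩
      rw [h1]
      exact (L9.AG_relIndex hb hL5 hF (3 * e + 1) e).trans (pow_mul N 2 e).symm
  have hq : HasQ ((QA F b)ˣ ⧸ H) (2 ^ 1) := by
    refine hG2.2.2.1 _ 1 (L9.quot H (L9.vn v b) ?_ ?_)
    · intro x
      rw [hH]
      change v (QuadraticAlgebra.norm (x : QA F b)) = 1 ↔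
        WithZero.log (v (QuadraticAlgebra.norm (x : QA F b))) = 0
      constructor
      · intro h
        rw [h, WithZero.log_one]
      · intro h
        rw [← WithZero.exp_log ((Valuation.ne_zero_iff v).2 (L9.norm_ne x)), h, WithZero.exp_zero]
    · obtain ⟨a, ha⟩ := hF.surj 1
      have ha0 : a ≠ 0 := by
        rintro rfl
        rw [map_zero] at ha
        exact WithZero.exp_ne_zero ha.symm
      refine ⟨Additive.ofMul (Units.map (algebraMap F (QA F b)).toMonoidHom (Units.mk0 a ha0)), ?_⟩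
      change WithZero.log (v (QuadraticAlgebra.norm (algebraMap F (QA F b) a))) ≠ 0
      rw [QuadraticAlgebra.norm_algebraMap, map_pow, ha, WithZero.log_pow, WithZero.log_exp]
      norm_num
  have h3 := L9.chain hG1 hG2 H (AG v hb (3 * e + 1)) (hHA _).1 (hHA _).2 hA hq
  rw [h3.2.2, L9.card_ker hsq hF.two]
  ring

end Pool.Agent.QCF
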