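import Pool.Agent.QCF.St

/-!
# QCF [M1]: Hasse norm theorem
-/

set_option autoImplicit false

namespace Pool.Agent.QCF

open HP7 IsDedekindDomain NumberField
open scoped WithZero

theorem thm_M1 (hD16 : St_D16) (_hL17 : St_L17) (hN1 : St_N1) : HP7.St_HNT := by
  classical
  intro K _ _ a b ha hb h
  by_cases hsq : IsSquare a
  · obtain ⟨c, hc⟩ := hsq
    have hc0 : c ≠ 0 := by
      rintro rfl
      exact ha (by rw [hc, mul_zero])
    refine ⟨(b + 1) / 2, (b - 1) / (2 * c), ?_⟩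
    rw [RingHom.id_apply, RingHom.id_apply, hc]
    field_simp
    ring
  obtain ⟨S₁, hS₁⟩ := hD16 K (Units.mk0 a ha) hsq
  obtain ⟨S₂, hS₂⟩ := (hN1 K).2 (Units.mk0 b hb)
  obtain ⟨x, y, hxy⟩ := hS₁ (S₁ ∪ S₂) Finset.subset_union_left (Units.mk0 b hb)
    (SU_mono Finset.subset_union_right hS₂) (fun w _ => h w)
  exact ⟨x, y, hxy⟩

end Pool.Agent.QCF
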