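import Pool.Agent.QCF.St

/-!
# QCF [M2]: Hilbert reciprocity
-/

set_option autoImplicit false

namespace Pool.Agent.QCF

open HP7 IsDedekindDomain NumberField
open scoped WithZero

open Classical in
/-- the product of signs -/
theorem prod_sgn_even_M2 {ι : Type} (S : Finset ι) (P : ι → Prop) :
    (∏ w ∈ S, (if P w then (1 : ℤˣ) else -1)) = 1 ↔ Even (S.filter fun w => ¬ P w).card := by
  rw [Finset.prod_ite, Finset.prod_const_one, one_mul, Finset.prod_const]
  constructor
  · intro h
    by_contra hodd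
    rw [Nat.not_even_iff_odd] at hodd
    rw [hodd.neg_one_pow] at h
    exact absurd h (by decide)
  · intro h
    exact h.neg_one_pow

theorem evenAt_of_val_one_M2 {K : Type} [Field K] [NumberField K] {v : HeightOneSpectrum (𝓞 K)}
    {b : K} (h : v.valuation K b = 1) : EvenAt v b :=
  ⟨0, by rw [h]; simp⟩

theorem thm_M2 (hD11 : St_D11) (_hL17 : St_L17) (hL19 : St_L19) (hN1 : St_N1) :
    HP7.St_Recip := by
  classical
  intro K _ _ a b ha hb
  obtain ⟨Sa, hSa⟩ := (hN1 K).2 (Units.mk0 a ha)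
  obtain ⟨Sb, hSb⟩ := (hN1 K).2 (Units.mk0 b hb)
  obtain ⟨S, hS, hadm⟩ := (hN1 K).1 (Sa ∪ Sb)
  have haS : Units.mk0 a ha ∈ SU S := SU_mono (Finset.subset_union_left.trans hS) hSa
  have hbS : Units.mk0 b hb ∈ SU S := SU_mono (Finset.subset_union_right.trans hS) hSb
  have hout : ∀ w : Pl K, w ∉ S → At (NormOf a b) w := by
    intro w hw
    cases w with
    | inr w => exact absurd (hadm.1 w) hw
    | inl v =>
      have h1 := (hL19 K v (hadm.2.1 v hw)).1 (Units.mk0 a ha) (Units.mk0 b hb)
        (evenAt_of_val_one_M2 (haS v hw)) (evenAt_of_val_one_M2 (hbS v hw))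
      by_contra hn
      have h2 : sgn (Sum.inl v) (Units.mk0 a ha) (Units.mk0 b hb) = -1 := by
        unfold sgn
        exact if_neg hn
      rw [h2] at h1
      exact absurd h1 (by decide)
  have hset : {w : Pl K | ¬ At (NormOf a b) w} =
      ((S.filter fun w => ¬ At (NormOf a b) w : Finset (Pl K)) : Set (Pl K)) := by
    ext w
    simp only [Set.mem_ofPred_eq, Finset.coe_filter]
    exact ⟨fun h => ⟨by_contra fun h' => h (hout w h'), h⟩, fun h => h.2⟩
  rw [hset]
  refine ⟨Finset.finite_toSet _, ?_⟩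
  rw [Set.ncard_coe_finset, ← prod_sgn_even_M2]
  exact hD11 K S hadm (Units.mk0 a ha) haS (Units.mk0 b hb) hbS

end Pool.Agent.QCF
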