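import Pool.Agent.QCF.St

/-!
# QCF [M4]: global square theorem
-/

set_option autoImplicit false

namespace Pool.Agent.QCF

open HP7 IsDedekindDomain NumberField
open scoped WithZero

theorem thm_M4 (hD3 : St_D3) : HP7.St_GlobalSquare := by
  intro K _ _ a hfin
  by_cases ha : a = 0
  · subst ha
    exact ⟨0, by simp⟩
  by_contra hns
  have h1 : ¬ IsSquare ((Units.mk0 a ha : Kˣ) : K) := by
    rintro ⟨c, hc⟩
    apply hns
    refine ⟨c, ?_⟩
    rw [Units.val_mk0] at hc
    rw [RingHom.id_apply, hc, sq]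
  obtain ⟨v, hv, -, -, hv2⟩ := hD3 K hfin.toFinset (Units.mk0 a ha) h1
  apply hv
  rw [Set.Finite.mem_toFinset]
  exact hv2

end Pool.Agent.QCF
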