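import Pool.Agent.QCF.St

/-!
# QCF [N1]
-/

set_option autoImplicit false

namespace Pool.Agent.QCF

open HP7 IsDedekindDomain NumberField
open scoped WithZero nonZeroDivisors

theorem n1_fin_int {K : Type} [Field K] [NumberField K] (r : 𝓞 K) (hr : r ≠ 0) :
    {v : HeightOneSpectrum (𝓞 K) | v.intValuation r ≠ 1}.Finite := by
  have h : Ideal.span {r} ≠ (0 : Ideal (𝓞 K)) := by
    rw [Ne, Ideal.zero_eq_bot, Ideal.span_singleton_eq_bot]
    exact hr
  refine (Ideal.finite_factors h).subset ?_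
  intro v hv
  rw [Set.mem_setOf_eq] at hv ⊢
  exact (v.intValuation_lt_one_iff_dvd r).1 (lt_of_le_of_ne (v.intValuation_le_one r) hv)

theorem n1_fin {K : Type} [Field K] [NumberField K] (a : K) (ha : a ≠ 0) :
    {v : HeightOneSpectrum (𝓞 K) | v.valuation K a ≠ 1}.Finite := by
  obtain ⟨r, s, hs, rfl⟩ := IsFractionRing.div_surjective (A := 𝓞 K) a
  have hs0 : s ≠ 0 := nonZeroDivisors.ne_zero hs
  have hr0 : r ≠ 0 := by
    rintro rfl
    simp at ha
  refine ((n1_fin_int r hr0).union (n1_fin_int s hs0)).subset ?_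
  intro v hv
  by_contra hcon
  rw [Set.mem_union, not_or, Set.mem_setOf_eq, Set.mem_setOf_eq, not_not, not_not] at hcon
  rw [Set.mem_setOf_eq] at hv
  apply hv
  rw [map_div₀, v.valuation_of_algebraMap, v.valuation_of_algebraMap, hcon.1, hcon.2, div_one]

theorem n1_adm (K : Type) [Field K] [NumberField K] (T : Finset (Pl K)) :
    ∃ S, T ⊆ S ∧ Adm S := by
  classical
  choose I hI using (ClassGroup.mk0_surjective (R := 𝓞 K))
  have h2 : ((2 : 𝓞 K)) ≠ 0 := two_ne_zero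
  have hfin1 : {v : HeightOneSpectrum (𝓞 K) | v.intValuation (2 : 𝓞 K) ≠ 1}.Finite :=
    n1_fin_int _ h2
  have hI0 : ∀ c, ((I c : (Ideal (𝓞 K))⁰) : Ideal (𝓞 K)) ≠ 0 :=
    fun c => nonZeroDivisors.ne_zero (I c).2
  have hfin2 : (⋃ c, {v : HeightOneSpectrum (𝓞 K) |
      v.asIdeal ∣ ((I c : (Ideal (𝓞 K))⁰) : Ideal (𝓞 K))}).Finite :=
    Set.finite_iUnion fun c => Ideal.finite_factors (hI0 c)
  refine ⟨T ∪ (Finset.univ : Finset (InfinitePlace K)).map ⟨Sum.inr, Sum.inr_injective⟩ ∪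
    finPl (hfin1.toFinset ∪ hfin2.toFinset), ?_, ?_, ?_, ?_⟩
  · intro w hw
    exact Finset.mem_union_left _ (Finset.mem_union_left _ hw)
  · intro w
    refine Finset.mem_union_left _ (Finset.mem_union_right _ ?_)
    exact Finset.mem_map.2 ⟨w, Finset.mem_univ _, rfl⟩
  · intro v hv
    by_contra hcon
    apply hv
    refine Finset.mem_union_right _ ?_
    refine Finset.mem_map.2 ⟨v, Finset.mem_union_left _ ?_, rfl⟩
    rw [Set.Finite.mem_toFinset, Set.mem_setOf_eq]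
    intro h
    apply hcon
    have h3 := v.valuation_of_algebraMap (K := K) (2 : 𝓞 K)
    have h4 : algebraMap (𝓞 K) K (2 : 𝓞 K) = 2 := map_ofNat _ 2
    rw [h] at h3
    rw [← h4]
    exact h3
  · -- generators
    have key : ∀ u : HeightOneSpectrum (𝓞 K), Sum.inl u ∉ T ∪ (Finset.univ : Finset
        (InfinitePlace K)).map ⟨Sum.inr, Sum.inr_injective⟩ ∪
        finPl (hfin1.toFinset ∪ hfin2.toFinset) →
        ∀ c, ¬ u.asIdeal ∣ ((I c : (Ideal (𝓞 K))⁰) : Ideal (𝓞 K)) := by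
      intro u hu c hc
      apply hu
      refine Finset.mem_union_right _ ?_
      refine Finset.mem_map.2 ⟨u, Finset.mem_union_right _ ?_, rfl⟩
      rw [Set.Finite.mem_toFinset, Set.mem_iUnion]
      exact ⟨c, hc⟩
    intro v hv
    have hv0 : v.asIdeal ≠ 0 := by
      rw [Ideal.zero_eq_bot]
      exact v.ne_bot
    have hvm : v.asIdeal ∈ (Ideal (𝓞 K))⁰ := mem_nonZeroDivisors_of_ne_zero hv0
    obtain ⟨c, hc⟩ : ∃ c, c = (ClassGroup.mk0 ⟨v.asIdeal, hvm⟩)⁻¹ := ⟨_, rfl⟩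
    have hmem : v.asIdeal * ((I c : (Ideal (𝓞 K))⁰) : Ideal (𝓞 K)) ∈ (Ideal (𝓞 K))⁰ :=
      mul_mem hvm (I c).2
    have h1 : ClassGroup.mk0 ⟨v.asIdeal * ((I c : (Ideal (𝓞 K))⁰) : Ideal (𝓞 K)), hmem⟩ = 1 := by
      have h3 : (⟨v.asIdeal * ((I c : (Ideal (𝓞 K))⁰) : Ideal (𝓞 K)), hmem⟩ : (Ideal (𝓞 K))⁰) =
          ⟨v.asIdeal, hvm⟩ * I c := rfl
      rw [h3, map_mul, hI, hc, mul_inv_cancel]
    rw [ClassGroup.mk0_eq_one_iff] at h1
    obtain ⟨⟨π, hπ⟩⟩ := h1
    have hπ' : v.asIdeal * ((I c : (Ideal (𝓞 K))⁰) : Ideal (𝓞 K)) = Ideal.span {π} := hπ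
    have hπ0 : π ≠ 0 := by
      rintro rfl
      rw [Ideal.span_singleton_eq_bot.2 rfl] at hπ'
      exact mul_ne_zero hv0 (hI0 c) hπ'
    have hπK : algebraMap (𝓞 K) K π ≠ 0 := by
      rw [Ne, FaithfulSMul.algebraMap_eq_zero_iff]
      exact hπ0
    refine ⟨Units.mk0 (algebraMap (𝓞 K) K π) hπK, ?_, ?_⟩
    · rw [Units.val_mk0, v.valuation_of_algebraMap]
      have hle : v.intValuation π ≤ WithZero.exp (-((1 : ℕ) : ℤ)) := by
        rw [v.intValuation_le_pow_iff_dvd, pow_one, ← hπ']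
        exact Dvd.intro _ rfl
      have hnle : ¬ v.intValuation π ≤ WithZero.exp (-((2 : ℕ) : ℤ)) := by
        rw [v.intValuation_le_pow_iff_dvd, ← hπ', sq]
        intro h
        exact key v hv c ((mul_dvd_mul_iff_left hv0).1 h)
      rw [v.intValuation_eq_exp_neg_multiplicity hπ0] at hle hnle ⊢
      rw [WithZero.exp_le_exp] at hle hnle
      congr 1
      push_cast at hle hnle
      omega
    · intro u hu huv
      rw [Units.val_mk0, u.valuation_of_algebraMap]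
      by_contra hne
      have hlt := lt_of_le_of_ne (u.intValuation_le_one π) hne
      rw [u.intValuation_lt_one_iff_dvd, ← hπ'] at hlt
      rcases (u.prime.dvd_or_dvd hlt) with h | h
      · apply huv
        have h5 : v.asIdeal ≤ u.asIdeal := Ideal.dvd_iff_le.1 h
        have h6 : v.asIdeal = u.asIdeal :=
          (v.isMaximal).eq_of_le u.isPrime.ne_top h5
        exact HeightOneSpectrum.ext h6.symm
      · exact key u hu c h

theorem thm_N1 : St_N1 := by
  classical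
  intro K _ _
  refine ⟨n1_adm K, ?_⟩
  intro a
  refine ⟨finPl (n1_fin (a : K) a.ne_zero).toFinset, ?_⟩
  rw [mem_SU]
  intro v hv
  by_contra hne
  apply hv
  refine Finset.mem_map.2 ⟨v, ?_, rfl⟩
  rw [Set.Finite.mem_toFinset]
  exact hne

end Pool.Agent.QCF
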