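import Pool.Agent.QCF.St

/-!
# QCF [N10]
-/

set_option autoImplicit false

namespace Pool.Agent.QCF

open HP7 IsDedekindDomain NumberField
open scoped WithZero

private theorem n10_fin {K : Type} [Field K] [NumberField K] (b : Kˣ) :
    {v : HeightOneSpectrum (𝓞 K) | v.valuation K (b : K) ≠ 1}.Finite := by
  refine ((HeightOneSpectrum.Support.finite (𝓞 K) (b : K)).union
    (HeightOneSpectrum.Support.finite (𝓞 K) ((b⁻¹ : Kˣ) : K))).subset ?_
  intro v hv
  rcases lt_or_gt_of_ne hv with h | h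
  · right
    show 1 < v.valuation K ((b⁻¹ : Kˣ) : K)
    rw [Units.val_inv_eq_inv_val, map_inv₀]
    exact (one_lt_inv₀ (zero_lt_iff.mpr (by simp))).mpr h
  · left
    exact h

theorem thm_N10 : St_N10 := by
  classical
  intro K _ _ S b hS hb
  have hfin := n10_fin b
  let T : Finset (HeightOneSpectrum (𝓞 K)) :=
    hfin.toFinset.filter fun v => (Sum.inl v : Pl K) ∉ S
  have hT : ∀ v, v ∈ T ↔ v.valuation K (b : K) ≠ 1 ∧ (Sum.inl v : Pl K) ∉ S := by
    intro v
    simp [T]
  -- the generators and the exponents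
  have hπ : ∀ v : HeightOneSpectrum (𝓞 K), ∃ π : Kˣ, (Sum.inl v : Pl K) ∉ S →
      v.valuation K (π : K) = WithZero.exp (-1 : ℤ) ∧
      ∀ u : HeightOneSpectrum (𝓞 K), (Sum.inl u : Pl K) ∉ S → u ≠ v →
        u.valuation K (π : K) = 1 := by
    intro v
    by_cases hv : (Sum.inl v : Pl K) ∉ S
    · obtain ⟨π, h1, h2⟩ := hS.2.2 v hv
      exact ⟨π, fun _ => ⟨h1, h2⟩⟩
    · exact ⟨1, fun h => absurd h hv⟩
  choose π hπ using hπ
  have hk : ∀ v : HeightOneSpectrum (𝓞 K), ∃ k : ℤ, (Sum.inl v : Pl K) ∉ S →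
      v.valuation K (b : K) = WithZero.exp (2 * k) := by
    intro v
    by_cases hv : (Sum.inl v : Pl K) ∉ S
    · obtain ⟨k, h1⟩ := hb v hv
      exact ⟨k, fun _ => h1⟩
    · exact ⟨0, fun h => absurd h hv⟩
  choose k hk using hk
  let c : Kˣ := ∏ v ∈ T, π v ^ (-k v)
  have hval : ∀ u : HeightOneSpectrum (𝓞 K), (Sum.inl u : Pl K) ∉ S →
      u.valuation K (c : K) ^ 2 = u.valuation K (b : K) := by
    intro u hu
    have e1 : u.valuation K (c : K) = ∏ v ∈ T, u.valuation K (π v : K) ^ (-k v) := by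
      show u.valuation K ((∏ v ∈ T, π v ^ (-k v) : Kˣ) : K) = _
      rw [Units.coe_prod, map_prod]
      apply Finset.prod_congr rfl
      intro v _
      rw [Units.val_zpow_eq_zpow_val, map_zpow₀]
    by_cases huT : u ∈ T
    · rw [e1, Finset.prod_eq_single u]
      · rw [(hπ u hu).1, hk u hu, ← WithZero.exp_zsmul, ← WithZero.exp_nsmul]
        congr 1
        simp
      · intro v hv hvu
        rw [(hπ v ((hT v).mp hv).2).2 u hu (Ne.symm hvu), one_zpow]
      · intro h
        exact absurd huT h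
    · have hb1 : u.valuation K (b : K) = 1 := by
        by_contra h
        exact huT ((hT u).mpr ⟨h, hu⟩)
      rw [e1, hb1, Finset.prod_eq_one, one_pow]
      intro v hv
      have hvu : u ≠ v := by
        rintro rfl
        exact huT hv
      rw [(hπ v ((hT v).mp hv).2).2 u hu hvu, one_zpow]
  refine ⟨b * (c ^ 2)⁻¹, ?_, c, by group⟩
  intro u hu
  have h1 := hval u hu
  have hb0 : u.valuation K (b : K) ≠ 0 := by simp
  rw [Units.val_mul, Units.val_inv_eq_inv_val, Units.val_pow_eq_pow_val, map_mul, map_inv₀,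
    map_pow, h1, mul_inv_cancel₀ hb0]

end Pool.Agent.QCF
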