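import Pool.Agent.QCF.St

/-!
# QCF [N11]
-/

set_option autoImplicit false

namespace Pool.Agent.QCF

open HP7 IsDedekindDomain NumberField
open scoped WithZero

section N11

variable {K L : Type} [Field K] [Field L] [Algebra K L] {a : K}

private theorem n11_uniq (q : QE K L a) {x y x' y' : K}
    (h : algebraMap K L x + algebraMap K L y * q.ω = algebraMap K L x' + algebraMap K L y' * q.ω) :
    x = x' ∧ y = y' := by
  have hinj := (algebraMap K L).injective
  have hy : y = y' := by
    by_contra hne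
    have hd : y - y' ≠ 0 := sub_ne_zero.mpr hne
    have hd' : algebraMap K L (y - y') ≠ 0 := (map_ne_zero _).mpr hd
    have e : q.ω = algebraMap K L ((x' - x) / (y - y')) := by
      rw [map_div₀, eq_div_iff hd']
      simp only [map_sub]
      linear_combination h
    apply q.nsq
    refine ⟨(x' - x) / (y - y'), hinj ?_⟩
    rw [map_mul, ← e, ← q.sq, sq]
  refine ⟨?_, hy⟩
  rw [hy] at h
  exact hinj (add_right_cancel h)

end N11

theorem thm_N11 (hN9 : St_N9) (hN10 : St_N10) : St_N11 := by
  intro K L _ _ _ _ _ a q S S' hS ha hS' z c x y hz hc hzxy hnorm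
  have key := hN9 K L a q S S' hS ha hS'
  -- the integrality of `x` and `y`
  have hxy : ∀ v : HeightOneSpectrum (𝓞 K), (Sum.inl v : Pl K) ∉ S →
      v.valuation K x ≤ 1 ∧ v.valuation K y ≤ 1 := by
    obtain ⟨x', y', h1, h2⟩ := (key z).mp hz
    obtain ⟨rfl, rfl⟩ := n11_uniq q (hzxy.symm.trans h1)
    exact fun v hv => ⟨(h2 v hv).1, (h2 v hv).2.1⟩
  have hc0 : (c : K) ≠ 0 := c.ne_zero
  -- `w = z / c`
  obtain ⟨x0, hx0⟩ : ∃ x0 : K, x = c * x0 := ⟨x / c, by field_simp⟩
  obtain ⟨y0, hy0⟩ : ∃ y0 : K, y = c * y0 := ⟨y / c, by field_simp⟩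
  have hn0 : x0 ^ 2 - (a : K) * y0 ^ 2 = 1 := by
    have h1 : (c : K) ^ 2 * (x0 ^ 2 - (a : K) * y0 ^ 2) = (c : K) ^ 2 * 1 := by
      rw [hx0, hy0] at hnorm
      linear_combination hnorm
    exact mul_left_cancel₀ (pow_ne_zero 2 hc0) h1
  have hxy0 : ∀ v : HeightOneSpectrum (𝓞 K), (Sum.inl v : Pl K) ∉ S →
      v.valuation K x0 ≤ 1 ∧ v.valuation K y0 ≤ 1 := by
    intro v hv
    have h1 := hxy v hv
    have h2 := hc v hv
    rw [hx0, hy0, map_mul, map_mul, h2, one_mul, one_mul] at h1
    exact h1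
  have ha0 : (a : K) ≠ 0 := a.ne_zero
  by_cases hw : x0 = -1
  · -- `w = -1`
    have hy00 : y0 = 0 := by
      rw [hw] at hn0
      have h1 : (a : K) * y0 ^ 2 = 0 := by linear_combination -hn0
      rcases mul_eq_zero.mp h1 with h | h
      · exact absurd h ha0
      · exact pow_eq_zero_iff (two_ne_zero) |>.mp h
    refine ⟨-c, ?_, 1, Subgroup.one_mem _, ?_⟩
    · intro v hv
      rw [Units.val_neg, Valuation.map_neg, hc v hv]
    · rw [hzxy, hx0, hy0, hw, hy00]
      simp
  · have hx1 : x0 + 1 ≠ 0 := fun h => hw (eq_neg_of_add_eq_zero_left h)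
    have h20 : (2 : K) ≠ 0 := two_ne_zero
    let b : Kˣ := Units.mk0 (2 * (x0 + 1)) (mul_ne_zero h20 hx1)
    have hb : (b : K) = 2 * (x0 + 1) := rfl
    have hfac : (x0 - 1) * (x0 + 1) = (a : K) * y0 ^ 2 := by linear_combination hn0
    -- valuations
    have hle : ∀ v : HeightOneSpectrum (𝓞 K), (Sum.inl v : Pl K) ∉ S →
        v.valuation K (x0 + 1) ≤ 1 := by
      intro v hv
      exact (Valuation.map_add _ _ _).trans (max_le (hxy0 v hv).1 (by rw [map_one]))
    have hlt : ∀ v : HeightOneSpectrum (𝓞 K), (Sum.inl v : Pl K) ∉ S →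
        v.valuation K (x0 + 1) < 1 → v.valuation K (x0 + 1) = v.valuation K y0 ^ 2 := by
      intro v hv h
      have h2 := hS.2.1 v hv
      have h3 : v.valuation K (x0 - 1) = 1 := by
        have e : x0 - 1 = (x0 + 1) + (-2) := by ring
        rw [e, Valuation.map_add_eq_of_lt_right, Valuation.map_neg, h2]
        rw [Valuation.map_neg, h2]
        exact h
      have h4 := congrArg (v.valuation K) hfac
      rw [map_mul, map_mul, map_pow, h3, ha v hv, one_mul, one_mul] at h4
      exact h4
    have hbv : ∀ v : HeightOneSpectrum (𝓞 K), (Sum.inl v : Pl K) ∉ S →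
        v.valuation K (b : K) = v.valuation K (x0 + 1) := by
      intro v hv
      rw [hb, map_mul, hS.2.1 v hv, one_mul]
    obtain ⟨u0, hu0, c0, hbc⟩ := hN10 K S b hS (by
      intro v hv
      rcases (hle v hv).lt_or_eq with h | h
      · have h1 := hlt v hv h
        have hy00 : v.valuation K y0 ≠ 0 := by
          intro h0
          rw [h0, zero_pow two_ne_zero] at h1
          exact hx1 ((Valuation.zero_iff _).mp h1)
        refine ⟨WithZero.log (v.valuation K y0), ?_⟩
        rw [hbv v hv, h1]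
        conv_lhs => rw [← WithZero.exp_log hy00]
        rw [← WithZero.exp_nsmul]
        congr 1
      · refine ⟨0, ?_⟩
        rw [hbv v hv, h, mul_zero, WithZero.exp_zero])
    have hbc' : 2 * (x0 + 1) = (u0 : K) * (c0 : K) ^ 2 := by
      rw [← hb, hbc, Units.val_mul, Units.val_pow_eq_pow_val]
    have hc00 : (c0 : K) ≠ 0 := c0.ne_zero
    have hu00 : (u0 : K) ≠ 0 := u0.ne_zero
    have hc0v : ∀ v : HeightOneSpectrum (𝓞 K), (Sum.inl v : Pl K) ∉ S →
        v.valuation K (c0 : K) ^ 2 = v.valuation K (x0 + 1) := by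
      intro v hv
      have h1 := congrArg (v.valuation K) hbc'
      rw [map_mul, map_mul, map_pow, hS.2.1 v hv, hu0 v hv, one_mul, one_mul] at h1
      exact h1.symm
    -- the element `t`
    have htnorm : ((x0 + 1) / (c0 : K)) ^ 2 - (a : K) * (y0 / (c0 : K)) ^ 2 = (u0 : K) := by
      have h1 : (x0 + 1) ^ 2 - (a : K) * y0 ^ 2 = (u0 : K) * (c0 : K) ^ 2 := by
        rw [← hbc']
        linear_combination hn0
      field_simp
      linear_combination h1
    have ht0 : algebraMap K L ((x0 + 1) / (c0 : K)) + algebraMap K L (y0 / (c0 : K)) * q.ω ≠ 0 := by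
      intro h
      have h1 : algebraMap K L ((x0 + 1) / (c0 : K)) + algebraMap K L (y0 / (c0 : K)) * q.ω =
          algebraMap K L 0 + algebraMap K L 0 * q.ω := by
        rw [h]
        simp
      obtain ⟨h2, h3⟩ := n11_uniq q h1
      rw [h2, h3] at htnorm
      apply hu00
      rw [← htnorm]
      ring
    let t : Lˣ := Units.mk0 _ ht0
    have ht : (t : L) = algebraMap K L ((x0 + 1) / (c0 : K)) +
        algebraMap K L (y0 / (c0 : K)) * q.ω := rfl
    have htS : t ∈ SU S' := by
      rw [key t]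
      refine ⟨_, _, ht, fun v hv => ?_⟩
      have h1 := hc0v v hv
      have hcv0 : v.valuation K (c0 : K) ≠ 0 := by simp
      rw [htnorm, hu0 v hv]
      rcases (hle v hv).lt_or_eq with h | h
      · have h2 := hlt v hv h
        have h3 : v.valuation K (c0 : K) = v.valuation K y0 := by
          rw [h2] at h1
          exact (pow_left_inj₀ zero_le zero_le two_ne_zero).mp h1
        have h4 : v.valuation K (c0 : K) ≤ 1 := by
          rw [h3]
          exact (hxy0 v hv).2
        refine ⟨?_, ?_, rfl⟩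
        · rw [map_div₀, ← h1, sq, mul_div_assoc, div_self hcv0, mul_one]
          exact h4
        · rw [map_div₀, ← h3, div_self hcv0]
      · have h2 : v.valuation K (c0 : K) = 1 := by
          rw [h] at h1
          exact (pow_eq_one_iff_of_nonneg zero_le two_ne_zero).mp h1
        refine ⟨?_, ?_, rfl⟩
        · rw [map_div₀, h2, h, div_one]
        · rw [map_div₀, h2, div_one]
          exact (hxy0 v hv).2
    refine ⟨c * u0⁻¹, Subgroup.mul_mem _ hc (Subgroup.inv_mem _ hu0), t, htS, ?_⟩
    rw [hzxy, ht, hx0, hy0, Units.val_mul, Units.val_inv_eq_inv_val]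
    have hsq := q.sq
    have h1 : algebraMap K L (u0 : K) * algebraMap K L (c0 : K) ^ 2 =
        2 * (algebraMap K L x0 + 1) := by
      rw [← map_pow, ← map_mul, ← hbc', map_mul, map_add, map_one, map_ofNat]
    have h2 : algebraMap K L x0 ^ 2 - algebraMap K L (a : K) * algebraMap K L y0 ^ 2 = 1 := by
      rw [← map_pow, ← map_pow, ← map_mul, ← map_sub, hn0, map_one]
    have hu0' : algebraMap K L (u0 : K) ≠ 0 := (map_ne_zero _).mpr hu00
    have hc0' : algebraMap K L (c0 : K) ≠ 0 := (map_ne_zero _).mpr hc00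
    simp only [map_mul, map_inv₀, map_div₀, map_add, map_one]
    field_simp
    rw [← hsq] at h2
    linear_combination (algebraMap K L x0 + algebraMap K L y0 * q.ω) * h1 + h2
end Pool.Agent.QCF
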