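import Pool.Agent.QCF.St

/-!
# QCF [N2]
-/

set_option autoImplicit false

namespace Pool.Agent.QCF

open HP7 IsDedekindDomain NumberField
open scoped WithZero

private theorem n2_equiv (A : Type) [CommGroup A] (T : Subgroup A) (r : ℕ) (f : Fin r → A)
    (h : ∀ x : A, ∃! ζe : T × (Fin r → ℤ), x = ζe.1 * ∏ i, f i ^ ζe.2 i) :
    Nonempty (Additive (A ⧸ T) ≃+ (Fin r → ℤ)) := by
  let ψ : Multiplicative (Fin r → ℤ) →* A :=
    { toFun := fun n => ∏ i, f i ^ (Multiplicative.toAdd n i)
      map_one' := Finset.prod_eq_one fun i _ => zpow_zero _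
      map_mul' := fun n m => by
        show ∏ i, f i ^ (Multiplicative.toAdd n i + Multiplicative.toAdd m i) = _
        rw [← Finset.prod_mul_distrib]
        exact Finset.prod_congr rfl fun i _ => zpow_add _ _ _ }
  let φ : Multiplicative (Fin r → ℤ) →* A ⧸ T := (QuotientGroup.mk' T).comp ψ
  have hφ : Function.Bijective φ := by
    constructor
    · intro n m hnm
      have h1 : (ψ n)⁻¹ * ψ m ∈ T := QuotientGroup.eq.1 hnm
      have h2 : ψ m = ((1 : T) : A) * ∏ i, f i ^ (Multiplicative.toAdd m i) := by
        rw [Subgroup.coe_one, one_mul]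
        rfl
      have h3 : ψ m = ((⟨_, h1⟩ : T) : A) * ∏ i, f i ^ (Multiplicative.toAdd n i) := by
        show ψ m = ((ψ n)⁻¹ * ψ m) * ψ n
        rw [mul_comm, mul_inv_cancel_left]
      have h4 := (h (ψ m)).unique (y₁ := ((1 : T), Multiplicative.toAdd m))
        (y₂ := ((⟨_, h1⟩ : T), Multiplicative.toAdd n)) h2 h3
      exact Multiplicative.toAdd.injective (congrArg Prod.snd h4).symm
    · intro q
      obtain ⟨x, rfl⟩ := QuotientGroup.mk'_surjective T q
      obtain ⟨⟨ζ, e⟩, h1, -⟩ := h x
      refine ⟨Multiplicative.ofAdd e, ?_⟩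
      show QuotientGroup.mk' T (ψ (Multiplicative.ofAdd e)) = QuotientGroup.mk' T x
      apply QuotientGroup.eq.2
      have h2 : x = (ζ : A) * ψ (Multiplicative.ofAdd e) := h1
      rw [h2, mul_comm (ζ : A), inv_mul_cancel_left]
      exact ζ.2
  let e := MulEquiv.ofBijective φ hφ
  exact ⟨{ toFun := fun x => Multiplicative.toAdd (e.symm (Additive.toMul x))
           invFun := fun n => Additive.ofMul (e (Multiplicative.ofAdd n))
           left_inv := fun x => by
             show Additive.ofMul (e (e.symm (Additive.toMul x))) = x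
             rw [e.apply_symm_apply]
             rfl
           right_inv := fun n => by
             show Multiplicative.toAdd (e.symm (e (Multiplicative.ofAdd n))) = n
             rw [e.symm_apply_apply]
             rfl
           map_add' := fun x y => by
             show Multiplicative.toAdd (e.symm (Additive.toMul x * Additive.toMul y)) = _
             rw [map_mul]
             rfl }⟩

theorem thm_N2 (hG1 : St_G1) (hG2 : St_G2) : St_N2 := by
  intro K _ _
  have h1 : HasQ (NumberField.Units.torsion K) 1 := hG2.1 _ inferInstance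
  have h2 : HasQ ((𝓞 K)ˣ ⧸ NumberField.Units.torsion K) (2 ^ NumberField.Units.rank K) :=
    hG2.2.2.1 _ _ (n2_equiv _ _ _ (NumberField.Units.fundSystem K)
      (NumberField.Units.exist_unique_eq_mul_prod K))
  have h3 := hG1 _ _ _ _ h1 h2
  rw [one_mul] at h3
  exact h3

end Pool.Agent.QCF
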