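import Pool.Agent.QCF.St

/-!
# QCF [N3]: `S`-units modulo units
-/

set_option autoImplicit false

namespace Pool.Agent.QCF

open HP7 IsDedekindDomain NumberField
open scoped WithZero nonZeroDivisors

section N3

variable {K : Type} [Field K] [NumberField K]

/-- the valuation vector of an `S`-unit -/
private noncomputable def n3_val (S : Finset (Pl K)) :
    SU S →* Multiplicative (S.toLeft → ℤ) where
  toFun x := Multiplicative.ofAdd fun v => WithZero.log (v.1.valuation K ((x : Kˣ) : K))
  map_one' := by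
    rw [← ofAdd_zero]
    congr 1
    funext v
    simp
  map_mul' x y := by
    rw [← ofAdd_add]
    congr 1
    funext v
    have hx : v.1.valuation K ((x : Kˣ) : K) ≠ 0 := by simp
    have hy : v.1.valuation K ((y : Kˣ) : K) ≠ 0 := by simp
    simp only [Subgroup.coe_mul, Units.val_mul, map_mul, Pi.add_apply]
    exact WithZero.log_mul hx hy

private lemma n3_mem_ker (S : Finset (Pl K)) (x : SU S) :
    x ∈ (n3_val S).ker ↔ ∀ v : HeightOneSpectrum (𝓞 K), v.valuation K ((x : Kˣ) : K) = 1 := by
  rw [MonoidHom.mem_ker]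
  constructor
  · intro h v
    by_cases hv : (Sum.inl v : Pl K) ∈ S
    · have h1 := congrFun (congrArg Multiplicative.toAdd h) ⟨v, by simpa using hv⟩
      have h2 : WithZero.log (v.valuation K ((x : Kˣ) : K)) = 0 := h1
      have h3 : v.valuation K ((x : Kˣ) : K) ≠ 0 := by simp
      rw [← WithZero.exp_log h3, h2, WithZero.exp_zero]
    · exact x.2 v hv
  · intro h
    apply Multiplicative.toAdd.injective
    funext v
    change WithZero.log (v.1.valuation K ((x : Kˣ) : K)) = 0
    rw [h v.1, WithZero.log_one]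

private lemma n3_unit (u : (𝓞 K)ˣ) (v : HeightOneSpectrum (𝓞 K)) :
    v.valuation K (algebraMap (𝓞 K) K u) = 1 := by
  refine le_antisymm (HeightOneSpectrum.valuation_le_one v _) ?_
  have h1 : v.valuation K (algebraMap (𝓞 K) K u) *
      v.valuation K (algebraMap (𝓞 K) K (u⁻¹ : (𝓞 K)ˣ)) = 1 := by
    rw [← map_mul, ← map_mul, Units.mul_inv, map_one, map_one]
  calc (1 : ℤᵐ⁰) = v.valuation K (algebraMap (𝓞 K) K u) *
      v.valuation K (algebraMap (𝓞 K) K (u⁻¹ : (𝓞 K)ˣ)) := h1.symm
    _ ≤ v.valuation K (algebraMap (𝓞 K) K u) * 1 := by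
        gcongr
        exact HeightOneSpectrum.valuation_le_one v _
    _ = _ := mul_one _

private noncomputable def n3_hom (S : Finset (Pl K)) : (𝓞 K)ˣ →* (n3_val S).ker where
  toFun u := ⟨⟨Units.map (algebraMap (𝓞 K) K : 𝓞 K →* K) u, fun v _ => n3_unit u v⟩,
    (n3_mem_ker S _).2 fun v => n3_unit u v⟩
  map_one' := by
    ext
    simp
  map_mul' x y := by
    ext
    simp

private lemma n3_bij (S : Finset (Pl K)) : Function.Bijective (n3_hom S) := by
  constructor
  · intro x y hxy
    have h1 : ((((n3_hom S x : (n3_val S).ker) : SU S) : Kˣ) : K) =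
      ((((n3_hom S y : (n3_val S).ker) : SU S) : Kˣ) : K) := by rw [hxy]
    ext
    exact h1
  · rintro ⟨x, hx⟩
    rw [n3_mem_ker] at hx
    obtain ⟨r, hr⟩ := HeightOneSpectrum.mem_integers_of_valuation_le_one K ((x : Kˣ) : K)
      fun v => (hx v).le
    obtain ⟨s, hs⟩ := HeightOneSpectrum.mem_integers_of_valuation_le_one K
      ((x : Kˣ) : K)⁻¹ fun v => by rw [map_inv₀, hx v, inv_one]
    have hrs : r * s = 1 := by
      apply IsFractionRing.injective (𝓞 K) K
      rw [map_mul, hr, hs, map_one, mul_inv_cancel₀ (Units.ne_zero _)]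
    refine ⟨⟨r, s, hrs, by rw [mul_comm]; exact hrs⟩, ?_⟩
    ext
    exact hr

/-- a generator of the power of a prime -/
private lemma n3_gen (v : HeightOneSpectrum (𝓞 K)) :
    ∃ x : Kˣ, v.valuation K (x : K) =
        WithZero.exp (-(Fintype.card (ClassGroup (𝓞 K)) : ℤ)) ∧
      ∀ u : HeightOneSpectrum (𝓞 K), u ≠ v → u.valuation K (x : K) = 1 := by
  set h := Fintype.card (ClassGroup (𝓞 K)) with hh
  have hv0 : v.asIdeal ∈ (Ideal (𝓞 K))⁰ := mem_nonZeroDivisors_of_ne_zero v.ne_bot
  have h1 : (ClassGroup.mk0 (⟨v.asIdeal, hv0⟩ : (Ideal (𝓞 K))⁰)) ^ h = 1 := pow_card_eq_one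
  rw [← map_pow, ClassGroup.mk0_eq_one_iff] at h1
  obtain ⟨⟨r, hr⟩⟩ := h1
  have hr' : v.asIdeal ^ h = Ideal.span {r} := hr
  have hr0 : r ≠ 0 := by
    rintro rfl
    rw [Ideal.span_singleton_eq_bot.2 rfl] at hr'
    exact pow_ne_zero h v.ne_bot hr'
  have hrK : algebraMap (𝓞 K) K r ≠ 0 := by
    rw [Ne, FaithfulSMul.algebraMap_eq_zero_iff]
    exact hr0
  refine ⟨Units.mk0 _ hrK, ?_, ?_⟩
  · rw [Units.val_mk0, HeightOneSpectrum.valuation_of_algebraMap]
    apply le_antisymm
    · rw [HeightOneSpectrum.intValuation_le_pow_iff_dvd, ← hr']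
    · by_contra hlt
      rw [not_le] at hlt
      have h2 : v.intValuation r ≤ WithZero.exp (-((h + 1 : ℕ) : ℤ)) := by
        have h3 := HeightOneSpectrum.intValuation_ne_zero v r hr0
        rw [← WithZero.exp_log h3] at hlt ⊢
        rw [WithZero.exp_lt_exp] at hlt
        rw [WithZero.exp_le_exp]
        push_cast
        omega
      rw [HeightOneSpectrum.intValuation_le_pow_iff_dvd, ← hr'] at h2
      have h4 := (pow_dvd_pow_iff v.ne_bot v.irreducible.not_isUnit).1 h2
      omega
  · intro u hu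
    rw [Units.val_mk0, HeightOneSpectrum.valuation_of_algebraMap]
    refine le_antisymm (HeightOneSpectrum.intValuation_le_one u r) ?_
    by_contra hlt
    rw [not_le, HeightOneSpectrum.intValuation_lt_one_iff_dvd, ← hr'] at hlt
    have h5 := u.prime.dvd_of_dvd_pow hlt
    have h6 : u.asIdeal = v.asIdeal := by
      have := (Prime.dvd_prime_iff_associated u.prime v.prime).1 h5
      exact associated_iff_eq.1 this
    exact hu (HeightOneSpectrum.ext h6)

/-- the lattice of valuation vectors -/
private noncomputable def n3_M (S : Finset (Pl K)) : Submodule ℤ (S.toLeft → ℤ) :=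
  AddSubgroup.toIntSubmodule
    { carrier := {f | Multiplicative.ofAdd f ∈ (n3_val S).range}
      add_mem' := fun {a b} ha hb => by
        change Multiplicative.ofAdd (a + b) ∈ (n3_val S).range
        rw [ofAdd_add]
        exact (n3_val S).range.mul_mem ha hb
      zero_mem' := by
        change Multiplicative.ofAdd 0 ∈ (n3_val S).range
        rw [ofAdd_zero]
        exact (n3_val S).range.one_mem
      neg_mem' := fun {a} ha => by
        change Multiplicative.ofAdd (-a) ∈ (n3_val S).range
        rw [ofAdd_neg]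
        exact (n3_val S).range.inv_mem ha }

private lemma n3_mem_M (S : Finset (Pl K)) (f : S.toLeft → ℤ) :
    f ∈ n3_M S ↔ Multiplicative.ofAdd f ∈ (n3_val S).range := Iff.rfl

open Classical in
private lemma n3_single (S : Finset (Pl K)) (v : S.toLeft) :
    Pi.single v (-(Fintype.card (ClassGroup (𝓞 K)) : ℤ)) ∈ n3_M S := by
  obtain ⟨x, hx1, hx2⟩ := n3_gen v.1
  rw [n3_mem_M]
  have hvS : (Sum.inl v.1 : Pl K) ∈ S := Finset.mem_toLeft.1 v.2
  have hx : x ∈ SU S := by
    intro u hu
    apply hx2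
    rintro rfl
    exact hu hvS
  refine ⟨⟨x, hx⟩, ?_⟩
  apply Multiplicative.toAdd.injective
  funext u
  change WithZero.log (u.1.valuation K (x : K)) =
    (Pi.single v (-(Fintype.card (ClassGroup (𝓞 K)) : ℤ)) : S.toLeft → ℤ) u
  by_cases huv : u = v
  · subst huv
    rw [hx1, Pi.single_eq_same, WithZero.log_exp]
  · rw [hx2 u.1 fun h => huv (Subtype.ext h), Pi.single_eq_of_ne huv, WithZero.log_one]

private lemma n3_smul (S : Finset (Pl K)) (f : S.toLeft → ℤ) :
    (-(Fintype.card (ClassGroup (𝓞 K)) : ℤ)) • f ∈ n3_M S := by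
  classical
  have : (-(Fintype.card (ClassGroup (𝓞 K)) : ℤ)) • f =
      ∑ v, f v • Pi.single v (-(Fintype.card (ClassGroup (𝓞 K)) : ℤ)) := by
    funext u
    rw [Finset.sum_apply]
    simp [Pi.single_apply, mul_comm]
  rw [this]
  exact Submodule.sum_mem _ fun v _ => Submodule.smul_mem _ _ (n3_single S v)

private lemma n3_finrank (S : Finset (Pl K)) :
    Module.finrank ℤ (n3_M S) = S.toLeft.card := by
  classical
  apply le_antisymm
  · refine (Submodule.finrank_le _).trans ?_
    rw [Module.finrank_fintype_fun_eq_card, Fintype.card_coe]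
  · have h0 : (-(Fintype.card (ClassGroup (𝓞 K)) : ℤ)) ≠ 0 := by
      simp
    let g : (S.toLeft → ℤ) →ₗ[ℤ] n3_M S :=
      LinearMap.codRestrict (n3_M S)
        ((-(Fintype.card (ClassGroup (𝓞 K)) : ℤ)) • LinearMap.id) (fun f => n3_smul S f)
    have hg : Function.Injective g := by
      intro a b hab
      have h1 : (-(Fintype.card (ClassGroup (𝓞 K)) : ℤ)) • a =
        (-(Fintype.card (ClassGroup (𝓞 K)) : ℤ)) • b := congrArg Subtype.val hab
      exact smul_right_injective _ h0 h1
    have := LinearMap.finrank_le_finrank_of_injective hg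
    rwa [Module.finrank_fintype_fun_eq_card, Fintype.card_coe] at this

private noncomputable def n3_rangeEquiv (S : Finset (Pl K)) :
    Additive (n3_val S).range ≃+ n3_M S where
  toFun x := ⟨Multiplicative.toAdd (Additive.toMul x).1, (Additive.toMul x).2⟩
  invFun f := Additive.ofMul ⟨Multiplicative.ofAdd f.1, f.2⟩
  left_inv _ := rfl
  right_inv _ := rfl
  map_add' _ _ := rfl

end N3

theorem thm_N3 (hG1 : St_G1) (hG2 : St_G2) : St_N3 := by
  classical
  intro K _ _ S hinf
  refine ⟨(n3_val S).ker, ⟨(MulEquiv.ofBijective (n3_hom S) (n3_bij S)).symm⟩, ?_⟩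
  have hcard : S.card - Fintype.card (InfinitePlace K) = S.toLeft.card := by
    have hR : S.toRight = Finset.univ := by
      ext w
      simp [hinf w]
    have hS : S = S.toLeft.disjSum S.toRight := (Finset.toLeft_disjSum_toRight).symm
    have : S.card = S.toLeft.card + Fintype.card (InfinitePlace K) := by
      conv_lhs => rw [hS]
      rw [Finset.card_disjSum, hR, Finset.card_univ]
    omega
  rw [hcard]
  apply hG2.2.2.1
  have e1 : Additive (SU S ⧸ (n3_val S).ker) ≃+ Additive (n3_val S).range :=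
    MulEquiv.toAdditive (QuotientGroup.quotientKerEquivRange (n3_val S))
  have e2 : n3_M S ≃ₗ[ℤ] (Fin S.toLeft.card → ℤ) :=
    LinearEquiv.ofFinrankEq _ _ (by
      rw [n3_finrank, Module.finrank_fintype_fun_eq_card, Fintype.card_fin])
  exact ⟨(e1.trans (n3_rangeEquiv S)).trans e2.toAddEquiv⟩

end Pool.Agent.QCF
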