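import Pool.Agent.QCF.St

/-!
# QCF [N4]
-/

set_option autoImplicit false

namespace Pool.Agent.QCF

open HP7 IsDedekindDomain NumberField
open scoped WithZero

/-- transport of the squaring quotient along an isomorphism -/
theorem n4_transport {G H : Type} [CommGroup G] [CommGroup H] (e : G ≃* H) (n : ℕ)
    (h : HasQ G n) : HasQ H n := by
  obtain ⟨h0, h1, h2⟩ := h
  have hker : ∀ x : G, x ∈ (powMonoidHom 2 : G →* G).ker ↔
      e x ∈ (powMonoidHom 2 : H →* H).ker := by
    intro x
    rw [MonoidHom.mem_ker, MonoidHom.mem_ker, powMonoidHom_apply, powMonoidHom_apply, ← map_pow,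
      MulEquiv.map_eq_one_iff]
  let E : (powMonoidHom 2 : G →* G).ker ≃ (powMonoidHom 2 : H →* H).ker :=
    e.toEquiv.subtypeEquiv hker
  have hsq : sqs H = (sqs G).map e.toMonoidHom := by
    ext y
    rw [Subgroup.mem_map]
    constructor
    · rintro ⟨c, rfl⟩
      refine ⟨(e.symm c) ^ 2, ⟨e.symm c, rfl⟩, ?_⟩
      show e ((e.symm c) ^ 2) = c ^ 2
      rw [map_pow, MulEquiv.apply_symm_apply]
    · rintro ⟨x, ⟨c, rfl⟩, rfl⟩
      refine ⟨e c, ?_⟩
      show (e c) ^ 2 = e (c ^ 2)
      rw [map_pow]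
  refine ⟨h0, ?_, ?_⟩
  · have := h1
    exact Finite.of_equiv _ E
  · rw [hsq, Subgroup.index_map_of_bijective (f := e.toMonoidHom) e.bijective, h2,
      Nat.card_congr E]

/-- the kernel of squaring on the `S`-units -/
theorem n4_ker {K : Type} [Field K] [NumberField K] (S : Finset (Pl K)) :
    Nat.card (powMonoidHom 2 : SU S →* SU S).ker = 2 := by
  have hm : (-1 : Kˣ) ∈ SU S := by
    intro v _
    rw [Units.val_neg, Units.val_one, Valuation.map_neg, map_one]
  have h1 : (⟨-1, hm⟩ : SU S) ∈ (powMonoidHom 2 : SU S →* SU S).ker := by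
    rw [MonoidHom.mem_ker, powMonoidHom_apply]
    ext
    simp
  rw [Nat.card_eq_two_iff]
  refine ⟨1, ⟨⟨-1, hm⟩, h1⟩, ?_, ?_⟩
  · intro h
    have h2 : ((1 : Kˣ) : K) = ((-1 : Kˣ) : K) := congrArg (fun x :
      (powMonoidHom 2 : SU S →* SU S).ker => (((x : SU S) : Kˣ) : K)) h
    rw [Units.val_neg, Units.val_one] at h2
    have h3 : (2 : K) = 0 := by linear_combination h2
    exact two_ne_zero h3
  · apply Set.eq_univ_of_forall
    rintro ⟨⟨x, hx⟩, hxk⟩
    rw [MonoidHom.mem_ker, powMonoidHom_apply] at hxk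
    have h2 : (x : K) ^ 2 = 1 := by
      have h3 := congrArg (fun y : SU S => ((y : Kˣ) : K)) hxk
      simpa using h3
    have h2' : (x : K) = 1 ∨ (x : K) = -1 := by
      have h5 : ((x : K) - 1) * ((x : K) + 1) = 0 := by linear_combination h2
      rcases mul_eq_zero.mp h5 with h6 | h6
      · left; linear_combination h6
      · right; linear_combination h6
    rcases h2' with h4 | h4
    · left
      apply Subtype.ext
      apply Subtype.ext
      exact Units.ext h4
    · right
      apply Subtype.ext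
      apply Subtype.ext
      exact Units.ext (by rw [h4]; simp)

theorem thm_N4 (hG1 : St_G1) (hN2 : St_N2) (hN3 : St_N3) : St_N4 := by
  intro K _ _ S hS
  obtain ⟨U, ⟨e⟩, hQ⟩ := hN3 K S hS
  have hU := n4_transport e.symm _ (hN2 K)
  have hall := hG1 (SU S) U _ _ hU hQ
  have hc1 : 1 ≤ Fintype.card (InfinitePlace K) := Fintype.card_pos
  have hc2 : Fintype.card (InfinitePlace K) ≤ S.card := by
    rw [← Finset.card_univ, ← Finset.card_map ⟨Sum.inr, Sum.inr_injective⟩]
    apply Finset.card_le_card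
    intro w hw
    rw [Finset.mem_map] at hw
    obtain ⟨v, -, rfl⟩ := hw
    exact hS v
  have hidx : (sqs (SU S)).index = 2 ^ S.card := by
    obtain ⟨-, -, h⟩ := hall
    rw [h, n4_ker, ← pow_add, ← pow_succ]
    congr 1
    omega
  refine ⟨?_, hidx⟩
  have hsub : (sqs Kˣ).subgroupOf (SU S) = sqs (SU S) := by
    ext x
    rw [Subgroup.mem_subgroupOf]
    constructor
    · rintro ⟨c, hc⟩
      have hcS : c ∈ SU S := by
        intro v hv
        have h1 := x.2 v hv
        have h2 : ((x : Kˣ) : K) = (c : K) ^ 2 := by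
          rw [← hc]; simp
        rw [h2, map_pow] at h1
        exact (pow_eq_one_iff_of_nonneg zero_le two_ne_zero).mp h1
      exact ⟨⟨c, hcS⟩, Subtype.ext hc⟩
    · rintro ⟨c, rfl⟩
      exact ⟨(c : Kˣ), rfl⟩
  rw [Subgroup.relIndex, hsub, hidx]

end Pool.Agent.QCF
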