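import Pool.Agent.QCF.St

/-!
# QCF [N5]

Quadratic extensions exist: the quadratic algebra `K[ω]`, `ω ^ 2 = a`.
-/

set_option autoImplicit false

namespace Pool.Agent.QCF

open HP7 IsDedekindDomain NumberField
open scoped WithZero

theorem thm_N5 : St_N5 := by
  intro K _ _ a ha
  have hfact : Fact (∀ r : K, r ^ 2 ≠ (a : K) + 0 * r) := by
    refine ⟨fun r hr => ha ⟨r, ?_⟩⟩
    rw [← sq, hr, zero_mul, add_zero]
  have hchar : CharZero (QuadraticAlgebra K (a : K) 0) :=
    charZero_of_injective_algebraMap
      (algebraMap K (QuadraticAlgebra K (a : K) 0)).injective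
  have hnf : NumberField (QuadraticAlgebra K (a : K) 0) :=
    NumberField.of_module_finite K (QuadraticAlgebra K (a : K) 0)
  refine ⟨QuadraticAlgebra K (a : K) 0, inferInstance, hnf, inferInstance, ⟨?_⟩⟩
  refine
    { ω := ⟨0, 1⟩
      sq := ?_
      nsq := ha
      repr := ?_
      σ := ?_
      hσ := ?_ }
  · rw [sq]
    ext <;> simp
  · intro z
    refine ⟨z.re, z.im, ?_⟩
    ext <;> simp
  · refine AlgEquiv.ofAlgHom
      { toFun := star
        map_one' := star_one _
        map_mul' := fun x y => by rw [star_mul, mul_comm]
        map_zero' := star_zero _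
        map_add' := fun x y => star_add x y
        commutes' := fun r => by ext <;> simp }
      { toFun := star
        map_one' := star_one _
        map_mul' := fun x y => by rw [star_mul, mul_comm]
        map_zero' := star_zero _
        map_add' := fun x y => star_add x y
        commutes' := fun r => by ext <;> simp } ?_ ?_
    · ext <;> simp
    · ext <;> simp
  · ext <;> simp

end Pool.Agent.QCF
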