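import Pool.Agent.QCF.St

/-!
# QCF [N6]
-/

set_option autoImplicit false

namespace Pool.Agent.QCF

open HP7 IsDedekindDomain NumberField
open scoped WithZero

section N6

variable {K L : Type} [Field K] [NumberField K] [Field L] [NumberField L] [Algebra K L]

omit [NumberField K] [NumberField L] in
private lemma n6_down {z : L} {k : K} (hk : algebraMap K L k = z) (hz : IsIntegral ℤ z) :
    ∃ t : 𝓞 K, (t : K) = k := by
  have h : IsIntegral ℤ k := by
    rw [← hk] at hz
    exact (isIntegral_algebraMap_iff (algebraMap K L).injective).1 hz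
  exact ⟨⟨k, h⟩, rfl⟩

private lemma n6_under (w : HeightOneSpectrum (𝓞 L)) (t : 𝓞 K) :
    t ∈ (w.under (𝓞 K)).asIdeal ↔ algebraMap (𝓞 K) (𝓞 L) t ∈ w.asIdeal := Iff.rfl

private lemma n6_alg (t : 𝓞 K) : ((algebraMap (𝓞 K) (𝓞 L) t : 𝓞 L) : L) =
    algebraMap K L (t : K) := rfl

variable {a : K} (q : QE K L a)

/-- the automorphism on the integers -/
private noncomputable def n6s : 𝓞 L ≃+* 𝓞 L :=
  RingOfIntegers.mapRingEquiv (q.σ : L ≃+* L)

private lemma n6s_coe (z : 𝓞 L) : ((n6s q z : 𝓞 L) : L) = q.σ (z : L) := rfl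

private lemma n6_sigma (x y : K) : q.σ (algebraMap K L x + algebraMap K L y * q.ω) =
    algebraMap K L x - algebraMap K L y * q.ω := by
  rw [map_add, map_mul, q.hσ, AlgEquiv.commutes, AlgEquiv.commutes]
  ring

private lemma n6_sigma2 (z : L) : q.σ (q.σ z) = z := by
  obtain ⟨x, y, rfl⟩ := q.repr z
  rw [n6_sigma, map_sub, map_mul, q.hσ, AlgEquiv.commutes, AlgEquiv.commutes]
  ring

private lemma n6s2 (z : 𝓞 L) : n6s q (n6s q z) = z := by
  apply RingOfIntegers.ext
  rw [n6s_coe, n6s_coe, n6_sigma2]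

/-- trace and norm of integers -/
private lemma n6_tn (z : 𝓞 L) : ∃ (t n : 𝓞 K) (x y : K),
    (z : L) = algebraMap K L x + algebraMap K L y * q.ω ∧
    algebraMap (𝓞 K) (𝓞 L) t = z + n6s q z ∧ algebraMap (𝓞 K) (𝓞 L) n = z * n6s q z ∧
    (t : K) = 2 * x ∧ (n : K) = x ^ 2 - a * y ^ 2 := by
  obtain ⟨x, y, hz⟩ := q.repr (z : L)
  have hs : ((n6s q z : 𝓞 L) : L) = algebraMap K L x - algebraMap K L y * q.ω := by
    rw [n6s_coe, hz, n6_sigma]
  have h1 : algebraMap K L (2 * x) = ((z + n6s q z : 𝓞 L) : L) := by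
    change algebraMap K L (2 * x) = (z : L) + ((n6s q z : 𝓞 L) : L)
    rw [hs, hz, map_mul, map_ofNat]
    ring
  have h2 : algebraMap K L (x ^ 2 - a * y ^ 2) = ((z * n6s q z : 𝓞 L) : L) := by
    change algebraMap K L (x ^ 2 - a * y ^ 2) = (z : L) * ((n6s q z : 𝓞 L) : L)
    rw [hs, hz, map_sub, map_pow, map_mul, map_pow, ← q.sq]
    ring
  obtain ⟨t, ht⟩ := n6_down h1 (RingOfIntegers.isIntegral_coe _)
  obtain ⟨n, hn⟩ := n6_down h2 (RingOfIntegers.isIntegral_coe _)
  refine ⟨t, n, x, y, hz, ?_, ?_, ht, hn⟩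
  · apply RingOfIntegers.ext
    rw [n6_alg, ht, h1]
  · apply RingOfIntegers.ext
    rw [n6_alg, hn, h2]

/-- the conjugate prime -/
private noncomputable def n6c (P : HeightOneSpectrum (𝓞 L)) : HeightOneSpectrum (𝓞 L) where
  asIdeal := P.asIdeal.comap (n6s q)
  isPrime := Ideal.comap_isPrime _ _
  ne_bot := by
    intro h
    obtain ⟨z, hz, hz0⟩ := Submodule.exists_mem_ne_zero_of_ne_bot P.ne_bot
    have h1 : n6s q z ∈ P.asIdeal.comap (n6s q) := by
      rw [Ideal.mem_comap, n6s2]
      exact hz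
    rw [h, Ideal.mem_bot] at h1
    apply hz0
    have h2 := n6s2 q z
    rw [h1, map_zero] at h2
    exact h2.symm

private lemma n6c_mem (P : HeightOneSpectrum (𝓞 L)) (z : 𝓞 L) :
    z ∈ (n6c q P).asIdeal ↔ n6s q z ∈ P.asIdeal := Iff.rfl

private lemma n6s_alg (t : 𝓞 K) : n6s q (algebraMap (𝓞 K) (𝓞 L) t) = algebraMap (𝓞 K) (𝓞 L) t := by
  apply RingOfIntegers.ext
  rw [n6s_coe, n6_alg]
  exact AlgEquiv.commutes _ _

private lemma n6c_under (P : HeightOneSpectrum (𝓞 L)) : (n6c q P).under (𝓞 K) = P.under (𝓞 K) := by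
  apply HeightOneSpectrum.ext
  ext t
  rw [n6_under, n6_under, n6c_mem, n6s_alg]

private lemma n6_eq_or (P Q : HeightOneSpectrum (𝓞 L)) (h : Q.under (𝓞 K) = P.under (𝓞 K)) :
    Q = P ∨ Q = n6c q P := by
  have hsub : (Q.asIdeal : Set (𝓞 L)) ⊆ (P.asIdeal : Set (𝓞 L)) ∪ ((n6c q P).asIdeal : Set (𝓞 L)) := by
    intro z hz
    obtain ⟨t, n, x, y, -, -, hn, -, -⟩ := n6_tn q z
    have h1 : n ∈ (Q.under (𝓞 K)).asIdeal := by
      rw [n6_under, hn]
      exact Ideal.mul_mem_right _ _ hz
    rw [h, n6_under, hn] at h1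
    rcases P.isPrime.mem_or_mem h1 with h2 | h2
    · exact Or.inl h2
    · exact Or.inr h2
  rcases Ideal.subset_union.1 hsub with h1 | h1
  · left
    exact HeightOneSpectrum.ext (Q.isMaximal.eq_of_le P.isPrime.ne_top h1)
  · right
    exact HeightOneSpectrum.ext (Q.isMaximal.eq_of_le (n6c q P).isPrime.ne_top h1)

private lemma n6_card (v : HeightOneSpectrum (𝓞 K)) :
    ∃ P : HeightOneSpectrum (𝓞 L), P.under (𝓞 K) = v ∧
      {w : HeightOneSpectrum (𝓞 L) | w.under (𝓞 K) = v} = {P, n6c q P} := by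
  obtain ⟨Q, hQ, hle⟩ := v.asIdeal.exists_ideal_over_prime_of_isIntegral_of_isDomain
    (S := 𝓞 L) (by simp)
  have hQ0 : Q ≠ ⊥ := by
    rintro rfl
    apply v.ne_bot
    rw [← hle]
    exact Ideal.comap_bot_of_injective _ (FaithfulSMul.algebraMap_injective (𝓞 K) (𝓞 L))
  refine ⟨⟨Q, hQ, hQ0⟩, HeightOneSpectrum.ext hle, ?_⟩
  have hP : (⟨Q, hQ, hQ0⟩ : HeightOneSpectrum (𝓞 L)).under (𝓞 K) = v := HeightOneSpectrum.ext hle
  ext w
  rw [Set.mem_ofPred_eq, Set.mem_insert_iff, Set.mem_singleton_iff]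
  constructor
  · intro hw
    exact n6_eq_or q _ w (by rw [hw, hP])
  · rintro (rfl | rfl)
    · exact hP
    · rw [n6c_under]
      exact hP

/-- a split prime: `a` is a local square -/
private lemma n6_split (hL1 : St_L1) (ha : a ≠ 0) (P : HeightOneSpectrum (𝓞 L)) (hP : n6c q P ≠ P) :
    LSq (Sum.inl (P.under (𝓞 K))) a := by
  have hex : ∃ z ∈ P.asIdeal, n6s q z ∉ P.asIdeal := by
    by_contra hcon
    push Not at hcon
    apply hP
    have hle : P.asIdeal ≤ (n6c q P).asIdeal := fun z hz => hcon z hz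
    exact (HeightOneSpectrum.ext (P.isMaximal.eq_of_le (n6c q P).isPrime.ne_top hle)).symm
  obtain ⟨z, hz, hsz⟩ := hex
  obtain ⟨t, n, x, y, hxy, ht, hn, ht2, hn2⟩ := n6_tn q z
  set v := P.under (𝓞 K) with hv
  have htv : t ∉ v.asIdeal := by
    rw [hv, n6_under, ht]
    intro h
    exact hsz ((Ideal.add_mem_iff_right _ hz).1 h)
  have hnv : n ∈ v.asIdeal := by
    rw [hv, n6_under, hn]
    exact Ideal.mul_mem_right _ _ hz
  have hvt : v.valuation K (t : K) = 1 := by
    refine le_antisymm (v.valuation_le_one t) (not_lt.1 fun h => htv ?_)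
    exact (v.valuation_lt_one_iff_mem t).1 h
  have hvn : v.valuation K (n : K) < 1 := (v.valuation_lt_one_iff_mem n).2 hnv
  have hy : y ≠ 0 := by
    rintro rfl
    have h1 : n6s q z = z := by
      apply RingOfIntegers.ext
      rw [n6s_coe, hxy, n6_sigma, map_zero, zero_mul, sub_zero, add_zero]
    rw [h1] at hsz
    exact hsz hz
  have ht0 : (t : K) ≠ 0 := by
    intro h
    rw [h, map_zero] at hvt
    exact zero_ne_one hvt
  have hval : ∀ k : K, (Valued.v (algebraMap K (v.adicCompletion K) k) : ℤᵐ⁰) = v.valuation K k :=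
    fun k => HeightOneSpectrum.valuedAdicCompletion_eq_valuation' (K := K) v k
  obtain ⟨s, hs⟩ := (hL1 K v).hensel (algebraMap K (v.adicCompletion K) (-(n : K) / (t : K) ^ 2)) (by
    rw [hval, map_div₀, Valuation.map_neg, map_pow, hvt, one_pow, div_one]
    exact hvn)
  refine ⟨algebraMap K (v.adicCompletion K) ((t : K) / (2 * y)) * s, ?_⟩
  have h4 : ((t : K) / (2 * y)) ^ 2 * (1 + 4 * (-(n : K) / (t : K) ^ 2)) = a := by
    have h5 : (t : K) ^ 2 - 4 * n = 4 * (a * y ^ 2) := by
      rw [ht2, hn2]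
      ring
    field_simp
    linear_combination h5
  rw [mul_pow, hs, ← map_pow, ← map_ofNat (algebraMap K (v.adicCompletion K)) 4, ← map_mul,
    ← map_one (algebraMap K (v.adicCompletion K)), ← map_add, ← map_mul, h4]

/-- a conjugation invariant prime has a conjugation invariant valuation -/
private lemma n6_inv (P : HeightOneSpectrum (𝓞 L)) (hP : n6c q P = P) (z : L) :
    P.valuation L (q.σ z) = P.valuation L z := by
  have hpow : ∀ (n : ℕ) (r : 𝓞 L), r ∈ P.asIdeal ^ n → n6s q r ∈ P.asIdeal ^ n := by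
    intro n r hr
    have h1 : P.asIdeal = P.asIdeal.map (n6s q : 𝓞 L →+* 𝓞 L) := by
      conv_lhs => rw [← hP]
      apply le_antisymm
      · intro r hr
        rw [n6c_mem] at hr
        rw [← n6s2 q r]
        exact Ideal.mem_map_of_mem (n6s q : 𝓞 L →+* 𝓞 L) hr
      · rw [Ideal.map_le_iff_le_comap]
        intro r hr
        rw [Ideal.mem_comap, n6c_mem]
        change n6s q (n6s q r) ∈ _
        rw [n6s2]
        exact hr
    rw [h1, ← Ideal.map_pow]
    exact Ideal.mem_map_of_mem (n6s q : 𝓞 L →+* 𝓞 L) hr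
  have hle : ∀ r : 𝓞 L, P.intValuation (n6s q r) ≤ P.intValuation r := by
    intro r
    rcases eq_or_ne r 0 with rfl | hr
    · rw [map_zero]
    rw [P.intValuation_eq_exp_neg_multiplicity hr]
    rw [P.intValuation_le_pow_iff_mem]
    apply hpow
    rw [← P.intValuation_le_pow_iff_mem, ← P.intValuation_eq_exp_neg_multiplicity hr]
  have heq : ∀ r : 𝓞 L, P.intValuation (n6s q r) = P.intValuation r := by
    intro r
    refine le_antisymm (hle r) ?_
    have := hle (n6s q r)
    rwa [n6s2] at this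
  obtain ⟨r, s, hs, rfl⟩ := IsFractionRing.div_surjective (A := 𝓞 L) z
  rw [map_div₀, map_div₀, map_div₀]
  have e1 : q.σ (algebraMap (𝓞 L) L r) = algebraMap (𝓞 L) L (n6s q r) := rfl
  have e2 : q.σ (algebraMap (𝓞 L) L s) = algebraMap (𝓞 L) L (n6s q s) := rfl
  rw [e1, e2, P.valuation_of_algebraMap, P.valuation_of_algebraMap, P.valuation_of_algebraMap,
    P.valuation_of_algebraMap, heq, heq]

/-- an invariant prime: `a` is not a local square -/
private lemma n6_inert (hL12 : St_L12) (a' : Kˣ) (haa : (a' : K) = a) (P : HeightOneSpectrum (𝓞 L))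
    (hP : n6c q P = P) : ¬ LSq (Sum.inl (P.under (𝓞 K))) a := by
  intro hsq
  have ha : a ≠ 0 := by rw [← haa]; exact a'.ne_zero
  rw [← haa] at hsq
  obtain ⟨x, hx⟩ := (hL12 K (P.under (𝓞 K)) a').1.1 hsq
  rw [haa] at hx
  set v := P.under (𝓞 K) with hv
  have : P.asIdeal.LiesOver v.asIdeal := ⟨rfl⟩
  set e := v.asIdeal.ramificationIdx' P.asIdeal with he
  have he0 : e ≠ 0 := Ideal.IsDedekindDomain.ramificationIdx'_ne_zero_of_liesOver P.asIdeal v.ne_bot
  have hval : ∀ k : K, v.valuation K k ^ e = P.valuation L (algebraMap K L k) :=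
    fun k => HeightOneSpectrum.valuation_liesOver L v P k
  have hlt : ∀ k l : K, v.valuation K k < v.valuation K l →
      P.valuation L (algebraMap K L k) < P.valuation L (algebraMap K L l) := by
    intro k l h
    rw [← hval, ← hval]
    exact pow_lt_pow_left₀ h zero_le he0
  have h4 : v.valuation K (4 * a) ≤ v.valuation K a := by
    rw [map_mul]
    calc v.valuation K 4 * v.valuation K a ≤ 1 * v.valuation K a := by
          gcongr
          have h1 : v.valuation K (algebraMap (𝓞 K) K 4) ≤ 1 := v.valuation_le_one 4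
          rwa [map_ofNat] at h1
      _ = _ := one_mul _
  -- `v (x ^ 2) = v a`
  have hxa : v.valuation K (x ^ 2) = v.valuation K a := by
    have h1 : x ^ 2 = a - (a - x ^ 2) := by ring
    rw [h1]
    exact Valuation.map_sub_eq_of_lt_left _ (hx.trans_le h4)
  have hA : P.valuation L (q.ω - algebraMap K L x) = P.valuation L (q.ω + algebraMap K L x) := by
    have h1 : q.σ (q.ω - algebraMap K L x) = -(q.ω + algebraMap K L x) := by
      rw [map_sub, q.hσ, AlgEquiv.commutes]
      ring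
    rw [← n6_inv q P hP (q.ω - algebraMap K L x), h1, Valuation.map_neg]
  have hprod : P.valuation L (q.ω - algebraMap K L x) * P.valuation L (q.ω + algebraMap K L x) =
      P.valuation L (algebraMap K L (a - x ^ 2)) := by
    rw [← map_mul]
    congr 1
    rw [map_sub, map_pow, ← q.sq]
    ring
  have h2x : P.valuation L (algebraMap K L (2 * x)) ≤ P.valuation L (q.ω - algebraMap K L x) := by
    have h1 : algebraMap K L (2 * x) = (q.ω + algebraMap K L x) - (q.ω - algebraMap K L x) := by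
      rw [map_mul, map_ofNat]
      ring
    rw [h1]
    refine (Valuation.map_sub _ _ _).trans (max_le hA.ge le_rfl)
  have h3 : P.valuation L (algebraMap K L (4 * x ^ 2)) ≤ P.valuation L (algebraMap K L (a - x ^ 2)) := by
    rw [← hprod, ← hA]
    have h1 : algebraMap K L (4 * x ^ 2) = algebraMap K L (2 * x) * algebraMap K L (2 * x) := by
      rw [← map_mul]
      congr 1
      ring
    rw [h1, map_mul]
    exact mul_le_mul' h2x h2x
  have h5 := hlt _ _ hx
  have h6 : P.valuation L (algebraMap K L (4 * x ^ 2)) = P.valuation L (algebraMap K L (4 * a)) := by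
    rw [← hval, ← hval, map_mul, map_mul, hxa]
  rw [h6] at h3
  exact absurd h5 (not_lt.2 h3)

end N6

theorem thm_N6 (hL1 : St_L1) (hL12 : St_L12) : St_N6 := by
  intro K L _ _ _ _ _ a q v
  obtain ⟨P, hP, hset⟩ := n6_card q v
  rw [hset]
  constructor
  · intro hsq
    rw [Set.ncard_pair]
    intro h
    apply n6_inert q hL12 a rfl P h.symm
    rw [hP]
    exact hsq
  · intro hsq
    have h : n6c q P = P := by
      by_contra hne
      apply hsq
      rw [← hP]
      exact n6_split q hL1 a.ne_zero P hne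
    rw [h, Set.pair_eq_singleton, Set.ncard_singleton]

end Pool.Agent.QCF
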