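import Pool.Agent.QCF.St

/-!
# QCF [N7]
-/

set_option autoImplicit false

namespace Pool.Agent.QCF

open HP7 IsDedekindDomain NumberField
open scoped WithZero

private theorem n7_ext {K L : Type} [Field K] [Field L] [Algebra K L] {a : K} (q : QE K L a)
    {f g : L →+* ℂ} (h : ∀ x : K, f (algebraMap K L x) = g (algebraMap K L x))
    (hω : f q.ω = g q.ω) : f = g := by
  ext z
  obtain ⟨x, y, rfl⟩ := q.repr z
  rw [map_add, map_add, map_mul, map_mul, h, h, hω]

theorem thm_N7 (hL13 : St_L13) : St_N7 := by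
  intro K L _ _ _ _ _ a q v
  obtain ⟨hcx, hre, -⟩ := hL13 K v a
  obtain ⟨φ, hφ⟩ : ∃ φ : K →+* ℂ, φ = v.embedding := ⟨_, rfl⟩
  have hvφ : v = InfinitePlace.mk φ := by rw [hφ, InfinitePlace.mk_embedding]
  rw [← hφ] at hre
  -- representatives of the places above `v`
  have hrep : ∀ w : InfinitePlace L, w.comap (algebraMap K L) = v →
      ∃ ψ : L →+* ℂ, w = InfinitePlace.mk ψ ∧ ∀ x, ψ (algebraMap K L x) = φ x := by
    intro w hw
    rw [← InfinitePlace.mk_embedding w, InfinitePlace.comap_mk, hvφ,
      InfinitePlace.mk_eq_iff] at hw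
    rcases hw with h | h
    · exact ⟨w.embedding, (InfinitePlace.mk_embedding w).symm, fun x => RingHom.congr_fun h x⟩
    · refine ⟨ComplexEmbedding.conjugate w.embedding, ?_, fun x => ?_⟩
      · rw [InfinitePlace.mk_conjugate_eq, InfinitePlace.mk_embedding]
      · exact RingHom.congr_fun h x
  obtain ⟨w0, hw0⟩ := InfinitePlace.comap_surjective (k := K) (K := L) v
  obtain ⟨ψ, -, hψ⟩ := hrep w0 hw0
  -- the other embedding
  obtain ⟨ψ', hψ'⟩ : ∃ ψ' : L →+* ℂ, ψ' = ψ.comp (q.σ : L →+* L) := ⟨_, rfl⟩
  have hψ'K : ∀ x, ψ' (algebraMap K L x) = φ x := by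
    intro x
    rw [hψ', RingHom.comp_apply]
    show ψ (q.σ (algebraMap K L x)) = φ x
    rw [AlgEquiv.commutes, hψ]
  have hψ'ω : ψ' q.ω = -ψ q.ω := by
    rw [hψ', RingHom.comp_apply]
    show ψ (q.σ q.ω) = -ψ q.ω
    rw [q.hσ, map_neg]
  have hsq : ψ q.ω ^ 2 = φ (a : K) := by
    rw [← map_pow, q.sq, hψ]
  have ha0 : φ (a : K) ≠ 0 := (map_ne_zero φ).2 a.ne_zero
  have hs0 : ψ q.ω ≠ 0 := by
    intro h
    rw [h, zero_pow two_ne_zero] at hsq
    exact ha0 hsq.symm
  have hset : {w : InfinitePlace L | w.comap (algebraMap K L) = v} =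
      {InfinitePlace.mk ψ, InfinitePlace.mk ψ'} := by
    ext w
    constructor
    · intro hw
      obtain ⟨θ, hθ, hθK⟩ := hrep w hw
      have h1 : θ q.ω ^ 2 = ψ q.ω ^ 2 := by
        rw [hsq, ← map_pow, q.sq, hθK]
      rcases sq_eq_sq_iff_eq_or_eq_neg.1 h1 with h2 | h2
      · left
        rw [hθ, n7_ext q (fun x => by rw [hθK, hψ]) h2]
      · right
        show w = InfinitePlace.mk ψ'
        rw [hθ, n7_ext q (f := θ) (g := ψ') (fun x => by rw [hθK, hψ'K]) (by rw [h2, hψ'ω])]
    · rintro (h | h)
      · show w.comap (algebraMap K L) = v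
        rw [h, InfinitePlace.comap_mk, hvφ]
        congr 1
        ext x
        exact hψ x
      · have h' : w = InfinitePlace.mk ψ' := h
        show w.comap (algebraMap K L) = v
        rw [h', InfinitePlace.comap_mk, hvφ]
        congr 1
        ext x
        exact hψ'K x
  rw [hset]
  -- when the two places agree
  have hne : ψ ≠ ψ' := by
    intro h
    have h1 : ψ q.ω = -ψ q.ω := by rw [← hψ'ω, ← h]
    exact hs0 (self_eq_neg.1 h1)
  constructor
  · intro hL
    refine Set.ncard_pair fun h => ?_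
    rw [InfinitePlace.mk_eq_iff] at h
    rcases h with h | h
    · exact hne h
    · -- then `v` is real
      have hr : v.IsReal := by
        rw [InfinitePlace.isReal_iff, ← hφ]
        ext x
        have h1 := RingHom.congr_fun h (algebraMap K L x)
        rw [ComplexEmbedding.conjugate_coe_eq, hψ, hψ'K] at h1
        exact h1
      have hpos := (hre hr).1 hL
      have h1 := RingHom.congr_fun h q.ω
      rw [ComplexEmbedding.conjugate_coe_eq, hψ'ω] at h1
      have h2 := congrArg Complex.re h1
      rw [Complex.conj_re, Complex.neg_re] at h2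
      have h3 : (ψ q.ω).re = 0 := by linarith
      have h4 := congrArg Complex.re hsq
      rw [sq, Complex.mul_re, h3] at h4
      nlinarith [mul_self_nonneg (ψ q.ω).im]
  · intro hL
    have hr : v.IsReal := by
      by_contra h
      exact hL (hcx (InfinitePlace.not_isReal_iff_isComplex.1 h))
    have hnp : ¬ 0 < (φ (a : K)).re := fun h => hL ((hre hr).2 h)
    have hφr : ∀ x, starRingEnd ℂ (φ x) = φ x := by
      intro x
      rw [InfinitePlace.isReal_iff, ← hφ] at hr
      exact RingHom.congr_fun hr x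
    have him : (φ (a : K)).im = 0 := Complex.conj_eq_iff_im.1 (hφr _)
    have hneg : (φ (a : K)).re < 0 := by
      refine lt_of_le_of_ne (not_lt.1 hnp) fun h => ha0 ?_
      exact Complex.ext h him
    have h1 := congrArg Complex.re hsq
    have h2 := congrArg Complex.im hsq
    rw [sq, Complex.mul_re] at h1
    rw [sq, Complex.mul_im, him] at h2
    have h3 : (ψ q.ω).re = 0 := by
      have h4 : (ψ q.ω).re * (ψ q.ω).im = 0 := by linarith
      rcases mul_eq_zero.1 h4 with h5 | h5
      · exact h5
      · exfalso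
        rw [h5] at h1
        nlinarith [mul_self_nonneg (ψ q.ω).re]
    have hconj : ComplexEmbedding.conjugate ψ = ψ' := by
      refine n7_ext q (fun x => ?_) ?_
      · rw [ComplexEmbedding.conjugate_coe_eq, hψ, hψ'K]
        exact hφr x
      · rw [ComplexEmbedding.conjugate_coe_eq, hψ'ω]
        apply Complex.ext
        · rw [Complex.conj_re, Complex.neg_re, h3, neg_zero]
        · rw [Complex.conj_im, Complex.neg_im]
    have heq : InfinitePlace.mk ψ = InfinitePlace.mk ψ' := by
      rw [InfinitePlace.mk_eq_iff]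
      exact Or.inr hconj
    rw [heq, Set.pair_eq_singleton, Set.ncard_singleton]

end Pool.Agent.QCF
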