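import Pool.Agent.QCF.St

/-!
# QCF [N8]
-/

set_option autoImplicit false

namespace Pool.Agent.QCF

open HP7 IsDedekindDomain NumberField
open scoped WithZero

section

variable {K L : Type} [Field K] [NumberField K] [Field L] [NumberField L] [Algebra K L]

theorem n8_inl (v : HeightOneSpectrum (𝓞 K)) :
    {u : Pl L | below K u = Sum.inl v} =
      Sum.inl '' {w : HeightOneSpectrum (𝓞 L) | w.under (𝓞 K) = v} := by
  ext u
  constructor
  · intro hu
    cases u with
    | inl w => exact ⟨w, Sum.inl_injective hu, rfl⟩
    | inr w => cases (show (Sum.inr (w.comap (algebraMap K L)) : Pl K) = Sum.inl v from hu)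
  · rintro ⟨w, hw, rfl⟩
    exact congrArg Sum.inl hw

theorem n8_inr (v : InfinitePlace K) :
    {u : Pl L | below K u = Sum.inr v} =
      Sum.inr '' {w : InfinitePlace L | w.comap (algebraMap K L) = v} := by
  ext u
  constructor
  · intro hu
    cases u with
    | inr w => exact ⟨w, Sum.inr_injective hu, rfl⟩
    | inl w => cases (show (Sum.inl (w.under (𝓞 K)) : Pl K) = Sum.inr v from hu)
  · rintro ⟨w, hw, rfl⟩
    exact congrArg Sum.inr hw

open Classical in
theorem n8_card (hN6 : St_N6) (hN7 : St_N7) (a : Kˣ) (q : QE K L (a : K)) (w : Pl K) :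
    {u : Pl L | below K u = w}.ncard = if LSq w (a : K) then 2 else 1 := by
  cases w with
  | inl v =>
    rw [n8_inl, Set.ncard_image_of_injective _ Sum.inl_injective]
    split_ifs with h
    · exact (hN6 K L a q v).1 h
    · exact (hN6 K L a q v).2 h
  | inr v =>
    rw [n8_inr, Set.ncard_image_of_injective _ Sum.inr_injective]
    split_ifs with h
    · exact (hN7 K L a q v).1 h
    · exact (hN7 K L a q v).2 h

end

theorem thm_N8 (hN6 : St_N6) (hN7 : St_N7) : St_N8 := by
  classical
  intro K L _ _ _ _ _ a q S
  have hc := fun w : Pl K => n8_card (L := L) hN6 hN7 a q w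
  have hfin : ∀ w : Pl K, {u : Pl L | below K u = w}.Finite := by
    intro w
    refine Set.finite_of_ncard_ne_zero ?_
    rw [hc w]
    split_ifs
    · exact two_ne_zero
    · exact one_ne_zero
  refine ⟨S.biUnion fun w => (hfin w).toFinset, ?_, ?_⟩
  · intro u
    rw [Finset.mem_biUnion]
    constructor
    · rintro ⟨w, hw, hu⟩
      have h1 : below K u = w := (hfin w).mem_toFinset.1 hu
      rw [h1]
      exact hw
    · intro hu
      exact ⟨below K u, hu, (hfin _).mem_toFinset.2 rfl⟩
  · have h1 : (S.biUnion fun w => (hfin w).toFinset).card =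
        ∑ w ∈ S, if LSq w (a : K) then 2 else 1 := by
      rw [Finset.card_biUnion]
      · refine Finset.sum_congr rfl fun w _ => ?_
        rw [← hc w, Set.ncard_eq_toFinset_card _ (hfin w)]
      · intro w _ w' _ hww
        refine Finset.disjoint_left.2 ?_
        intro u hu hu'
        have e1 : below K u = w := (hfin w).mem_toFinset.1 hu
        have e2 : below K u = w' := (hfin w').mem_toFinset.1 hu'
        exact hww (e1.symm.trans e2)
    have h2 : ns S (a : K) = ∑ w ∈ S, if ¬ LSq w (a : K) then 1 else 0 := by
      unfold ns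
      rw [Finset.card_filter]
    rw [h1, h2, ← Finset.sum_add_distrib]
    rw [Finset.sum_congr rfl (g := fun _ => 2)]
    · rw [Finset.sum_const, smul_eq_mul, mul_comm]
    · intro w _
      by_cases h : LSq w (a : K)
      · rw [if_pos h, if_neg (not_not.2 h)]
      · rw [if_neg h, if_pos h]

end Pool.Agent.QCF
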