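import Pool.Agent.QCF.St

/-!
# QCF [N9]
-/

set_option autoImplicit false

namespace Pool.Agent.QCF

open HP7 IsDedekindDomain NumberField
open scoped WithZero

/-- valuations and isomorphisms -/
theorem n9_comp {A B K L : Type} [CommRing A] [IsDedekindDomain A] [CommRing B]
    [IsDedekindDomain B] [Field K] [Field L] [Algebra A K] [IsFractionRing A K] [Algebra B L]
    [IsFractionRing B L] (f : A →+* B) (hf : Function.Injective f) (g : K →+* L)
    (h : ∀ x, g (algebraMap A K x) = algebraMap B L (f x)) (w : HeightOneSpectrum B)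
    (v : HeightOneSpectrum A) (hv : v.asIdeal = w.asIdeal.comap f) :
    ∃ e : ℕ, e ≠ 0 ∧ ∀ x, v.valuation K x ^ e = w.valuation L (g x) := by
  let _ : Algebra A B := f.toAlgebra
  let _ : Algebra K L := g.toAlgebra
  let _ : Algebra A L := (g.comp (algebraMap A K)).toAlgebra
  have : IsScalarTower A K L := IsScalarTower.of_algebraMap_eq fun x => rfl
  have : IsScalarTower A B L := IsScalarTower.of_algebraMap_eq fun x => h x
  have : FaithfulSMul A B := (faithfulSMul_iff_algebraMap_injective A B).2 hf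
  have : Module.IsTorsionFree A B := inferInstance
  have : w.asIdeal.LiesOver v.asIdeal := ⟨hv⟩
  exact ⟨v.asIdeal.ramificationIdx' w.asIdeal,
    Ideal.IsDedekindDomain.ramificationIdx'_ne_zero_of_liesOver w.asIdeal v.ne_bot,
    fun x => HeightOneSpectrum.valuation_liesOver L v w x⟩

theorem n9_pow_le {x : ℤᵐ⁰} {e : ℕ} (he : e ≠ 0) (h : x ^ e ≤ 1) : x ≤ 1 := by
  by_contra hcon
  exact absurd (one_lt_pow₀ (not_le.1 hcon) he) (not_lt.2 h)

theorem n9_pow_eq {x : ℤᵐ⁰} {e : ℕ} (he : e ≠ 0) (h : x ^ e = 1) : x = 1 := by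
  refine le_antisymm (n9_pow_le he h.le) ?_
  by_contra hcon
  exact absurd (pow_lt_one₀ zero_le (not_le.1 hcon) he) (not_lt.2 h.ge)

section

variable {K L : Type} [Field K] [NumberField K] [Field L] [NumberField L] [Algebra K L]

theorem n9_under (w : HeightOneSpectrum (𝓞 L)) : ∃ e : ℕ, e ≠ 0 ∧
    ∀ x : K, (w.under (𝓞 K)).valuation K x ^ e = w.valuation L (algebraMap K L x) :=
  n9_comp (algebraMap (𝓞 K) (𝓞 L)) (FaithfulSMul.algebraMap_injective _ _) (algebraMap K L)
    (fun _ => rfl) w (w.under (𝓞 K)) rfl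

/-- conjugate places -/
theorem n9_conj (σ : L ≃ₐ[K] L) (w : HeightOneSpectrum (𝓞 L)) :
    ∃ w' : HeightOneSpectrum (𝓞 L), w'.under (𝓞 K) = w.under (𝓞 K) ∧
      ∃ e : ℕ, e ≠ 0 ∧ ∀ x : L, w'.valuation L x ^ e = w.valuation L (σ x) := by
  let f : 𝓞 L ≃ₐ[𝓞 K] 𝓞 L := RingOfIntegers.mapAlgEquiv σ
  refine ⟨HeightOneSpectrum.comap f.toRingHom f.surjective w, ?_,
    n9_comp f.toRingHom f.injective (σ : L →+* L) (fun _ => rfl) w _ rfl⟩
  ext x
  change f (algebraMap (𝓞 K) (𝓞 L) x) ∈ w.asIdeal ↔ algebraMap (𝓞 K) (𝓞 L) x ∈ w.asIdeal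
  rw [f.commutes]

theorem n9_exists (v : HeightOneSpectrum (𝓞 K)) : ∃ w : HeightOneSpectrum (𝓞 L),
    w.under (𝓞 K) = v := by
  obtain ⟨P, hP, hPv⟩ := Ideal.exists_maximal_ideal_liesOver_of_isIntegral (S := 𝓞 L) v.asIdeal
  refine ⟨⟨P, hP.isPrime, Ideal.ne_bot_of_liesOver_of_ne_bot v.ne_bot P⟩, ?_⟩
  ext x
  change x ∈ P.under (𝓞 K) ↔ x ∈ v.asIdeal
  rw [← hPv.over]

end

theorem thm_N9 : St_N9 := by
  intro K L _ _ _ _ _ a q S S' hS ha hS' z
  have hconj : ∀ x y : K, (algebraMap K L x + algebraMap K L y * q.ω) *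
      (algebraMap K L x - algebraMap K L y * q.ω) =
        algebraMap K L (x ^ 2 - (a : K) * y ^ 2) := by
    intro x y
    rw [map_sub, map_mul, map_pow, map_pow, ← q.sq]
    ring
  have hω : ∀ w : HeightOneSpectrum (𝓞 L), Sum.inl (w.under (𝓞 K)) ∉ S →
      w.valuation L q.ω = 1 := by
    intro w hw
    obtain ⟨e, he, h⟩ := n9_under (K := K) w
    have h1 := h (a : K)
    rw [ha _ hw, one_pow, ← q.sq, map_pow] at h1
    exact n9_pow_eq two_ne_zero h1.symm
  constructor
  · intro hz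
    obtain ⟨x, y, hxy⟩ := q.repr z
    refine ⟨x, y, hxy, fun v hv => ?_⟩
    obtain ⟨w, rfl⟩ := n9_exists (L := L) v
    obtain ⟨e, he, h⟩ := n9_under (K := K) w
    have hz1 : ∀ w' : HeightOneSpectrum (𝓞 L), w'.under (𝓞 K) = w.under (𝓞 K) →
        w'.valuation L (z : L) = 1 := by
      intro w' hw'
      refine hz w' fun hmem => hv ?_
      have h1 := (hS' _).1 hmem
      rw [← hw']
      exact h1
    have hz2 : w.valuation L (z : L) = 1 := hz1 w rfl
    have hz3 : w.valuation L (q.σ (z : L)) = 1 := by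
      obtain ⟨w', hw', e', he', h'⟩ := n9_conj q.σ w
      rw [← h', hz1 w' hw', one_pow]
    have hσ : q.σ (z : L) = algebraMap K L x - algebraMap K L y * q.ω := by
      rw [hxy, map_add, map_mul, q.σ.commutes, q.σ.commutes, q.hσ]
      ring
    have h2 : (w.under (𝓞 K)).valuation K (2 : K) = 1 := hS.2.1 _ hv
    have h2x : (w.under (𝓞 K)).valuation K (2 * x) ≤ 1 := by
      refine n9_pow_le he ?_
      rw [h]
      have h3 : algebraMap K L (2 * x) = (z : L) + q.σ (z : L) := by
        rw [hσ, hxy, map_mul, map_ofNat]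
        ring
      rw [h3]
      exact (Valuation.map_add _ _ _).trans (max_le hz2.le hz3.le)
    have h2y : (w.under (𝓞 K)).valuation K (2 * y) ≤ 1 := by
      refine n9_pow_le he ?_
      rw [h]
      have h3 : algebraMap K L (2 * y) * q.ω = (z : L) - q.σ (z : L) := by
        rw [hσ, hxy, map_mul, map_ofNat]
        ring
      have h4 : w.valuation L (algebraMap K L (2 * y)) =
          w.valuation L (algebraMap K L (2 * y) * q.ω) := by
        rw [(w.valuation L).map_mul _ q.ω, hω w hv, mul_one]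
      rw [h4, h3]
      exact (Valuation.map_sub _ _ _).trans (max_le hz2.le hz3.le)
    rw [map_mul, h2, one_mul] at h2x h2y
    refine ⟨h2x, h2y, n9_pow_eq he ?_⟩
    rw [h, ← hconj, map_mul, ← hxy, ← hσ, hz2, hz3, one_mul]
  · rintro ⟨x, y, hxy, hv⟩ w hw
    have hw' : Sum.inl (w.under (𝓞 K)) ∉ S := fun hmem => hw ((hS' _).2 hmem)
    obtain ⟨hx, hy, hn⟩ := hv _ hw'
    obtain ⟨e, he, h⟩ := n9_under (K := K) w
    have hx' : w.valuation L (algebraMap K L x) ≤ 1 := by
      rw [← h]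
      exact pow_le_one₀ zero_le hx
    have hy' : w.valuation L (algebraMap K L y * q.ω) ≤ 1 := by
      rw [map_mul, hω w hw', mul_one, ← h]
      exact pow_le_one₀ zero_le hy
    have h1 : w.valuation L (z : L) ≤ 1 := by
      rw [hxy]
      exact (Valuation.map_add _ _ _).trans (max_le hx' hy')
    have h2 : w.valuation L (algebraMap K L x - algebraMap K L y * q.ω) ≤ 1 :=
      (Valuation.map_sub _ _ _).trans (max_le hx' hy')
    have h3 : w.valuation L (z : L) *
        w.valuation L (algebraMap K L x - algebraMap K L y * q.ω) = 1 := by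
      rw [hxy, ← map_mul, hconj, ← h, hn, one_pow]
    refine le_antisymm h1 ?_
    rw [← h3]
    exact mul_le_of_le_one_right' h2

end Pool.Agent.QCF
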