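import Pool.Agent.QCF.G1
import Pool.Agent.QCF.G2
import Pool.Agent.QCF.G3
import Pool.Agent.QCF.G4
import Pool.Agent.QCF.G5
import Pool.Agent.QCF.L1
import Pool.Agent.QCF.L2
import Pool.Agent.QCF.L3
import Pool.Agent.QCF.L4
import Pool.Agent.QCF.L5
import Pool.Agent.QCF.L6
import Pool.Agent.QCF.L7
import Pool.Agent.QCF.L8
import Pool.Agent.QCF.L9
import Pool.Agent.QCF.L10
import Pool.Agent.QCF.L11
import Pool.Agent.QCF.L12
import Pool.Agent.QCF.L13
import Pool.Agent.QCF.L14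
import Pool.Agent.QCF.L15
import Pool.Agent.QCF.L16
import Pool.Agent.QCF.L17
import Pool.Agent.QCF.L18
import Pool.Agent.QCF.L19
import Pool.Agent.QCF.L20
import Pool.Agent.QCF.L21
import Pool.Agent.QCF.N1
import Pool.Agent.QCF.N2
import Pool.Agent.QCF.N3
import Pool.Agent.QCF.N4
import Pool.Agent.QCF.N5
import Pool.Agent.QCF.N6
import Pool.Agent.QCF.N7
import Pool.Agent.QCF.N8
import Pool.Agent.QCF.N9
import Pool.Agent.QCF.N10
import Pool.Agent.QCF.N11
import Pool.Agent.QCF.N12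
import Pool.Agent.QCF.D1
import Pool.Agent.QCF.D2
import Pool.Agent.QCF.D3
import Pool.Agent.QCF.D4
import Pool.Agent.QCF.D5
import Pool.Agent.QCF.D6
import Pool.Agent.QCF.D7
import Pool.Agent.QCF.D8
import Pool.Agent.QCF.D9
import Pool.Agent.QCF.D10
import Pool.Agent.QCF.D11
import Pool.Agent.QCF.D12
import Pool.Agent.QCF.D13
import Pool.Agent.QCF.D14
import Pool.Agent.QCF.D15
import Pool.Agent.QCF.D16
import Pool.Agent.QCF.M1
import Pool.Agent.QCF.M2
import Pool.Agent.QCF.M3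
import Pool.Agent.QCF.M4

/-!
# QCF: assembly
-/

set_option autoImplicit false

namespace Pool.Agent.QCF

theorem st_G1 : St_G1 := thm_G1
theorem st_G2 : St_G2 := thm_G2
theorem st_G3 : St_G3 := thm_G3
theorem st_G4 : St_G4 := thm_G4
theorem st_G5 : St_G5 := thm_G5
theorem st_L1 : St_L1 := thm_L1
theorem st_L2 : St_L2 := thm_L2
theorem st_L3 : St_L3 := thm_L3
theorem st_L4 : St_L4 := thm_L4 st_G1 st_G2 st_L2 st_L3
theorem st_L5 : St_L5 := thm_L5
theorem st_L6 : St_L6 := thm_L6 st_L3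
theorem st_L7 : St_L7 := thm_L7
theorem st_L8 : St_L8 := thm_L8 st_L7
theorem st_L9 : St_L9 := thm_L9 st_G1 st_G2 st_L2 st_L5 st_L6 st_L8
theorem st_L10 : St_L10 := thm_L10 st_G3 st_L4 st_L9
theorem st_L11 : St_L11 := thm_L11 st_L1
theorem st_L12 : St_L12 := thm_L12 st_L1
theorem st_L13 : St_L13 := thm_L13
theorem st_L14 : St_L14 := thm_L14 st_L1 st_L4 st_L11 st_L13
theorem st_L15 : St_L15 := thm_L15 st_L14
theorem st_L16 : St_L16 := thm_L16 st_L1 st_L10 st_L11 st_L13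
theorem st_L17 : St_L17 := thm_L17 st_L16
theorem st_L18 : St_L18 := thm_L18 st_L12
theorem st_L19 : St_L19 := thm_L19 st_L17 st_L18
theorem st_L20 : St_L20 := thm_L20 st_L12 st_L13
theorem st_L21 : St_L21 := thm_L21 st_L12 st_L13
theorem st_N1 : St_N1 := thm_N1
theorem st_N2 : St_N2 := thm_N2 st_G1 st_G2
theorem st_N3 : St_N3 := thm_N3 st_G1 st_G2
theorem st_N4 : St_N4 := thm_N4 st_G1 st_N2 st_N3
theorem st_N5 : St_N5 := thm_N5
theorem st_N6 : St_N6 := thm_N6 st_L1 st_L12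
theorem st_N7 : St_N7 := thm_N7 st_L13
theorem st_N8 : St_N8 := thm_N8 st_N6 st_N7
theorem st_N9 : St_N9 := thm_N9
theorem st_N10 : St_N10 := thm_N10
theorem st_N11 : St_N11 := thm_N11 st_N9 st_N10
theorem st_N12 : St_N12 := thm_N12 st_G3 st_N4 st_N5 st_N8 st_N9 st_N11
theorem st_D1 : St_D1 := thm_D1 st_G4 st_L17 st_N12
theorem st_D2 : St_D2 := thm_D2 st_D1
theorem st_D3 : St_D3 := thm_D3 st_D1 st_L17 st_L20 st_N1
theorem st_D4 : St_D4 := thm_D4 st_G5 st_N4 st_L19 st_D3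
theorem st_D5 : St_D5 := thm_D5 st_D1 st_L17 st_L19
theorem st_D6 : St_D6 := thm_D6 st_D5 st_N4 st_L15
theorem st_D7 : St_D7 := thm_D7 st_D1 st_L17 st_L19
theorem st_D8 : St_D8 := thm_D8 st_D1 st_D6 st_L17 st_L19
theorem st_D9 : St_D9 := thm_D9 st_D7 st_D8 st_L17 st_L19
theorem st_D10 : St_D10 := thm_D10 st_D5 st_D6 st_D9 st_L17
theorem st_D11 : St_D11 := thm_D11 st_D4 st_D10 st_L19
theorem st_D12 : St_D12 := thm_D12 st_D2 st_L21
theorem st_D13 : St_D13 := thm_D13 st_D4 st_D6 st_D10 st_D12 st_L17 st_L19 st_N10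
theorem st_D14 : St_D14 := thm_D14 st_N1 st_N8
theorem st_D15 : St_D15 := thm_D15 st_D13 st_D14 st_G4 st_L17 st_N5
theorem st_D16 : St_D16 := thm_D16 st_D15 st_N12 st_L17

/-- Hasse norm theorem -/
theorem hNT : HP7.St_HNT := thm_M1 st_D16 st_L17 st_N1

/-- Hilbert reciprocity -/
theorem recip : HP7.St_Recip := thm_M2 st_D11 st_L17 st_L19 st_N1

/-- existence with prescribed symbols -/
theorem exist : HP7.St_Exist := thm_M3 st_D15 st_L17

/-- global square theorem -/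
theorem globalSquare : HP7.St_GlobalSquare := thm_M4 st_D3

end Pool.Agent.QCF
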