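import Pool.Agent.QCF.St

/-!
# QCF [G1]
-/

set_option autoImplicit false

namespace Pool.Agent.QCF

open HP7 IsDedekindDomain NumberField
open scoped WithZero

theorem thm_G1 : St_G1 := by
  intro G _ H m n hH hQ
  obtain ⟨hm0, hHf, hHi⟩ := hH
  obtain ⟨hn0, hQf, hQi⟩ := hQ
  set f : G →* G := powMonoidHom 2 with hf
  set π : G →* G ⧸ H := QuotientGroup.mk' H with hπ
  have hπs : Function.Surjective π := QuotientGroup.mk'_surjective H
  set KH : Subgroup H := (powMonoidHom 2 : H →* H).ker with hKH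
  set KQ : Subgroup (G ⧸ H) := (powMonoidHom 2 : (G ⧸ H) →* (G ⧸ H)).ker with hKQ
  set T : Subgroup G := KQ.comap π with hT
  have hmemT : ∀ g : G, g ∈ T ↔ g ^ 2 ∈ H := by
    intro g
    change (π g) ^ 2 = 1 ↔ _
    rw [← map_pow]
    exact QuotientGroup.eq_one_iff (g ^ 2)
  have hHT : H ≤ T := fun h hh => (hmemT h).mpr (pow_mem hh 2)
  have hKT : f.ker ≤ T := by
    intro g hg
    refine (hmemT g).mpr ?_
    have : g ^ 2 = 1 := hg
    rw [this]
    exact one_mem _
  have hkerπ : π.ker = H := QuotientGroup.ker_mk' H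
  -- card of KQ
  have h1 : H.relIndex T = Nat.card KQ := by
    have h := Subgroup.relIndex_ker T π
    rw [hkerπ] at h
    rw [h, hT, Subgroup.map_comap_eq_self_of_surjective hπs]
  -- the images under squaring
  have hTf : T.map f = f.range ⊓ H := by
    ext x
    constructor
    · rintro ⟨g, hg, rfl⟩
      exact ⟨⟨g, rfl⟩, (hmemT g).mp hg⟩
    · rintro ⟨⟨g, rfl⟩, hx⟩
      exact ⟨g, (hmemT g).mpr hx, rfl⟩
  have h2 : (H.map f).relIndex (f.range ⊓ H) = (H ⊔ f.ker).relIndex T := by
    have h := Subgroup.relIndex_map_map f H T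
    rw [hTf] at h
    rw [h, sup_eq_left.mpr hKT]
  have h3 : H.relIndex f.ker * (H ⊔ f.ker).relIndex T = Nat.card KQ := by
    rw [← h1, ← Subgroup.relIndex_sup_left f.ker H]
    exact Subgroup.relIndex_mul_relIndex _ _ _ le_sup_left (sup_le hHT hKT)
  -- card of the kernel of squaring on H
  have h4 : Nat.card KH * H.relIndex f.ker = Nat.card f.ker := by
    have h := Subgroup.card_mul_index (H.subgroupOf f.ker)
    have e : Nat.card (H.subgroupOf f.ker) = Nat.card KH := by
      refine Nat.card_congr ⟨fun x => ⟨⟨x.1.1, x.2⟩, ?_⟩, fun y => ⟨⟨y.1.1, ?_⟩, y.1.2⟩,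
        fun x => rfl, fun y => rfl⟩
      · have h5 : (x.1.1 : G) ^ 2 = 1 := x.1.2
        exact Subtype.ext h5
      · have h5 : (y.1 : H) ^ 2 = 1 := y.2
        exact congrArg (fun z : H => (z : G)) h5
    rw [e] at h
    exact h
  have hKQ0 : Nat.card KQ ≠ 0 := by
    have : Finite KQ := hQf
    exact Nat.card_pos.ne'
  have hKH0 : Nat.card KH ≠ 0 := by
    have : Finite KH := hHf
    exact Nat.card_pos.ne'
  have hr0 : H.relIndex f.ker ≠ 0 := left_ne_zero_of_mul (h3.symm ▸ hKQ0)
  have hK0 : Nat.card f.ker ≠ 0 := by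
    rw [← h4]
    exact mul_ne_zero hKH0 hr0
  have hfin : Finite f.ker := Nat.finite_of_card_ne_zero hK0
  refine ⟨mul_ne_zero hm0 hn0, hfin, ?_⟩
  change f.range.index = m * n * Nat.card f.ker
  -- index of the squares of the quotient
  have h6 : (H ⊔ f.range).index = n * Nat.card KQ := by
    rw [← hQi]
    have e : (sqs (G ⧸ H)).comap π = H ⊔ f.range := by
      ext x
      constructor
      · rintro ⟨c, hc⟩
        obtain ⟨g, rfl⟩ := hπs c
        have h7 : π (x * (g ^ 2)⁻¹) = 1 := by
          rw [map_mul, map_inv, map_pow]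
          have : (π g) ^ 2 = π x := hc
          rw [this, mul_inv_cancel]
        have h8 : x * (g ^ 2)⁻¹ ∈ H := (QuotientGroup.eq_one_iff _).mp h7
        have h9 : x = (x * (g ^ 2)⁻¹) * g ^ 2 := by rw [inv_mul_cancel_right]
        rw [h9]
        exact mul_mem (Subgroup.mem_sup_left h8) (Subgroup.mem_sup_right ⟨g, rfl⟩)
      · intro hx
        have hle : H ⊔ f.range ≤ (sqs (G ⧸ H)).comap π := by
          refine sup_le (fun h hh => ?_) ?_
          · have : π h = 1 := (QuotientGroup.eq_one_iff h).mpr hh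
            change π h ∈ sqs (G ⧸ H)
            rw [this]
            exact one_mem _
          · rintro _ ⟨g, rfl⟩
            exact ⟨π g, (map_pow π g 2).symm⟩
        exact hle hx
    rw [← e]
    exact Subgroup.index_comap_of_surjective _ hπs
  have h7 : f.range.index = f.range.relIndex H * (n * Nat.card KQ) := by
    rw [← h6, ← Subgroup.relIndex_mul_index (le_sup_right : f.range ≤ H ⊔ f.range),
      Subgroup.relIndex_sup_right]
  have h8 : (H.map f).relIndex (f.range ⊓ H) * f.range.relIndex H = m * Nat.card KH := by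
    rw [← hHi, ← Subgroup.inf_relIndex_right f.range H,
      Subgroup.relIndex_mul_relIndex (H.map f) (f.range ⊓ H) H ?_ inf_le_right]
    · change ((H.map f).subgroupOf H).index = _
      congr 1
      ext x
      constructor
      · rintro ⟨h, hh, he⟩
        exact ⟨⟨h, hh⟩, Subtype.ext he⟩
      · rintro ⟨c, hc⟩
        exact ⟨c.1, c.2, congrArg (fun z : H => (z : G)) hc⟩
    · rw [← hTf]
      exact Subgroup.map_mono hHT
  rw [h2] at h8
  set d := (H ⊔ f.ker).relIndex T with hd
  set r := f.range.relIndex H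
  have hd0 : d ≠ 0 := right_ne_zero_of_mul (h3.symm ▸ hKQ0)
  rw [h7]
  refine Nat.eq_of_mul_eq_mul_left (Nat.pos_of_ne_zero hd0) ?_
  calc d * (r * (n * Nat.card KQ)) = (d * r) * (n * Nat.card KQ) := by ring
    _ = m * Nat.card KH * (n * (H.relIndex f.ker * d)) := by rw [h8, h3]
    _ = d * (m * n * (Nat.card KH * H.relIndex f.ker)) := by ring
    _ = d * (m * n * Nat.card f.ker) := by rw [h4]

end Pool.Agent.QCF
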