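import Pool.Agent.QCF.St

/-!
# QCF [L14]

The index of the local squares in the multiplicative group of the number field.
-/

set_option autoImplicit false

namespace Pool.Agent.QCF

open HP7 IsDedekindDomain NumberField
open scoped WithZero

private theorem L14_re_ne {K : Type} [Field K] [NumberField K] (w : InfinitePlace K)
    (hw : w.IsReal) (a : Kˣ) : (w.embedding (a : K)).re ≠ 0 := by
  rw [← InfinitePlace.embedding_of_isReal_apply hw, Complex.ofReal_re]
  intro h
  exact a.ne_zero ((map_eq_zero _).1 h)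

private theorem L14_fin (hL1 : St_L1) (hL4 : St_L4) (hL11 : St_L11) {K : Type} [Field K]
    [NumberField K] (v : HeightOneSpectrum (𝓞 K)) (e : ℕ)
    (he : v.valuation K (2 : K) = WithZero.exp (-(e : ℤ))) :
    (SqG (Sum.inl v : Pl K)).index = 4 * (Ideal.absNorm v.asIdeal) ^ e := by
  have hLF := hL1 K v
  have h2 : (Valued.v : Valuation (v.adicCompletion K) ℤᵐ⁰) 2 = WithZero.exp (-(e : ℤ)) := by
    rw [← he, ← map_ofNat (algebraMap K (v.adicCompletion K)) 2]
    exact HeightOneSpectrum.valuedAdicCompletion_eq_valuation' v 2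
  obtain ⟨-, hidx⟩ := hL4 _ _ _ e hLF h2
  let f : Kˣ →* (v.adicCompletion K)ˣ ⧸ sqs (v.adicCompletion K)ˣ :=
    (QuotientGroup.mk' (sqs (v.adicCompletion K)ˣ)).comp
      (Units.map (algebraMap K (v.adicCompletion K)).toMonoidHom)
  have hker : SqG (Sum.inl v : Pl K) = f.ker := by
    ext a
    rw [mem_SqG, MonoidHom.mem_ker]
    change _ ↔ (QuotientGroup.mk' (sqs (v.adicCompletion K)ˣ))
      (Units.map (algebraMap K (v.adicCompletion K)).toMonoidHom a) = 1
    rw [QuotientGroup.mk'_apply, QuotientGroup.eq_one_iff, mem_sqs]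
    constructor
    · rintro ⟨x, hx⟩
      have hx0 : x ≠ 0 := by
        rintro rfl
        rw [zero_pow two_ne_zero] at hx
        exact a.ne_zero ((map_eq_zero _).1 hx.symm)
      refine ⟨Units.mk0 x hx0, Units.ext ?_⟩
      exact hx
    · rintro ⟨c, hc⟩
      refine ⟨(c : v.adicCompletion K), ?_⟩
      exact congrArg (Units.val) hc
  have hsurj : Function.Surjective f := by
    intro q
    obtain ⟨x, rfl⟩ := QuotientGroup.mk_surjective q
    obtain ⟨a, y, hy, hxy⟩ := hL11 K v (x : v.adicCompletion K) x.ne_zero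
    refine ⟨a, ?_⟩
    change (QuotientGroup.mk (Units.map (algebraMap K (v.adicCompletion K)).toMonoidHom a) :
      (v.adicCompletion K)ˣ ⧸ sqs (v.adicCompletion K)ˣ) = QuotientGroup.mk x
    rw [QuotientGroup.eq, mem_sqs]
    refine ⟨Units.mk0 y hy, ?_⟩
    rw [eq_inv_mul_iff_mul_eq]
    exact Units.ext hxy.symm
  rw [hker, Subgroup.index_ker, MonoidHom.range_eq_top.2 hsurj, Nat.card_congr
    (Subgroup.topEquiv.toEquiv)]
  exact hidx

theorem thm_L14 (hL1 : St_L1) (hL4 : St_L4) (hL11 : St_L11) (hL13 : St_L13) : St_L14 := by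
  intro K _ _
  refine ⟨fun v e he => L14_fin hL1 hL4 hL11 v e he, fun w hw => ?_, fun w hw => ?_⟩
  · rw [Subgroup.index_eq_two_iff]
    refine ⟨-1, fun b => ?_⟩
    rw [mem_SqG, mem_SqG, (hL13 K w b).2.1 hw, (hL13 K w (b * -1)).2.1 hw]
    have hb := L14_re_ne w hw b
    have h1 : (w.embedding ((b * -1 : Kˣ) : K)).re = -(w.embedding (b : K)).re := by
      simp
    rw [h1]
    rcases lt_or_gt_of_ne hb with h | h
    · exact Or.inl ⟨by linarith, by linarith⟩
    · exact Or.inr ⟨by linarith, by linarith⟩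
  · rw [Subgroup.index_eq_one, eq_top_iff]
    intro a _
    rw [mem_SqG]
    exact (hL13 K w a).1 hw

end Pool.Agent.QCF
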