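import Pool.Agent.QCF.St

/-!
# QCF [M3]: existence with prescribed symbols
-/

set_option autoImplicit false

namespace Pool.Agent.QCF

open HP7 IsDedekindDomain NumberField
open scoped WithZero

theorem sgn_eq_one_iff_M3 {K : Type} [Field K] [NumberField K] (w : Pl K) (a b : Kˣ) :
    sgn w a b = 1 ↔ LNm w (a : K) (b : K) := by
  unfold sgn
  split_ifs with h
  · exact ⟨fun _ => h, fun _ => rfl⟩
  · exact ⟨fun h1 => absurd h1 (by decide), fun h1 => absurd h1 h⟩

theorem sgn_eq_neg_one_iff_M3 {K : Type} [Field K] [NumberField K] (w : Pl K) (a b : Kˣ) :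
    sgn w a b = -1 ↔ ¬ LNm w (a : K) (b : K) := by
  unfold sgn
  split_ifs with h
  · exact ⟨fun h1 => absurd h1 (by decide), fun h1 => absurd h h1⟩
  · exact ⟨fun _ => h, fun _ => rfl⟩

open Classical in
/-- the product of signs -/
theorem prod_sgn_even_M3 {ι : Type} (S : Finset ι) (P : ι → Prop) :
    (∏ w ∈ S, (if P w then (1 : ℤˣ) else -1)) = 1 ↔ Even (S.filter fun w => ¬ P w).card := by
  rw [Finset.prod_ite, Finset.prod_const_one, one_mul, Finset.prod_const]
  constructor
  · intro h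
    by_contra hodd
    rw [Nat.not_even_iff_odd] at hodd
    rw [hodd.neg_one_pow] at h
    exact absurd h (by decide)
  · intro h
    exact h.neg_one_pow

theorem thm_M3 (hD15 : St_D15) (hL17 : St_L17) : HP7.St_Exist := by
  classical
  intro K _ _ e he
  by_cases hsq : IsSquare e
  · refine ⟨∅, fun S _ b hb _ => ⟨1, one_ne_zero, fun v _ => by simp, fun w hw => ?_⟩⟩
    exact lnm_of_lsq w he _ (lsq_of_isSquare w hsq)
  obtain ⟨S₁, hS₁⟩ := hD15 K (Units.mk0 e he) hsq
  refine ⟨S₁, fun S hS b hb heven => ?_⟩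
  obtain ⟨-, -, h⟩ := hS₁ S hS
  let bu : Pl K → Kˣ := fun w => if h0 : b w = 0 then 1 else Units.mk0 (b w) h0
  have hbu : ∀ w ∈ S, ((bu w : Kˣ) : K) = b w := by
    intro w hw
    simp only [bu]
    rw [dif_neg (hb w hw), Units.val_mk0]
  obtain ⟨r, hr, hr2⟩ := h (fun w => sgn w (Units.mk0 e he) (bu w)) (by
    intro w _ hw
    exact (hL17 K w).2.2.1 _ _ hw) (by
    have h1 : ∏ w ∈ S, sgn w (Units.mk0 e he) (bu w) =
        ∏ w ∈ S, (if At (NormOf e (b w)) w then (1 : ℤˣ) else -1) := by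
      refine Finset.prod_congr rfl fun w hw => ?_
      unfold sgn LNm
      rw [Units.val_mk0, hbu w hw]
    rw [h1, prod_sgn_even_M3]
    have h2 : {w : Pl K | w ∈ S ∧ ¬ At (NormOf e (b w)) w} =
        ((S.filter fun w => ¬ At (NormOf e (b w)) w : Finset (Pl K)) : Set (Pl K)) := by
      ext w
      simp
    rw [h2, Set.ncard_coe_finset] at heven
    exact heven)
  refine ⟨(r : K), r.ne_zero, hr, fun w hw => ?_⟩
  have h3 : sgn w (Units.mk0 e he) (r * bu w) = 1 := by
    rw [(hL17 K w).1, hr2 w hw]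
    exact Int.units_mul_self _
  rw [sgn_eq_one_iff_M3, Units.val_mul, hbu w hw] at h3
  exact h3

end Pool.Agent.QCF
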