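import Pool.Agent.QCF.St

/-!
# QCF [N12]
-/

set_option autoImplicit false

namespace Pool.Agent.QCF

open HP7 IsDedekindDomain NumberField
open scoped WithZero

section

variable {K L : Type} [Field K] [Field L] [Algebra K L]

private theorem n12_conj {a : K} (q : QE K L a) (x y : K) :
    q.σ (algebraMap K L x + algebraMap K L y * q.ω)
      = algebraMap K L x - algebraMap K L y * q.ω := by
  rw [map_add, map_mul, q.hσ, AlgEquiv.commutes, AlgEquiv.commutes]
  ring

private theorem n12_prod {a : K} (q : QE K L a) (x y : K) :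
    (algebraMap K L x + algebraMap K L y * q.ω)
      * q.σ (algebraMap K L x + algebraMap K L y * q.ω)
      = algebraMap K L (x ^ 2 - a * y ^ 2) := by
  rw [n12_conj, map_sub, map_mul, map_pow, map_pow, ← q.sq]
  ring

private theorem n12_ex {a : K} (q : QE K L a) (z : L) :
    ∃ k : K, algebraMap K L k = z * q.σ z := by
  obtain ⟨x, y, rfl⟩ := q.repr z
  exact ⟨x ^ 2 - a * y ^ 2, (n12_prod q x y).symm⟩

/-- the norm of the quadratic extension -/
private noncomputable def n12_norm {a : K} (q : QE K L a) : L →* K where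
  toFun z := (n12_ex q z).choose
  map_one' := by
    apply (algebraMap K L).injective
    rw [(n12_ex q 1).choose_spec, map_one, map_one, mul_one]
  map_mul' z w := by
    apply (algebraMap K L).injective
    rw [(n12_ex q (z * w)).choose_spec, map_mul (algebraMap K L), (n12_ex q z).choose_spec,
      (n12_ex q w).choose_spec, map_mul]
    ring

private theorem n12_norm_spec {a : K} (q : QE K L a) (z : L) :
    algebraMap K L (n12_norm q z) = z * q.σ z := (n12_ex q z).choose_spec

private theorem n12_norm_eq {a : K} (q : QE K L a) (x y : K) :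
    n12_norm q (algebraMap K L x + algebraMap K L y * q.ω) = x ^ 2 - a * y ^ 2 := by
  apply (algebraMap K L).injective
  rw [n12_norm_spec, n12_prod]

private theorem n12_indep {a : K} (q : QE K L a) (x y : K)
    (h : algebraMap K L x + algebraMap K L y * q.ω = 0) : y = 0 := by
  by_contra hy
  apply q.nsq
  refine ⟨x / y, ?_⟩
  apply (algebraMap K L).injective
  have hy' : algebraMap K L y ≠ 0 := by
    intro h0
    exact hy ((map_eq_zero (algebraMap K L)).1 h0)
  have h1 : q.ω = -(algebraMap K L x / algebraMap K L y) := by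
    field_simp
    linear_combination h
  rw [← q.sq, h1, map_mul, map_div₀]
  ring

end

private theorem n12_val {F : Type} [Field F] [NumberField F]
    (v : HeightOneSpectrum (𝓞 F)) (s x : F) (h : s ^ 2 = x) (hx : v.valuation F x = 1) :
    v.valuation F s = 1 := by
  have h1 : (v.valuation F s) ^ 2 = 1 := by
    rw [← map_pow, h, hx]
  exact (pow_eq_one_iff_of_nonneg zero_le two_ne_zero).1 h1

theorem thm_N12 (hG3 : St_G3) (hN4 : St_N4) (hN5 : St_N5) (hN8 : St_N8) (hN9 : St_N9)
    (hN11 : St_N11) : St_N12 := by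
  intro K _ _ S a hS ha hsq
  obtain ⟨L, iL, iN, iA, ⟨q⟩⟩ := hN5 K a hsq
  obtain ⟨S', hS', hcard⟩ := hN8 K L a q S
  have h9 := hN9 K L a q S S' hS ha hS'
  have hinf : ∀ w : InfinitePlace L, Sum.inr w ∈ S' := by
    intro w
    rw [hS']
    exact hS.1 _
  have iSA := (hN4 K S hS.1).2
  have iSB := (hN4 L S' hinf).2
  have ha0 : (a : K) ≠ 0 := a.ne_zero
  -- the inclusion
  set i0 : Kˣ →* Lˣ := Units.map ((algebraMap K L : K →+* L) : K →* L) with hi0
  have hi0v : ∀ x : Kˣ, ((i0 x : Lˣ) : L) = algebraMap K L (x : K) := fun x => rfl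
  have hi : ∀ x ∈ SU S, i0 x ∈ SU S' := by
    intro x hx
    rw [h9]
    refine ⟨(x : K), 0, ?_, ?_⟩
    · rw [hi0v, map_zero, zero_mul, add_zero]
    · intro v hv
      have h1 := hx v hv
      refine ⟨h1.le, by rw [map_zero]; exact zero_le, ?_⟩
      have h2 : (x : K) ^ 2 - (a : K) * 0 ^ 2 = (x : K) ^ 2 := by ring
      rw [h2, map_pow, h1, one_pow]
  -- the norm
  set n0 : Lˣ →* Kˣ := Units.map (n12_norm q) with hn0
  have hn0v : ∀ z : Lˣ, ((n0 z : Kˣ) : K) = n12_norm q (z : L) := fun z => rfl
  have hn : ∀ z ∈ SU S', n0 z ∈ SU S := by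
    intro z hz
    obtain ⟨x, y, hxy, hv⟩ := (h9 z).1 hz
    intro v hvS
    rw [hn0v, hxy, n12_norm_eq]
    exact (hv v hvS).2.2
  set i : SU S →* SU S' := (i0.comp (SU S).subtype).codRestrict (SU S')
    (fun x => hi x x.2) with hidef
  set N : SU S' →* SU S := (n0.comp (SU S').subtype).codRestrict (SU S)
    (fun z => hn z z.2) with hNdef
  have hiv : ∀ x : SU S, (((i x : SU S') : Lˣ) : L) = algebraMap K L ((x : Kˣ) : K) :=
    fun x => rfl
  have hNv : ∀ z : SU S', (((N z : SU S) : Kˣ) : K) = n12_norm q ((z : Lˣ) : L) :=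
    fun z => rfl
  have hω0 : q.ω ≠ 0 := by
    intro h
    have h1 := q.sq
    rw [h, zero_pow two_ne_zero] at h1
    exact ha0 ((map_eq_zero (algebraMap K L)).1 h1.symm)
  have hωS : Units.mk0 q.ω hω0 ∈ SU S' := by
    rw [h9]
    refine ⟨0, 1, ?_, ?_⟩
    · rw [Units.val_mk0, map_zero, map_one, one_mul, zero_add]
    · intro v hv
      refine ⟨by rw [map_zero]; exact zero_le, by rw [map_one], ?_⟩
      have h2 : (0 : K) ^ 2 - (a : K) * 1 ^ 2 = -(a : K) := by ring
      rw [h2, Valuation.map_neg]
      exact ha v hv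
  have key := hG3 (SU S) (SU S') i N ⟨a, ha⟩
    (by
      intro x
      apply Subtype.ext
      apply Units.ext
      rw [hNv, hiv]
      apply (algebraMap K L).injective
      rw [n12_norm_spec, AlgEquiv.commutes]
      simp [sq])
    (by
      refine ⟨⟨Units.mk0 q.ω hω0, hωS⟩, ?_⟩
      apply Subtype.ext
      apply Units.ext
      rw [hiv]
      simpa using q.sq)
    (by
      rintro ⟨u, hu⟩
      apply hsq
      refine ⟨((u : Kˣ) : K), ?_⟩
      have h3 := congrArg (fun z : SU S => ((z : Kˣ) : K)) hu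
      simp only [powMonoidHom_apply, SubmonoidClass.coe_pow, Units.val_pow_eq_pow_val] at h3
      rw [← h3, sq])
    (by
      rintro x ⟨u, hu⟩
      have h3 := congrArg (fun z : SU S' => ((z : Lˣ) : L)) hu
      simp only [powMonoidHom_apply, SubmonoidClass.coe_pow, Units.val_pow_eq_pow_val] at h3
      rw [hiv] at h3
      obtain ⟨s, t, hst⟩ := q.repr ((u : Lˣ) : L)
      rw [hst] at h3
      have h4 : algebraMap K L (s ^ 2 + (a : K) * t ^ 2 - ((x : Kˣ) : K))
          + algebraMap K L (2 * (s * t)) * q.ω = 0 := by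
        simp only [map_sub, map_add, map_mul, map_pow, map_ofNat]
        rw [← q.sq]
        linear_combination h3
      have h5 := n12_indep q _ _ h4
      have h6 : s ^ 2 + (a : K) * t ^ 2 - ((x : Kˣ) : K) = 0 := by
        rw [h5, map_zero, zero_mul, add_zero] at h4
        exact (map_eq_zero (algebraMap K L)).1 h4
      have h7 : s * t = 0 := by
        rcases mul_eq_zero.1 h5 with h | h
        · exact absurd h two_ne_zero
        · exact h
      have hx0 : ((x : Kˣ) : K) ≠ 0 := Units.ne_zero _
      rcases mul_eq_zero.1 h7 with h | h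
      · right
        rw [h] at h6
        have hsq1 : ((a : K) * t) ^ 2 = ((x : Kˣ) : K) * (a : K) := by
          linear_combination (a : K) * h6
        have hne : (a : K) * t ≠ 0 := by
          intro h0
          rw [h0, zero_pow two_ne_zero] at hsq1
          exact mul_ne_zero hx0 ha0 hsq1.symm
        refine ⟨⟨Units.mk0 _ hne, ?_⟩, ?_⟩
        · intro v hv
          rw [Units.val_mk0]
          refine n12_val v _ _ hsq1 ?_
          rw [map_mul, x.2 v hv, ha v hv, one_mul]
        · apply Subtype.ext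
          apply Units.ext
          simpa using hsq1
      · left
        rw [h] at h6
        have hsq1 : s ^ 2 = ((x : Kˣ) : K) := by
          linear_combination h6
        have hne : s ≠ 0 := by
          intro h0
          rw [h0, zero_pow two_ne_zero] at hsq1
          exact hx0 hsq1.symm
        refine ⟨⟨Units.mk0 _ hne, ?_⟩, ?_⟩
        · intro v hv
          rw [Units.val_mk0]
          exact n12_val v _ _ hsq1 (x.2 v hv)
        · apply Subtype.ext
          apply Units.ext
          simpa using hsq1)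
    (by
      rintro z ⟨c, hc⟩
      have h3 := congrArg (fun z : SU S => ((z : Kˣ) : K)) hc
      simp only [powMonoidHom_apply, SubmonoidClass.coe_pow, Units.val_pow_eq_pow_val] at h3
      rw [hNv] at h3
      obtain ⟨x, y, hxy⟩ := q.repr ((z : Lˣ) : L)
      rw [hxy, n12_norm_eq] at h3
      obtain ⟨u, hu, t, ht, hz⟩ := hN11 K L a q S S' hS ha hS' (z : Lˣ) (c : Kˣ) x y z.2 c.2 hxy
        h3.symm
      refine ⟨⟨u, hu⟩, ⟨t, ht⟩, ?_⟩
      apply Subtype.ext
      apply Units.ext
      rw [hz]
      simp only [Subgroup.coe_mul, SubmonoidClass.coe_pow, Units.val_mul,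
        Units.val_pow_eq_pow_val, hiv])
    (by rw [iSA]; positivity) (by rw [iSB]; positivity)
  rw [iSA, iSB] at key
  refine ⟨N.range.map (SU S).subtype, ?_, ?_, ?_⟩
  · rintro _ ⟨b, -, rfl⟩
    exact b.2
  · rintro _ ⟨_, ⟨z, rfl⟩, rfl⟩
    obtain ⟨x, y, hxy⟩ := q.repr ((z : Lˣ) : L)
    refine ⟨x, y, ?_⟩
    change _ = (((N z : SU S) : Kˣ) : K)
    rw [hNv, hxy, n12_norm_eq]
  · have h1 : (N.range.map (SU S).subtype).relIndex (SU S) = N.range.index := by
      unfold Subgroup.relIndex Subgroup.subgroupOf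
      rw [Subgroup.comap_map_eq_self_of_injective (SU S).subtype_injective]
    rw [h1]
    have h2 : 2 ^ S'.card * 2 ^ ns S (a : K) = (2 ^ S.card) ^ 2 := by
      rw [← pow_add, hcard, ← pow_mul, mul_comm]
    have h3 : 2 ^ S'.card * (2 * N.range.index) = 2 ^ S'.card * 2 ^ ns S (a : K) := by
      rw [h2, key]
      ring
    exact Nat.eq_of_mul_eq_mul_left (by positivity) h3

end Pool.Agent.QCF
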